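import Mathlib

/-! Definitions used in the statement. -/

namespace FSDiam

/-- The friends-and-strangers graph: bijections `σ`, `τ` are adjacent when they differ by
exchanging the images of the ends of an edge `ab` of `X` with `σ a σ b` an edge of `Y`. -/
def FS {A B : Type} (X : SimpleGraph A) (Y : SimpleGraph B) : SimpleGraph (A ≃ B) where
  Adj σ τ := ∃ a b, X.Adj a b ∧ Y.Adj (σ a) (σ b) ∧ τ a = σ b ∧ τ b = σ a ∧
    ∀ c, c ≠ a → c ≠ b → τ c = σ c
  symm := ⟨fun σ τ ⟨a, b, h1, h2, h3, h4, h5⟩ =>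
    ⟨a, b, h1, by rw [h3, h4]; exact h2.symm, h4.symm, h3.symm, fun c ha hb => (h5 c ha hb).symm⟩⟩
  loopless := ⟨fun _ ⟨_, _, _, h2, h3, _⟩ => h2.ne h3⟩

/-- `Y` has a non-trivial `k`-bridge `v 0, …, v (k - 1)`: there is a connected graph `G`, whose
vertices are identified by `ι` with the vertices of `Y` other than `v 1, …, v (k - 2)`, with a cut
edge `st` whose ends do not have degree one, such that `Y` arises from `G` by replacing `st` by the
path `v 0, …, v (k - 1)`. -/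
def HasBridge {V : Type} (Y : SimpleGraph V) (k : ℕ) : Prop :=
  ∃ (v : ℕ → V) (W : Type) (G : SimpleGraph W) (ι : W → V) (s t : W),
    (∀ i < k, ∀ j < k, v i = v j → i = j) ∧ Function.Injective ι ∧
    (∀ x, x ∈ Set.range ι ↔ ¬ ∃ j, 0 < j ∧ j + 1 < k ∧ x = v j) ∧ ι s = v 0 ∧ ι t = v (k - 1) ∧
    G.Connected ∧ G.Adj s t ∧ ¬ (G.deleteEdges {s(s, t)}).Connected ∧
    (G.neighborSet s).ncard ≠ 1 ∧ (G.neighborSet t).ncard ≠ 1 ∧
    ∀ x y, Y.Adj x y ↔ (∃ a b, G.Adj a b ∧ s(a, b) ≠ s(s, t) ∧ ι a = x ∧ ι b = y) ∨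
      ∃ j, j + 1 < k ∧ s(x, y) = s(v j, v (j + 1))

/-- The hypotheses on `Y` in the question. -/
def Admissible (k : ℕ) {n : ℕ} (Y : SimpleGraph (Fin n)) : Prop :=
  Y.Connected ∧ ¬ Y.IsBipartite ∧ ¬ HasBridge Y k ∧ IsEmpty (Y ≃g SimpleGraph.cycleGraph n)

/-- The largest diameter, in `ℕ∞`, of `FS(K_{k,n-k}, Y)` over all admissible `Y` on `n` vertices. -/
noncomputable def maxDiam (k n : ℕ) : ℕ∞ :=
  ⨆ (Y : SimpleGraph (Fin n)) (_ : Admissible k Y),
    (FS (completeBipartiteGraph (Fin k) (Fin (n - k))) Y).ediam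

end FSDiam
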