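import Mathlib
import Pool.Agent.Work.MP_16c8e2_co.Defs

-- merged part: Pool.Agent.Work.MP_16c8e2_co.Basic
section
/-! Token configurations, moves, the reachable colour preserving permutations. -/

namespace FSDiam
open Equiv

variable {V T : Type*} [DecidableEq V]

/-- One move: two adjacent tokens of different colours are exchanged. -/
def Step (Y : SimpleGraph V) (col : T → Bool) (c c' : V ≃ T) : Prop :=
  ∃ x y, Y.Adj x y ∧ col (c x) ≠ col (c y) ∧ c' = (swap x y).trans c

/-- Exactly `l` moves. -/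
inductive Ex (Y : SimpleGraph V) (col : T → Bool) : ℕ → (V ≃ T) → (V ≃ T) → Prop
  | refl (c : V ≃ T) : Ex Y col 0 c c
  | step {l : ℕ} {c c1 c' : V ≃ T} : Step Y col c c1 → Ex Y col l c1 c' → Ex Y col (l + 1) c c'

/-- At most `N` moves. -/
def Rn (Y : SimpleGraph V) (col : T → Bool) (N : ℕ) (c c' : V ≃ T) : Prop :=
  ∃ l ≤ N, Ex Y col l c c'

variable {Y : SimpleGraph V} {col : T → Bool}

theorem Step.symm {c c' : V ≃ T} (h : Step Y col c c') : Step Y col c' c := by
  obtain ⟨x, y, hxy, hc, rfl⟩ := h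
  refine ⟨x, y, hxy, ?_, ?_⟩
  · simpa using hc.symm
  · ext z; simp

theorem Ex.trans {l l' : ℕ} {c c1 c2 : V ≃ T} (h : Ex Y col l c c1) (h' : Ex Y col l' c1 c2) :
    Ex Y col (l + l') c c2 := by
  induction h with
  | refl c => simpa using h'
  | step hs _ ih =>
    have := Ex.step hs (ih h')
    rwa [Nat.add_right_comm] at this

theorem Step.ex {c c' : V ≃ T} (h : Step Y col c c') : Ex Y col 1 c c' :=
  Ex.step h (Ex.refl _)

theorem Ex.symm {l : ℕ} {c c' : V ≃ T} (h : Ex Y col l c c') : Ex Y col l c' c := by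
  induction h with
  | refl c => exact Ex.refl _
  | step hs _ ih => exact ih.trans hs.symm.ex

theorem Step.relabel {c c' : V ≃ T} (h : Step Y col c c') (φ : Perm T)
    (hφ : ∀ t, col (φ t) = col t) : Step Y col (c.trans φ) (c'.trans φ) := by
  obtain ⟨x, y, hxy, hc, rfl⟩ := h
  refine ⟨x, y, hxy, ?_, rfl⟩
  simpa [hφ] using hc

theorem Ex.relabel {l : ℕ} {c c' : V ≃ T} (h : Ex Y col l c c') (φ : Perm T)
    (hφ : ∀ t, col (φ t) = col t) : Ex Y col l (c.trans φ) (c'.trans φ) := by
  induction h with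
  | refl c => exact Ex.refl _
  | step hs _ ih => exact Ex.step (hs.relabel φ hφ) ih

theorem Ex.sign [Fintype T] [DecidableEq T] {l : ℕ} {c c' : V ≃ T} (h : Ex Y col l c c') :
    Perm.sign (c.symm.trans c') = (-1) ^ l := by
  induction h with
  | refl c => simp
  | @step l c c1 c' hs _ ih =>
    obtain ⟨x, y, hxy, hc, rfl⟩ := hs
    have e : c.symm.trans c' =
        (((swap x y).trans c).symm.trans c') * swap (c x) (c y) := by
      ext t
      obtain ⟨z, rfl⟩ := c.surjective t
      simp [c.injective.swap_apply]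
    rw [e, Perm.sign_mul, ih, Perm.sign_swap (c.injective.ne hxy.ne), pow_succ]

theorem Ex.split {a b : ℕ} {c c' : V ≃ T} (h : Ex Y col (a + b) c c') :
    ∃ c1, Ex Y col a c c1 ∧ Ex Y col b c1 c' := by
  induction a generalizing c with
  | zero => exact ⟨c, Ex.refl _, by simpa using h⟩
  | succ a ih =>
    rw [Nat.add_right_comm] at h
    cases h with
    | step hs ht =>
      obtain ⟨c1, h1, h2⟩ := ih ht
      exact ⟨c1, Ex.step hs h1, h2⟩

theorem Ex.rn {l N : ℕ} {c c' : V ≃ T} (h : Ex Y col l c c') (hl : l ≤ N) : Rn Y col N c c' :=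
  ⟨l, hl, h⟩

theorem Rn.refl (N : ℕ) (c : V ≃ T) : Rn Y col N c c := ⟨0, Nat.zero_le _, Ex.refl _⟩

theorem Rn.mono {N M : ℕ} {c c' : V ≃ T} (h : Rn Y col N c c') (hNM : N ≤ M) :
    Rn Y col M c c' := by
  obtain ⟨l, hl, h⟩ := h
  exact ⟨l, hl.trans hNM, h⟩

theorem Rn.trans {N M : ℕ} {c c1 c2 : V ≃ T} (h : Rn Y col N c c1) (h' : Rn Y col M c1 c2) :
    Rn Y col (N + M) c c2 := by
  obtain ⟨l, hl, h⟩ := h
  obtain ⟨l', hl', h'⟩ := h'
  exact ⟨l + l', by omega, h.trans h'⟩

theorem Rn.symm {N : ℕ} {c c' : V ≃ T} (h : Rn Y col N c c') : Rn Y col N c' c := by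
  obtain ⟨l, hl, h⟩ := h
  exact ⟨l, hl, h.symm⟩

theorem Rn.relabel {N : ℕ} {c c' : V ≃ T} (h : Rn Y col N c c') (φ : Perm T)
    (hφ : ∀ t, col (φ t) = col t) : Rn Y col N (c.trans φ) (c'.trans φ) := by
  obtain ⟨l, hl, h⟩ := h
  exact ⟨l, hl, h.relabel φ hφ⟩

theorem Step.rn {c c' : V ≃ T} (h : Step Y col c c') : Rn Y col 1 c c' := h.ex.rn le_rfl

/-- `φ` keeps the colours and relabelling by `φ` costs at most `N` moves. -/
def H (Y : SimpleGraph V) (col : T → Bool) (N : ℕ) (c : V ≃ T) (φ : Perm T) : Prop :=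
  (∀ t, col (φ t) = col t) ∧ Rn Y col N c (c.trans φ)

theorem H.one (N : ℕ) (c : V ≃ T) : H Y col N c 1 :=
  ⟨fun _ => rfl, Rn.refl N c⟩

theorem H.mono {N M : ℕ} {c : V ≃ T} {φ : Perm T} (h : H Y col N c φ) (hNM : N ≤ M) :
    H Y col M c φ := ⟨h.1, h.2.mono hNM⟩

theorem H.mul {N M : ℕ} {c : V ≃ T} {φ ψ : Perm T} (h : H Y col N c φ) (h' : H Y col M c ψ) :
    H Y col (N + M) c (φ * ψ) := by
  refine ⟨fun t => by simp [h.1, h'.1], ?_⟩
  exact h.2.trans (h'.2.relabel φ h.1)

theorem H.inv {N : ℕ} {c : V ≃ T} {φ : Perm T} (h : H Y col N c φ) : H Y col N c φ⁻¹ := by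
  have hc : ∀ t, col (φ⁻¹ t) = col t := fun t => by
    rw [← h.1 (φ⁻¹ t)]; simp
  refine ⟨hc, ?_⟩
  have := h.2.symm.relabel φ⁻¹ hc
  have e : (c.trans φ).trans φ⁻¹ = c := by ext z; simp
  rwa [e] at this

theorem H.transport {N M : ℕ} {c c1 : V ≃ T} {φ : Perm T} (h : H Y col N c1 φ)
    (hr : Rn Y col M c c1) : H Y col (N + 2 * M) c φ := by
  refine ⟨h.1, ?_⟩
  exact ((hr.trans h.2).trans (hr.symm.relabel φ h.1)).mono (by omega)

theorem H.pow {N : ℕ} {c : V ≃ T} {φ : Perm T} (h : H Y col N c φ) (s : ℕ) :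
    H Y col (s * N) c (φ ^ s) := by
  induction s with
  | zero => simpa using H.one 0 c
  | succ s ih => rw [pow_succ, Nat.succ_mul]; exact ih.mul h

variable [Fintype T] [DecidableEq T]

/-- An even reachable permutation that acts on the colour of `B` as the exchange of `B`, `B'`. -/
def Pure (Y : SimpleGraph V) (col : T → Bool) (N : ℕ) (c : V ≃ T) (B B' : T) : Prop :=
  col B' = col B ∧ ∃ φ, H Y col N c φ ∧ Perm.sign φ = 1 ∧ ∀ t, col t = col B → φ t = swap B B' t

theorem Pure.refl (N : ℕ) (c : V ≃ T) (B : T) : Pure Y col N c B B :=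
  ⟨rfl, 1, H.one N c, by simp, fun t _ => by simp⟩

theorem Pure.mono {N M : ℕ} {c : V ≃ T} {B B' : T} (h : Pure Y col N c B B') (hNM : N ≤ M) :
    Pure Y col M c B B' := by
  obtain ⟨h0, φ, h1, h2, h3⟩ := h
  exact ⟨h0, φ, h1.mono hNM, h2, h3⟩

theorem Pure.symm {N : ℕ} {c : V ≃ T} {B B' : T} (h : Pure Y col N c B B') :
    Pure Y col N c B' B := by
  obtain ⟨h0, φ, h1, h2, h3⟩ := h
  exact ⟨h0.symm, φ, h1, h2, fun t ht => by rw [h3 t (ht.trans h0), swap_comm]⟩

theorem Pure.transport {N M : ℕ} {c c1 : V ≃ T} {B B' : T} (h : Pure Y col N c1 B B')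
    (hr : Rn Y col M c c1) : Pure Y col (N + 2 * M) c B B' := by
  obtain ⟨h0, φ, h1, h2, h3⟩ := h
  exact ⟨h0, φ, h1.transport hr, h2, h3⟩

omit [Fintype T] in
theorem col_swap {B B' : T} (h : col B' = col B) (t : T) : col (swap B B' t) = col t := by
  rw [swap_apply_def]
  split_ifs with h1 h2
  · rw [h1, h]
  · rw [h2, h]
  · rfl

theorem Pure.chain {N M : ℕ} {c : V ≃ T} {B0 B1 B2 : T} (h : Pure Y col N c B0 B1)
    (h' : Pure Y col M c B1 B2) : Pure Y col (N + 2 * M) c B0 B2 := by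
  by_cases e1 : B0 = B1
  · subst e1; exact h'.mono (by omega)
  by_cases e2 : B0 = B2
  · subst e2; exact Pure.refl _ _ _
  obtain ⟨h0, φ, h1, h2, h3⟩ := h
  obtain ⟨g0, ψ, g1, g2, g3⟩ := h'
  refine ⟨g0.trans h0, ψ * φ * ψ⁻¹, ((g1.mul h1).mul g1.inv).mono (by omega), by simp [h2], ?_⟩
  intro t ht
  have ht1 : col t = col B1 := ht.trans h0.symm
  have a1 : ψ⁻¹ t = swap B1 B2 t := by
    rw [Perm.inv_eq_iff_eq, g3 _ ((col_swap g0 t).trans ht1)]; simp
  have a2 : col (swap B1 B2 t) = col B0 := (col_swap g0 t).trans ht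
  rw [Perm.mul_apply, Perm.mul_apply, a1, h3 _ a2,
    g3 _ ((col_swap h0 _).trans (a2.trans h0.symm))]
  have := swap_apply_apply (swap B1 B2) B0 B1
  rw [swap_apply_of_ne_of_ne e1 e2, swap_apply_left] at this
  rw [this]; simp

theorem Pure.chain' {N M : ℕ} {c : V ≃ T} {B0 B1 B2 : T} (h : Pure Y col N c B0 B1)
    (h' : Pure Y col M c B1 B2) : Pure Y col (2 * N + M) c B0 B2 :=
  (h'.symm.chain h.symm).symm.mono (by omega)

end FSDiam
end

-- merged part: Pool.Agent.Work.MP_16c8e2_co.Moves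
section
/-! Rearranging colours inside a connected set, shifting along a path, the claw. -/

namespace FSDiam
open Equiv

variable {V T : Type*} [DecidableEq V]

/-- The edges of `Y` with both ends in `U`. -/
def YU (Y : SimpleGraph V) (U : Set V) : SimpleGraph V where
  Adj p q := Y.Adj p q ∧ p ∈ U ∧ q ∈ U
  symm := ⟨fun _ _ h => ⟨h.1.symm, h.2.2, h.2.1⟩⟩
  loopless := ⟨fun _ h => h.1.ne rfl⟩

/-- `U` is connected inside `Y`. -/
def Con (Y : SimpleGraph V) (U : Set V) : Prop := ∀ x ∈ U, ∀ y ∈ U, (YU Y U).Reachable x y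

variable {Y : SimpleGraph V} {col : T → Bool}

omit [DecidableEq V] in
theorem YU_mono {U U' : Set V} (h : U ⊆ U') : YU Y U ≤ YU Y U' :=
  fun _ _ hh => ⟨hh.1, h hh.2.1, h hh.2.2⟩

omit [DecidableEq V] in
theorem Con.insert {U : Set V} (h : Con Y U) {u w : V} (hu : u ∈ U) (hw : Y.Adj w u) :
    Con Y (insert w U) := by
  have key : ∀ x ∈ Insert.insert w U, (YU Y (Insert.insert w U)).Reachable x u := by
    intro x hx
    rcases hx with rfl | hx
    · exact SimpleGraph.Adj.reachable ⟨hw, Or.inl rfl, Or.inr hu⟩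
    · exact (h x hx u hu).mono (YU_mono (Set.subset_insert _ _))
  intro x hx y hy
  exact (key x hx).trans (key y hy).symm

omit [DecidableEq V] in
theorem Con.univ (h : Y.Preconnected) : Con Y Set.univ := by
  intro x _ y _
  exact (h x y).mono (fun _ _ hh => ⟨hh, trivial, trivial⟩)

theorem step_swap {c : V ≃ T} {x y : V} (h : Y.Adj x y) (hc : col (c x) ≠ col (c y)) :
    Step Y col c ((swap x y).trans c) := ⟨x, y, h, hc, rfl⟩

theorem pull {κ : Bool} {U : Set V} {x y : V} (p : (YU Y U).Walk x y) :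
    ∀ c : V ≃ T, col (c x) = κ → ∃ c', Rn Y col p.length c c' ∧ col (c' y) = κ ∧
      (∀ z, z ≠ x → col (c z) = κ → col (c' z) = κ) ∧ ∀ z, z ∉ U → c' z = c z := by
  induction p with
  | nil => exact fun c hc => ⟨c, Rn.refl _ _, hc, fun _ _ h => h, fun _ _ => rfl⟩
  | @cons x x1 y h p ih =>
    intro c hc
    by_cases hyx : y = x
    · subst hyx
      exact ⟨c, Rn.refl _ _, hc, fun _ _ h => h, fun _ _ => rfl⟩
    have hne : x ≠ x1 := h.1.ne
    rw [SimpleGraph.Walk.length_cons]
    by_cases h1 : col (c x1) = κ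
    · obtain ⟨c', r1, r2, r3, r4⟩ := ih c h1
      by_cases h2 : col (c' x1) = κ
      · refine ⟨c', r1.mono (by omega), r2, fun z _ hz => ?_, r4⟩
        by_cases e : z = x1
        · rw [e]; exact h2
        · exact r3 z e hz
      · have h3 : col (c' x) = κ := r3 x hne hc
        refine ⟨(swap x x1).trans c', r1.trans (step_swap h.1 (by rw [h3]; exact Ne.symm h2)).rn,
          ?_, fun z hz hz' => ?_, fun z hz => ?_⟩
        · have : y ≠ x1 := by rintro rfl; exact h2 r2
          simpa [swap_apply_of_ne_of_ne hyx this] using r2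
        · by_cases e : z = x1
          · rw [e]; simpa using h3
          · simpa [swap_apply_of_ne_of_ne hz e] using r3 z e hz'
        · have a1 : z ≠ x := by rintro rfl; exact hz h.2.1
          have a2 : z ≠ x1 := by rintro rfl; exact hz h.2.2
          simpa [swap_apply_of_ne_of_ne a1 a2] using r4 z hz
    · obtain ⟨c', r1, r2, r3, r4⟩ := ih ((swap x x1).trans c) (by simpa using hc)
      refine ⟨c', ((step_swap h.1 (by rw [hc]; exact Ne.symm h1)).rn.trans r1).mono (by omega),
        r2, fun z hz hz' => ?_, fun z hz => ?_⟩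
      · have e : z ≠ x1 := by rintro rfl; exact h1 hz'
        exact r3 z e (by simpa [swap_apply_of_ne_of_ne hz e] using hz')
      · have a1 : z ≠ x := by rintro rfl; exact hz h.2.1
        have a2 : z ≠ x1 := by rintro rfl; exact hz h.2.2
        rw [r4 z hz]; simp [swap_apply_of_ne_of_ne a1 a2]

theorem arrange [Fintype V] {κ : Bool} {U : Set V} (hU : Con Y U) (c : V ≃ T) (R : Finset V)
    (hRU : ∀ x ∈ R, x ∈ U) (hR : ∀ x ∈ R, col (c x) = κ) (A : Finset V) :
    (∀ x ∈ A, x ∈ U) → A.card ≤ R.card →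
    ∃ (c' : V ≃ T) (R' : Finset V), Rn Y col (A.card * Fintype.card V) c c' ∧ A ⊆ R' ∧
      (∀ x ∈ R', x ∈ U) ∧ R'.card = R.card ∧ (∀ x ∈ R', col (c' x) = κ) ∧
      ∀ z, z ∉ U → c' z = c z := by
  induction A using Finset.induction_on with
  | empty => exact fun _ _ => ⟨c, R, Rn.refl _ _, by simp, hRU, rfl, hR, fun _ _ => rfl⟩
  | insert y A0 hy ih =>
    intro hAU hA
    rw [Finset.card_insert_of_notMem hy] at hA ⊢
    obtain ⟨c1, R1, r1, r2, r3, r4, r5, r6⟩ :=
      ih (fun x hx => hAU x (Finset.mem_insert_of_mem hx)) (by omega)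
    by_cases hy1 : y ∈ R1
    · exact ⟨c1, R1, r1.mono (Nat.mul_le_mul_right _ (by omega)),
        Finset.insert_subset hy1 r2, r3, r4, r5, r6⟩
    obtain ⟨x, hx1, hx0⟩ : ∃ x ∈ R1, x ∉ A0 := by
      by_contra hcon
      push Not at hcon
      have := Finset.card_le_card (show R1 ⊆ A0 from hcon)
      omega
    obtain ⟨p, hp, -⟩ := (hU x (r3 x hx1) y (hAU y (Finset.mem_insert_self _ _))).exists_path_of_dist
    obtain ⟨c2, s1, s2, s3, s4⟩ := pull (col := col) p c1 (r5 x hx1)
    refine ⟨c2, insert y (R1.erase x), (r1.trans s1).mono ?_, ?_, ?_, ?_, ?_, ?_⟩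
    · have := hp.length_lt
      rw [Nat.succ_mul]; omega
    · intro z hz
      rcases Finset.mem_insert.1 hz with rfl | hz
      · exact Finset.mem_insert_self _ _
      · exact Finset.mem_insert_of_mem (Finset.mem_erase.2 ⟨by rintro rfl; exact hx0 hz, r2 hz⟩)
    · intro z hz
      rcases Finset.mem_insert.1 hz with rfl | hz
      · exact hAU _ (Finset.mem_insert_self _ _)
      · exact r3 z (Finset.mem_of_mem_erase hz)
    · rw [Finset.card_insert_of_notMem (fun h => hy1 (Finset.mem_of_mem_erase h)),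
        Finset.card_erase_of_mem hx1]
      have := Finset.card_pos.2 ⟨x, hx1⟩
      omega
    · intro z hz
      rcases Finset.mem_insert.1 hz with rfl | hz
      · exact s2
      · exact s3 z (Finset.ne_of_mem_erase hz) (r5 z (Finset.mem_of_mem_erase hz))
    · intro z hz
      rw [s4 z hz, r6 z hz]

theorem shift (δ : ℕ → V) (c : V ≃ T) (L : ℕ) :
    (∀ j < L, Y.Adj (δ j) (δ (j + 1))) → (∀ i ≤ L, ∀ j ≤ L, δ i = δ j → i = j) →
    (∀ j, 1 ≤ j → j ≤ L → col (c (δ j)) ≠ col (c (δ 0))) →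
    ∃ c', Ex Y col L c c' ∧ c' (δ L) = c (δ 0) ∧ (∀ j < L, c' (δ j) = c (δ (j + 1))) ∧
      ∀ z, (∀ j ≤ L, z ≠ δ j) → c' z = c z := by
  induction L with
  | zero => exact fun _ _ _ => ⟨c, Ex.refl _, rfl, fun _ h => absurd h (by omega), fun _ _ => rfl⟩
  | succ L ih =>
    intro ha hi hc
    obtain ⟨c1, r1, r2, r3, r4⟩ := ih (fun j hj => ha j (by omega))
      (fun i hi' j hj => hi i (by omega) j (by omega)) (fun j h1 h2 => hc j h1 (by omega))
    have e1 : c1 (δ (L + 1)) = c (δ (L + 1)) :=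
      r4 _ (fun j hj h => by have := hi _ le_rfl j (by omega) h; omega)
    refine ⟨(swap (δ L) (δ (L + 1))).trans c1, r1.trans (step_swap (ha L (by omega)) ?_).ex,
      by simpa using r2, fun j hj => ?_, fun z hz => ?_⟩
    · rw [r2, e1]; exact (hc (L + 1) (by omega) le_rfl).symm
    · by_cases e : j = L
      · subst e; simpa using e1
      · have a1 : δ j ≠ δ L := fun h => e (hi j (by omega) L (by omega) h)
        have a2 : δ j ≠ δ (L + 1) := fun h => by have := hi j (by omega) _ le_rfl h; omega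
        simpa [swap_apply_of_ne_of_ne a1 a2] using r3 j (by omega)
    · have a1 : z ≠ δ L := hz L (by omega)
      have a2 : z ≠ δ (L + 1) := hz _ le_rfl
      simpa [swap_apply_of_ne_of_ne a1 a2] using r4 z (fun j hj => hz j (by omega))

theorem claw [Fintype T] [DecidableEq T] {κ : Bool} {c : V ≃ T} {v p q s : V} (hp : Y.Adj v p)
    (hq : Y.Adj v q) (hs : Y.Adj v s) (hpq : p ≠ q) (cv : col (c v) = κ) (cs : col (c s) = κ)
    (cp : col (c p) ≠ κ) (cq : col (c q) ≠ κ) : Pure Y col 6 c (c p) (c q) := by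
  have h1 : v ≠ p := hp.ne
  have h2 : v ≠ q := hq.ne
  have h3 : v ≠ s := hs.ne
  have h4 : p ≠ s := by rintro rfl; exact cp cs
  have h5 : q ≠ s := by rintro rfl; exact cq cs
  have h1' := h1.symm
  have h2' := h2.symm
  have h3' := h3.symm
  have h4' := h4.symm
  have h5' := h5.symm
  have hpq' := hpq.symm
  have cp' := cp.symm
  have cq' := cq.symm
  have hpqc : col (c q) = col (c p) := by
    revert cp cq; cases col (c p) <;> cases col (c q) <;> cases κ <;> simp
  have hex : Ex Y col 6 c ((swap v q).trans ((swap v s).trans ((swap v p).trans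
      ((swap v q).trans ((swap v s).trans ((swap v p).trans c)))))) := by
    refine Ex.step (step_swap hp ?_) (Ex.step (step_swap hs ?_) (Ex.step (step_swap hq ?_)
      (Ex.step (step_swap hp ?_) (Ex.step (step_swap hs ?_) (Ex.step (step_swap hq ?_)
      (Ex.refl _))))))
    all_goals simp [swap_apply_def, *]
  have e : (swap v q).trans ((swap v s).trans ((swap v p).trans
      ((swap v q).trans ((swap v s).trans ((swap v p).trans c))))) =
      c.trans (swap (c p) (c q) * swap (c v) (c s)) := by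
    ext z
    simp only [trans_apply, Perm.mul_apply, c.injective.swap_apply]
    congr 1
    by_cases a1 : z = v
    · subst a1; simp [swap_apply_def, *]
    by_cases a2 : z = p
    · subst a2; simp [swap_apply_def, *]
    by_cases a3 : z = q
    · subst a3; simp [swap_apply_def, *]
    by_cases a4 : z = s
    · subst a4; simp [swap_apply_def, *]
    simp [swap_apply_def, *]
  rw [e] at hex
  refine ⟨hpqc, swap (c p) (c q) * swap (c v) (c s), ⟨fun t => ?_, hex.rn le_rfl⟩, ?_, ?_⟩
  · rw [Perm.mul_apply, col_swap hpqc, col_swap (cs.trans cv.symm)]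
  · rw [Perm.sign_mul, Perm.sign_swap (c.injective.ne hpq), Perm.sign_swap (c.injective.ne h3)]
    simp
  · intro t ht
    have a1 : t ≠ c v := by rintro rfl; exact cp (ht.symm.trans cv)
    have a2 : t ≠ c s := by rintro rfl; exact cp (ht.symm.trans cs)
    rw [Perm.mul_apply, swap_apply_of_ne_of_ne a1 a2]

end FSDiam
end

-- merged part: Pool.Agent.Work.MP_16c8e2_co.Train
section
/-! The train lemma. -/

namespace FSDiam
open Equiv

variable {V T : Type*} [DecidableEq V] {Y : SimpleGraph V} {col : T → Bool}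

omit [DecidableEq V] in
theorem len_le [Fintype V] (γ : ℕ → V) (N : ℕ) (h : ∀ j ≤ N, ∀ l ≤ N, γ j = γ l → j = l) :
    N + 1 ≤ Fintype.card V := by
  have := Finset.card_le_card_of_injOn (s := Finset.range (N + 1)) (t := Finset.univ) γ
    (fun _ _ => by simp) (fun j hj l hl e => h j (by simp at hj; omega) l (by simp at hl; omega) e)
  simpa using this

omit [DecidableEq V] in
theorem con_path (γ : ℕ → V) {W : Set V} (hW : Con Y W) (h0 : γ 0 ∈ W) (i : ℕ) :
    (∀ j, j + 1 < i → Y.Adj (γ j) (γ (j + 1))) → Con Y {x | x ∈ W ∨ ∃ j < i, x = γ j} := by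
  induction i with
  | zero => intro _; simpa using hW
  | succ i ih =>
    intro ha
    have e : {x | x ∈ W ∨ ∃ j < i + 1, x = γ j} = insert (γ i) {x | x ∈ W ∨ ∃ j < i, x = γ j} := by
      ext x
      simp only [Set.mem_ofPred_eq, Set.mem_insert_iff]
      constructor
      · rintro (h | ⟨j, hj, rfl⟩)
        · exact Or.inr (Or.inl h)
        · by_cases e : j = i
          · exact Or.inl (by rw [e])
          · exact Or.inr (Or.inr ⟨j, by omega, rfl⟩)
      · rintro (rfl | h | ⟨j, hj, rfl⟩)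
        · exact Or.inr ⟨i, by omega, rfl⟩
        · exact Or.inl h
        · exact Or.inr ⟨j, by omega, rfl⟩
    rw [e]
    have ih' := ih (fun j hj => ha j (by omega))
    rcases i with _ | i
    · rw [Set.insert_eq_of_mem (s := {x | x ∈ W ∨ ∃ j < 0, x = γ j}) (Or.inl h0)]; exact ih'
    · exact ih'.insert (u := γ i) (Or.inr ⟨i, by omega, rfl⟩) (ha i (by omega)).symm

theorem train [Fintype V] [Fintype T] [DecidableEq T] {κ : Bool} (γ : ℕ → V) {a b : V}
    (ha : Y.Adj (γ 0) a) (hb : Y.Adj (γ 0) b) (hab : a ≠ b) (N : ℕ) :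
    ∀ (i : ℕ) (c : V ≃ T) (W : Set V) (R : Finset V), 1 ≤ i → i ≤ N →
    (∀ j < N, Y.Adj (γ j) (γ (j + 1))) → (∀ j ≤ N, ∀ l ≤ N, γ j = γ l → j = l) →
    Con Y W → γ 0 ∈ W → a ∈ W → b ∈ W → (∀ j, 1 ≤ j → j ≤ N → γ j ∉ W) →
    (∀ j, i ≤ j → j ≤ N → col (c (γ j)) ≠ κ) →
    (∀ x ∈ R, x ∈ W ∨ ∃ j < i, x = γ j) → (∀ x ∈ R, col (c x) = κ) →
    (N + 1 ≤ R.card ∨ (3 ≤ R.card ∧ ∃ u ∈ W, Y.Adj (γ N) u)) →
    Pure Y col (14 * Fintype.card V * N) c (c (γ i)) (c (γ N)) := by
  induction N with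
  | zero => intro i _ _ _ h1 h2; omega
  | succ N ih =>
    intro i c W R h1 h2 hadj hinj hW h0 haW hbW hnW hblue hRU hR hcard
    by_cases hiN : i = N + 1
    · rw [hiN]; exact Pure.refl _ _ _
    have hn := len_le γ (N + 1) hinj
    have key : ∀ (i' : ℕ) (c2 : V ≃ T) (R' : Finset V), 1 ≤ i' → i' ≤ N →
        (∀ j, i' ≤ j → j ≤ N → col (c2 (γ j)) ≠ κ) → (∀ x ∈ R', x ∈ W ∨ ∃ j < i', x = γ j) →
        (∀ x ∈ R', col (c2 x) = κ) → R'.card + 1 = R.card → col (c2 (γ (N + 1))) = κ →
        Pure Y col (14 * Fintype.card V * N) c2 (c2 (γ i')) (c2 (γ N)) := by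
      intro i' c2 R' g1 g2 g3 g4 g5 g6 g7
      rcases hcard with hc | ⟨hc, u, hu, hu'⟩
      · exact ih i' c2 W R' g1 g2 (fun j hj => hadj j (by omega))
          (fun j hj l hl => hinj j (by omega) l (by omega)) hW h0 haW hbW
          (fun j hj hj' => hnW j hj (by omega)) g3 g4 g5 (Or.inl (by omega))
      · have hnot : γ (N + 1) ∉ R' := by
          intro hh
          rcases g4 _ hh with h | ⟨j, hj, h⟩
          · exact hnW _ (by omega) le_rfl h
          · have := hinj _ le_rfl j (by omega) h; omega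
        refine ih i' c2 (insert (γ (N + 1)) W) (insert (γ (N + 1)) R') g1 g2
          (fun j hj => hadj j (by omega))
          (fun j hj l hl => hinj j (by omega) l (by omega)) (hW.insert hu hu') (Or.inr h0)
          (Or.inr haW) (Or.inr hbW) ?_ g3 ?_ ?_ (Or.inr ⟨?_, γ (N + 1), Or.inl rfl, hadj N (by omega)⟩)
        · rintro j hj hj' (h | h)
          · have := hinj j (by omega) _ le_rfl h; omega
          · exact hnW j hj (by omega) h
        · intro x hx
          rcases Finset.mem_insert.1 hx with rfl | hx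
          · exact Or.inl (Or.inl rfl)
          · rcases g4 x hx with h | h
            · exact Or.inl (Or.inr h)
            · exact Or.inr h
        · intro x hx
          rcases Finset.mem_insert.1 hx with rfl | hx
          · exact g7
          · exact g5 x hx
        · rw [Finset.card_insert_of_notMem hnot]; omega
    have hU := con_path (Y := Y) γ hW h0 i (fun j hj => hadj j (by omega))
    have hoff : ∀ j, i ≤ j → j ≤ N + 1 → γ j ∉ {x | x ∈ W ∨ ∃ j < i, x = γ j} := by
      rintro j hj hj' (h | ⟨l, hl, h⟩)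
      · exact hnW j (by omega) hj' h
      · have := hinj j hj' l (by omega) h; omega
    have h3 : 3 ≤ R.card := by rcases hcard with hc | hc <;> omega
    by_cases hi1 : i = 1
    · subst hi1
      have hA : ({γ 0, a, b} : Finset V).card ≤ 3 := Finset.card_le_three
      obtain ⟨c1, R1, r1, r2, r3, r4, r5, r6⟩ := arrange hU c R hRU hR {γ 0, a, b}
        (by
          intro x hx
          simp only [Finset.mem_insert, Finset.mem_singleton] at hx
          rcases hx with rfl | rfl | rfl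
          · exact Or.inl h0
          · exact Or.inl haW
          · exact Or.inl hbW) (by omega)
      have q0 : col (c1 (γ 0)) = κ := r5 _ (r2 (by simp))
      have qa : col (c1 a) = κ := r5 _ (r2 (by simp))
      have qb : col (c1 b) = κ := r5 _ (r2 (by simp))
      have q1 : ∀ j, 1 ≤ j → j ≤ N + 1 → c1 (γ j) = c (γ j) := fun j hj hj' => r6 _ (hoff j hj hj')
      have n0 : ∀ j, 1 ≤ j → j ≤ N + 1 → γ j ≠ γ 0 := fun j hj hj' h => hnW j hj hj' (h ▸ h0)
      have na : ∀ j, 1 ≤ j → j ≤ N + 1 → γ j ≠ a := fun j hj hj' h => hnW j hj hj' (h ▸ haW)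
      have nb : ∀ j, 1 ≤ j → j ≤ N + 1 → γ j ≠ b := fun j hj hj' h => hnW j hj hj' (h ▸ hbW)
      have n1 : ∀ j, 2 ≤ j → j ≤ N + 1 → γ j ≠ γ 1 := fun j hj hj' h => by
        have := hinj j hj' 1 (by omega) h; omega
      set c2 := (swap (γ 0) a).trans ((swap (γ 0) (γ 1)).trans c1) with hc2
      have v1 : c2 a = c (γ 1) := by simp [hc2, q1 1 le_rfl (by omega)]
      have v2 : c2 (γ 0) = c1 a := by
        simp [hc2, swap_apply_of_ne_of_ne ha.ne.symm (na 1 le_rfl (by omega)).symm]
      have v3 : c2 (γ 1) = c1 (γ 0) := by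
        simp [hc2, swap_apply_of_ne_of_ne (n0 1 le_rfl (by omega)) (na 1 le_rfl (by omega))]
      have v4 : ∀ z, z ≠ γ 0 → z ≠ a → z ≠ γ 1 → c2 z = c1 z := fun z z1 z2 z3 => by
        simp [hc2, swap_apply_of_ne_of_ne z1 z2, swap_apply_of_ne_of_ne z1 z3]
      have v5 : ∀ j, 2 ≤ j → j ≤ N + 1 → c2 (γ j) = c (γ j) := fun j hj hj' => by
        rw [v4 _ (n0 j (by omega) hj') (na j (by omega) hj') (n1 j hj hj'), q1 j (by omega) hj']
      have s12 : Ex Y col 2 c1 c2 := by
        refine Ex.step (step_swap (hadj 0 (by omega)) ?_) (Ex.step (step_swap ha ?_) (Ex.refl _))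
        · rw [q0, q1 1 le_rfl (by omega)]; exact (hblue 1 le_rfl (by omega)).symm
        · simp only [trans_apply, swap_apply_left, zero_add,
            swap_apply_of_ne_of_ne ha.ne.symm (na 1 le_rfl (by omega)).symm]
          rw [qa, q1 1 le_rfl (by omega)]; exact hblue 1 le_rfl (by omega)
      obtain ⟨c3, t1, t2, t3, t4⟩ := shift (Y := Y) (col := col) (fun j => γ (j + 1)) c2 N
        (fun j hj => hadj (j + 1) (by omega))
        (fun j hj l hl h => by have := hinj _ (by omega) _ (by omega) h; omega)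
        (fun j hj hj' => by
          simp only [zero_add]
          rw [v3, q0, v5 _ (by omega) (by omega)]; exact hblue _ (by omega) (by omega))
      simp only [zero_add] at t2 t3 t4
      have w1 : ∀ z ∈ W, c3 z = c2 z := fun z hz =>
        t4 z (fun j hj h => hnW (j + 1) (by omega) (by omega) (h ▸ hz))
      have w2 : ∀ j, 1 ≤ j → j ≤ N → c3 (γ j) = c (γ (j + 1)) := fun j hj hj' => by
        obtain ⟨j, rfl⟩ : ∃ l, j = l + 1 := ⟨j - 1, by omega⟩
        rw [t3 j (by omega), v5 _ (by omega) (by omega)]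
      have hred : ∀ x ∈ R1.erase a, col (c3 x) = κ := by
        intro x hx
        have hx1 := Finset.mem_of_mem_erase hx
        have hxW : x ∈ W := by
          rcases r3 x hx1 with h | ⟨j, hj, h⟩
          · exact h
          · rw [h, show j = 0 by omega]; exact h0
        rw [w1 x hxW]
        by_cases e : x = γ 0
        · rw [e, v2, qa]
        · rw [v4 x e (Finset.ne_of_mem_erase hx) (fun h => hnW 1 le_rfl (by omega) (h ▸ hxW))]
          exact r5 x hx1
      have p1 := claw (Y := Y) (col := col) (κ := κ) (c := c3) ha (hadj 0 (by omega)) hb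
        (na 1 le_rfl (by omega)).symm (hred _ (Finset.mem_erase.2 ⟨ha.ne, r2 (by simp)⟩))
        (hred _ (Finset.mem_erase.2 ⟨hab.symm, r2 (by simp)⟩))
        (by rw [w1 a haW, v1]; exact hblue 1 le_rfl (by omega))
        (by rw [zero_add, w2 1 le_rfl (by omega)]; exact hblue _ (by omega) (by omega))
      have p2 := key 1 c3 (R1.erase a) le_rfl (by omega)
        (fun j hj hj' => by rw [w2 j hj hj']; exact hblue _ (by omega) (by omega))
        (fun x hx => r3 x (Finset.mem_of_mem_erase hx)) hred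
        (by rw [Finset.card_erase_of_mem (r2 (by simp))]; omega) (by rw [t2, v3, q0])
      have p3 := (p1.chain' p2).transport ((r1.trans (s12.rn le_rfl)).trans (t1.rn le_rfl))
      rw [w1 a haW, v1, w2 N (by omega) le_rfl] at p3
      refine p3.mono ?_
      have : ({γ 0, a, b} : Finset V).card * Fintype.card V ≤ 3 * Fintype.card V :=
        Nat.mul_le_mul_right _ hA
      rw [Nat.mul_succ (14 * Fintype.card V) N]
      omega
    · obtain ⟨i, rfl⟩ : ∃ l, i = l + 1 := ⟨i - 1, by omega⟩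
      obtain ⟨c1, R1, r1, r2, r3, r4, r5, r6⟩ := arrange hU c R hRU hR {γ i}
        (by
          intro x hx
          rw [Finset.mem_singleton.1 hx]
          exact Or.inr ⟨i, by omega, rfl⟩) (by rw [Finset.card_singleton]; omega)
      have q0 : col (c1 (γ i)) = κ := r5 _ (r2 (by simp))
      have q1 : ∀ j, i + 1 ≤ j → j ≤ N + 1 → c1 (γ j) = c (γ j) :=
        fun j hj hj' => r6 _ (hoff j hj hj')
      obtain ⟨c3, t1, t2, t3, t4⟩ := shift (Y := Y) (col := col) (fun j => γ (i + j)) c1 (N + 1 - i)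
        (fun j hj => hadj (i + j) (by omega))
        (fun j hj l hl h => by have := hinj _ (by omega) _ (by omega) h; omega)
        (fun j hj hj' => by
          simp only [add_zero]
          rw [q0, q1 _ (by omega) (by omega)]; exact hblue _ (by omega) (by omega))
      simp only [add_zero] at t2 t3 t4
      rw [show i + (N + 1 - i) = N + 1 by omega] at t2
      have w2 : ∀ j, i ≤ j → j ≤ N → c3 (γ j) = c (γ (j + 1)) := fun j hj hj' => by
        obtain ⟨j, rfl⟩ : ∃ l, j = i + l := ⟨j - i, by omega⟩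
        rw [t3 j (by omega), q1 _ (by omega) (by omega), add_assoc]
      have hmem : ∀ x ∈ R1.erase (γ i), x ∈ W ∨ ∃ j < i, x = γ j := by
        intro x hx
        rcases r3 x (Finset.mem_of_mem_erase hx) with h | ⟨j, hj, h⟩
        · exact Or.inl h
        · refine Or.inr ⟨j, ?_, h⟩
          by_contra hcon
          exact Finset.ne_of_mem_erase hx (by rw [h, show j = i by omega])
      have p2 := key i c3 (R1.erase (γ i)) (by omega) (by omega)
        (fun j hj hj' => by rw [w2 j hj hj']; exact hblue _ (by omega) (by omega)) hmem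
        (fun x hx => by
          rw [t4 x]
          · exact r5 x (Finset.mem_of_mem_erase hx)
          · intro j hj h
            rcases hmem x hx with h' | ⟨l, hl, h'⟩
            · exact hnW (i + j) (by omega) (by omega) (h ▸ h')
            · have := hinj _ (by omega) _ (by omega) (h.symm.trans h'); omega)
        (by rw [Finset.card_erase_of_mem (r2 (by simp))]; omega) (by rw [t2, q0])
      have p3 := p2.transport (r1.trans (t1.rn le_rfl))
      rw [w2 i le_rfl (by omega), w2 N (by omega) le_rfl] at p3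
      refine p3.mono ?_
      rw [Nat.mul_succ (14 * Fintype.card V) N, Finset.card_singleton]
      omega

end FSDiam
end

-- merged part: Pool.Agent.Work.MP_16c8e2_co.Vert
section
/-! A train standing in a corridor below a junction. -/

namespace FSDiam
open Equiv

variable {V T : Type*} {Y : SimpleGraph V} {col : T → Bool}

/-- A path on `k` vertices with inner vertices of degree two, whose first edge is the only edge
leaving a set `Z`, and whose two ends have a further neighbour. -/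
def IBr (Y : SimpleGraph V) (k : ℕ) : Prop :=
  ∃ (γ : ℕ → V) (Z : Set V) (z0 z1 : V),
    (∀ i < k, ∀ j < k, γ i = γ j → i = j) ∧ (∀ j, j + 1 < k → Y.Adj (γ j) (γ (j + 1))) ∧
    (∀ j, j + 2 < k → ∀ z, Y.Adj (γ (j + 1)) z → z = γ j ∨ z = γ (j + 2)) ∧
    γ 0 ∈ Z ∧ (∀ j, 1 ≤ j → j < k → γ j ∉ Z) ∧
    (∀ x ∈ Z, ∀ y, y ∉ Z → Y.Adj x y → x = γ 0 ∧ y = γ 1) ∧
    Y.Adj (γ 0) z0 ∧ z0 ≠ γ 1 ∧ Y.Adj (γ (k - 1)) z1 ∧ z1 ≠ γ (k - 2)

theorem exists_comp (S : Set V) {w : V} (hw : w ∈ S) :
    ∃ W : Set V, Con Y W ∧ w ∈ W ∧ W ⊆ S ∧ ∀ x ∈ W, ∀ y ∈ S, Y.Adj x y → y ∈ W := by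
  have key : ∀ x, Relation.ReflTransGen (YU Y S).Adj w x →
      x ∈ S ∧ (YU Y {x | Relation.ReflTransGen (YU Y S).Adj w x}).Reachable w x := by
    intro x hx
    induction hx with
    | refl => exact ⟨hw, SimpleGraph.Reachable.refl _⟩
    | tail h1 h2 ih =>
      exact ⟨h2.2.2, ih.2.trans (SimpleGraph.Adj.reachable ⟨h2.1, h1, h1.tail h2⟩)⟩
  refine ⟨{x | Relation.ReflTransGen (YU Y S).Adj w x}, fun x hx y hy => ?_,
    Relation.ReflTransGen.refl, fun x hx => (key x hx).1, fun x hx y hy h => ?_⟩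
  · exact (key x hx).2.symm.trans (key y hy).2
  · exact Relation.ReflTransGen.tail hx ⟨h, (key x hx).1, hy⟩

theorem vert [DecidableEq V] [Fintype V] [Fintype T] [DecidableEq T] {κ : Bool} {k : ℕ}
    (hk : 3 ≤ k) (hbr : ¬ IBr Y k) (γ : ℕ → V) {a b : V}
    (ha : Y.Adj (γ 0) a) (hb : Y.Adj (γ 0) b) (hab : a ≠ b) (M i : ℕ) (c : V ≃ T) (W : Set V)
    (R : Finset V) (h1 : 1 ≤ i) (h2 : i ≤ M + 1)
    (hadj : ∀ j < M + 2, Y.Adj (γ j) (γ (j + 1)))
    (hinj : ∀ j ≤ M + 2, ∀ l ≤ M + 2, γ j = γ l → j = l)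
    (hW : Con Y W) (h0 : γ 0 ∈ W) (haW : a ∈ W) (hbW : b ∈ W)
    (hnW : ∀ j, 1 ≤ j → j ≤ M + 2 → γ j ∉ W)
    (hcl : ∀ x ∈ W, ∀ y, Y.Adj x y → y ∈ W ∨ ∃ j, 1 ≤ j ∧ j ≤ M + 2 ∧ y = γ j)
    (hdeg : ∀ j < M, ∀ z, Y.Adj (γ (j + 1)) z → z = γ j ∨ z = γ (j + 2))
    (hlast : i = M + 1 ∨ ∀ z, Y.Adj (γ (M + 1)) z → z = γ M ∨ z = γ (M + 2))
    (hblue : ∀ j, i ≤ j → j ≤ M + 2 → col (c (γ j)) ≠ κ)
    (hRU : ∀ x ∈ R, x ∈ W ∨ ∃ j < i, x = γ j) (hR : ∀ x ∈ R, col (c x) = κ) (hcard : k ≤ R.card) :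
    Pure Y col (14 * Fintype.card V * (M + 2)) c (c (γ i)) (c (γ (M + 2))) := by
  have tr := train (col := col) (κ := κ) γ ha hb hab (M + 2) i c W R h1 (by omega) hadj hinj hW h0
    haW hbW hnW hblue hRU hR
  by_cases c1 : ∃ u ∈ W, Y.Adj (γ (M + 2)) u
  · exact tr (Or.inr ⟨by omega, c1⟩)
  by_cases c2 : ∃ z ∈ W, Y.Adj (γ (M + 1)) z ∧ z ≠ γ M
  · obtain ⟨z, hz, hz1, hz2⟩ := c2
    have hi : i = M + 1 := by
      rcases hlast with h | h
      · exact h
      · rcases h z hz1 with h' | h'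
        · exact absurd h' hz2
        · exact absurd (h' ▸ hz) (hnW _ (by omega) le_rfl)
    subst hi
    have hU := con_path (Y := Y) γ hW h0 (M + 1) (fun j hj => hadj j (by omega))
    have hA : ({γ M, z} : Finset V).card ≤ 2 := Finset.card_le_two
    obtain ⟨c1, R1, r1, r2, r3, r4, r5, r6⟩ := arrange hU c R hRU hR {γ M, z}
      (by
        intro x hx
        simp only [Finset.mem_insert, Finset.mem_singleton] at hx
        rcases hx with rfl | rfl
        · exact Or.inr ⟨M, by omega, rfl⟩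
        · exact Or.inl hz) (by omega)
    have q1 : ∀ j, M + 1 ≤ j → j ≤ M + 2 → c1 (γ j) = c (γ j) := by
      intro j hj hj'
      apply r6
      rintro (h | ⟨l, hl, h⟩)
      · exact hnW j (by omega) hj' h
      · have := hinj j hj' l (by omega) h; omega
    have qz : col (c1 z) = κ := r5 _ (r2 (by simp))
    have qM : col (c1 (γ M)) = κ := r5 _ (r2 (by simp))
    have n1 : γ (M + 2) ≠ z := fun h => hnW _ (by omega) le_rfl (h ▸ hz)
    have n2 : γ (M + 2) ≠ γ (M + 1) := (hadj (M + 1) (by omega)).ne.symm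
    have n3 : γ M ≠ γ (M + 1) := (hadj M (by omega)).ne
    have st : Step Y col c1 ((swap (γ (M + 1)) z).trans c1) := step_swap hz1 (by
      rw [qz, q1 _ le_rfl (by omega)]; exact hblue _ le_rfl (by omega))
    have p1 := claw (Y := Y) (col := col) (κ := κ) (c := (swap (γ (M + 1)) z).trans c1) hz1
      (hadj (M + 1) (by omega)) (hadj M (by omega)).symm n1.symm (by simpa using qz)
      (by simpa [swap_apply_of_ne_of_ne n3 hz2.symm] using qM)
      (by simpa [q1 _ le_rfl (by omega)] using hblue _ le_rfl (by omega))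
      (by simpa [swap_apply_of_ne_of_ne n2 n1, q1 (M + 2) (by omega) le_rfl] using
        hblue (M + 2) (by omega) le_rfl)
    have p2 := p1.transport (r1.trans st.rn)
    simp only [trans_apply, swap_apply_right] at p2
    rw [swap_apply_of_ne_of_ne n2 n1, q1 _ le_rfl (by omega), q1 (M + 2) (by omega) le_rfl] at p2
    refine p2.mono ?_
    have h5 : ({γ M, z} : Finset V).card * Fintype.card V ≤ 2 * Fintype.card V :=
      Nat.mul_le_mul_right _ hA
    have hn := len_le γ (M + 2) hinj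
    have h6 : 14 * Fintype.card V * 2 ≤ 14 * Fintype.card V * (M + 2) :=
      Nat.mul_le_mul_left _ (by omega)
    omega
  refine tr (Or.inl ?_)
  by_contra hcon
  apply hbr
  refine ⟨γ, W, a, γ k, fun j hj l hl => hinj j (by omega) l (by omega),
    fun j hj => hadj j (by omega), fun j hj => hdeg j (by omega), h0,
    fun j hj hj' => hnW j hj (by omega), ?_, ha, fun h => hnW 1 le_rfl (by omega) (h ▸ haW), ?_, ?_⟩
  · intro x hx y hy hxy
    rcases hcl x hx y hxy with h | ⟨j, hj, hj', rfl⟩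
    · exact absurd h hy
    obtain ⟨j, rfl⟩ : ∃ l, j = l + 1 := ⟨j - 1, by omega⟩
    have fin : x = γ j → x = γ 0 ∧ γ (j + 1) = γ 1 := by
      intro h
      have : j = 0 := by
        by_contra h'
        exact hnW j (by omega) (by omega) (h ▸ hx)
      subst this
      exact ⟨h, rfl⟩
    by_cases e1 : j = M + 1
    · subst e1; exact absurd ⟨x, hx, hxy.symm⟩ c1
    by_cases e2 : j = M
    · subst e2
      apply fin
      by_contra h
      exact c2 ⟨x, hx, hxy.symm, h⟩
    rcases hdeg j (by omega) x hxy.symm with h | h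
    · exact fin h
    · exact absurd (h ▸ hx) (hnW _ (by omega) (by omega))
  · have := hadj (k - 1) (by omega)
    rwa [show k - 1 + 1 = k by omega] at this
  · intro h
    have := hinj _ (by omega) _ (by omega) h
    omega

end FSDiam
end

-- merged part: Pool.Agent.Work.MP_16c8e2_co.Tree
section
/-! Breadth first trees and vertical trains. -/

namespace FSDiam
open Equiv

variable {V T : Type*} {Y : SimpleGraph V} {col : T → Bool}

/-- A breadth first tree rooted at `v`, with depth `d` and parent map `par`. -/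
structure BT (Y : SimpleGraph V) (v : V) (d : V → ℕ) (par : V → V) : Prop where
  d0 : d v = 0
  pv : par v = v
  adj : ∀ x, x ≠ v → Y.Adj (par x) x
  dp : ∀ x, x ≠ v → d (par x) + 1 = d x
  lip : ∀ x y, Y.Adj x y → d y ≤ d x + 1
  zero : ∀ x, d x = 0 → x = v

theorem exists_BT (hc : Y.Connected) (v : V) : ∃ d par, BT Y v d par := by
  classical
  have key : ∀ x, x ≠ v → ∃ y, Y.Adj y x ∧ Y.dist v y + 1 = Y.dist v x := by
    intro x hx
    obtain ⟨p, hp⟩ := hc.exists_walk_length_eq_dist x v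
    cases p with
    | nil => exact absurd rfl hx
    | @cons _ y _ h p =>
      refine ⟨y, h.symm, ?_⟩
      have h1 := SimpleGraph.dist_le p
      have h2 := hc.dist_triangle (u := v) (v := y) (w := x)
      rw [SimpleGraph.dist_eq_one_iff_adj.2 h.symm] at h2
      rw [SimpleGraph.Walk.length_cons, SimpleGraph.dist_comm] at hp
      rw [SimpleGraph.dist_comm] at h1
      omega
  choose! f hf using key
  refine ⟨fun x => Y.dist v x, fun x => if x = v then v else f x, by simp, by simp,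
    fun x hx => ?_, fun x hx => ?_, fun x y h => ?_, fun x h => ?_⟩
  · simp only [hx, if_false]; exact (hf x hx).1
  · simp only [hx, if_false]; exact (hf x hx).2
  · have h2 := hc.dist_triangle (u := v) (v := x) (w := y)
    rwa [SimpleGraph.dist_eq_one_iff_adj.2 h] at h2
  · exact (hc.dist_eq_zero_iff.1 h).symm

variable {v : V} {d : V → ℕ} {par : V → V}

theorem BT.d_par (h : BT Y v d par) (x : V) : d (par x) = d x - 1 := by
  by_cases e : x = v
  · rw [e, h.pv, h.d0]
  · have := h.dp x e; omega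

theorem BT.d_it (h : BT Y v d par) (x : V) (j : ℕ) : d (par^[j] x) = d x - j := by
  induction j with
  | zero => simp
  | succ j ih => rw [Function.iterate_succ_apply', h.d_par, ih]; omega

theorem BT.ne_of_d (h : BT Y v d par) {x : V} (hx : d x ≠ 0) : x ≠ v := by
  rintro rfl; exact hx h.d0

theorem BT.adj_it (h : BT Y v d par) (x : V) {j : ℕ} (hj : j < d x) :
    Y.Adj (par^[j + 1] x) (par^[j] x) := by
  rw [Function.iterate_succ_apply']
  exact h.adj _ (h.ne_of_d (by rw [h.d_it]; omega))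

theorem BT.it_d (h : BT Y v d par) (x : V) : par^[d x] x = v :=
  h.zero _ (by rw [h.d_it]; omega)

theorem BT.d_nbr (h : BT Y v d par) {x : V} (hx : Y.Adj v x) : d x = 1 := by
  have h1 := h.lip _ _ hx
  have h2 : d x ≠ 0 := fun e => hx.ne (h.zero x e).symm
  rw [h.d0] at h1; omega

theorem BT.par_one (h : BT Y v d par) {x : V} (hx : d x = 1) : par x = v :=
  h.zero _ (by rw [h.d_par]; omega)

theorem BT.d_lt [Fintype V] (h : BT Y v d par) (x : V) : d x + 1 ≤ Fintype.card V :=
  len_le (fun j => par^[j] x) (d x) (fun j hj l hl e => by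
    have := congrArg d e
    simp only [h.d_it] at this; omega)

/-- A vertex with three different neighbours. -/
def Jn (Y : SimpleGraph V) (x : V) : Prop :=
  ∃ a b c, Y.Adj x a ∧ Y.Adj x b ∧ Y.Adj x c ∧ a ≠ b ∧ a ≠ c ∧ b ≠ c

theorem not_Jn {x p q : V} (h : ¬ Jn Y x) (hp : Y.Adj x p) (hq : Y.Adj x q) (hpq : p ≠ q) (z : V)
    (hz : Y.Adj x z) : z = p ∨ z = q := by
  by_contra hcon
  push Not at hcon
  exact h ⟨p, q, z, hp, hq, hz, hpq, hcon.1.symm, hcon.2.symm⟩

theorem Jn.two {x : V} (h : Jn Y x) (p : V) :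
    ∃ a b, Y.Adj x a ∧ Y.Adj x b ∧ a ≠ b ∧ a ≠ p ∧ b ≠ p := by
  obtain ⟨a, b, c, ha, hb, hc, h1, h2, h3⟩ := h
  by_cases e1 : a = p
  · exact ⟨b, c, hb, hc, h3, e1 ▸ h1.symm, e1 ▸ h2.symm⟩
  by_cases e2 : b = p
  · exact ⟨a, c, ha, hc, h2, e1, e2 ▸ h3.symm⟩
  · exact ⟨a, b, ha, hb, h1, e1, e2⟩

theorem vert_tree [DecidableEq V] [Fintype V] [Fintype T] [DecidableEq T] {κ : Bool} {k : ℕ}
    (hk : 3 ≤ k) (hbr : ¬ IBr Y k) (h : BT Y v d par) (c : V ≃ T) (R : Finset V)
    (hR : ∀ x, col (c x) = κ ↔ x ∈ R) (hpc : ∀ x ∈ R, par x ∈ R) (hcard : k ≤ R.card)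
    (p : V) (M s : ℕ) (hM : M + 2 ≤ d p) (hs1 : 1 ≤ s) (hs : s ≤ M + 1)
    (hJ : Jn Y (par^[M + 2] p)) (hn : ∀ j, 2 ≤ j → j ≤ M + 1 → ¬ Jn Y (par^[j] p))
    (hlast : s = 1 ∨ ¬ Jn Y (par p)) (hblue : par^[s] p ∉ R) :
    Pure Y col (14 * Fintype.card V * (M + 2)) c (c (par^[s] p)) (c p) := by
  set γ : ℕ → V := fun j => par^[M + 2 - j] p with hγ
  have dγ : ∀ j ≤ M + 2, d (γ j) = d p - (M + 2) + j := fun j hj => by
    simp only [hγ, h.d_it]; omega
  have hadj : ∀ j < M + 2, Y.Adj (γ j) (γ (j + 1)) := fun j hj => by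
    have := h.adj_it p (j := M + 2 - (j + 1)) (by omega)
    rwa [show M + 2 - (j + 1) + 1 = M + 2 - j by omega] at this
  have hinj : ∀ j ≤ M + 2, ∀ l ≤ M + 2, γ j = γ l → j = l := fun j hj l hl e => by
    have := congrArg d e
    rw [dγ j hj, dγ l hl] at this; omega
  have hpar : ∀ j < M + 2, par (γ (j + 1)) = γ j := fun j hj => by
    simp only [hγ]
    rw [show M + 2 - j = M + 2 - (j + 1) + 1 by omega, Function.iterate_succ_apply']
  have hbl : ∀ j, M + 2 - s ≤ j → j ≤ M + 2 → γ j ∉ R := by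
    intro j hj
    induction j, hj using Nat.le_induction with
    | base => intro _; simp only [hγ]; rwa [show M + 2 - (M + 2 - s) = s by omega]
    | succ j hj ih =>
      intro hj' hh
      exact ih (by omega) (hpar j (by omega) ▸ hpc _ hh)
  have hdeg : ∀ j < M, ∀ z, Y.Adj (γ (j + 1)) z → z = γ j ∨ z = γ (j + 2) := fun j hj =>
    not_Jn (hn (M + 2 - (j + 1)) (by omega) (by omega)) (hadj j (by omega)).symm
      (hadj (j + 1) (by omega)) (fun e => by have := hinj _ (by omega) _ (by omega) e; omega)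
  have hlow : ∀ x, d x ≤ d p - (M + 2) → x ∈ {x | ∀ j, 1 ≤ j → j ≤ M + 2 → x ≠ γ j} := by
    intro x hx j hj hj' e
    rw [e, dγ j hj'] at hx; omega
  obtain ⟨W, hW, h0, hWS, hcl⟩ := exists_comp (Y := Y) {x | ∀ j, 1 ≤ j → j ≤ M + 2 → x ≠ γ j}
    (w := γ 0) (hlow _ (by rw [dγ 0 (by omega)]; omega))
  obtain ⟨a, b, ha, hb, hab, ha1, hb1⟩ := hJ.two (γ 1)
  have hnb : ∀ z, Y.Adj (γ 0) z → z ≠ γ 1 → z ∈ W := by
    intro z hz hz1
    refine hcl _ h0 z (fun j hj hj' e => ?_) hz
    have h1 := h.lip _ _ hz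
    rw [e, dγ j hj', dγ 0 (by omega)] at h1
    exact hz1 (by rw [e, show j = 1 by omega])
  have hcl' : ∀ x ∈ W, ∀ y, Y.Adj x y → y ∈ W ∨ ∃ j, 1 ≤ j ∧ j ≤ M + 2 ∧ y = γ j := by
    intro x hx y hy
    by_cases e : ∃ j, 1 ≤ j ∧ j ≤ M + 2 ∧ y = γ j
    · exact Or.inr e
    · exact Or.inl (hcl x hx y (fun j hj hj' e' => e ⟨j, hj, hj', e'⟩) hy)
  have hanc : ∀ t, par^[t] (γ 0) ∈ W := by
    intro t
    induction t with
    | zero => exact h0
    | succ t ih =>
      rw [Function.iterate_succ_apply']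
      by_cases e : par^[t] (γ 0) = v
      · rw [e, h.pv]; exact e ▸ ih
      · refine hcl _ ih _ (hlow _ ?_) (h.adj _ e).symm
        rw [h.d_par, h.d_it, dγ 0 (by omega)]; omega
  have hvW : v ∈ W := by have := hanc (d (γ 0)); rwa [h.it_d] at this
  have hRU : ∀ D, ∀ x ∈ R, d x = D → x ∈ W ∨ ∃ j < M + 2 - s, x = γ j := by
    intro D
    induction D with
    | zero => intro x _ hx; rw [h.zero x hx]; exact Or.inl hvW
    | succ D ih =>
      intro x hx hd
      have hxv : x ≠ v := h.ne_of_d (by omega)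
      have fin : ∀ j ≤ M + 2, x = γ j → x ∈ W ∨ ∃ j < M + 2 - s, x = γ j := by
        intro j hj e
        refine Or.inr ⟨j, ?_, e⟩
        by_contra hcon
        exact hbl j (by omega) hj (e ▸ hx)
      have inW : par x ∈ W → x ∈ W ∨ ∃ j < M + 2 - s, x = γ j := by
        intro hp
        rcases hcl' _ hp x (h.adj x hxv) with h' | ⟨j, _, hj, e⟩
        · exact Or.inl h'
        · exact fin j hj e
      rcases ih (par x) (hpc x hx) (by rw [h.d_par]; omega) with hp | ⟨j, hj, e⟩
      · exact inW hp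
      · rcases j with _ | j
        · exact inW (e ▸ h0)
        · rcases hdeg j (by omega) x (e ▸ h.adj x hxv) with e' | e'
          · exact fin j (by omega) e'
          · exact fin (j + 2) (by omega) e'
  have := vert (col := col) (κ := κ) hk hbr γ ha hb hab M (M + 2 - s) c W R (by omega) (by omega)
    hadj hinj hW h0 (hnb a ha ha1) (hnb b hb hb1) (fun j hj hj' hh => hWS hh j hj hj' rfl) hcl' hdeg
    (by
      rcases hlast with e | e
      · exact Or.inl (by omega)
      · refine Or.inr (not_Jn ?_ (hadj M (by omega)).symm (hadj (M + 1) (by omega))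
          (fun e => by have := hinj _ (by omega) _ (by omega) e; omega))
        simp only [hγ]
        rwa [show M + 2 - (M + 1) = 1 by omega])
    (fun j hj hj' hh => hbl j hj hj' ((hR _).1 hh)) (fun x hx => hRU _ x hx rfl)
    (fun x hx => (hR x).2 hx) hcard
  simp only [hγ] at this
  rwa [show M + 2 - (M + 2 - s) = s by omega, Nat.sub_self] at this

end FSDiam
end

-- merged part: Pool.Agent.Work.MP_16c8e2_co.Pairs
section
/-! Every two tokens of one colour can be exchanged in quadratically many moves. -/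

namespace FSDiam
open Equiv

variable {V T : Type*} {Y : SimpleGraph V} {col : T → Bool} {v : V} {d : V → ℕ} {par : V → V}
variable [DecidableEq V] [Fintype V]

theorem to_boundary [Fintype T] [DecidableEq T] {κ : Bool} {k : ℕ}
    (hk : 3 ≤ k) (hbr : ¬ IBr Y k) (h : BT Y v d par) (c : V ≃ T) (R : Finset V)
    (hR : ∀ x, col (c x) = κ ↔ x ∈ R) (hpc : ∀ x ∈ R, par x ∈ R) (hcard : k ≤ R.card)
    (hJv : Jn Y v) (hv : v ∈ R) (D : ℕ) :
    ∀ p, d p = D → p ∉ R → ∃ q, q ∉ R ∧ par q ∈ R ∧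
      Pure Y col (112 * Fintype.card V * D) c (c p) (c q) := by
  classical
  induction D using Nat.strong_induction_on with
  | _ D ih =>
  intro p hp hpR
  by_cases hb : par p ∈ R
  · exact ⟨p, hpR, hb, Pure.refl _ _ _⟩
  have h1 : d (par p) ≠ 0 := fun e => hb (by rw [h.zero _ e]; exact hv)
  rw [h.d_par] at h1
  have hex : ∃ j, Jn Y (par^[j + 2] p) :=
    ⟨d p - 2, by rw [show d p - 2 + 2 = d p by omega, h.it_d]; exact hJv⟩
  obtain ⟨M, hJ, hM, hn⟩ : ∃ M, Jn Y (par^[M + 2] p) ∧ M + 2 ≤ d p ∧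
      ∀ j, 2 ≤ j → j ≤ M + 1 → ¬ Jn Y (par^[j] p) := by
    refine ⟨Nat.find hex, Nat.find_spec hex, ?_, fun j hj hj' => ?_⟩
    · have := Nat.find_min' hex (m := d p - 2)
        (by rw [show d p - 2 + 2 = d p by omega, h.it_d]; exact hJv)
      omega
    · have := Nat.find_min hex (m := j - 2) (by omega)
      rwa [show j - 2 + 2 = j by omega] at this
  have l1 := vert_tree (col := col) hk hbr h c R hR hpc hcard p M 1 hM le_rfl (by omega) hJ hn
    (Or.inl rfl) hb
  obtain ⟨s, hs, hsR, hs'⟩ : ∃ s ≤ M, par^[s] (par p) ∉ R ∧ (s < M → par^[s + 1] (par p) ∈ R) := by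
    refine ⟨Nat.findGreatest (fun s => par^[s] (par p) ∉ R) M, Nat.findGreatest_le _,
      Nat.findGreatest_spec (P := fun s => par^[s] (par p) ∉ R) (Nat.zero_le M) hb, fun hlt => ?_⟩
    by_contra hcon
    exact Nat.findGreatest_is_greatest (P := fun s => par^[s] (par p) ∉ R) (Nat.lt_succ_self _)
      hlt hcon
  have l2 : Pure Y col (14 * Fintype.card V * (M + 1)) c (c (par^[s] (par p))) (c (par p)) := by
    rcases Nat.eq_zero_or_pos s with rfl | hs0
    · exact Pure.refl _ _ _
    obtain ⟨M, rfl⟩ : ∃ l, M = l + 1 := ⟨M - 1, by omega⟩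
    exact vert_tree (col := col) hk hbr h c R hR hpc hcard (par p) M s (by rw [h.d_par]; omega) hs0
      hs hJ (fun j hj hj' => hn (j + 1) (by omega) (by omega)) (Or.inr (hn 2 le_rfl (by omega))) hsR
  have l3 : Pure Y col (56 * Fintype.card V * (M + 1)) c (c p) (c (par^[s] (par p))) :=
    (l1.symm.chain l2.symm).mono (by nlinarith only [Nat.zero_le (Fintype.card V * M)])
  obtain ⟨E, hE⟩ : ∃ E, D = E + (M + 1) := ⟨D - (M + 1), by omega⟩
  by_cases hlt : s < M
  · refine ⟨_, hsR, ?_, l3.mono ?_⟩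
    · have := hs' hlt
      rwa [Function.iterate_succ_apply'] at this
    · rw [hE]; nlinarith only [Nat.zero_le (Fintype.card V * M), Nat.zero_le (Fintype.card V * E)]
  · obtain ⟨q, q1, q2, q3⟩ := ih E (by omega) (par^[s] (par p)) (by rw [h.d_it, h.d_par]; omega) hsR
    refine ⟨q, q1, q2, (l3.chain' q3).mono (le_of_eq ?_)⟩
    rw [hE]; ring

theorem climb {κ : Bool} (h : BT Y v d par) (c : V ≃ T) (p : V) (hp : p ≠ v)
    (hb : col (c p) ≠ κ) (hr : ∀ j, 1 ≤ j → j < d p → col (c (par^[j] p)) = κ) :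
    ∃ c1, Rn Y col (Fintype.card V) c c1 ∧ c1 (par^[d p - 1] p) = c p ∧
      ∀ z, d z ≤ 1 → z ≠ par^[d p - 1] p → c1 z = c z := by
  have h0 : d p ≠ 0 := fun e => hp (h.zero p e)
  obtain ⟨c1, r1, r2, -, r4⟩ := shift (Y := Y) (col := col) (fun j => par^[j] p) c (d p - 1)
    (fun j hj => (h.adj_it p (by omega)).symm)
    (fun j hj l hl e => by
      have := congrArg d e
      simp only [h.d_it] at this; omega)
    (fun j hj hj' => by rw [hr j hj (by omega)]; exact hb.symm)
  refine ⟨c1, r1.rn (by have := h.d_lt p; omega), r2, fun z hz hz' => r4 z (fun j hj e => ?_)⟩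
  have := congrArg d e
  simp only [h.d_it] at this
  exact hz' (by rw [e, show j = d p - 1 by omega])

theorem climb_down {κ : Bool} (h : BT Y v d par) (c : V ≃ T) (p e : V) (hp : p ≠ v)
    (hb : col (c p) ≠ κ) (hr : ∀ j, 1 ≤ j → col (c (par^[j] p)) = κ) (he : Y.Adj v e)
    (hec : col (c e) = κ) (hne : e ≠ par^[d p - 1] p) :
    ∃ c1, Rn Y col (Fintype.card V) c c1 ∧ c1 e = c p ∧
      (∀ z, z ≠ e → col (c z) = κ → col (c1 z) = κ) ∧
      ∀ z, z ≠ p → col (c z) ≠ κ → c1 z = c z := by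
  have h0 : d p ≠ 0 := fun e => hp (h.zero p e)
  have de := h.d_nbr he
  have hne' : ∀ j ≤ d p, par^[j] p ≠ e := fun j hj e' => by
    have := congrArg d e'
    rw [h.d_it, de] at this
    exact hne (by rw [← e', show j = d p - 1 by omega])
  set δ : ℕ → V := fun j => if j ≤ d p then par^[j] p else e with hδ
  have hδc : ∀ j, 1 ≤ j → col (c (δ j)) = κ := fun j hj => by
    simp only [hδ]
    split_ifs
    · exact hr j hj
    · exact hec
  have hδ0 : δ 0 = p := by simp [hδ]
  have hδL : δ (d p + 1) = e := by simp [hδ]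
  obtain ⟨c1, r1, r2, r3, r4⟩ := shift (Y := Y) (col := col) δ c (d p + 1)
    (fun j hj => by
      by_cases e1 : j = d p
      · rw [e1, hδL]; simp only [hδ, le_refl, if_true, h.it_d]; exact he
      · simp only [hδ, show j ≤ d p by omega, show j + 1 ≤ d p by omega, if_true]
        exact (h.adj_it p (by omega)).symm)
    (fun j hj l hl e' => by
      simp only [hδ] at e'
      split_ifs at e' with a1 a2 a2
      · have := congrArg d e'
        simp only [h.d_it] at this; omega
      · exact absurd e' (hne' j a1)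
      · exact absurd e'.symm (hne' l a2)
      · omega)
    (fun j hj hj' => by rw [hδc j hj, hδ0]; exact hb.symm)
  refine ⟨c1, r1.rn (h.d_lt p), by rw [← hδL, r2, hδ0], fun z hz hc => ?_, fun z hz hc => ?_⟩
  · by_cases a : ∃ j ≤ d p + 1, z = δ j
    · obtain ⟨j, hj, rfl⟩ := a
      have : j ≠ d p + 1 := by rintro rfl; exact hz hδL
      rw [r3 j (by omega)]; exact hδc _ (by omega)
    · rw [r4 z (fun j hj e' => a ⟨j, hj, e'⟩)]; exact hc
  · refine r4 z (fun j hj e' => ?_)
    rcases Nat.eq_zero_or_pos j with rfl | hj0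
    · exact hz (e'.trans hδ0)
    · exact hc (e' ▸ hδc j hj0)

theorem boundary_pair [Fintype T] [DecidableEq T] {κ : Bool} (h : BT Y v d par) (c : V ≃ T)
    (R : Finset V) (hR : ∀ x, col (c x) = κ ↔ x ∈ R) (hpc : ∀ x ∈ R, par x ∈ R) (hv : v ∈ R)
    {a b : V} (ha : Y.Adj v a) (hb : Y.Adj v b) (hab : a ≠ b) (haR : a ∈ R) (hbR : b ∈ R)
    (hJv : Jn Y v) {p q : V} (hp : p ∉ R) (hp' : par p ∈ R) (hq : q ∉ R) (hq' : par q ∈ R) :
    Pure Y col (18 + 6 * Fintype.card V) c (c p) (c q) := by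
  have anc : ∀ x, par x ∈ R → ∀ j, 1 ≤ j → par^[j] x ∈ R := by
    intro x hx j hj
    induction j, hj using Nat.le_induction with
    | base => exact hx
    | succ j _ ih => rw [Function.iterate_succ_apply']; exact hpc _ ih
  have gadj : ∀ x, x ∉ R → Y.Adj v (par^[d x - 1] x) := by
    intro x hx
    have h0 : d x ≠ 0 := fun e => hx (by rw [h.zero x e]; exact hv)
    have := h.adj_it x (j := d x - 1) (by omega)
    rwa [show d x - 1 + 1 = d x by omega, h.it_d] at this
  have nv : ∀ x, x ∉ R → x ≠ v := by rintro x hx rfl; exact hx hv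
  by_cases hH : ∃ z, Y.Adj v z ∧ z ∉ R
  · obtain ⟨z, hz, hzR⟩ := hH
    have key : ∀ x, x ∉ R → par x ∈ R → Pure Y col (6 + 2 * Fintype.card V) c (c x) (c z) := by
      intro x hx hx'
      by_cases e : par^[d x - 1] x = z
      · have : d x - 1 = 0 := by
          by_contra hcon
          exact hzR (e ▸ anc x hx' _ (by omega))
        rw [this] at e
        rw [← e]; exact Pure.refl _ _ _
      obtain ⟨c1, r1, r2, r3⟩ := climb (col := col) (κ := κ) h c x (nv x hx)
        (fun hh => hx ((hR x).1 hh)) (fun j hj _ => (hR _).2 (anc x hx' j hj))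
      obtain ⟨s, hs, hsR, hsg⟩ : ∃ s, Y.Adj v s ∧ s ∈ R ∧ s ≠ par^[d x - 1] x := by
        by_cases e1 : a = par^[d x - 1] x
        · exact ⟨b, hb, hbR, e1 ▸ hab.symm⟩
        · exact ⟨a, ha, haR, e1⟩
      have e1 : c1 z = c z := r3 z (h.d_nbr hz).le (Ne.symm e)
      have := (claw (Y := Y) (col := col) (κ := κ) (c := c1) (gadj x hx) hz hs e
        (by rw [r3 v (by rw [h.d0]; omega) (gadj x hx).ne]; exact (hR v).2 hv)
        (by rw [r3 s (h.d_nbr hs).le hsg]; exact (hR s).2 hsR)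
        (by rw [r2]; exact fun hh => hx ((hR x).1 hh))
        (by rw [e1]; exact fun hh => hzR ((hR z).1 hh))).transport r1
      rwa [r2, e1] at this
    exact ((key p hp hp').chain (key q hq hq').symm).mono (by omega)
  push Not at hH
  by_cases hpq : p = q
  · rw [hpq]; exact Pure.refl _ _ _
  have pick : ∀ x y : V, ∃ e, Y.Adj v e ∧ e ≠ x ∧ e ≠ y := by
    intro x y
    obtain ⟨e1, e2, g1, g2, g3, g4, g5⟩ := hJv.two x
    by_cases e : e1 = y
    · exact ⟨e2, g2, g5, e ▸ g3.symm⟩
    · exact ⟨e1, g1, g4, e⟩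
  obtain ⟨e, he, he1, he2⟩ := pick (par^[d p - 1] p) (par^[d q - 1] q)
  obtain ⟨s, hs, hs1, hs2⟩ := pick e (par^[d q - 1] q)
  obtain ⟨c1, r1, r2, r3, r4⟩ := climb_down (col := col) (κ := κ) h c p e (nv p hp)
    (fun hh => hp ((hR p).1 hh)) (fun j hj => (hR _).2 (anc p hp' j hj)) he ((hR e).2 (hH e he)) he1
  have e1 : c1 q = c q := r4 q (Ne.symm hpq) (fun hh => hq ((hR q).1 hh))
  obtain ⟨c2, t1, t2, t3⟩ := climb (col := col) (κ := κ) h c1 q (nv q hq)
    (by rw [e1]; exact fun hh => hq ((hR q).1 hh))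
    (fun j hj hj' => r3 _ (fun e' => by
      have := congrArg d e'
      rw [h.d_it, h.d_nbr he] at this
      exact he2 (by rw [← e', show j = d q - 1 by omega])) ((hR _).2 (anc q hq' j hj)))
  have e2 : c2 e = c p := by rw [t3 e (h.d_nbr he).le he2, r2]
  have := (claw (Y := Y) (col := col) (κ := κ) (c := c2) he (gadj q hq) hs he2
    (by rw [t3 v (by rw [h.d0]; omega) (gadj q hq).ne]; exact r3 v he.ne ((hR v).2 hv))
    (by rw [t3 s (h.d_nbr hs).le hs2]; exact r3 s hs1 ((hR s).2 (hH s hs)))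
    (by rw [e2]; exact fun hh => hp ((hR p).1 hh))
    (by rw [t2, e1]; exact fun hh => hq ((hR q).1 hh))).transport (r1.trans t1)
  rw [e2, t2, e1] at this
  exact this.mono (by omega)

omit [DecidableEq V] in
theorem card_col [Fintype T] (κ : Bool) (c : V ≃ T) :
    (Finset.univ.filter fun x => col (c x) = κ).card =
      (Finset.univ.filter fun t => col t = κ).card :=
  Finset.card_equiv c (by simp)

theorem arrange_exact [Fintype T] (hc : Y.Connected) (κ : Bool) (c : V ≃ T) (A : Finset V)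
    (hA : A.card ≤ (Finset.univ.filter fun t => col t = κ).card) :
    ∃ c', Rn Y col (Fintype.card V * Fintype.card V) c c' ∧ (∀ x ∈ A, col (c' x) = κ) ∧
      (A.card = (Finset.univ.filter fun t => col t = κ).card → ∀ x, col (c' x) = κ → x ∈ A) := by
  obtain ⟨c', R', r1, r2, -, r4, r5, -⟩ := arrange (col := col) (κ := κ) (Con.univ hc.preconnected) c
    (Finset.univ.filter fun x => col (c x) = κ) (fun _ _ => trivial) (fun x hx => by simpa using hx)
    A (fun _ _ => trivial) (by rw [card_col]; exact hA)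
  refine ⟨c', r1.mono (Nat.mul_le_mul_right _ (Finset.card_le_univ _)),
    fun x hx => r5 x (r2 hx), fun hA' x hx => ?_⟩
  have : A = Finset.univ.filter fun x => col (c' x) = κ :=
    Finset.eq_of_subset_of_card_le (fun y hy => by simpa using r5 y (r2 hy))
      (by rw [card_col, hA'])
  rw [this]; simpa using hx

theorem exists_closed (h : BT Y v d par) {a b : V} (ha : Y.Adj v a) (hb : Y.Adj v b) {β : ℕ}
    (h3 : 3 ≤ β) (hβ : β ≤ Fintype.card V) :
    ∃ R : Finset V, R.card = β ∧ v ∈ R ∧ a ∈ R ∧ b ∈ R ∧ ∀ x ∈ R, par x ∈ R := by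
  obtain ⟨R0, h1, h2⟩ := Finset.exists_superset_card_eq (s := ({v, a, b} : Finset V)) (n := β)
    (Finset.card_le_three.trans h3) hβ
  obtain ⟨R, hR, hmin⟩ := Finset.exists_min_image
    (Finset.univ.filter fun R : Finset V => R.card = β ∧ v ∈ R ∧ a ∈ R ∧ b ∈ R)
    (fun R => ∑ x ∈ R, d x) ⟨R0, by simp [h2, h1 (show v ∈ _ by simp), h1 (show a ∈ _ by simp),
      h1 (show b ∈ _ by simp)]⟩
  simp only [Finset.mem_filter, Finset.mem_univ, true_and] at hR hmin
  obtain ⟨g1, g2, g3, g4⟩ := hR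
  refine ⟨R, g1, g2, g3, g4, fun x hx => ?_⟩
  by_contra hcon
  have n1 : v ≠ x := by rintro rfl; exact hcon (by rw [h.pv]; exact g2)
  have n2 : a ≠ x := by rintro rfl; exact hcon (by rw [h.par_one (h.d_nbr ha)]; exact g2)
  have n3 : b ≠ x := by rintro rfl; exact hcon (by rw [h.par_one (h.d_nbr hb)]; exact g2)
  have n4 : par x ∉ R.erase x := fun hh => hcon (Finset.mem_of_mem_erase hh)
  have := hmin (insert (par x) (R.erase x)) ⟨by
    rw [Finset.card_insert_of_notMem n4, Finset.card_erase_of_mem hx]; omega,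
    by simp [n1, g2], by simp [n2, g3], by simp [n3, g4]⟩
  rw [Finset.sum_insert n4, ← Finset.add_sum_erase R d hx] at this
  have := h.dp x n1.symm
  omega

theorem all_pairs [Fintype T] [DecidableEq T] (κ : Bool) {k : ℕ} (hc : Y.Connected)
    (hk : 3 ≤ k) (hbr : ¬ IBr Y k) (hJv : Jn Y v)
    (hβ : k ≤ (Finset.univ.filter fun t => col t = κ).card) (c0 : V ≃ T) {B B' : T}
    (hB : col B ≠ κ) (hB' : col B' ≠ κ) :
    Pure Y col (350 * (Fintype.card V * Fintype.card V)) c0 B B' := by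
  obtain ⟨d, par, h⟩ := exists_BT hc v
  obtain ⟨a, b, ha, hb, hab, -⟩ := hJv.two v
  have hβn : (Finset.univ.filter fun t => col t = κ).card ≤ Fintype.card V := by
    rw [← card_col κ c0]; exact Finset.card_le_univ _
  obtain ⟨R, g1, g2, g3, g4, g5⟩ := exists_closed h ha hb (hk.trans hβ) hβn
  obtain ⟨c, r1, r2, r3⟩ := arrange_exact (col := col) hc κ c0 R g1.le
  have hR : ∀ x, col (c x) = κ ↔ x ∈ R := fun x => ⟨r3 g1 x, r2 x⟩
  obtain ⟨p, rfl⟩ := c.surjective B
  obtain ⟨p', rfl⟩ := c.surjective B'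
  obtain ⟨q, q1, q2, q3⟩ := to_boundary (col := col) hk hbr h c R hR g5 (g1 ▸ hβ) hJv g2 _ p rfl
    (fun hh => hB ((hR p).2 hh))
  obtain ⟨q', q1', q2', q3'⟩ := to_boundary (col := col) hk hbr h c R hR g5 (g1 ▸ hβ) hJv g2 _ p' rfl
    (fun hh => hB' ((hR p').2 hh))
  have m := boundary_pair (col := col) h c R hR g5 g2 ha hb hab g3 g4 hJv q1 q2 q1' q2'
  refine (((q3.chain m).chain q3'.symm).transport r1).mono ?_
  have a1 := h.d_lt p
  have a2 := h.d_lt p'
  have a3 : 3 ≤ Fintype.card V := (hk.trans hβ).trans hβn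
  nlinarith only [hk, hβ, hβn, a1, a2]

end FSDiam
end

-- merged part: Pool.Agent.Work.MP_16c8e2_co.Cycle
section
/-! The odd cycle, the junction, the odd element and the element trivial on one colour. -/

namespace FSDiam
open Equiv

variable {V T : Type*} {Y : SimpleGraph V} {col : T → Bool}

theorem exists_odd_cycle (hc : Y.Connected) (hb : ¬ Y.Colorable 2) :
    ∃ (Γ : ℕ → V) (t : ℕ), 1 ≤ t ∧ (∀ j < 2 * t, Y.Adj (Γ j) (Γ (j + 1))) ∧
      Y.Adj (Γ (2 * t)) (Γ 0) ∧ ∀ i ≤ 2 * t, ∀ j ≤ 2 * t, Γ i = Γ j → i = j := by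
  classical
  obtain ⟨v⟩ := hc.nonempty
  obtain ⟨d, par, h⟩ := exists_BT hc v
  obtain ⟨x, y, hxy, hd⟩ : ∃ x y, Y.Adj x y ∧ d x = d y := by
    by_contra hcon
    push Not at hcon
    refine hb ⟨SimpleGraph.Coloring.mk (fun x => (⟨d x % 2, Nat.mod_lt _ (by omega)⟩ : Fin 2)) ?_⟩
    intro x y hxy e
    have e' : d x % 2 = d y % 2 := congrArg Fin.val e
    have h1 := h.lip x y hxy
    have h2 := h.lip y x hxy.symm
    have h3 := hcon x y hxy
    omega
  have hex : ∃ t, par^[t] x = par^[t] y := ⟨d x, by rw [h.it_d, hd, h.it_d]⟩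
  obtain ⟨t, h1, h2, h3⟩ : ∃ t, par^[t] x = par^[t] y ∧ t ≤ d x ∧
      ∀ s < t, par^[s] x ≠ par^[s] y :=
    ⟨Nat.find hex, Nat.find_spec hex, Nat.find_min' hex (by rw [h.it_d, hd, h.it_d]),
      fun s hs => Nat.find_min hex hs⟩
  have ht : 1 ≤ t := by
    rcases Nat.eq_zero_or_pos t with rfl | h0
    · exact absurd h1 hxy.ne
    · exact h0
  refine ⟨fun i => if i ≤ t then par^[t - i] x else par^[i - t - 1] y, t, ht, fun j hj => ?_, ?_,
    fun i hi j hj e => ?_⟩
  · rcases lt_trichotomy j t with a | a | a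
    · simp only [show j ≤ t by omega, show j + 1 ≤ t by omega, if_true]
      have := h.adj_it x (j := t - (j + 1)) (by omega)
      rwa [show t - (j + 1) + 1 = t - j by omega] at this
    · subst a; simpa using hxy
    · simp only [show ¬ j ≤ t by omega, show ¬ j + 1 ≤ t by omega, if_false]
      have := (h.adj_it y (j := j - t - 1) (by omega)).symm
      rwa [show j - t - 1 + 1 = j + 1 - t - 1 by omega] at this
  · simp only [show ¬ 2 * t ≤ t by omega, Nat.zero_le, if_true, if_false, Nat.sub_zero, h1]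
    have := (h.adj_it y (j := 2 * t - t - 1) (by omega)).symm
    rwa [show 2 * t - t - 1 + 1 = t by omega] at this
  · have e' := congrArg d e
    simp only at e e'
    split_ifs at e e' with a1 a2 a2 <;> simp only [h.d_it] at e'
    · omega
    · rw [show j - t - 1 = t - i by omega] at e
      exact absurd e (h3 _ (by omega))
    · rw [show i - t - 1 = t - j by omega] at e
      exact absurd e.symm (h3 _ (by omega))
    · omega

theorem cyc_adj_iff {n : ℕ} (hn : 3 ≤ n) (u v : Fin n) : (SimpleGraph.cycleGraph n).Adj u v ↔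
    u.val + 1 = v.val ∨ v.val + 1 = u.val ∨ (u.val = 0 ∧ v.val + 1 = n) ∨
      (v.val = 0 ∧ u.val + 1 = n) := by
  have key : ∀ u v : Fin n, (u - v).val = 1 ↔ v.val + 1 = u.val ∨ (u.val = 0 ∧ v.val + 1 = n) := by
    intro u v
    have hu := u.2
    have hv := v.2
    rcases le_or_gt v u with h | h
    · rw [Fin.coe_sub_iff_le.2 h]
      have : v.val ≤ u.val := h
      omega
    · rw [Fin.coe_sub_iff_lt.2 h]
      have : u.val < v.val := h
      omega
  rw [SimpleGraph.cycleGraph_adj', key, key]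
  tauto

theorem exists_Jn {n : ℕ} {Y : SimpleGraph (Fin n)} (hc : Y.Connected) (hb : ¬ Y.Colorable 2)
    (hC : IsEmpty (Y ≃g SimpleGraph.cycleGraph n)) : ∃ v, Jn Y v := by
  by_contra hcon
  push Not at hcon
  obtain ⟨Γ, t, ht, h1, h2, h3⟩ := exists_odd_cycle hc hb
  have nb : ∀ i ≤ 2 * t, ∀ z, Y.Adj (Γ i) z →
      z = Γ (if i = 0 then 2 * t else i - 1) ∨ z = Γ (if i = 2 * t then 0 else i + 1) := by
    intro i hi
    refine not_Jn (hcon _) ?_ ?_ (fun e => ?_)
    · split_ifs with a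
      · rw [a]; exact h2.symm
      · have := (h1 (i - 1) (by omega)).symm
        rwa [show i - 1 + 1 = i by omega] at this
    · split_ifs with a
      · rw [a]; exact h2
      · exact h1 i (by omega)
    · have := h3 _ (by split_ifs <;> omega) _ (by split_ifs <;> omega) e
      split_ifs at this <;> omega
  have all : ∀ x, ∃ i ≤ 2 * t, x = Γ i := by
    intro x
    have hr := (SimpleGraph.reachable_iff_reflTransGen _ _).1 (hc.preconnected (Γ 0) x)
    induction hr with
    | refl => exact ⟨0, by omega, rfl⟩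
    | tail _ hh ih =>
      obtain ⟨i, hi, rfl⟩ := ih
      rcases nb i hi _ hh with e | e
      · exact ⟨_, by split_ifs <;> omega, e⟩
      · exact ⟨_, by split_ifs <;> omega, e⟩
  have hbij : Function.Bijective (fun i : Fin (2 * t + 1) => Γ i) := by
    refine ⟨fun i j e => Fin.ext (h3 _ (by omega) _ (by omega) e), fun x => ?_⟩
    obtain ⟨i, hi, rfl⟩ := all x
    exact ⟨⟨i, by omega⟩, rfl⟩
  have hn : 2 * t + 1 = n := by simpa using Fintype.card_of_bijective hbij
  subst hn
  refine hC.false (RelIso.symm ⟨Equiv.ofBijective _ hbij, fun {u w} => ?_⟩)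
  rw [cyc_adj_iff (by omega)]
  simp only [Equiv.ofBijective_apply]
  have hu := u.2
  have hw := w.2
  constructor
  · intro hh
    rcases nb u (by omega) _ hh with e | e
    · have := h3 _ (by omega) _ (by split_ifs <;> omega) e
      split_ifs at this <;> omega
    · have := h3 _ (by omega) _ (by split_ifs <;> omega) e
      split_ifs at this <;> omega
  · rintro (a | a | ⟨a, b⟩ | ⟨a, b⟩)
    · rw [← a]; exact h1 _ (by omega)
    · rw [← a]; exact (h1 _ (by omega)).symm
    · rw [a, show w.val = 2 * t by omega]; exact h2.symm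
    · rw [a, show u.val = 2 * t by omega]; exact h2

variable [DecidableEq V] [Fintype T] [DecidableEq T]

theorem exists_omega {κ : Bool} (Γ : ℕ → V) {b r : ℕ} (hb : 1 ≤ b) (hr : 1 ≤ r)
    (h1 : ∀ j, j + 1 < b + r → Y.Adj (Γ j) (Γ (j + 1))) (h2 : Y.Adj (Γ (b + r - 1)) (Γ 0))
    (h3 : ∀ i < b + r, ∀ j < b + r, Γ i = Γ j → i = j) (c : V ≃ T)
    (hbl : ∀ i < b, col (c (Γ i)) ≠ κ) (hrd : ∀ i, b ≤ i → i < b + r → col (c (Γ i)) = κ) :
    ∃ ω : Perm T, H Y col (b + r) c ω ∧ Perm.sign ω = (-1) ^ (r + b) ∧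
      (∀ i < b, ω (c (Γ i)) = c (Γ ((i + 1) % b))) ∧
      (∀ j < r, ω (c (Γ (b + r - 1 - j))) = c (Γ (b + r - 1 - (j + 1) % r))) ∧
      ∀ z, (∀ i < b + r, z ≠ Γ i) → ω (c z) = c z := by
  set δ : ℕ → V := fun j => if j = 0 then Γ 0 else Γ (b + r - j) with hδ
  have hδ0 : δ 0 = Γ 0 := by simp [hδ]
  have hδ1 : ∀ j, 1 ≤ j → δ j = Γ (b + r - j) := fun j hj => by simp [hδ, show j ≠ 0 by omega]
  obtain ⟨c1, r1, r2, r3, r4⟩ := shift (Y := Y) (col := col) δ c r
    (fun j hj => by
      rcases Nat.eq_zero_or_pos j with rfl | h0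
      · rw [hδ0, hδ1 _ le_rfl]; exact h2.symm
      · rw [hδ1 _ h0, hδ1 _ (by omega)]
        have := (h1 (b + r - (j + 1)) (by omega)).symm
        rwa [show b + r - (j + 1) + 1 = b + r - j by omega] at this)
    (fun i hi j hj e => by
      simp only [hδ] at e
      split_ifs at e <;> have := h3 _ (by omega) _ (by omega) e <;> omega)
    (fun j hj hj' => by
      rw [hδ0, hδ1 j hj, hrd _ (by omega) (by omega)]; exact (hbl 0 (by omega)).symm)
  rw [hδ1 r hr, hδ0, Nat.add_sub_cancel] at r2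
  have a0 : c1 (Γ 0) = c (Γ (b + r - 1)) := by rw [← hδ0, r3 0 (by omega), hδ1 _ le_rfl]
  have a1 : ∀ i, 1 ≤ i → i < b → c1 (Γ i) = c (Γ i) := fun i hi hi' => r4 _ (fun j hj e => by
    simp only [hδ] at e
    split_ifs at e <;> have := h3 _ (by omega) _ (by omega) e <;> omega)
  have a2 : ∀ j, j + 1 < r → c1 (Γ (b + r - 1 - j)) = c (Γ (b + r - 1 - (j + 1))) := fun j hj => by
    have := r3 (j + 1) hj
    rwa [hδ1 _ (by omega), hδ1 _ (by omega), show b + r - (j + 1) = b + r - 1 - j by omega,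
      show b + r - (j + 1 + 1) = b + r - 1 - (j + 1) by omega] at this
  obtain ⟨c2, s1, s2, s3, s4⟩ := shift (Y := Y) (col := col) Γ c1 b
    (fun j hj => h1 j (by omega)) (fun i hi j hj => h3 i (by omega) j (by omega))
    (fun j hj hj' => by
      rw [a0, hrd (b + r - 1) (by omega) (by omega)]
      by_cases e : j = b
      · rw [e, r2]; exact hbl 0 (by omega)
      · rw [a1 j hj (by omega)]; exact hbl j (by omega))
  have hω : ∀ z, (c.symm.trans c2) (c z) = c2 z := fun z => by simp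
  have f1 : ∀ i < b, c2 (Γ i) = c (Γ ((i + 1) % b)) := fun i hi => by
    rw [s3 i hi]
    by_cases e : i + 1 = b
    · rw [e, r2, Nat.mod_self]
    · rw [a1 _ (by omega) (by omega), Nat.mod_eq_of_lt (by omega)]
  have f2 : ∀ j < r, c2 (Γ (b + r - 1 - j)) = c (Γ (b + r - 1 - (j + 1) % r)) := fun j hj => by
    by_cases e : j + 1 = r
    · rw [e, Nat.mod_self, show b + r - 1 - j = b by omega, s2, a0, Nat.sub_zero]
    · rw [s4 _ (fun i hi e' => by have := h3 _ (by omega) _ (by omega) e'; omega), a2 j (by omega),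
        Nat.mod_eq_of_lt (by omega)]
  have f3 : ∀ z, (∀ i < b + r, z ≠ Γ i) → c2 z = c z := fun z hz => by
    rw [s4 z (fun j hj => hz j (by omega)), r4 z (fun j hj => by
      simp only [hδ]
      split_ifs <;> exact hz _ (by omega))]
  refine ⟨c.symm.trans c2, ⟨fun t => ?_, ?_⟩, (r1.trans s1).sign, fun i hi => by rw [hω, f1 i hi],
    fun j hj => by rw [hω, f2 j hj], fun z hz => by rw [hω, f3 z hz]⟩
  · obtain ⟨z, rfl⟩ := c.surjective t
    rw [hω]
    by_cases e : ∃ i < b + r, z = Γ i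
    · obtain ⟨i, hi, rfl⟩ := e
      by_cases e' : i < b
      · rw [f1 i e']
        have g1 := hbl i e'
        have g2 := hbl _ (Nat.mod_lt (i + 1) (show 0 < b by omega))
        revert g1 g2
        cases col (c (Γ i)) <;> cases col (c (Γ ((i + 1) % b))) <;> cases κ <;> simp
      · have := f2 (b + r - 1 - i) (by omega)
        rw [show b + r - 1 - (b + r - 1 - i) = i by omega] at this
        have g := Nat.mod_lt (b + r - 1 - i + 1) (show 0 < r by omega)
        rw [this, hrd i (by omega) hi, hrd _ (by omega) (by omega)]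
    · rw [f3 z (fun i hi e' => e ⟨i, hi, e'⟩)]
  · have e : c.trans (c.symm.trans c2) = c2 := by ext z; simp
    rw [e]
    exact (r1.trans s1).rn (by omega)

omit [Fintype T] [DecidableEq T] in
theorem pow_cycle (ω : Perm T) (g : ℕ → T) {b : ℕ} (hb : 1 ≤ b)
    (h : ∀ i < b, ω (g i) = g ((i + 1) % b)) (s : ℕ) {i : ℕ} (hi : i < b) :
    (ω ^ s) (g i) = g ((i + s) % b) := by
  induction s with
  | zero => simp [Nat.mod_eq_of_lt hi]
  | succ s ih =>
    rw [pow_succ', Perm.mul_apply, ih, h _ (Nat.mod_lt _ (by omega)), Nat.mod_add_mod, add_assoc]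

theorem odd_and_triv [Fintype V] (κ : Bool) (hc : Y.Connected) (hnb : ¬ Y.Colorable 2) {k m : ℕ}
    (hk : (Finset.univ.filter fun t => col t = κ).card = k)
    (hm : (Finset.univ.filter fun t => col t ≠ κ).card = m) (h3k : 3 ≤ k) (hkm : k ≤ m)
    (c0 : V ≃ T) :
    ∃ ω χ : Perm T, H Y col (3 * (Fintype.card V * Fintype.card V)) c0 ω ∧ Perm.sign ω = -1 ∧
      H Y col (3 * (Fintype.card V * Fintype.card V)) c0 χ ∧ (∀ t, col t = κ → χ t = t) ∧
      ∃ a, χ a ≠ a ∧ (χ (χ a) ≠ a ∨ (∃ e, col e ≠ κ ∧ χ e = e) ∨ 5 ≤ m) := by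
  obtain ⟨Γ, t, ht, g1, g2, g3⟩ := exists_odd_cycle hc hnb
  have hn : k + m = Fintype.card V := by
    rw [← hk, ← hm, Finset.card_filter_add_card_filter_not, Fintype.card_congr c0]; rfl
  have hL := len_le Γ (2 * t) g3
  obtain ⟨b, r, e1, e2, e3, e4, e5, e6⟩ : ∃ b r, b + r = 2 * t + 1 ∧ 1 ≤ r ∧ r < b ∧ r ≤ k ∧ b ≤ m ∧
      (r = 1 ∨ b = m) := by
    by_cases e : 2 * t ≤ m
    · exact ⟨2 * t, 1, by omega⟩
    · exact ⟨m, 2 * t + 1 - m, by omega⟩
  have h3 : ∀ i < b + r, ∀ j < b + r, Γ i = Γ j → i = j :=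
    fun i hi j hj => g3 i (by omega) j (by omega)
  have cb : ((Finset.range b).image Γ).card = b := by
    rw [Finset.card_image_of_injOn (fun i hi j hj e => h3 i (by simp at hi; omega) j
      (by simp at hj; omega) e), Finset.card_range]
  obtain ⟨A, A1, A2, A3⟩ := Finset.exists_subsuperset_card_eq
    (s := (Finset.Ico b (b + r)).image Γ) (t := ((Finset.range b).image Γ)ᶜ) (n := k)
    (by
      intro x hx
      simp only [Finset.mem_image, Finset.mem_Ico, Finset.mem_compl, Finset.mem_range] at hx ⊢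
      rintro ⟨j, hj, e⟩
      obtain ⟨i, hi, e'⟩ := hx
      have := h3 j (by omega) i (by omega) (e.trans e'.symm)
      omega)
    (Finset.card_image_le.trans (by simp; omega)) (by rw [Finset.card_compl, cb]; omega)
  obtain ⟨c, r1, r2, r3⟩ := arrange_exact (col := col) hc κ c0 A (by omega)
  have hbl : ∀ i < b, col (c (Γ i)) ≠ κ := fun i hi hh => by
    have := A2 (r3 (by omega) _ hh)
    simp only [Finset.mem_compl, Finset.mem_image, Finset.mem_range] at this
    exact this ⟨i, hi, rfl⟩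
  have hrd : ∀ i, b ≤ i → i < b + r → col (c (Γ i)) = κ := fun i hi hi' =>
    r2 _ (A1 (Finset.mem_image.2 ⟨i, by simp; omega, rfl⟩))
  obtain ⟨ω, w1, w2, w3, w4, w5⟩ := exists_omega (Y := Y) (col := col) Γ (b := b) (r := r)
    (by omega) e2 (fun j hj => g1 j (by omega)) (by rw [e1]; exact g2) h3 c hbl hrd
  have p1 := fun s i (hi : i < b) => pow_cycle ω (fun i => c (Γ i)) (by omega) w3 s hi
  have p2 := fun s i (hi : i < r) => pow_cycle ω (fun j => c (Γ (b + r - 1 - j))) e2 w4 s hi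
  have p3 : ∀ z, (∀ i < b + r, z ≠ Γ i) → (ω ^ r) (c z) = c z := fun z hz =>
    Perm.pow_apply_eq_self_of_apply_eq_self (w5 z hz) r
  have q1 : (ω ^ r) (c (Γ 0)) = c (Γ r) := by rw [p1 r 0 (by omega), zero_add, Nat.mod_eq_of_lt e3]
  refine ⟨ω, ω ^ r, (w1.transport r1).mono (by nlinarith only [hk, h3k, hm, hkm, hn, hL, e1]), ?_,
    ((w1.pow r).transport r1).mono (by nlinarith only [h3k, e1, e3, hm, hL, hn]), fun s hs => ?_, c (Γ 0), ?_, ?_⟩
  · rw [w2, show r + b = 2 * t + 1 by omega, pow_succ, pow_mul]; simp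
  · obtain ⟨z, rfl⟩ := c.surjective s
    by_cases e : ∃ i < b + r, z = Γ i
    · obtain ⟨i, hi, rfl⟩ := e
      have hib : b ≤ i := by
        by_contra hh
        exact hbl i (by omega) hs
      have := p2 r (b + r - 1 - i) (by omega)
      simp only [Nat.add_mod_right] at this
      rwa [Nat.mod_eq_of_lt (by omega), show b + r - 1 - (b + r - 1 - i) = i by omega] at this
    · exact p3 z (fun i hi e' => e ⟨i, hi, e'⟩)
  · rw [q1]
    intro e
    have := h3 _ (by omega) _ (by omega) (c.injective e)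
    omega
  · by_cases e : r + r = b
    · rcases e6 with e6 | e6
      · refine Or.inr (Or.inl ?_)
        by_contra hcon
        push Not at hcon
        have := Finset.card_le_card (show (Finset.univ.filter fun t => col t ≠ κ) ⊆
            (Finset.range b).image (fun i => c (Γ i)) from fun s hs => by
          obtain ⟨z, rfl⟩ := c.surjective s
          have hs' : col (c z) ≠ κ := by simpa using hs
          by_cases e' : ∃ i < b + r, z = Γ i
          · obtain ⟨i, hi, rfl⟩ := e'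
            refine Finset.mem_image.2 ⟨i, Finset.mem_range.2 ?_, rfl⟩
            by_contra hh
            exact hs' (hrd i (by omega) hi)
          · exact absurd (p3 z (fun i hi e'' => e' ⟨i, hi, e''⟩)) (hcon _ hs'))
        have h5 := Finset.card_image_le (s := Finset.range b) (f := fun i => c (Γ i))
        rw [Finset.card_range] at h5
        omega
      · by_cases e7 : r = 1
        · omega
        · exact Or.inr (Or.inr (by omega))
    · refine Or.inl ?_
      rw [q1, p1 r r e3]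
      intro e'
      have h5 := Nat.mod_lt (r + r) (show 0 < b by omega)
      have := h3 _ (by omega) _ (by omega) (c.injective e')
      rcases lt_or_ge (r + r) b with a | a
      · rw [Nat.mod_eq_of_lt a] at this; omega
      · rw [Nat.mod_eq_sub_mod a, Nat.mod_eq_of_lt (by omega)] at this; omega

end FSDiam
end

-- merged part: Pool.Agent.Work.MP_16c8e2_co.Rank
section
/-! The cycle with one short chord: ranks of the tokens of one colour. -/

namespace FSDiam
open Equiv

/-- The cycle `0, 1, …, n - 1` with the chord from `0` to `2`. -/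
def YC (n : ℕ) : SimpleGraph (Fin n) where
  Adj u v := u ≠ v ∧ (u.val + 1 = v.val ∨ v.val + 1 = u.val ∨ (u.val = 0 ∧ v.val + 1 = n) ∨
    (v.val = 0 ∧ u.val + 1 = n) ∨ (u.val = 0 ∧ v.val = 2) ∨ (v.val = 0 ∧ u.val = 2))
  symm := ⟨fun _ _ h => ⟨h.1.symm, by have := h.2; (clear * - h this; grind)⟩⟩
  loopless := ⟨fun _ h => h.1 rfl⟩

variable {T : Type*} {n : ℕ} (col : T → Bool)

def bl (c : Fin n ≃ T) (z : Fin n) : ℤ := if col (c z) = true then 1 else 0

def rho (c : Fin n ≃ T) (p : ℕ) : ℤ := ∑ z : Fin n, (if z.val < p then 1 else 0) * bl col c z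

def Qs (c : Fin n ≃ T) : ℤ := ∑ z : Fin n, (z.val : ℤ) * (1 - bl col c z)

def rank (c : Fin n ≃ T) (t : T) : ℤ := rho col c (c.symm t).val

variable {col}

theorem sum_swap_weight (w g : Fin n → ℤ) {x y : Fin n} (hxy : x ≠ y) :
    ∑ z, w z * g (swap x y z) = ∑ z, w z * g z + (w x - w y) * (g y - g x) := by
  have : ∑ z, (w z * g (swap x y z) - w z * g z) = (w x - w y) * (g y - g x) := by
    rw [Finset.sum_eq_add_of_mem x y (Finset.mem_univ _) (Finset.mem_univ _) hxy]
    · simp only [swap_apply_left, swap_apply_right]; ring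
    · intro z _ hz
      rw [swap_apply_of_ne_of_ne hz.1 hz.2, sub_self]
  rw [Finset.sum_sub_distrib] at this
  linarith

theorem bl_01 (c : Fin n ≃ T) (z : Fin n) : bl col c z = 0 ∨ bl col c z = 1 := by
  unfold bl; split_ifs <;> simp

theorem rho_zero (c : Fin n ≃ T) : rho col c 0 = 0 := by simp [rho]

theorem rho_succ (c : Fin n ≃ T) (p : Fin n) :
    rho col c (p.val + 1) = rho col c p.val + bl col c p := by
  have : ∑ z : Fin n, ((if z.val < p.val + 1 then 1 else 0) * bl col c z -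
      (if z.val < p.val then 1 else 0) * bl col c z) = bl col c p := by
    rw [Finset.sum_eq_single p]
    · simp
    · intro z _ hz
      have : z.val ≠ p.val := fun e => hz (Fin.ext e)
      by_cases e : z.val < p.val
      · simp [e, show z.val < p.val + 1 by omega]
      · simp [e, show ¬ z.val < p.val + 1 by omega]
    · simp
  rw [Finset.sum_sub_distrib] at this
  unfold rho
  linarith

theorem rho_mono (c : Fin n ≃ T) {p q : ℕ} (h : p ≤ q) : rho col c p ≤ rho col c q := by
  refine Finset.sum_le_sum fun z _ => ?_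
  rcases bl_01 (col := col) c z with e | e <;> rw [e]
  · simp
  · split_ifs <;> omega

theorem sum_bl [Fintype T] (c : Fin n ≃ T) :
    ∑ z, bl col c z = ((Finset.univ.filter fun t => col t = true).card : ℤ) := by
  rw [Finset.card_filter]
  push_cast
  exact Fintype.sum_equiv c _ _ (fun _ => rfl)

theorem rho_top [Fintype T] (c : Fin n ≃ T) :
    rho col c n = ((Finset.univ.filter fun t => col t = true).card : ℤ) := by
  rw [← sum_bl c]; simp [rho]

theorem bl_symm (c : Fin n ≃ T) {t : T} (ht : col t = true) : bl col c (c.symm t) = 1 := by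
  simp [bl, ht]

theorem rank_nonneg (c : Fin n ≃ T) (t : T) : 0 ≤ rank col c t := by
  rw [← rho_zero (col := col) c]; exact rho_mono c (Nat.zero_le _)

theorem rank_lt [Fintype T] (c : Fin n ≃ T) {t : T} (ht : col t = true) :
    rank col c t < ((Finset.univ.filter fun t => col t = true).card : ℤ) := by
  have h1 := rho_succ (col := col) c (c.symm t)
  have h2 := rho_mono (col := col) c (show (c.symm t).val + 1 ≤ n from (c.symm t).2)
  rw [bl_symm c ht] at h1
  rw [rho_top] at h2
  unfold rank; omega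

theorem rank_inj (c : Fin n ≃ T) {t t' : T} (ht : col t = true) (ht' : col t' = true)
    (h : rank col c t = rank col c t') : t = t' := by
  have key : ∀ {t t' : T}, col t = true → (c.symm t).val < (c.symm t').val →
      rank col c t < rank col c t' := by
    intro t t' ht hlt
    have h1 := rho_succ (col := col) c (c.symm t)
    have h2 := rho_mono (col := col) c (show (c.symm t).val + 1 ≤ (c.symm t').val from hlt)
    rw [bl_symm c ht] at h1
    unfold rank; omega
  rcases lt_trichotomy (c.symm t).val (c.symm t').val with a | a | a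
  · have := key ht a; omega
  · exact c.symm.injective (Fin.ext a)
  · have := key ht' a; omega

theorem Qs_nonneg (c : Fin n ≃ T) : 0 ≤ Qs col c := by
  refine Finset.sum_nonneg fun z _ => ?_
  rcases bl_01 (col := col) c z with e | e <;> rw [e] <;> simp

theorem Qs_le [Fintype T] (c : Fin n ≃ T) :
    Qs col c ≤ n * (n - ((Finset.univ.filter fun t => col t = true).card : ℤ)) := by
  have : ∑ z : Fin n, (n : ℤ) * (1 - bl col c z) =
      n * (n - ((Finset.univ.filter fun t => col t = true).card : ℤ)) := by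
    rw [← Finset.mul_sum, Finset.sum_sub_distrib, sum_bl]; simp
  rw [← this]
  refine Finset.sum_le_sum fun z _ => ?_
  rcases bl_01 (col := col) c z with e | e <;> rw [e] <;> simp

theorem step_rank [Fintype T] {c c' : Fin n ≃ T} (h : Step (YC n) col c c') :
    ∃ (f : ℤ) (e : T → ℤ), |n * f - (Qs col c' - Qs col c)| ≤ 2 ∧
      (∃ y : ℕ, ∀ q, 3 ≤ q → q < n →
        |f - (rho col c' q - rho col c q)| ≤ if q = y then 1 else 0) ∧ ∀ t, col t = true →
      rank col c' t ≡ rank col c t + f + e t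
        [ZMOD ((Finset.univ.filter fun t => col t = true).card : ℤ)] ∧
      (e t = 0 ∨ (rank col c t = 0 ∧ e t = 1) ∨ (rank col c t = 1 ∧ e t = -1)) := by
  obtain ⟨x, y, hlt, hadj, hc, rfl⟩ : ∃ x y : Fin n, x.val < y.val ∧
      (x.val + 1 = y.val ∨ (x.val = 0 ∧ y.val + 1 = n) ∨ (x.val = 0 ∧ y.val = 2)) ∧
      col (c x) ≠ col (c y) ∧ c' = (swap x y).trans c := by
    obtain ⟨x, y, ⟨h1, h2⟩, h3, h4⟩ := h
    have : x.val ≠ y.val := fun e => h1 (Fin.ext e)
    rcases lt_or_gt_of_ne this with a | a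
    · exact ⟨x, y, a, by omega, h3, h4⟩
    · exact ⟨y, x, a, by omega, h3.symm, by rw [swap_comm]; exact h4⟩
  have hne : x ≠ y := fun e => by rw [e] at hlt; omega
  have hb : bl col c x + bl col c y = 1 := by
    unfold bl; revert hc; cases col (c x) <;> cases col (c y) <;> simp
  have hx := bl_01 (col := col) c x
  have hr : ∀ q, rho col ((swap x y).trans c) q = rho col c q +
      ((if x.val < q then 1 else 0) - (if y.val < q then 1 else 0)) * (bl col c y - bl col c x) :=
    fun q => sum_swap_weight (fun z => if z.val < q then 1 else 0) (bl col c) hne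
  have hQ : Qs col ((swap x y).trans c) = Qs col c +
      ((x.val : ℤ) - y.val) * ((1 - bl col c y) - (1 - bl col c x)) :=
    sum_swap_weight (fun z => (z.val : ℤ)) (fun z => 1 - bl col c z) hne
  have hk : ∀ t, rank col ((swap x y).trans c) t =
      rho col ((swap x y).trans c) (swap x y (c.symm t)).val := fun t => by simp [rank]
  have sx := rho_succ (col := col) c x
  have sy := rho_succ (col := col) c y
  have top := rho_top (col := col) c
  have r0 := rho_zero (col := col) c
  rcases hadj with a | ⟨a, a'⟩ | ⟨a, a'⟩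
  · refine ⟨0, fun _ => 0, ?_, ⟨y.val, fun q _ _ => ?_⟩, fun t ht => ⟨?_, Or.inl rfl⟩⟩
    · rw [hQ, ← a]; push_cast
      rcases hx with e | e <;> rw [show bl col c y = 1 - bl col c x by omega, e] <;> simp
    · rw [hr, abs_le]
      split_ifs <;> omega
    · have hp := bl_symm c ht
      beta_reduce
      rw [hk, hr, rank]
      generalize c.symm t = p at hp
      refine Eq.subst (motive := fun s => _ ≡ s [ZMOD _]) ?_ (Int.ModEq.refl _)
      by_cases e1 : p = x
      · subst e1
        rw [swap_apply_left, if_pos hlt, if_neg (lt_irrefl _), ← a, sx]; omega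
      by_cases e2 : p = y
      · subst e2
        rw [swap_apply_right, if_neg (lt_irrefl _), if_neg (by omega), ← a, sx]; omega
      · have : p.val ≠ y.val := fun e => e2 (Fin.ext e)
        rw [swap_apply_of_ne_of_ne e1 e2]
        split_ifs <;> omega
  · refine ⟨bl col c y - bl col c x, fun _ => 0, ?_, ⟨0, fun q _ _ => ?_⟩,
      fun t ht => ⟨?_, Or.inl rfl⟩⟩
    · have a'' : (n : ℤ) = y.val + 1 := by omega
      rw [hQ, a, a'']
      rcases hx with e | e <;> rw [show bl col c y = 1 - bl col c x by omega, e] <;> simp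
    · rw [hr, abs_le]
      split_ifs <;> omega
    · have hp := bl_symm c ht
      beta_reduce
      rw [hk, hr, rank]
      generalize c.symm t = p at hp
      rw [a'] at sy
      by_cases e1 : p = x
      · subst e1
        rw [swap_apply_left, if_pos hlt, if_neg (lt_irrefl _), a, r0]
        refine Int.modEq_iff_dvd.2 ⟨-1, by omega⟩
      by_cases e2 : p = y
      · subst e2
        rw [swap_apply_right, if_neg (lt_irrefl _), if_neg (by omega), a, r0]
        refine Int.modEq_iff_dvd.2 ⟨1, by omega⟩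
      · have h1 : p.val ≠ x.val := fun e => e1 (Fin.ext e)
        have h2 := p.2
        rw [swap_apply_of_ne_of_ne e1 e2, if_pos (by omega), if_neg (by omega)]
        simp
  · refine ⟨0, fun t => rank col ((swap x y).trans c) t - rank col c t, ?_,
      ⟨0, fun q _ _ => ?_⟩, fun t ht => ⟨by simp, ?_⟩⟩
    · rw [hQ, a, a']
      rcases hx with e | e <;> rw [show bl col c y = 1 - bl col c x by omega, e] <;> simp
    · rw [hr, abs_le]
      split_ifs <;> omega
    · have hp := bl_symm c ht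
      beta_reduce
      rw [hk, hr, rank]
      generalize c.symm t = p at hp
      have s1 := rho_succ (col := col) c ⟨1, by have := y.2; omega⟩
      have h1 := bl_01 (col := col) c ⟨1, by have := y.2; omega⟩
      rw [a] at sx
      simp only [zero_add, Nat.reduceAdd] at s1 sx
      by_cases e1 : p = x
      · subst e1
        rw [swap_apply_left, if_pos hlt, if_neg (lt_irrefl _), a, a']; omega
      by_cases e2 : p = y
      · subst e2
        rw [swap_apply_right, if_neg (lt_irrefl _), if_neg (by omega), a, a']; omega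
      · have g1 : p.val ≠ x.val := fun e => e1 (Fin.ext e)
        have g2 : p.val ≠ y.val := fun e => e2 (Fin.ext e)
        rw [swap_apply_of_ne_of_ne e1 e2, if_pos (by omega)]
        by_cases e3 : p.val = 1
        · rw [if_neg (by omega), e3]; omega
        · rw [if_pos (by omega)]; simp

end FSDiam
end

-- merged part: Pool.Agent.Work.MP_16c8e2_co.Bridge
section
/-! Bridges, and the admissibility of the cycle with a short chord. -/

namespace FSDiam

theorem IBr.hasBridge {V : Type} [Finite V] {Y : SimpleGraph V} {k : ℕ} (hc : Y.Connected)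
    (hk : 3 ≤ k) (h : IBr Y k) : HasBridge Y k := by
  classical
  obtain ⟨γ, Z, z0, z1, hinj, hadj, hdeg, h0, hZ, hcut, a0, a0', a1, a1'⟩ := h
  have in0 : ¬ ∃ j, 0 < j ∧ j + 1 < k ∧ γ 0 = γ j := by
    rintro ⟨j, h1, h2, e⟩
    have := hinj _ (by omega) _ (by omega) e; omega
  have in1 : ¬ ∃ j, 0 < j ∧ j + 1 < k ∧ γ (k - 1) = γ j := by
    rintro ⟨j, h1, h2, e⟩
    have := hinj _ (by omega) _ (by omega) e; omega
  have nadj : ¬ Y.Adj (γ 0) (γ (k - 1)) := fun hh => by
    have := hinj _ (by omega) _ (by omega) (hcut _ h0 _ (hZ (k - 1) (by omega) (by omega)) hh).2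
    omega
  have nb : ∀ j, 0 < j → j + 1 < k → ∀ z, Y.Adj (γ j) z → z = γ (j - 1) ∨ z = γ (j + 1) := by
    intro j h1 h2 z hz
    obtain ⟨j, rfl⟩ : ∃ l, j = l + 1 := ⟨j - 1, by omega⟩
    exact hdeg j h2 z hz
  let W := {x : V // ¬ ∃ j, 0 < j ∧ j + 1 < k ∧ x = γ j}
  let s : W := ⟨γ 0, in0⟩
  let t : W := ⟨γ (k - 1), in1⟩
  have hst : s ≠ t := fun e => by
    have := hinj _ (by omega) _ (by omega) (congrArg Subtype.val e); omega
  let G : SimpleGraph W := Y.comap Subtype.val ⊔ SimpleGraph.edge s t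
  have Gadj : ∀ a b : W, G.Adj a b ↔ Y.Adj a.1 b.1 ∨ (a = s ∧ b = t ∨ a = t ∧ b = s) := by
    intro a b
    simp only [G, SimpleGraph.sup_adj, SimpleGraph.comap_adj, SimpleGraph.edge_adj]
    refine or_congr_right ⟨fun h => h.1, fun h => ⟨h, ?_⟩⟩
    rcases h with ⟨rfl, rfl⟩ | ⟨rfl, rfl⟩
    · exact hst
    · exact hst.symm
  have Gst : G.Adj s t := (Gadj _ _).2 (Or.inr (Or.inl ⟨rfl, rfl⟩))
  have two : ∀ (a p : W) (z : V), G.Adj a p → Y.Adj a.1 z → z ≠ p.1 →
      (¬ ∃ j, 0 < j ∧ j + 1 < k ∧ z = γ j) → (G.neighborSet a).ncard ≠ 1 := by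
    intro a p z h1 h2 h3 h4 h5
    obtain ⟨u, hu⟩ := Set.ncard_eq_one.1 h5
    have e1 : p ∈ G.neighborSet a := h1
    have e2 : (⟨z, h4⟩ : W) ∈ G.neighborSet a := (Gadj _ _).2 (Or.inl h2)
    rw [hu] at e1 e2
    exact h3 (congrArg Subtype.val (e2.trans e1.symm))
  refine ⟨γ, W, G, Subtype.val, s, t, hinj, Subtype.val_injective, fun x => by simp [W], rfl, rfl,
    ?_, Gst, fun hcon => ?_, two s t z0 Gst a0 (fun e => nadj (by rw [e] at a0; exact a0)) ?_,
    two t s z1 Gst.symm a1 (fun e => nadj (by rw [e] at a1; exact a1.symm)) ?_, fun x y => ⟨fun hxy => ?_, ?_⟩⟩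
  · let f : V → W := fun x => if h : ¬ ∃ j, 0 < j ∧ j + 1 < k ∧ x = γ j then ⟨x, h⟩ else s
    have f1 : ∀ a : W, f a.1 = a := fun a => dif_pos a.2
    have half : ∀ x y, Y.Adj x y → (∃ j, 0 < j ∧ j + 1 < k ∧ x = γ j) → G.Reachable s (f y) := by
      rintro x y hxy ⟨j, h1, h2, rfl⟩
      by_cases e : ∃ j, 0 < j ∧ j + 1 < k ∧ y = γ j
      · rw [show f y = s from dif_neg (not_not.2 e)]
      rcases nb j h1 h2 y hxy with e' | e'
      · have : j - 1 = 0 := by
          by_contra hh
          exact e ⟨j - 1, by omega, by omega, e'⟩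
        rw [e', this, f1 s]
      · have : j + 1 = k - 1 := by
          by_contra hh
          exact e ⟨j + 1, by omega, by omega, e'⟩
        rw [e', this, f1 t]
        exact Gst.reachable
    have edge : ∀ x y, Y.Adj x y → G.Reachable (f x) (f y) := by
      intro x y hxy
      by_cases e1 : ∃ j, 0 < j ∧ j + 1 < k ∧ x = γ j
      · rw [show f x = s from dif_neg (not_not.2 e1)]; exact half x y hxy e1
      by_cases e2 : ∃ j, 0 < j ∧ j + 1 < k ∧ y = γ j
      · rw [show f y = s from dif_neg (not_not.2 e2)]; exact (half y x hxy.symm e2).symm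
      · rw [f1 ⟨x, e1⟩, f1 ⟨y, e2⟩]
        exact ((Gadj ⟨x, e1⟩ ⟨y, e2⟩).2 (Or.inl hxy)).reachable
    have all : ∀ x, G.Reachable s (f x) := by
      intro x
      have hr := (SimpleGraph.reachable_iff_reflTransGen _ _).1 (hc.preconnected (γ 0) x)
      induction hr with
      | refl => rw [f1 s]
      | tail _ hh ih => exact ih.trans (edge _ _ hh)
    have : Nonempty W := ⟨s⟩
    exact ⟨fun a b => by simpa [f1] using (all a.1).symm.trans (all b.1)⟩
  · have hr := (SimpleGraph.reachable_iff_reflTransGen _ _).1 (hcon.preconnected s t)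
    have key : ∀ a : W, Relation.ReflTransGen (G.deleteEdges {s(s, t)}).Adj s a → a.1 ∈ Z := by
      intro a ha
      induction ha with
      | refl => exact h0
      | @tail b c _ hh ih =>
        rw [SimpleGraph.deleteEdges_adj, Gadj] at hh
        rcases hh.1 with h1 | h1
        · by_contra hn
          exact c.2 ⟨1, by omega, by omega, (hcut _ ih _ hn h1).2⟩
        · exact absurd (Sym2.eq_iff.2 h1) hh.2
    exact hZ (k - 1) (by omega) (by omega) (key t hr)
  · rintro ⟨j, h1, h2, rfl⟩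
    rcases nb j h1 h2 _ a0.symm with e | e
    · have := hinj _ (by omega) _ (by omega) e
      exact a0' (by rw [show j = 1 by omega])
    · have := hinj _ (by omega) _ (by omega) e
      omega
  · rintro ⟨j, h1, h2, rfl⟩
    rcases nb j h1 h2 _ a1.symm with e | e
    · have := hinj _ (by omega) _ (by omega) e
      omega
    · have := hinj _ (by omega) _ (by omega) e
      exact a1' (by rw [show j = k - 2 by omega])
  · have half : ∀ x y, Y.Adj x y → (∃ j, 0 < j ∧ j + 1 < k ∧ x = γ j) →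
        ∃ j, j + 1 < k ∧ s(x, y) = s(γ j, γ (j + 1)) := by
      rintro x y hxy ⟨j, h1, h2, rfl⟩
      rcases nb j h1 h2 y hxy with e | e
      · exact ⟨j - 1, by omega, by rw [e, show j - 1 + 1 = j by omega, Sym2.eq_swap]⟩
      · exact ⟨j, h2, by rw [e]⟩
    by_cases e1 : ∃ j, 0 < j ∧ j + 1 < k ∧ x = γ j
    · exact Or.inr (half x y hxy e1)
    by_cases e2 : ∃ j, 0 < j ∧ j + 1 < k ∧ y = γ j
    · obtain ⟨j, hj, e⟩ := half y x hxy.symm e2
      exact Or.inr ⟨j, hj, Sym2.eq_swap.trans e⟩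
    refine Or.inl ⟨⟨x, e1⟩, ⟨y, e2⟩, (Gadj _ _).2 (Or.inl hxy), fun e => ?_, rfl, rfl⟩
    rcases Sym2.eq_iff.1 e with ⟨b1, b2⟩ | ⟨b1, b2⟩
    · have c1 : x = γ 0 := congrArg Subtype.val b1
      have c2 : y = γ (k - 1) := congrArg Subtype.val b2
      exact nadj (c1 ▸ c2 ▸ hxy)
    · have c1 : x = γ (k - 1) := congrArg Subtype.val b1
      have c2 : y = γ 0 := congrArg Subtype.val b2
      exact nadj (c1 ▸ c2 ▸ hxy.symm)
  · rintro (⟨a, b, h1, h2, rfl, rfl⟩ | ⟨j, hj, e⟩)
    · rcases (Gadj _ _).1 h1 with h | h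
      · exact h
      · exact absurd (Sym2.eq_iff.2 h) h2
    · rcases Sym2.eq_iff.1 e with ⟨rfl, rfl⟩ | ⟨rfl, rfl⟩
      · exact hadj j hj
      · exact (hadj j hj).symm

theorem HasBridge.cut {V : Type} {Y : SimpleGraph V} {k : ℕ} (hk : 3 ≤ k) (h : HasBridge Y k) :
    ∃ (Z : Set V) (p q : V), p ∈ Z ∧ q ∉ Z ∧ ∀ x ∈ Z, ∀ y, y ∉ Z → Y.Adj x y → x = p ∧ y = q := by
  obtain ⟨v, W, G, ι, s, t, hinj, hι, hr, hs, ht, hG, -, hcut, -, -, hadj⟩ := h
  have hb : ¬ (G.deleteEdges {s(s, t)}).Reachable s t := fun hh =>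
    hcut (hG.connected_delete_edge_of_not_isBridge (not_not.2 hh))
  have out : ∀ j, 1 ≤ j → j < k → v j ∉ ι '' {a | (G.deleteEdges {s(s, t)}).Reachable s a} := by
    rintro j h1 h2 ⟨a, ha, e⟩
    by_cases e1 : j = k - 1
    · rw [e1, ← ht] at e
      exact hb (hι e ▸ ha)
    · exact (hr (v j)).1 ⟨a, e⟩ ⟨j, by omega, by omega, rfl⟩
  refine ⟨ι '' {a | (G.deleteEdges {s(s, t)}).Reachable s a}, v 0, v 1,
    ⟨s, SimpleGraph.Reachable.refl _, hs⟩, out 1 le_rfl (by omega), ?_⟩
  intro x hx y hy hxy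
  rcases (hadj x y).1 hxy with ⟨a, b, h1, h2, rfl, rfl⟩ | ⟨j, hj, e⟩
  · obtain ⟨a', ha', e⟩ := hx
    rw [hι e] at ha'
    refine absurd ⟨b, SimpleGraph.Reachable.trans ha' (SimpleGraph.Adj.reachable ?_), rfl⟩ hy
    rw [SimpleGraph.deleteEdges_adj]
    exact ⟨h1, h2⟩
  · rcases Sym2.eq_iff.1 e with ⟨rfl, rfl⟩ | ⟨rfl, rfl⟩
    · have : j = 0 := by
        by_contra hh
        exact out j (by omega) (by omega) hx
      subst this
      exact ⟨rfl, rfl⟩
    · exact absurd hx (out _ (by omega) hj)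

theorem succ_closed {n : ℕ} (P : Fin n → Prop)
    (h : ∀ i j : Fin n, (i.val + 1 = j.val ∨ (j.val = 0 ∧ i.val + 1 = n)) → P i → P j)
    (a b : Fin n) (ha : P a) : P b := by
  have up : ∀ (a : Fin n), P a → ∀ (j : ℕ) (hj : a.val + j < n), P ⟨a.val + j, hj⟩ := by
    intro a ha j
    induction j with
    | zero => exact fun _ => ha
    | succ j ih => exact fun hj => h ⟨a.val + j, by omega⟩ _ (Or.inl rfl) (ih (by omega))
  have h1 := up a ha (n - 1 - a.val) (by have := a.2; omega)
  have h2 : P ⟨0, by have := a.2; omega⟩ :=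
    h _ _ (Or.inr ⟨rfl, by have := a.2; simp only; omega⟩) h1
  simpa using up _ h2 b.val (by simp)

theorem YC_succ {n : ℕ} (hn : 3 ≤ n) {i j : Fin n}
    (h : i.val + 1 = j.val ∨ (j.val = 0 ∧ i.val + 1 = n)) : (YC n).Adj i j :=
  ⟨fun e => by rw [e] at h; omega, by omega⟩

theorem YC_admissible {k n : ℕ} (hk : 3 ≤ k) (hn : 4 ≤ n) : Admissible k (YC n) := by
  have a01 : (YC n).Adj ⟨0, by omega⟩ ⟨1, by omega⟩ := YC_succ (by omega) (Or.inl rfl)
  have a12 : (YC n).Adj ⟨1, by omega⟩ ⟨2, by omega⟩ := YC_succ (by omega) (Or.inl rfl)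
  have a02 : (YC n).Adj ⟨0, by omega⟩ ⟨2, by omega⟩ := ⟨by simp, by simp⟩
  have a0n : (YC n).Adj ⟨0, by omega⟩ ⟨n - 1, by omega⟩ :=
    (YC_succ (by omega) (Or.inr ⟨rfl, by simp only; omega⟩)).symm
  refine ⟨?_, ?_, fun h => ?_, ⟨fun f => ?_⟩⟩
  · have : Nonempty (Fin n) := ⟨⟨0, by omega⟩⟩
    exact ⟨fun a b => succ_closed (fun x => (YC n).Reachable a x)
      (fun i j hij hi => hi.trans (YC_succ (by omega) hij).reachable) a b
      (SimpleGraph.Reachable.refl _)⟩
  · rintro ⟨C⟩
    have h1 := C.valid a01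
    have h2 := C.valid a12
    have h3 := C.valid a02
    generalize C ⟨0, _⟩ = x at *
    generalize C ⟨1, _⟩ = y at *
    generalize C ⟨2, _⟩ = z at *
    revert x y z
    decide
  · obtain ⟨Z, p, q, hp, hq, hcut⟩ := h.cut hk
    have h1 : ∃ i j : Fin n, (i.val + 1 = j.val ∨ (j.val = 0 ∧ i.val + 1 = n)) ∧ i ∈ Z ∧ j ∉ Z := by
      by_contra hcon
      push Not at hcon
      exact hq (succ_closed (fun x => x ∈ Z) hcon p q hp)
    have h2 : ∃ i j : Fin n, (i.val + 1 = j.val ∨ (j.val = 0 ∧ i.val + 1 = n)) ∧ i ∉ Z ∧ j ∈ Z := by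
      by_contra hcon
      push Not at hcon
      exact succ_closed (fun x => x ∉ Z) hcon q p hq hp
    obtain ⟨i, j, g1, g2, g3⟩ := h1
    obtain ⟨i', j', g1', g2', g3'⟩ := h2
    obtain ⟨rfl, rfl⟩ := hcut i g2 j g3 (YC_succ (by omega) g1)
    obtain ⟨rfl, rfl⟩ := hcut j' g3' i' g2' (YC_succ (by omega) g1').symm
    omega
  · have b1 := (cyc_adj_iff (by omega) _ _).1 (f.map_adj_iff.2 a01)
    have b2 := (cyc_adj_iff (by omega) _ _).1 (f.map_adj_iff.2 a02)
    have b3 := (cyc_adj_iff (by omega) _ _).1 (f.map_adj_iff.2 a0n)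
    have ne : ∀ x y : Fin n, x.val ≠ y.val → (f x).val ≠ (f y).val :=
      fun x y hxy e => hxy (congrArg Fin.val (f.injective (Fin.ext e)))
    have c1 := ne ⟨1, by omega⟩ ⟨2, by omega⟩ (by simp)
    have c2 := ne ⟨1, by omega⟩ ⟨n - 1, by omega⟩ (by simp only; omega)
    have c3 := ne ⟨2, by omega⟩ ⟨n - 1, by omega⟩ (by simp only; omega)
    have d0 := (f ⟨0, by omega⟩).2
    have d1 := (f ⟨1, by omega⟩).2
    have d2 := (f ⟨2, by omega⟩).2
    have d3 := (f ⟨n - 1, by omega⟩).2
    omega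

end FSDiam
end

-- merged part: Pool.Agent.Work.MP_16c8e2_co.Algebra
section
/-! From exchanges, one odd element and one element trivial on a colour to all permutations. -/

namespace FSDiam
open Equiv

variable {V T : Type*} [DecidableEq V] [Fintype T] [DecidableEq T] {Y : SimpleGraph V}
  {col : T → Bool} {κ : Bool} {c : V ≃ T} {P : ℕ}

omit [Fintype T] [DecidableEq T] in
theorem same_col {x y : T} (hx : col x ≠ κ) (hy : col y ≠ κ) : col y = col x := by
  revert hx hy; cases col x <;> cases col y <;> cases κ <;> simp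

omit [Fintype T] [DecidableEq T] in
theorem triv_col {χ : Perm T} (h : ∀ t, col t = κ → χ t = t) {x : T} (hx : col x ≠ κ) :
    col (χ x) ≠ κ := by
  intro hh
  have := χ.injective (h _ hh)
  rw [this] at hh
  exact hx hh

omit [Fintype T] in
theorem triv_swap {x y : T} (hx : col x ≠ κ) (hy : col y ≠ κ) (t : T) (ht : col t = κ) :
    swap x y t = t :=
  swap_apply_of_ne_of_ne (by rintro rfl; exact hx ht) (by rintro rfl; exact hy ht)

theorem conj_swap (hP : ∀ B B', col B' = col B → Pure Y col P c B B') {χ : Perm T} {N : ℕ}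
    (h : ∀ t, col t = κ → χ t = t) (hH : H Y col N c χ) {x y : T} (hx : col x ≠ κ)
    (hy : col y ≠ κ) : H Y col (N + 2 * P) c (swap x y * χ * swap x y) := by
  obtain ⟨h0, φ, h1, -, h3⟩ := hP x y (same_col hx hy)
  have e : φ * χ * φ⁻¹ = swap x y * χ * swap x y := by
    ext t
    simp only [Perm.mul_apply]
    by_cases ht : col t = κ
    · rw [h _ (by rw [h1.inv.1, ht]), triv_swap hx hy t ht, h t ht, triv_swap hx hy t ht]; simp
    · have a0 : col (swap x y t) ≠ κ := by rw [col_swap h0]; exact ht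
      have a1 : φ⁻¹ t = swap x y t := by
        rw [Perm.inv_eq_iff_eq, h3 _ (same_col hx a0)]; simp
      rw [a1, h3 _ (same_col hx (triv_col h a0))]
  rw [← e]
  exact ((h1.mul hH).mul h1.inv).mono (by omega)

theorem comm_swap (hP : ∀ B B', col B' = col B → Pure Y col P c B B') {χ : Perm T} {N : ℕ}
    (h : ∀ t, col t = κ → χ t = t) (hH : H Y col N c χ) {x y : T} (hx : col x ≠ κ)
    (hy : col y ≠ κ) : H Y col (2 * N + 2 * P) c (swap (χ x) (χ y) * swap x y) := by
  have h' : ∀ t, col t = κ → χ⁻¹ t = t := fun t ht => by rw [Perm.inv_eq_iff_eq, h t ht]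
  have := hH.mul (conj_swap hP h' hH.inv hx hy)
  rw [swap_apply_apply]
  simp only [mul_assoc] at this ⊢
  exact this.mono (by omega)

/-- A three-cycle on tokens not of colour `κ`. -/
def Tri (Y : SimpleGraph V) (col : T → Bool) (κ : Bool) (c : V ≃ T) (N : ℕ) (x y z : T) : Prop :=
  col x ≠ κ ∧ col y ≠ κ ∧ col z ≠ κ ∧ x ≠ y ∧ y ≠ z ∧ x ≠ z ∧ H Y col N c (swap x y * swap y z)

theorem tri_fixed (hP : ∀ B B', col B' = col B → Pure Y col P c B B') {χ : Perm T} {N : ℕ}
    (h : ∀ t, col t = κ → χ t = t) (hH : H Y col N c χ) {a e : T} (ha : χ a ≠ a) (he : col e ≠ κ)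
    (he' : χ e = e) : Tri Y col κ c (2 * N + 2 * P) (χ a) e a := by
  have hac : col a ≠ κ := fun hh => ha (h a hh)
  have := comm_swap hP h hH hac he
  rw [he', swap_comm a e] at this
  refine ⟨triv_col h hac, he, hac, fun hh => ?_, by rintro rfl; exact ha he', ha, this⟩
  rw [← he'] at hh
  rw [χ.injective hh] at ha
  exact ha he'

theorem tri_base (hP : ∀ B B', col B' = col B → Pure Y col P c B B') {χ : Perm T}
    (h : ∀ t, col t = κ → χ t = t) (hH : H Y col P c χ) {a : T} (ha : χ a ≠ a)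
    (hc : χ (χ a) ≠ a ∨ (∃ e, col e ≠ κ ∧ χ e = e) ∨
      5 ≤ (Finset.univ.filter fun t => col t ≠ κ).card) :
    ∃ x y z, Tri Y col κ c (10 * P) x y z := by
  have hac : col a ≠ κ := fun hh => ha (h a hh)
  have mono : ∀ {N x y z}, Tri Y col κ c N x y z → N ≤ 10 * P → Tri Y col κ c (10 * P) x y z :=
    fun ⟨h1, h2, h3, h4, h5, h6, h7⟩ hN => ⟨h1, h2, h3, h4, h5, h6, h7.mono hN⟩
  rcases hc with hc | ⟨e, he, he'⟩ | hc
  · have := comm_swap hP h hH hac (triv_col h hac)
    rw [swap_comm (χ a), swap_comm a] at this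
    exact ⟨χ (χ a), χ a, a, triv_col h (triv_col h hac), triv_col h hac, hac,
      fun hh => ha (χ.injective hh), ha, hc, this.mono (by omega)⟩
  · exact ⟨_, _, _, mono (tri_fixed hP h hH ha he he') (by omega)⟩
  · have pick : ∀ S : Finset T, S.card ≤ 4 → ∃ e, col e ≠ κ ∧ e ∉ S := by
      intro S hS
      by_contra hcon
      push Not at hcon
      have := Finset.card_le_card (show (Finset.univ.filter fun t => col t ≠ κ) ⊆ S from
        fun t ht => hcon t (by simpa using ht))
      omega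
    obtain ⟨b, hb, hb'⟩ := pick {a, χ a} (Finset.card_le_two.trans (by omega))
    by_cases e1 : χ b = b
    · exact ⟨_, _, _, mono (tri_fixed hP h hH ha hb e1) (by omega)⟩
    obtain ⟨e, he, he'⟩ := pick {a, χ a, b, χ b} Finset.card_le_four
    simp only [Finset.mem_insert, Finset.mem_singleton, not_or] at hb' he'
    have g1 := comm_swap hP h hH hac hb
    refine ⟨_, _, _, mono (tri_fixed (a := a) hP (fun t ht => ?_) g1 ?_ he ?_) (by omega)⟩
    · rw [Perm.mul_apply, triv_swap hac hb t ht, triv_swap (triv_col h hac) (triv_col h hb) t ht]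
    · rw [Perm.mul_apply, swap_apply_left, swap_apply_of_ne_of_ne hb'.2 (Ne.symm e1)]
      exact hb'.1
    · rw [Perm.mul_apply, swap_apply_of_ne_of_ne he'.1 he'.2.2.1,
        swap_apply_of_ne_of_ne he'.2.1 he'.2.2.2]

theorem Tri.conj (hP : ∀ B B', col B' = col B → Pure Y col P c B B') {N : ℕ} {x y z u w : T}
    (h : Tri Y col κ c N x y z) (hu : col u ≠ κ) (hw : col w ≠ κ) :
    Tri Y col κ c (N + 2 * P) (swap u w x) (swap u w y) (swap u w z) := by
  obtain ⟨h1, h2, h3, h4, h5, h6, h7⟩ := h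
  have hc := col_swap (same_col hu hw)
  refine ⟨by rwa [hc], by rwa [hc], by rwa [hc], (swap u w).injective.ne h4,
    (swap u w).injective.ne h5, (swap u w).injective.ne h6, ?_⟩
  have := conj_swap hP (fun t ht => by
    rw [Perm.mul_apply, triv_swap h2 h3 t ht, triv_swap h1 h2 t ht]) h7 hu hw
  rw [swap_apply_apply, swap_apply_apply]
  simpa [mul_assoc] using this

theorem Tri.all (hP : ∀ B B', col B' = col B → Pure Y col P c B B') {N : ℕ} {x y z : T}
    (h : Tri Y col κ c N x y z) {x' y' z' : T} (hx : col x' ≠ κ) (hy : col y' ≠ κ)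
    (hz : col z' ≠ κ) (hxy : x' ≠ y') (hyz : y' ≠ z') :
    H Y col (N + 6 * P) c (swap x' y' * swap y' z') := by
  by_cases hxz : x' = z'
  · rw [← hxz, swap_comm y', swap_mul_self]; exact H.one _ _
  have t1 := h.conj hP h.1 hx
  rw [swap_apply_left] at t1
  have t2 := t1.conj hP t1.2.1 hy
  rw [swap_apply_left, swap_apply_of_ne_of_ne t1.2.2.2.1 hxy] at t2
  have t3 := t2.conj hP t2.2.2.1 hz
  rw [swap_apply_left, swap_apply_of_ne_of_ne t2.2.2.2.2.2.1 hxz,
    swap_apply_of_ne_of_ne t2.2.2.2.2.1 hyz] at t3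
  exact t3.2.2.2.2.2.2.mono (by omega)

theorem Tri.pair (hP : ∀ B B', col B' = col B → Pure Y col P c B B') {N : ℕ} {x y z : T}
    (h : Tri Y col κ c N x y z) {p q u w : T} (hp : col p ≠ κ) (hq : col q ≠ κ)
    (hu : col u ≠ κ) (hw : col w ≠ κ) (hpq : p ≠ q) (huw : u ≠ w) :
    H Y col (2 * (N + 6 * P)) c (swap p q * swap u w) := by
  by_cases e : q = u
  · subst e; exact (h.all hP hp hq hw hpq huw).mono (by omega)
  have := (h.all hP hp hq hu hpq e).mul (h.all hP hq hu hw e huw)
  rw [mul_assoc, swap_mul_self_mul] at this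
  exact this.mono (by omega)

theorem sort_triv {Q : ℕ} {x0 y0 : T} (hx0 : col x0 ≠ κ) (hy0 : col y0 ≠ κ) (h0 : x0 ≠ y0)
    (hQ : ∀ p q u w, col p ≠ κ → col q ≠ κ → col u ≠ κ → col w ≠ κ → p ≠ q → u ≠ w →
      H Y col Q c (swap p q * swap u w)) (N : ℕ) :
    ∀ ψ : Perm T, ψ.support.card ≤ N → (∀ t, col t = κ → ψ t = t) →
      (Perm.sign ψ = 1 ∧ H Y col (N * Q) c ψ) ∨
      (Perm.sign ψ = -1 ∧ H Y col (N * Q) c (swap x0 y0 * ψ)) := by
  induction N with
  | zero =>
    intro ψ hψ _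
    have : ψ = 1 := by simpa using hψ
    subst this
    exact Or.inl ⟨by simp, H.one _ _⟩
  | succ N ih =>
    intro ψ hψ ht
    by_cases e : ψ = 1
    · subst e; exact Or.inl ⟨by simp, H.one _ _⟩
    obtain ⟨x, hx⟩ : ∃ x, ψ x ≠ x := by
      by_contra hcon
      push Not at hcon
      exact e (by ext t; simp [hcon])
    have hxc : col x ≠ κ := fun hh => hx (ht x hh)
    have hxc' := triv_col ht hxc
    have h1 := Perm.card_support_swap_mul hx
    have hs : Perm.sign (swap x (ψ x) * ψ) = - Perm.sign ψ := by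
      rw [Perm.sign_mul, Perm.sign_swap hx.symm]; simp
    rcases ih (swap x (ψ x) * ψ) (by omega) (fun t hh => by
      rw [Perm.mul_apply, ht t hh, triv_swap hxc hxc' t hh]) with ⟨g1, g2⟩ | ⟨g1, g2⟩
    · have := (hQ _ _ _ _ hx0 hy0 hxc hxc' h0 hx.symm).mul g2
      rw [mul_assoc, swap_mul_self_mul] at this
      refine Or.inr ⟨?_, this.mono (by rw [Nat.succ_mul]; omega)⟩
      rw [hs] at g1; exact neg_eq_iff_eq_neg.1 g1
    · have := (hQ _ _ _ _ hxc hxc' hx0 hy0 hx.symm h0).mul g2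
      rw [mul_assoc, swap_mul_self_mul, swap_mul_self_mul] at this
      refine Or.inl ⟨?_, this.mono (by rw [Nat.succ_mul]; omega)⟩
      rw [hs] at g1; exact neg_inj.1 g1

theorem sort_red (hP : ∀ B B', col B' = col B → Pure Y col P c B B') (N : ℕ) :
    ∀ ψ : Perm T, ψ.support.card ≤ N → (∀ t, col (ψ t) = col t) →
      ∃ φ, H Y col (N * P) c φ ∧ Perm.sign φ = 1 ∧ ∀ t, col t = κ → φ t = ψ t := by
  induction N with
  | zero =>
    intro ψ hψ _
    have : ψ = 1 := by simpa using hψ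
    subst this
    exact ⟨1, H.one _ _, by simp, fun _ _ => rfl⟩
  | succ N ih =>
    intro ψ hψ ht
    by_cases e : ∀ t, col t = κ → ψ t = t
    · exact ⟨1, H.one _ _, by simp, fun t hh => (e t hh).symm⟩
    push Not at e
    obtain ⟨x, hxc, hx⟩ := e
    have h1 := Perm.card_support_swap_mul hx
    have hc : ∀ t, col ((swap x (ψ x) * ψ) t) = col t := fun t => by
      rw [Perm.mul_apply, col_swap (ht x), ht]
    obtain ⟨φ, g1, g2, g3⟩ := ih (swap x (ψ x) * ψ) (by omega) hc
    obtain ⟨-, φ0, f1, f2, f3⟩ := hP x (ψ x) (ht x)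
    refine ⟨φ0 * φ, (f1.mul g1).mono (by rw [Nat.succ_mul]; omega), by simp [g2, f2],
      fun t hh => ?_⟩
    rw [Perm.mul_apply, g3 t hh, f3 _ (by rw [hc, hh, hxc])]
    simp

theorem all_perms (hP : ∀ B B', col B' = col B → Pure Y col P c B B') {ω χ : Perm T}
    (hω : H Y col P c ω) (hω' : Perm.sign ω = -1)
    (h : ∀ t, col t = κ → χ t = t) (hH : H Y col P c χ) {a : T} (ha : χ a ≠ a)
    (hc : χ (χ a) ≠ a ∨ (∃ e, col e ≠ κ ∧ χ e = e) ∨
      5 ≤ (Finset.univ.filter fun t => col t ≠ κ).card) (ψ : Perm T)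
    (hψ : ∀ t, col (ψ t) = col t) : H Y col (P + 33 * Fintype.card T * P) c ψ := by
  obtain ⟨x, y, z, tr⟩ := tri_base hP h hH ha hc
  have even : ∀ ψ : Perm T, (∀ t, col (ψ t) = col t) → Perm.sign ψ = 1 →
      H Y col (33 * Fintype.card T * P) c ψ := by
    intro ψ hψ hs
    obtain ⟨φ, g1, g2, g3⟩ := sort_red (κ := κ) hP (Fintype.card T) ψ (Finset.card_le_univ _) hψ
    rcases sort_triv tr.1 tr.2.1 tr.2.2.2.1
      (fun p q u w hp hq hu hw hpq huw => tr.pair hP hp hq hu hw hpq huw) (Fintype.card T)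
      (φ⁻¹ * ψ) (Finset.card_le_univ _) (fun t ht => by
        rw [Perm.mul_apply, Perm.inv_eq_iff_eq, g3 t ht]) with ⟨-, f2⟩ | ⟨f1, -⟩
    · have := g1.mul f2
      rw [mul_inv_cancel_left] at this
      exact this.mono (le_of_eq (by ring))
    · simp [g2, hs] at f1
  rcases Int.units_eq_one_or (Perm.sign ψ) with hs | hs
  · exact (even ψ hψ hs).mono (by omega)
  · have := hω.mul (even (ω⁻¹ * ψ) (fun t => by rw [Perm.mul_apply, hω.inv.1, hψ])
      (by simp [hω', hs]))
    rwa [mul_inv_cancel_left] at this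

end FSDiam
end

-- merged part: Pool.Agent.Work.MP_16c8e2_co.Upper
section
/-! The cubic upper bound. -/

namespace FSDiam
open Equiv

variable {V T : Type*} {Y : SimpleGraph V} {col : T → Bool}
variable [DecidableEq V] [Fintype V] [Fintype T] [DecidableEq T]

theorem upper (κ : Bool) (hc : Y.Connected) (hnb : ¬ Y.Colorable 2) {v : V} (hJ : Jn Y v) {k m : ℕ}
    (hbr : ¬ IBr Y k) (hk : (Finset.univ.filter fun t => col t = κ).card = k)
    (hm : (Finset.univ.filter fun t => col t ≠ κ).card = m) (h3k : 3 ≤ k) (hkm : k ≤ m)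
    (c0 c' : V ≃ T) : Rn Y col (12000 * Fintype.card V ^ 3) c0 c' := by
  obtain ⟨c, r1, r2, r3⟩ := arrange_exact (col := col) hc κ c0
    (Finset.univ.filter fun x => col (c' x) = κ) (card_col κ c').le
  have hP : ∀ B B', col B' = col B →
      Pure Y col (350 * (Fintype.card V * Fintype.card V)) c B B' := by
    intro B B' hB
    by_cases e : col B = κ
    · refine all_pairs (!κ) hc h3k hbr hJ ?_ c (by rw [e]; cases κ <;> simp)
        (by rw [hB, e]; cases κ <;> simp)
      have : (Finset.univ.filter fun t => col t = !κ) = Finset.univ.filter fun t => col t ≠ κ := by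
        ext t; cases κ <;> simp
      rw [this]; omega
    · exact all_pairs κ hc h3k hbr hJ hk.ge c e (by rwa [hB])
  obtain ⟨ω, χ, w1, w2, w3, w4, a, w5, w6⟩ := odd_and_triv κ hc hnb hk hm h3k hkm c
  have := all_perms (κ := κ) hP (w1.mono (by omega)) w2 w4 (w3.mono (by omega)) w5 (by rwa [hm])
    (c.symm.trans c') (fun t => by
      obtain ⟨z, rfl⟩ := c.surjective t
      have g1 : col (c' z) = κ → col (c z) = κ := fun hh => r2 z (by simpa using hh)
      have g2 : col (c z) = κ → col (c' z) = κ := fun hh => by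
        simpa using r3 (card_col κ c') z hh
      simp only [trans_apply, symm_apply_apply]
      revert g1 g2
      cases col (c z) <;> cases col (c' z) <;> cases κ <;> simp)
  have e : c.trans (c.symm.trans c') = c' := by ext z; simp
  have h2 := this.2
  rw [e, ← Fintype.card_congr c] at h2
  refine (r1.trans h2).mono ?_
  have a3 : 3 ≤ Fintype.card V := by
    have := Finset.card_le_univ (Finset.univ.filter fun x => col (c x) = κ)
    rw [card_col] at this; omega
  generalize Fintype.card V = n at *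
  nlinarith only [a3, Nat.mul_le_mul_right (n * n) a3]

end FSDiam
end

-- merged part: Pool.Agent.Work.MP_16c8e2_co.Lower
section
/-! The lower bound on the cycle with one short chord. -/

namespace FSDiam
open Equiv

variable {T : Type*} {n : ℕ} {col : T → Bool} [Fintype T]

theorem sum_abs_step (c : Fin n ≃ T) (e : T → ℤ) (he : ∀ t, col t = true →
    e t = 0 ∨ (rank col c t = 0 ∧ e t = 1) ∨ (rank col c t = 1 ∧ e t = -1)) :
    ∑ t ∈ Finset.univ.filter (fun t => col t = true), |e t| ≤ 2 := by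
  have key : ∀ a : ℤ, ∑ t ∈ Finset.univ.filter (fun t => col t = true),
      (if rank col c t = a then (1 : ℤ) else 0) ≤ 1 := by
    intro a
    rw [Finset.sum_boole]
    have : ((Finset.univ.filter (fun t => col t = true)).filter
        (fun t => rank col c t = a)).card ≤ 1 := by
      refine Finset.card_le_one.2 fun t ht t' ht' => ?_
      simp only [Finset.mem_filter, Finset.mem_univ, true_and] at ht ht'
      exact rank_inj c ht.1 ht'.1 (ht.2.trans ht'.2.symm)
    exact_mod_cast this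
  have := Finset.sum_le_sum (s := Finset.univ.filter (fun t => col t = true))
    (f := fun t => |e t|)
    (g := fun t => (if rank col c t = 0 then (1 : ℤ) else 0) + (if rank col c t = 1 then 1 else 0))
    (fun t ht => by
      rcases he t (by simpa using ht) with h | ⟨h, h'⟩ | ⟨h, h'⟩
      · rw [h]; split_ifs <;> simp
      · rw [h, h']; simp
      · rw [h, h']; simp)
  rw [Finset.sum_add_distrib] at this
  linarith [key 0, key 1]

theorem walk_inv {k m : ℕ} (hm : (Finset.univ.filter fun t => col t = true).card = m)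
    (hn : k + m = n) (hk : 1 ≤ k) (c : Fin n ≃ T) (l : ℕ) :
    ∀ c', Ex (YC n) col l c c' → ∃ (F : ℤ) (d : T → ℤ), |n * F - (Qs col c' - Qs col c)| ≤ 2 * l ∧
      (∀ t, col t = true → rank col c' t ≡ rank col c t + F + d t [ZMOD m]) ∧
      ∑ t ∈ Finset.univ.filter (fun t => col t = true), |d t| ≤ 2 * l ∧
      (l ≤ k * n → 6 * k + 2 ≤ m → ∀ t, col t = true → d t = 0 ∨ ∃ x : ℤ, x ≡ rank col c t [ZMOD m] ∧
        -(3 * k) ≤ x ∧ x ≤ 3 * k + 1 ∧ -(3 * k) ≤ x + d t ∧ x + d t ≤ 3 * k + 1) := by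
  induction l with
  | zero =>
    intro c' h
    cases h
    exact ⟨0, fun _ => 0, by simp, fun t _ => by simp, by simp, fun _ _ t _ => Or.inl rfl⟩
  | succ l ih =>
    intro c' h
    obtain ⟨c1, h1, h2⟩ := h.split
    obtain ⟨F, d, i1, i2, i3, i4⟩ := ih c1 h1
    have hs : Step (YC n) col c1 c' := by
      cases h2 with
      | step hs h3 => cases h3; exact hs
    obtain ⟨f, e, j1, -, j2⟩ := step_rank hs
    rw [hm] at j2
    refine ⟨F + f, fun t => d t + e t, ?_, fun t ht => ?_, ?_, fun hl h6 t ht => ?_⟩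
    · rw [abs_le] at i1 j1 ⊢
      push_cast
      constructor <;> nlinarith only [i1, j1, i1.1, i1.2, j1.1, j1.2]
    · refine (j2 t ht).1.trans ?_
      have := ((i2 t ht).add_right f).add_right (e t)
      convert this using 1; ring
    · have a1 := sum_abs_step c1 e (fun t ht => (j2 t ht).2)
      have a2 := Finset.sum_le_sum (s := Finset.univ.filter (fun t => col t = true))
        (f := fun t => |d t + e t|) (g := fun t => |d t| + |e t|) (fun t _ => abs_add_le _ _)
      rw [Finset.sum_add_distrib] at a2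
      push_cast
      linarith only [i3, a1, a2]
    · have hF : -(3 * k : ℤ) ≤ F ∧ F ≤ 3 * k := by
        have q1 := Qs_nonneg (col := col) c
        have q2 := Qs_nonneg (col := col) c1
        have q3 := Qs_le (col := col) c
        have q4 := Qs_le (col := col) c1
        rw [hm] at q3 q4
        have e1 : (n : ℤ) - m = k := by omega
        rw [e1] at q3 q4
        rw [abs_le] at i1
        have hl' : (l : ℤ) ≤ k * n := by exact_mod_cast (show l ≤ k * n by omega)
        have hn0 : (0 : ℤ) < n := by omega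
        constructor
        · by_contra hcon
          nlinarith only [hn, hk, i1, hl, h6, q2, q3, hcon, i1.1]
        · by_contra hcon
          nlinarith only [hn, hk, i1, hl, h6, q1, q4, hcon, i1.2]
      have key : ∀ a : ℤ, 0 ≤ a → a ≤ 1 → rank col c1 t = a →
          ∃ x : ℤ, x ≡ rank col c t [ZMOD m] ∧ -(3 * k) ≤ x ∧ x ≤ 3 * k + 1 ∧ x + d t = a - F := by
        intro a a0 a1 ha
        have b1 := i2 t ht
        rw [ha] at b1
        rcases i4 (by omega) h6 t ht with h0 | ⟨x, x1, x2, x3, x4, x5⟩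
        · refine ⟨a - F, ?_, by omega, by omega, by omega⟩
          have := b1.sub_right F
          rw [h0] at this
          convert this using 1; ring
        · refine ⟨x, x1, x2, x3, ?_⟩
          have b2 : x + d t ≡ a - F [ZMOD m] := by
            have := (b1.sub_right F).symm
            refine (x1.add_right (d t)).trans ?_
            convert this using 1; ring
          have := Int.eq_zero_of_abs_lt_dvd b2.dvd (by rw [abs_lt]; omega)
          omega
      rcases (j2 t ht).2 with g | ⟨g, g'⟩ | ⟨g, g'⟩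
      · simpa [g] using i4 (by omega) h6 t ht
      · obtain ⟨x, x1, x2, x3, x4⟩ := key 0 le_rfl (by omega) g
        exact Or.inr ⟨x, x1, x2, x3, by beta_reduce; omega, by beta_reduce; omega⟩
      · obtain ⟨x, x1, x2, x3, x4⟩ := key 1 (by omega) le_rfl g
        exact Or.inr ⟨x, x1, x2, x3, by beta_reduce; omega, by beta_reduce; omega⟩

theorem window {k m : ℕ} (hm : (Finset.univ.filter fun t => col t = true).card = m)
    (hn : k + m = n) (hk : 1 ≤ k) (h6 : 6 * k + 2 ≤ m) {c c' : Fin n ≃ T} {l : ℕ}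
    (h : Ex (YC n) col l c c') (hl : l ≤ k * n) :
    ∃ (F : ℤ) (d : T → ℤ), (∀ t, col t = true → rank col c' t ≡ rank col c t + F + d t [ZMOD m]) ∧
      ∑ t ∈ Finset.univ.filter (fun t => col t = true), |d t| ≤ (6 * k + 2) ^ 2 := by
  classical
  obtain ⟨F, d, -, i2, -, i4⟩ := walk_inv hm hn hk c l c' h
  refine ⟨F, d, i2, ?_⟩
  have i5 : ∀ t ∈ (Finset.univ.filter (fun t => col t = true)).filter (fun t => d t ≠ 0),
      ∃ x : ℤ, x ≡ rank col c t [ZMOD m] ∧
        -(3 * k) ≤ x ∧ x ≤ 3 * k + 1 ∧ -(3 * k) ≤ x + d t ∧ x + d t ≤ 3 * k + 1 := by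
    intro t ht
    simp only [Finset.mem_filter, Finset.mem_univ, true_and] at ht
    exact (i4 hl h6 t ht.1).resolve_left ht.2
  choose! X hX using i5
  have c1 := Finset.card_le_card_of_injOn (t := Finset.Icc (-(3 * k : ℤ)) (3 * k + 1)) X
    (fun t ht => by
      have := hX t ht
      simp only [Finset.coe_Icc, Set.mem_Icc]
      exact ⟨this.2.1, this.2.2.1⟩)
    (fun t ht t' ht' e => by
      have a1 := (hX t ht).1
      have a2 := (hX t' ht').1
      simp only [Finset.coe_filter, Finset.mem_filter, Finset.mem_univ, true_and,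
        Set.mem_ofPred_eq] at ht ht'
      rw [e] at a1
      have b1 := rank_nonneg (col := col) c t
      have b2 := rank_nonneg (col := col) c t'
      have b3 := rank_lt c ht.1
      have b4 := rank_lt c ht'.1
      rw [hm] at b3 b4
      have := Int.eq_zero_of_abs_lt_dvd (a1.symm.trans a2).dvd (by rw [abs_lt]; omega)
      exact rank_inj c ht.1 ht'.1 (by omega))
  rw [Int.card_Icc] at c1
  rw [← Finset.sum_filter_of_ne (p := fun t => d t ≠ 0) (fun t _ h e => h (by simp [e]))]
  have c2 := Finset.sum_le_card_nsmul _ (fun t => |d t|) (6 * k + 2 : ℤ) (fun t ht => by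
    have := hX t ht
    rw [abs_le]; omega)
  rw [nsmul_eq_mul] at c2
  have c3 : (((Finset.univ.filter (fun t => col t = true)).filter (fun t => d t ≠ 0)).card : ℤ) ≤
      6 * k + 2 := by omega
  nlinarith only [c2, c3]

theorem windows {k m : ℕ} (hm : (Finset.univ.filter fun t => col t = true).card = m)
    (hn : k + m = n) (hk : 1 ≤ k) (h6 : 6 * k + 2 ≤ m) (W : ℕ) :
    ∀ (l : ℕ) (c c' : Fin n ≃ T), Ex (YC n) col l c c' → l ≤ (W + 1) * (k * n) →
    ∃ (F : ℤ) (d : T → ℤ), (∀ t, col t = true → rank col c' t ≡ rank col c t + F + d t [ZMOD m]) ∧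
      ∑ t ∈ Finset.univ.filter (fun t => col t = true), |d t| ≤ (W + 1) * (6 * k + 2) ^ 2 := by
  induction W with
  | zero => intro l c c' h hl; simpa using window hm hn hk h6 h (by simpa using hl)
  | succ W ih =>
    intro l c c' h hl
    obtain ⟨a, b, rfl, ha, hb⟩ : ∃ a b, l = a + b ∧ a ≤ (W + 1) * (k * n) ∧ b ≤ k * n := by
      rw [Nat.succ_mul (W + 1)] at hl
      exact ⟨l - k * n, l - (l - k * n), by omega, by omega, by omega⟩
    obtain ⟨c1, h1, h2⟩ := h.split
    obtain ⟨F, d, i1, i2⟩ := ih a c c1 h1 ha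
    obtain ⟨f, e, j1, j2⟩ := window hm hn hk h6 h2 hb
    refine ⟨F + f, fun t => d t + e t, fun t ht => ?_, ?_⟩
    · refine (j1 t ht).trans ?_
      have := ((i1 t ht).add_right f).add_right (e t)
      convert this using 1; ring
    · have a2 := Finset.sum_le_sum (s := Finset.univ.filter (fun t => col t = true))
        (f := fun t => |d t + e t|) (g := fun t => |d t| + |e t|) (fun t _ => abs_add_le _ _)
      rw [Finset.sum_add_distrib] at a2
      push_cast
      linarith only [i2, j2, a2]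

theorem sum_abs_inj {ι : Type*} (s : Finset ι) (d : ι → ℤ) (hd : Set.InjOn d s) (h : ℕ) :
    ((s.card : ℤ) - (2 * h + 1)) * (h + 1) ≤ ∑ i ∈ s, |d i| := by
  classical
  have c1 := Finset.card_le_card_of_injOn (s := s.filter fun i => |d i| ≤ h)
    (t := Finset.Icc (-(h : ℤ)) h) d
    (fun i hi => by
      simp only [Finset.coe_filter, Set.mem_ofPred_eq] at hi
      simpa [abs_le] using hi.2)
    (hd.mono (by intro i hi; simp only [Finset.coe_filter, Set.mem_ofPred_eq] at hi; exact hi.1))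
  rw [Int.card_Icc] at c1
  have c2 := Finset.card_filter_add_card_filter_not (s := s) (fun i => |d i| ≤ h)
  have c3 := Finset.card_nsmul_le_sum (s.filter fun i => ¬ |d i| ≤ h) (fun i => |d i|) (h + 1 : ℤ)
    (fun i hi => by have := (Finset.mem_filter.1 hi).2; omega)
  rw [nsmul_eq_mul] at c3
  have c4 : ∑ i ∈ s.filter (fun i => ¬ |d i| ≤ h), |d i| ≤ ∑ i ∈ s, |d i| :=
    Finset.sum_le_sum_of_subset_of_nonneg (Finset.filter_subset _ _) (fun _ _ _ => abs_nonneg _)
  have c5 : (s.card : ℤ) - (2 * h + 1) ≤ (s.filter fun i => ¬ |d i| ≤ h).card := by omega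
  nlinarith only [c3, c4, c5]

theorem reversal {m : ℕ} (h3 : 3 ≤ m) {c c' : Fin n ≃ T} (g : Fin m → T)
    (hg : ∀ j, col (g j) = true) (h0 : ∀ j, rank col c (g j) = j.val)
    (h1 : ∀ j, rank col c' (g j) = m - 1 - j.val) {F : ℤ} {d : T → ℤ}
    (h : ∀ t, col t = true → rank col c' t ≡ rank col c t + F + d t [ZMOD m]) :
    (m : ℤ) ^ 2 ≤ 64 * ∑ t ∈ Finset.univ.filter (fun t => col t = true), |d t| := by
  classical
  have ginj : Function.Injective g := fun i j e => by
    have := h0 i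
    rw [e, h0 j] at this
    exact Fin.ext (by omega)
  set s : Finset (Fin m) := Finset.univ.filter fun j => j.val < (m + 1) / 2 with hs
  have hc : s.card = (m + 1) / 2 := by rw [hs, Fin.card_filter_val_lt]; omega
  have a1 : ∑ j ∈ s, |d (g j)| ≤ ∑ t ∈ Finset.univ.filter (fun t => col t = true), |d t| := by
    rw [← Finset.sum_image (f := fun t => |d t|) (fun i _ j _ e => ginj e)]
    refine Finset.sum_le_sum_of_subset_of_nonneg (fun t ht => ?_) (fun _ _ _ => abs_nonneg _)
    obtain ⟨j, -, rfl⟩ := Finset.mem_image.1 ht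
    simp [hg]
  have a2 := sum_abs_inj s (fun j => d (g j)) (fun i hi j hj e => by
    simp only [hs, Finset.coe_filter, Finset.mem_univ, true_and, Set.mem_ofPred_eq] at hi hj
    have b1 := h _ (hg i)
    have b2 := h _ (hg j)
    rw [h0, h1] at b1 b2
    beta_reduce at e
    rw [e] at b1
    have := Int.eq_zero_of_abs_lt_dvd (b1.sub b2).dvd (by rw [abs_lt]; omega)
    exact Fin.ext (by omega)) (m / 8)
  rw [hc] at a2
  have a3 : (m : ℤ) ^ 2 ≤ 64 * (((((m + 1) / 2 : ℕ) : ℤ) - (2 * ((m / 8 : ℕ) : ℤ) + 1)) *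
      (((m / 8 : ℕ) : ℤ) + 1)) := by
    have b1 : (m : ℤ) ≤ 8 * ((((m + 1) / 2 : ℕ) : ℤ) - (2 * ((m / 8 : ℕ) : ℤ) + 1)) := by omega
    have b2 : (m : ℤ) ≤ 8 * (((m / 8 : ℕ) : ℤ) + 1) := by omega
    nlinarith only [b1, b2, h3, mul_le_mul b1 b2 (by omega) (by omega)]
  linarith only [a1, a2, a3]

theorem lower_ex {k m : ℕ} (hm : (Finset.univ.filter fun t => col t = true).card = m)
    (hn : k + m = n) (hk : 3 ≤ k) (hkm : k ≤ m) {c c' : Fin n ≃ T} (g : Fin m → T)
    (hg : ∀ j, col (g j) = true) (h0 : ∀ j, rank col c (g j) = j.val)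
    (h1 : ∀ j, rank col c' (g j) = m - 1 - j.val) {l : ℕ} (h : Ex (YC n) col l c c') :
    n ^ 3 ≤ 81920 * k * l := by
  have hn2 : n ≤ 2 * m := by omega
  by_cases e : m ≤ 80 * k
  · obtain ⟨F, d, -, i2, i3, -⟩ := walk_inv hm hn (by omega) c l c' h
    have := reversal (by omega) g hg h0 h1 i2
    have a1 : m ^ 2 ≤ 128 * l := by
      have : (m : ℤ) ^ 2 ≤ 128 * l := by linarith only [i3, this]
      exact_mod_cast this
    calc n ^ 3 ≤ (2 * m) ^ 3 := Nat.pow_le_pow_left hn2 3
      _ = 8 * m * m ^ 2 := by ring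
      _ ≤ 8 * (80 * k) * (128 * l) := by gcongr
      _ = 81920 * k * l := by ring
  · have hkn : 0 < k * n := Nat.mul_pos (by omega) (by omega)
    obtain ⟨F, d, i2, i3⟩ := windows hm hn (by omega) (by omega) (l / (k * n)) l c c' h
      (by have := Nat.lt_div_mul_add (a := l) hkn; rw [Nat.succ_mul]; omega)
    have := reversal (by omega) g hg h0 h1 i2
    have a0 := Nat.div_mul_le_self l (k * n)
    generalize l / (k * n) = W at *
    have a1 : m ^ 2 ≤ 64 * ((W + 1) * (6 * k + 2) ^ 2) := by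
      have : (m : ℤ) ^ 2 ≤ 64 * ((W + 1) * (6 * k + 2) ^ 2) := by linarith only [this, i3]
      exact_mod_cast this
    have a2 : (6 * k + 2) ^ 2 ≤ (7 * k) ^ 2 := Nat.pow_le_pow_left (by omega) 2
    have a3 : (80 * k) ^ 2 ≤ m ^ 2 := Nat.pow_le_pow_left (by omega) 2
    have a4 : m ^ 2 ≤ 64 * ((W + 1) * (7 * k) ^ 2) := a1.trans (by gcongr)
    have a5 : m ^ 2 ≤ 6272 * W * k ^ 2 := by nlinarith only [hk, a2, a3, a4]
    calc n ^ 3 = n ^ 2 * n := by ring
      _ ≤ (2 * m) ^ 2 * n := by gcongr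
      _ = 4 * m ^ 2 * n := by ring
      _ ≤ 4 * (6272 * W * k ^ 2) * n := by gcongr
      _ = 25088 * k * (W * (k * n)) := by ring
      _ ≤ 81920 * k * l := by gcongr; omega

end FSDiam
end

-- merged part: Pool.Agent.Work.MP_16c8e2_co.Scale
section
/-! The lower bound `n ^ 2 log n` on the cycle with one short chord: every dyadic range of edges
carries quadratically many moves. -/

namespace FSDiam
open Equiv

variable {T : Type*} {n : ℕ} {col : T → Bool}

def Psi (col : T → Bool) (j : ℕ) (c : Fin n ≃ T) : ℤ := ∑ q ∈ Finset.Ico j (2 * j), rho col c q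

/-- A move that costs `w` at scale `j`. -/
def StW (col : T → Bool) (m j w : ℕ) (c c' : Fin n ≃ T) : Prop :=
  ∃ (f : ℤ) (e : T → ℤ), |j * f - (Psi col j c' - Psi col j c)| ≤ w ∧ ∀ t, col t = true →
    rank col c' t ≡ rank col c t + f + e t [ZMOD m] ∧
    (e t = 0 ∨ (rank col c t = 0 ∧ e t = 1) ∨ (rank col c t = 1 ∧ e t = -1))

/-- A sequence of moves with its total cost at scale `j`. -/
inductive ExW (col : T → Bool) (m j : ℕ) (c : Fin n ≃ T) : ℕ → (Fin n ≃ T) → Prop
  | refl : ExW col m j c 0 c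
  | snoc {a w : ℕ} {c1 c' : Fin n ≃ T} :
      ExW col m j c a c1 → StW col m j w c1 c' → w ≤ 1 → ExW col m j c (a + w) c'

theorem rho_le (c : Fin n ≃ T) (q : ℕ) : q ≤ n → rho col c q ≤ q := by
  induction q with
  | zero => intro _; simp [rho_zero]
  | succ q ih =>
    intro hq
    have h1 := rho_succ (col := col) c ⟨q, hq⟩
    have h2 := bl_01 (col := col) c ⟨q, hq⟩
    have h3 := ih (by omega)
    simp only at h1
    push_cast
    omega

theorem Psi_bound {j : ℕ} (hj : 2 * j ≤ n) (c : Fin n ≃ T) :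
    0 ≤ Psi col j c ∧ Psi col j c ≤ j * (2 * j) := by
  constructor
  · refine Finset.sum_nonneg fun q _ => ?_
    rw [← rho_zero (col := col) c]; exact rho_mono c (Nat.zero_le _)
  · have := Finset.sum_le_card_nsmul (Finset.Ico j (2 * j)) (fun q => rho col c q) (2 * j : ℤ)
      (fun q hq => by
        have h1 := (Finset.mem_Ico.1 hq).2
        have h2 := rho_le (col := col) c q (by omega)
        omega)
    rw [Nat.card_Ico, show 2 * j - j = j by omega, nsmul_eq_mul] at this
    exact this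

theorem step_scale [Fintype T] {m : ℕ} (hm : (Finset.univ.filter fun t => col t = true).card = m)
    {c c' : Fin n ≃ T} (h : Step (YC n) col c c') :
    ∃ y : ℕ, ∀ j, 3 ≤ j → 2 * j ≤ n →
      StW col m j (if y ∈ Finset.Ico j (2 * j) then 1 else 0) c c' := by
  obtain ⟨f, e, -, ⟨y, hy⟩, h2⟩ := step_rank h
  rw [hm] at h2
  refine ⟨y, fun j h3 hj => ⟨f, e, ?_, h2⟩⟩
  have e1 : j * f - (Psi col j c' - Psi col j c) =
      ∑ q ∈ Finset.Ico j (2 * j), (f - (rho col c' q - rho col c q)) := by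
    rw [Finset.sum_sub_distrib, Finset.sum_sub_distrib, Finset.sum_const, Nat.card_Ico,
      show 2 * j - j = j by omega, nsmul_eq_mul]; rfl
  rw [e1]
  refine (Finset.abs_sum_le_sum_abs _ _).trans ((Finset.sum_le_sum fun q hq => hy q
    (by have := Finset.mem_Ico.1 hq; omega) (by have := Finset.mem_Ico.1 hq; omega)).trans ?_)
  rw [Finset.sum_ite_eq']
  split_ifs <;> simp

theorem ex_scales [Fintype T] {m : ℕ} (hm : (Finset.univ.filter fun t => col t = true).card = m)
    (I : Finset ℕ) (hI : ∀ i ∈ I, 3 ≤ 2 ^ i ∧ 2 * 2 ^ i ≤ n) (c : Fin n ≃ T) (l : ℕ) :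
    ∀ c', Ex (YC n) col l c c' →
      ∃ A : ℕ → ℕ, ∑ i ∈ I, A i ≤ l ∧ ∀ i ∈ I, ExW col m (2 ^ i) c (A i) c' := by
  induction l with
  | zero =>
    intro c' h
    cases h
    exact ⟨fun _ => 0, by simp, fun _ _ => ExW.refl⟩
  | succ l ih =>
    intro c' h
    obtain ⟨c1, h1, h2⟩ := h.split
    obtain ⟨A, i1, i2⟩ := ih c1 h1
    have hs : Step (YC n) col c1 c' := by
      cases h2 with
      | step hs h3 => cases h3; exact hs
    obtain ⟨y, hy⟩ := step_scale hm hs
    refine ⟨fun i => A i + if y ∈ Finset.Ico (2 ^ i) (2 * 2 ^ i) then 1 else 0, ?_,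
      fun i hi => ExW.snoc (i2 i hi) (hy _ (hI i hi).1 (hI i hi).2) (by split_ifs <;> omega)⟩
    rw [Finset.sum_add_distrib, ← Finset.card_filter]
    have : (I.filter fun i => y ∈ Finset.Ico (2 ^ i) (2 * 2 ^ i)).card ≤ 1 := by
      refine Finset.card_le_one.2 fun a ha b hb => ?_
      have a1 := Finset.mem_Ico.1 (Finset.mem_filter.1 ha).2
      have b1 := Finset.mem_Ico.1 (Finset.mem_filter.1 hb).2
      rw [← pow_succ'] at a1 b1
      have c1 := (Nat.pow_lt_pow_iff_right (by omega : 1 < 2)).1 (a1.1.trans_lt b1.2)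
      have c2 := (Nat.pow_lt_pow_iff_right (by omega : 1 < 2)).1 (b1.1.trans_lt a1.2)
      omega
    omega

theorem ExW.split {m j : ℕ} {c c' : Fin n ≃ T} {a : ℕ} (h : ExW col m j c a c') (b : ℕ) :
    ∀ e, a ≤ b + e → ∃ c1 a1 a2, a1 ≤ b ∧ a2 ≤ e ∧ ExW col m j c a1 c1 ∧ ExW col m j c1 a2 c' := by
  induction h with
  | refl => exact fun e _ => ⟨c, 0, 0, by omega, by omega, ExW.refl, ExW.refl⟩
  | @snoc a w c1 c' h1 h2 h3 ih =>
    intro e he
    by_cases hb : a + w ≤ b
    · exact ⟨c', a + w, 0, hb, by omega, ExW.snoc h1 h2 h3, ExW.refl⟩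
    · obtain ⟨c2, a1, a2, g1, g2, g3, g4⟩ := ih (e - w) (by omega)
      exact ⟨c2, a1, a2 + w, g1, by omega, g3, ExW.snoc g4 h2 h3⟩

theorem ExW.inv {m k : ℕ} (hk : 1 ≤ k) (hj : 2 * k ≤ n) (h6 : 6 * k + 2 ≤ m) {c c' : Fin n ≃ T}
    {a : ℕ} (h : ExW col m k c a c') : a ≤ k * k →
    ∃ (F : ℤ) (d : T → ℤ), |k * F - (Psi col k c' - Psi col k c)| ≤ a ∧
      (∀ t, col t = true → rank col c' t ≡ rank col c t + F + d t [ZMOD m]) ∧
      ∀ t, col t = true → d t = 0 ∨ ∃ x : ℤ, x ≡ rank col c t [ZMOD m] ∧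
        -(3 * k) ≤ x ∧ x ≤ 3 * k + 1 ∧ -(3 * k) ≤ x + d t ∧ x + d t ≤ 3 * k + 1 := by
  induction h with
  | refl => exact fun _ => ⟨0, fun _ => 0, by simp, fun t _ => by simp, fun t _ => Or.inl rfl⟩
  | @snoc a w c1 c' _ h2 _ ih =>
    intro hl
    obtain ⟨F, d, i1, i2, i4⟩ := ih (by omega)
    obtain ⟨f, e, j1, j2⟩ := h2
    refine ⟨F + f, fun t => d t + e t, ?_, fun t ht => ?_, fun t ht => ?_⟩
    · rw [abs_le] at i1 j1 ⊢
      push_cast
      constructor <;> nlinarith only [i1, j1, i1.1, i1.2, j1.1, j1.2]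
    · refine (j2 t ht).1.trans ?_
      have := ((i2 t ht).add_right f).add_right (e t)
      convert this using 1; ring
    · have hF : -(3 * k : ℤ) ≤ F ∧ F ≤ 3 * k := by
        have q1 := Psi_bound (col := col) hj c
        have q2 := Psi_bound (col := col) hj c1
        rw [abs_le] at i1
        have hl' : (a : ℤ) ≤ k * k := by exact_mod_cast (show a ≤ k * k by omega)
        have hn0 : (0 : ℤ) < k := by omega
        constructor
        · by_contra hcon
          nlinarith only [hk, hcon, hl, i1, q1, q2, i1.1, q1.1, q1.2, q2.1, q2.2]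
        · by_contra hcon
          nlinarith only [hk, hcon, hl, i1, q1, q2, i1.2, q1.1, q1.2, q2.1, q2.2]
      have key : ∀ a : ℤ, 0 ≤ a → a ≤ 1 → rank col c1 t = a →
          ∃ x : ℤ, x ≡ rank col c t [ZMOD m] ∧ -(3 * k) ≤ x ∧ x ≤ 3 * k + 1 ∧ x + d t = a - F := by
        intro a a0 a1 ha
        have b1 := i2 t ht
        rw [ha] at b1
        rcases i4 t ht with h0 | ⟨x, x1, x2, x3, x4, x5⟩
        · refine ⟨a - F, ?_, by omega, by omega, by omega⟩
          have := b1.sub_right F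
          rw [h0] at this
          convert this using 1; ring
        · refine ⟨x, x1, x2, x3, ?_⟩
          have b2 : x + d t ≡ a - F [ZMOD m] := by
            have := (b1.sub_right F).symm
            refine (x1.add_right (d t)).trans ?_
            convert this using 1; ring
          have := Int.eq_zero_of_abs_lt_dvd b2.dvd (by rw [abs_lt]; omega)
          omega
      rcases (j2 t ht).2 with g | ⟨g, g'⟩ | ⟨g, g'⟩
      · simpa [g] using i4 t ht
      · obtain ⟨x, x1, x2, x3, x4⟩ := key 0 le_rfl (by omega) g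
        exact Or.inr ⟨x, x1, x2, x3, by beta_reduce; omega, by beta_reduce; omega⟩
      · obtain ⟨x, x1, x2, x3, x4⟩ := key 1 (by omega) le_rfl g
        exact Or.inr ⟨x, x1, x2, x3, by beta_reduce; omega, by beta_reduce; omega⟩

variable [Fintype T]

theorem inv_sum {k m : ℕ} (hm : (Finset.univ.filter fun t => col t = true).card = m)
    (c : Fin n ≃ T) (d : T → ℤ)
    (i4 : ∀ t, col t = true → d t = 0 ∨ ∃ x : ℤ, x ≡ rank col c t [ZMOD m] ∧
        -(3 * k) ≤ x ∧ x ≤ 3 * k + 1 ∧ -(3 * k) ≤ x + d t ∧ x + d t ≤ 3 * k + 1) :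
    ∑ t ∈ Finset.univ.filter (fun t => col t = true), |d t| ≤ (6 * k + 2) ^ 2 := by
  classical
  have i5 : ∀ t ∈ (Finset.univ.filter (fun t => col t = true)).filter (fun t => d t ≠ 0),
      ∃ x : ℤ, x ≡ rank col c t [ZMOD m] ∧
        -(3 * k) ≤ x ∧ x ≤ 3 * k + 1 ∧ -(3 * k) ≤ x + d t ∧ x + d t ≤ 3 * k + 1 := by
    intro t ht
    simp only [Finset.mem_filter, Finset.mem_univ, true_and] at ht
    exact (i4 t ht.1).resolve_left ht.2
  choose! X hX using i5
  have c1 := Finset.card_le_card_of_injOn (t := Finset.Icc (-(3 * k : ℤ)) (3 * k + 1)) X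
    (fun t ht => by
      have := hX t ht
      simp only [Finset.coe_Icc, Set.mem_Icc]
      exact ⟨this.2.1, this.2.2.1⟩)
    (fun t ht t' ht' e => by
      have a1 := (hX t ht).1
      have a2 := (hX t' ht').1
      simp only [Finset.coe_filter, Finset.mem_filter, Finset.mem_univ, true_and,
        Set.mem_ofPred_eq] at ht ht'
      rw [e] at a1
      have b1 := rank_nonneg (col := col) c t
      have b2 := rank_nonneg (col := col) c t'
      have b3 := rank_lt c ht.1
      have b4 := rank_lt c ht'.1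
      rw [hm] at b3 b4
      have := Int.eq_zero_of_abs_lt_dvd (a1.symm.trans a2).dvd (by rw [abs_lt]; omega)
      exact rank_inj c ht.1 ht'.1 (by omega))
  rw [Int.card_Icc] at c1
  rw [← Finset.sum_filter_of_ne (p := fun t => d t ≠ 0) (fun t _ h e => h (by simp [e]))]
  have c2 := Finset.sum_le_card_nsmul _ (fun t => |d t|) (6 * k + 2 : ℤ) (fun t ht => by
    have := hX t ht
    rw [abs_le]; omega)
  rw [nsmul_eq_mul] at c2
  have c3 : (((Finset.univ.filter (fun t => col t = true)).filter (fun t => d t ≠ 0)).card : ℤ) ≤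
      6 * k + 2 := by omega
  nlinarith only [c2, c3]

theorem windowsW {k m : ℕ} (hm : (Finset.univ.filter fun t => col t = true).card = m)
    (hk : 1 ≤ k) (hj : 2 * k ≤ n) (h6 : 6 * k + 2 ≤ m) (W : ℕ) :
    ∀ (l : ℕ) (c c' : Fin n ≃ T), ExW col m k c l c' → l ≤ (W + 1) * (k * k) →
    ∃ (F : ℤ) (d : T → ℤ), (∀ t, col t = true → rank col c' t ≡ rank col c t + F + d t [ZMOD m]) ∧
      ∑ t ∈ Finset.univ.filter (fun t => col t = true), |d t| ≤ (W + 1) * (6 * k + 2) ^ 2 := by
  induction W with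
  | zero =>
    intro l c c' h hl
    obtain ⟨F, d, -, i2, i4⟩ := h.inv hk hj h6 (by simpa using hl)
    exact ⟨F, d, i2, by simpa using inv_sum hm c d i4⟩
  | succ W ih =>
    intro l c c' h hl
    rw [Nat.succ_mul (W + 1)] at hl
    obtain ⟨c1, a, b, ha, hb, h1, h2⟩ := h.split _ _ hl
    obtain ⟨F, d, i1, i2⟩ := ih a c c1 h1 ha
    obtain ⟨f, e, -, j1, j4⟩ := h2.inv hk hj h6 hb
    have j2 := inv_sum hm c1 e j4
    refine ⟨F + f, fun t => d t + e t, fun t ht => ?_, ?_⟩
    · refine (j1 t ht).trans ?_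
      have := ((i1 t ht).add_right f).add_right (e t)
      convert this using 1; ring
    · have a2 := Finset.sum_le_sum (s := Finset.univ.filter (fun t => col t = true))
        (f := fun t => |d t + e t|) (g := fun t => |d t| + |e t|) (fun t _ => abs_add_le _ _)
      rw [Finset.sum_add_distrib] at a2
      push_cast
      linarith only [i2, j2, a2]

theorem lower_log {k m : ℕ} (hm : (Finset.univ.filter fun t => col t = true).card = m)
    (hn : k + m = n) (hk : 3 ≤ k) (hkm : k ≤ m) {c c' : Fin n ≃ T} (g : Fin m → T)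
    (hg : ∀ j, col (g j) = true) (h0 : ∀ j, rank col c (g j) = j.val)
    (h1 : ∀ j, rank col c' (g j) = m - 1 - j.val) {l : ℕ} (h : Ex (YC n) col l c c') :
    n ^ 2 * Nat.log 2 n ≤ 30000 * l := by
  have hn2 : n ≤ 2 * m := by omega
  have a1 : m ^ 2 ≤ 128 * l := by
    obtain ⟨F, d, -, i2, i3, -⟩ := walk_inv hm hn (by omega) c l c' h
    have := reversal (by omega) g hg h0 h1 i2
    have : (m : ℤ) ^ 2 ≤ 128 * l := by linarith only [i3, this]
    exact_mod_cast this
  have hI : ∀ i ∈ Finset.Ico 2 (Nat.log 2 n - 7), 4 ≤ 2 ^ i ∧ 128 * 2 ^ i ≤ m := by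
    intro i hi
    have hi' := Finset.mem_Ico.1 hi
    have b1 : 2 ^ 2 ≤ 2 ^ i := Nat.pow_le_pow_right (by omega) hi'.1
    have b2 : 2 ^ (i + 8) ≤ 2 ^ Nat.log 2 n := Nat.pow_le_pow_right (by omega) (by omega)
    have b3 := Nat.pow_log_le_self 2 (show n ≠ 0 by omega)
    rw [pow_add] at b2
    omega
  obtain ⟨A, s1, s2⟩ := ex_scales hm (Finset.Ico 2 (Nat.log 2 n - 7))
    (fun i hi => by have := hI i hi; omega) c l c' h
  have key : ∀ i ∈ Finset.Ico 2 (Nat.log 2 n - 7), m ^ 2 ≤ 6272 * A i := by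
    intro i hi
    have b1 := hI i hi
    have b2 := s2 i hi
    generalize 2 ^ i = j at b1 b2
    have hkn : 0 < j * j := Nat.mul_pos (by omega) (by omega)
    obtain ⟨F, d, i2, i3⟩ := windowsW hm (by omega) (by omega) (by omega) (A i / (j * j)) _ c c' b2
      (by have := Nat.lt_div_mul_add (a := A i) hkn; rw [Nat.succ_mul]; omega)
    have := reversal (by omega) g hg h0 h1 i2
    have a0 := Nat.div_mul_le_self (A i) (j * j)
    generalize A i / (j * j) = W at *
    have a1 : m ^ 2 ≤ 64 * ((W + 1) * (6 * j + 2) ^ 2) := by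
      have : (m : ℤ) ^ 2 ≤ 64 * ((W + 1) * (6 * j + 2) ^ 2) := by linarith only [this, i3]
      exact_mod_cast this
    have a2 : (6 * j + 2) ^ 2 ≤ (7 * j) ^ 2 := Nat.pow_le_pow_left (by omega) 2
    have a3 : (80 * j) ^ 2 ≤ m ^ 2 := Nat.pow_le_pow_left (by omega) 2
    have a4 : m ^ 2 ≤ 64 * ((W + 1) * (7 * j) ^ 2) := a1.trans (by gcongr)
    nlinarith only [b1, a0, a2, a3, a4]
  have s3 := Finset.card_nsmul_le_sum _ _ _ key
  rw [← Finset.mul_sum, Nat.card_Ico, smul_eq_mul] at s3
  have s4 : n ^ 2 ≤ 4 * m ^ 2 := by nlinarith only [hn, hkm]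
  have s5 : Nat.log 2 n ≤ (Nat.log 2 n - 7 - 2) + 9 := by omega
  generalize Nat.log 2 n - 7 - 2 = L at *
  calc n ^ 2 * Nat.log 2 n ≤ (4 * m ^ 2) * (L + 9) := by gcongr
    _ = 4 * (L * m ^ 2) + 36 * m ^ 2 := by ring
    _ ≤ 30000 * l := by omega

end FSDiam
end

-- merged part: Pool.Agent.Work.MP_16c8e2_co.Final
section
/-! Both bounds for the largest diameter. -/

namespace FSDiam
open Equiv

theorem fs_adj_iff {A B V : Type} [DecidableEq V] (Y : SimpleGraph V) (σ τ : A ⊕ B ≃ V) :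
    (FS (completeBipartiteGraph A B) Y).Adj σ τ ↔ Step Y Sum.isRight σ.symm τ.symm := by
  have hK : ∀ a b : A ⊕ B, (completeBipartiteGraph A B).Adj a b ↔ a.isRight ≠ b.isRight := by
    intro a b
    cases a <;> cases b <;> simp
  constructor
  · rintro ⟨a, b, h1, h2, h3, h4, h5⟩
    refine ⟨σ a, σ b, h2, by simpa using (hK a b).1 h1, ?_⟩
    ext z
    obtain ⟨c, rfl⟩ := τ.surjective z
    simp only [symm_apply_apply, trans_apply]
    by_cases e1 : c = a
    · rw [e1, h3]; simp
    by_cases e2 : c = b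
    · rw [e2, h4]; simp
    · rw [h5 c e1 e2, swap_apply_of_ne_of_ne (σ.injective.ne e1) (σ.injective.ne e2)]; simp
  · rintro ⟨x, y, h1, h2, h3⟩
    have e : τ = σ.trans (swap x y) := by
      rw [← τ.symm_symm, h3]; ext z; simp
    refine ⟨σ.symm x, σ.symm y, (hK _ _).2 h2, by simpa using h1, by simp [e], by simp [e],
      fun c g1 g2 => ?_⟩
    rw [e, trans_apply, swap_apply_of_ne_of_ne]
    · rintro rfl; simp at g1
    · rintro rfl; simp at g2

theorem edist_le_of_ex {A B V : Type} [DecidableEq V] {Y : SimpleGraph V} {l : ℕ}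
    {c c' : V ≃ A ⊕ B} (h : Ex Y Sum.isRight l c c') :
    (FS (completeBipartiteGraph A B) Y).edist c.symm c'.symm ≤ l := by
  induction h with
  | refl c => simp
  | @step l c c1 c' hs _ ih =>
    have h1 := SimpleGraph.edist_eq_one_iff_adj.2 ((fs_adj_iff Y c.symm c1.symm).2 hs)
    refine (SimpleGraph.edist_triangle (v := c1.symm)).trans ?_
    rw [h1, add_comm]
    push_cast
    gcongr

theorem ex_of_walk {A B V : Type} [DecidableEq V] {Y : SimpleGraph V} {σ τ : A ⊕ B ≃ V}
    (p : (FS (completeBipartiteGraph A B) Y).Walk σ τ) :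
    Ex Y Sum.isRight p.length σ.symm τ.symm := by
  induction p with
  | nil => exact Ex.refl _
  | cons h _ ih => exact Ex.step ((fs_adj_iff Y _ _).1 h) ih

theorem card_right (k m : ℕ) :
    (Finset.univ.filter fun t : Fin k ⊕ Fin m => t.isRight = true).card = m := by
  rw [Finset.card_filter, Fintype.sum_sum_type]; simp

theorem card_left (k m : ℕ) :
    (Finset.univ.filter fun t : Fin k ⊕ Fin m => t.isRight = false).card = k := by
  rw [Finset.card_filter, Fintype.sum_sum_type]; simp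

theorem maxDiam_le {k n : ℕ} (hk : 3 ≤ k) (hn : 2 * k ≤ n) :
    maxDiam k n ≤ 12000 * (n : ℕ∞) ^ 3 := by
  refine iSup₂_le fun Y hY => SimpleGraph.ediam_le_of_edist_le fun σ τ => ?_
  obtain ⟨h1, h2, h3, h4⟩ := hY
  obtain ⟨v, hv⟩ := exists_Jn h1 h2 h4
  obtain ⟨l, hl, h⟩ := upper (col := Sum.isRight) false h1 h2 hv
    (fun hh => h3 (hh.hasBridge h1 hk)) (card_left k (n - k))
    (by simpa using card_right k (n - k)) hk (by omega) σ.symm τ.symm
  refine (edist_le_of_ex h).trans ?_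
  rw [Fintype.card_fin] at hl
  exact_mod_cast hl

theorem rho_init {T : Type*} {n m : ℕ} {col : T → Bool} (c : Fin n ≃ T)
    (h : ∀ z : Fin n, z.val < m → col (c z) = true) (hm : m ≤ n) (p : ℕ) :
    p ≤ m → rho col c p = p := by
  induction p with
  | zero => intro _; simpa using rho_zero c
  | succ p ih =>
    intro hp
    have := rho_succ (col := col) c ⟨p, by omega⟩
    simp only [bl, h ⟨p, by omega⟩ hp, if_true] at this
    rw [this, ih (by omega)]; simp

theorem exists_reversal {k n : ℕ} (hn : k ≤ n) :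
    ∃ σ τ : Fin k ⊕ Fin (n - k) ≃ Fin n,
      (∀ j, rank Sum.isRight σ.symm (Sum.inr j) = j.val) ∧
      ∀ j, rank Sum.isRight τ.symm (Sum.inr j) = ((n - k : ℕ) : ℤ) - 1 - j.val := by
  let σ : Fin k ⊕ Fin (n - k) ≃ Fin n :=
    (sumComm _ _).trans (finSumFinEquiv.trans (finCongr (by omega)))
  have h1 : ∀ j, (σ (Sum.inr j)).val = j.val := fun j => by simp [σ]
  have h2 : ∀ j, (σ (Sum.inl j)).val = n - k + j.val := fun j => by simp [σ]
  let τ : Fin k ⊕ Fin (n - k) ≃ Fin n := (sumCongr (Equiv.refl _) Fin.revPerm).trans σ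
  have g1 : ∀ j, (τ (Sum.inr j)).val = n - k - (j.val + 1) := fun j => by simp [τ, h1]
  have g2 : ∀ j, (τ (Sum.inl j)).val = n - k + j.val := fun j => by simp [τ, h2]
  have key : ∀ ρ : Fin k ⊕ Fin (n - k) ≃ Fin n, (∀ j, (ρ (Sum.inl j)).val = n - k + j.val) →
      ∀ p ≤ n - k, rho Sum.isRight ρ.symm p = p := by
    intro ρ hρ p hp
    refine rho_init (m := n - k) ρ.symm (fun z hz => ?_) (by omega) p hp
    obtain ⟨a, rfl⟩ := ρ.surjective z
    rcases a with a | a
    · rw [hρ] at hz; omega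
    · simp
  refine ⟨σ, τ, fun j => ?_, fun j => ?_⟩
  · simp only [rank, symm_symm, h1]
    exact key σ h2 _ j.2.le
  · simp only [rank, symm_symm, g1]
    rw [key τ g2 _ (by omega)]
    have := j.2
    omega

theorem le_maxDiam {k n : ℕ} (hk : 3 ≤ k) (hn : 2 * k ≤ n) :
    (n : ℕ∞) ^ 3 + k * (n : ℕ∞) ^ 2 * (Nat.log 2 n : ℕ) ≤ 112000 * k * maxDiam k n := by
  obtain ⟨σ, τ, h1, h2⟩ := exists_reversal (k := k) (n := n) (by omega)
  have a1 : (FS (completeBipartiteGraph (Fin k) (Fin (n - k))) (YC n)).edist σ τ ≤ maxDiam k n :=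
    SimpleGraph.edist_le_ediam.trans (le_iSup₂_of_le (f := fun (Y : SimpleGraph (Fin n))
      (_ : Admissible k Y) => (FS (completeBipartiteGraph (Fin k) (Fin (n - k))) Y).ediam)
      (YC n) (YC_admissible hk (by omega)) le_rfl)
  have a2 : (FS (completeBipartiteGraph (Fin k) (Fin (n - k))) (YC n)).edist σ τ ≠ ⊤ :=
    ne_top_of_le_ne_top (by
      rw [show (12000 : ℕ∞) * (n : ℕ∞) ^ 3 = ((12000 * n ^ 3 : ℕ) : ℕ∞) by push_cast; rfl]
      exact ENat.natCast_ne_top _) (a1.trans (maxDiam_le hk hn))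
  obtain ⟨p, hp⟩ := SimpleGraph.exists_walk_of_edist_ne_top a2
  have a3 := lower_ex (card_right k (n - k)) (by omega) hk (by omega) Sum.inr (fun _ => rfl) h1 h2
    (ex_of_walk p)
  have a4 := lower_log (card_right k (n - k)) (by omega) hk (by omega) Sum.inr (fun _ => rfl) h1 h2
    (ex_of_walk p)
  have a5 : n ^ 3 + k * n ^ 2 * Nat.log 2 n ≤ 112000 * k * p.length := by
    have := Nat.mul_le_mul_left k a4
    nlinarith only [a3, this, Nat.zero_le (k * p.length)]
  calc (n : ℕ∞) ^ 3 + k * (n : ℕ∞) ^ 2 * (Nat.log 2 n : ℕ) ≤ 112000 * k * (p.length : ℕ∞) := by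
        exact_mod_cast a5
    _ ≤ 112000 * k * maxDiam k n := by rw [hp]; gcongr

end FSDiam
end
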