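import Pool.Agent.Work.MP_16c8e2_co.Final

-- part Base
section
/-! Definitions for the sharp upper bound. Tokens of colour `κ` are called red (blanks), the others
blue. -/

namespace FSDiam
open Equiv

variable {V T : Type*} [DecidableEq V] [Fintype V] [Fintype T] [DecidableEq T]

/-- An even permutation reachable in `N` moves acts as `σ` on the blue tokens. -/
def Ev (Y : SimpleGraph V) (col : T → Bool) (κ : Bool) (N : ℕ) (c : V ≃ T) (σ : Perm T) : Prop :=
  ∃ φ, H Y col N c φ ∧ Perm.sign φ = 1 ∧ ∀ t, col t ≠ κ → φ t = σ t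

/-- Every permutation supported in `A` is induced in `N` moves. -/
def Sy (Y : SimpleGraph V) (col : T → Bool) (κ : Bool) (N : ℕ) (c : V ≃ T) (A : Finset T) : Prop :=
  ∀ σ : Perm T, (∀ t, t ∉ A → σ t = t) → Ev Y col κ N c σ

/-- A rooted tree on the vertex set `Ω`; the root `v` is a junction. -/
structure PT (Y : SimpleGraph V) (Ω : Finset V) (v : V) (d : V → ℕ) (par : V → V) : Prop where
  mem : v ∈ Ω
  jn : Jn Y v
  d0 : d v = 0
  pv : par v = v
  pm : ∀ x ∈ Ω, par x ∈ Ω
  adj : ∀ x ∈ Ω, x ≠ v → Y.Adj (par x) x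
  dp : ∀ x ∈ Ω, x ≠ v → d (par x) + 1 = d x

/-- Distance to the nearest junction strictly above `x`. -/
noncomputable def iota (Y : SimpleGraph V) (par : V → V) (x : V) : ℕ :=
  sInf {j | 1 ≤ j ∧ Jn Y (par^[j] x)}

open Classical in
/-- For a junction, the number of vertices of the corridor above it. -/
noncomputable def lam (Y : SimpleGraph V) (par : V → V) (x : V) : ℕ :=
  if Jn Y x then iota Y par x - 1 else 0

/-- `x` is a descendant of `y` or `y` itself. -/
def Ds (d : V → ℕ) (par : V → V) (y x : V) : Prop := d y ≤ d x ∧ par^[d x - d y] x = y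

/-- All roots of the forest `Q` are children of `w`. -/
def HP (par : V → V) (Q : Finset V) (w : V) : Prop := w ∉ Q ∧ ∀ y ∈ Q, par y ∈ Q ∨ par y = w

/-- Equal, parent and child, siblings, or two roots of the forest `X`. -/
def Lk (par : V → V) (X : Finset V) (x y : V) : Prop :=
  x = y ∨ par x = y ∨ par y = x ∨ par x = par y ∨ (par x ∉ X ∧ par y ∉ X)

/-- An enumeration `z` of `X` in which consecutive vertices are two links apart, through pairwise
different middle vertices `u i`. -/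
structure Sek (par : V → V) (X : Finset V) (z u : ℕ → V) : Prop where
  zm : ∀ i < X.card, z i ∈ X
  zi : ∀ i < X.card, ∀ j < X.card, z i = z j → i = j
  zs : ∀ x ∈ X, ∃ i < X.card, z i = x
  um : ∀ i, i + 1 < X.card → u i ∈ X ∧ Lk par X (z i) (u i) ∧ Lk par X (u i) (z (i + 1))
  ui : ∀ i j, i + 1 < X.card → j + 1 < X.card → u i = u j → i = j

/-- The ranks `a, …, b - 1` with the middle vertices between them. -/
def Qh (z u : ℕ → V) (a b : ℕ) : Finset V :=
  (Finset.Ico a b).image z ∪ (Finset.Ico a (b - 1)).image u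

open Classical in
/-- The weight of step `i`. -/
noncomputable def wt (Y : SimpleGraph V) (par : V → V) (z u : ℕ → V) (μ i : ℕ) : ℕ :=
  if i + 1 < μ then lam Y par (z i) + lam Y par (u i) + lam Y par (z (i + 1)) else 0

/-- The state `c` is ready for the tokens whose homes (places in `c0`) form `Q`: the junction is
`γ 0`, the tokens from `γ (a + 1), …, γ (a + r)` stand on `γ 1, …, γ r`, the deeper ones are at
home, and `N` is a connected red stock around the junction. -/
structure RD (Y : SimpleGraph V) (col : T → Bool) (κ : Bool) (Ω : Finset V) (d : V → ℕ)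
    (par : V → V) (c0 c : V ≃ T) (Q : Finset V) (q a r : ℕ) (γ : ℕ → V) (N : Finset V) : Prop where
  jn : Jn Y (γ 0)
  m0 : γ 0 ∈ Ω
  path : ∀ j < a + r, γ (j + 1) ∈ Ω ∧ par (γ (j + 1)) = γ j ∧ d (γ (j + 1)) = d (γ 0) + (j + 1)
  njn : ∀ j, 1 ≤ j → j < a + r → ¬ Jn Y (γ j)
  a0 : a = 0 → r = 0
  a1 : 0 < a → 0 < r
  hp : HP par Q (γ a)
  train : ∀ j, 1 ≤ j → j ≤ r → γ (a + j) ∈ Q ∧ c (γ j) = c0 (γ (a + j))
  home : ∀ y ∈ Q, d (γ 0) + (a + r) < d y → c y = c0 y
  low : ∀ y ∈ Q, par y = γ (a + r) → Jn Y (γ (a + r)) ∧ 4 * q ≤ N.card + a ∧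
    ∀ j, r < j → j ≤ r + a → col (c (γ j)) = κ
  con : Con Y (N : Set V)
  gN : γ 0 ∈ N
  red : ∀ x ∈ N, col (c x) = κ
  le : N.card ≤ 8 * q
  av : ∀ y ∈ Q, ∀ j, j + d (γ 0) < d y → par^[j] y ∉ N
  cnt : ∀ j, 1 ≤ j → j ≤ r → ∀ y ∈ Q, par y = γ (a + j) → j + 2 ≤ N.card

def Ready (Y : SimpleGraph V) (col : T → Bool) (κ : Bool) (Ω : Finset V) (d : V → ℕ)
    (par : V → V) (c0 c : V ≃ T) (Q : Finset V) (q : ℕ) : Prop :=
  ∃ a r γ N, RD Y col κ Ω d par c0 c Q q a r γ N

/-- Products of adjacent exchanges in the shape of a rhombus on the ranks `a, …, a + 2 ^ j - 1`. -/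
inductive Rh (μ : ℕ) : ℕ → ℕ → Perm ℕ → Prop
  | one (a : ℕ) : Rh μ a 1 1
  | swap (a : ℕ) : a + 1 < μ → Rh μ a 1 (swap a (a + 1))
  | step (a j : ℕ) (p1 p2 p3 p4 : Perm ℕ) : Rh μ (a + 2 ^ j) (j + 1) p1 → Rh μ a (j + 1) p2 →
      Rh μ (a + 2 ^ (j + 1)) (j + 1) p3 → Rh μ (a + 2 ^ j) (j + 1) p4 →
      Rh μ a (j + 2) (p1 * p2 * p3 * p4)

/-- Merge sort with rhombi. -/
inductive So (μ : ℕ) : ℕ → ℕ → Perm ℕ → Prop
  | base (a : ℕ) (p : Perm ℕ) : Rh μ a 1 p → So μ a 1 p
  | step (a j : ℕ) (p1 p2 p3 : Perm ℕ) : So μ a (j + 1) p1 → So μ (a + 2 ^ (j + 1)) (j + 1) p2 →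
      Rh μ a (j + 2) p3 → So μ a (j + 2) (p1 * p2 * p3)

/-- `σ` is the permutation of tokens given by the permutation `p` of ranks. -/
def Lf (z : ℕ → T) (μ : ℕ) (p : Perm ℕ) (σ : Perm T) : Prop :=
  (∀ i < μ, p i < μ ∧ σ (z i) = z (p i)) ∧ ∀ t, (∀ i < μ, t ≠ z i) → σ t = t

/-- The cost of one window. -/
def cw (n k : ℕ) : ℕ := 10 ^ 10 * k * (n + k * (Nat.log 2 k + 1))

/-- The cost of sorting `μ` tokens with `β` blanks and windows of size `s`. -/
def cs (n k μ β s : ℕ) : ℕ :=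
  (μ / (s / 2) + 1) * (16 * (μ / s) * (cw n k + n * (β + k)) + 150 * (n * n)) + 6 * (n * n)

/-- A spanning tree, the red set `S` closed under parents, the base state `c0`. -/
structure Ctx (Y : SimpleGraph V) (col : T → Bool) (κ : Bool) (k : ℕ) (v : V) (d : V → ℕ)
    (par : V → V) (S : Finset V) (c0 : V ≃ T) : Prop where
  pt : PT Y Finset.univ v d par
  mem : v ∈ S
  closed : ∀ x ∈ S, par x ∈ S
  red : ∀ x, col (c0 x) = κ ↔ x ∈ S
  card : k ≤ S.card
  nbr : ¬ IBr Y k

/-- Two disjoint sets of `B` vertices, both connected through the junction `g`. -/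
structure Mach (Y : SimpleGraph V) (g : V) (X U : Finset V) (B : ℕ) : Prop where
  jn : Jn Y g
  gX : g ∉ X
  gU : g ∉ U
  dis : Disjoint X U
  cX : Con Y ((insert g X : Finset V) : Set V)
  cU : Con Y ((insert g U : Finset V) : Set V)
  nX : X.card = B
  nU : U.card = B

/-- The edge `z y` leaves the descendants of `g1` and is not the edge to the parent of `g1`. -/
def Out (Y : SimpleGraph V) (d : V → ℕ) (par : V → V) (g1 z y : V) : Prop :=
  Ds d par g1 z ∧ ¬ Ds d par g1 y ∧ Y.Adj z y ∧ ¬ (z = g1 ∧ y = par g1)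

/-- The first vertex below the nearest junction above `ρ`. -/
noncomputable def top (Y : SimpleGraph V) (par : V → V) (ρ : V) : V := par^[iota Y par ρ - 1] ρ

/-- The vertical path from the parent of `g1` (index 0) down to `z`. -/
def vp (d : V → ℕ) (par : V → V) (g1 z : V) (j : ℕ) : V := par^[d z - d (par g1) - j] z

/-- `Q` hangs at its root `ρ` deep in a corridor that is not a bridge. -/
def Md (Y : SimpleGraph V) (d : V → ℕ) (par : V → V) (S : Finset V) (D : ℕ) (Q : Finset V)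
    (ρ : V) : Prop :=
  ρ ∈ Q ∧ HP par Q (par ρ) ∧ D < iota Y par ρ ∧ par^[D] ρ ∉ S ∧
    ∃ z y, Out Y d par (top Y par ρ) z y

/-- The states in which the tokens on the vertical path to `z` are advanced step by step. -/
def Chain (Y : SimpleGraph V) (col : T → Bool) (κ : Bool) (k : ℕ) (d : V → ℕ) (par : V → V)
    (S : Finset V) (c0 : V ≃ T) (g1 z : V) (σ : ℕ → V ≃ T) : Prop :=
  σ 0 = c0 ∧ (∀ a, Rn Y col (2 * Fintype.card V) (σ a) (σ (a + 1))) ∧
    ∀ a b t, vp d par g1 z (a + 1) ∉ S → b ≤ d z - d (par g1) → b ≤ a + t → 1 ≤ t → 16 * t ≤ k →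
      Sy Y col κ (cw (Fintype.card V) k) (σ a)
        ((Finset.Ioc a b).image fun j => c0 (vp d par g1 z j))

/-- The two shapes of a window outside `S`. -/
def Hull (par : V → V) (S Q : Finset V) : Prop :=
  (∀ y ∈ Q, y ∉ S) ∧ ((∀ y ∈ Q, par y ∈ Q ∨ par y ∈ S) ∨ ∃ w, w ∉ S ∧ HP par Q w)

variable {Y : SimpleGraph V} {col : T → Bool} {κ : Bool}

omit [Fintype V] in
theorem Ev.one (N : ℕ) (c : V ≃ T) : Ev Y col κ N c 1 := ⟨1, H.one N c, by simp, fun _ _ => rfl⟩

omit [Fintype V] in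
theorem Ev.mono {N M : ℕ} {c : V ≃ T} {σ : Perm T} (h : Ev Y col κ N c σ) (hNM : N ≤ M) :
    Ev Y col κ M c σ := by
  obtain ⟨φ, h1, h2, h3⟩ := h
  exact ⟨φ, h1.mono hNM, h2, h3⟩

omit [Fintype V] in
theorem Ev.mul {N M : ℕ} {c : V ≃ T} {σ τ : Perm T} (h : Ev Y col κ N c σ)
    (h' : Ev Y col κ M c τ) : Ev Y col κ (N + M) c (σ * τ) := by
  obtain ⟨φ, h1, h2, h3⟩ := h
  obtain ⟨ψ, g1, g2, g3⟩ := h'
  refine ⟨φ * ψ, h1.mul g1, by simp [h2, g2], fun t ht => ?_⟩
  rw [Perm.mul_apply, Perm.mul_apply, h3 _ (by rw [g1.1]; exact ht), g3 t ht]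

omit [Fintype V] in
theorem Ev.inv {N : ℕ} {c : V ≃ T} {σ : Perm T} (h : Ev Y col κ N c σ) : Ev Y col κ N c σ⁻¹ := by
  obtain ⟨φ, h1, h2, h3⟩ := h
  refine ⟨φ⁻¹, h1.inv, by simp [h2], fun t ht => ?_⟩
  rw [eq_comm, Perm.inv_eq_iff_eq, ← h3 _ (by rw [h1.inv.1]; exact ht)]
  simp

omit [Fintype V] in
theorem Ev.transport {N M : ℕ} {c c1 : V ≃ T} {σ : Perm T} (h : Ev Y col κ N c1 σ)
    (hr : Rn Y col M c c1) : Ev Y col κ (N + 2 * M) c σ := by
  obtain ⟨φ, h1, h2, h3⟩ := h
  exact ⟨φ, h1.transport hr, h2, h3⟩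

omit [Fintype V] in
theorem Pure.ev {N : ℕ} {c : V ≃ T} {B B' : T} (h : Pure Y col N c B B') (hB : col B ≠ κ) :
    Ev Y col κ N c (swap B B') := by
  obtain ⟨-, φ, h1, h2, h3⟩ := h
  refine ⟨φ, h1, h2, fun t ht => h3 t ?_⟩
  revert ht hB
  cases col t <;> cases col B <;> cases κ <;> simp

omit [Fintype V] in
theorem Sy.mono {N M : ℕ} {c : V ≃ T} {A : Finset T} (h : Sy Y col κ N c A) (hNM : N ≤ M) :
    Sy Y col κ M c A := fun σ hσ => (h σ hσ).mono hNM

omit [Fintype V] in
theorem Sy.sub {N : ℕ} {c : V ≃ T} {A A' : Finset T} (h : Sy Y col κ N c A) (hA : A' ⊆ A) :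
    Sy Y col κ N c A' := fun σ hσ => h σ fun t ht => hσ t fun hh => ht (hA hh)

omit [Fintype V] in
theorem Sy.transport {N M : ℕ} {c c1 : V ≃ T} {A : Finset T} (h : Sy Y col κ N c1 A)
    (hr : Rn Y col M c c1) : Sy Y col κ (N + 2 * M) c A := fun σ hσ => (h σ hσ).transport hr

omit [Fintype V] in
theorem Sy.small {N : ℕ} {c : V ≃ T} {A : Finset T} (hA : A.card ≤ 1) : Sy Y col κ N c A := by
  intro σ hσ
  have : σ = 1 := by
    ext t
    by_contra hcon
    have h1 : t ∈ A := by by_contra hh; exact hcon (hσ t hh)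
    have h2 : σ t ∈ A := by
      by_contra hh
      exact hcon (σ.injective (hσ _ hh))
    exact hcon (Finset.card_le_one.1 hA _ h2 _ h1)
  rw [this]; exact Ev.one N c

end FSDiam
end

-- part Tree0
section
namespace FSDiam
open Equiv

variable {V T : Type*} [DecidableEq V] [Fintype V] [Fintype T] [DecidableEq T]
variable {Y : SimpleGraph V} {col : T → Bool} {κ : Bool}
variable {Ω : Finset V} {v : V} {d : V → ℕ} {par : V → V}

theorem PT.it_mem (h : PT Y Ω v d par) {x : V} (hx : x ∈ Ω) (j : ℕ) : par^[j] x ∈ Ω := by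
  induction j with
  | zero => exact hx
  | succ j ih => rw [Function.iterate_succ_apply']; exact h.pm _ ih

theorem PT.zero (h : PT Y Ω v d par) {x : V} (hx : x ∈ Ω) (h0 : d x = 0) : x = v := by
  by_contra hv
  have := h.dp x hx hv
  omega

theorem PT.d_it (h : PT Y Ω v d par) {x : V} (hx : x ∈ Ω) (j : ℕ) : d (par^[j] x) = d x - j := by
  induction j with
  | zero => rfl
  | succ j ih =>
    rw [Function.iterate_succ_apply']
    by_cases hv : par^[j] x = v
    · rw [hv, h.d0] at ih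
      rw [hv, h.pv, h.d0]
      omega
    · have := h.dp _ (h.it_mem hx j) hv
      omega

theorem PT.it_d (h : PT Y Ω v d par) {x : V} (hx : x ∈ Ω) : par^[d x] x = v := by
  exact h.zero (h.it_mem hx _) (by rw [h.d_it hx, Nat.sub_self])

theorem PT.adj_it (h : PT Y Ω v d par) {x : V} (hx : x ∈ Ω) {j : ℕ} (hj : j < d x) :
    Y.Adj (par^[j + 1] x) (par^[j] x) := by
  rw [Function.iterate_succ_apply']
  refine h.adj _ (h.it_mem hx j) fun hv => ?_
  have := h.d_it hx j
  rw [hv, h.d0] at this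
  omega

theorem tree0_card (h : PT Y Ω v d par) {S : Finset V} {x : V} (hx : x ∈ Ω)
    (hS : ∀ j, par^[j] x ∈ S) : d x + 1 ≤ S.card := by
  rw [← Finset.card_range (d x + 1)]
  refine Finset.card_le_card_of_injOn (fun j => par^[j] x) (fun j _ => hS j) fun i hi j hj e => ?_
  have a1 := h.d_it hx i
  have a2 := h.d_it hx j
  have e' : par^[i] x = par^[j] x := e
  rw [e'] at a1
  simp only [Finset.coe_range, Set.mem_Iio] at hi hj
  omega

/-- The ancestors have different depths. -/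
theorem PT.d_lt (h : PT Y Ω v d par) {x : V} (hx : x ∈ Ω) : d x + 1 ≤ Ω.card := by
  exact tree0_card h hx (h.it_mem hx)

/-- A set closed under parents contains all ancestors. -/
theorem PT.d_lt_closed (h : PT Y Ω v d par) {S : Finset V} (hS : ∀ x ∈ S, par x ∈ S) {x : V}
    (hx : x ∈ Ω) (hxS : x ∈ S) : d x + 1 ≤ S.card := by
  refine tree0_card h hx fun j => ?_
  induction j with
  | zero => exact hxS
  | succ j ih => rw [Function.iterate_succ_apply']; exact hS _ ih

/-- `j = d x` belongs to the set of the infimum since the root is a junction. -/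
theorem PT.iota_spec (h : PT Y Ω v d par) {x : V} (hx : x ∈ Ω) (hv : x ≠ v) :
    1 ≤ iota Y par x ∧ iota Y par x ≤ d x ∧ Jn Y (par^[iota Y par x] x) ∧
      ∀ j, 1 ≤ j → j < iota Y par x → ¬ Jn Y (par^[j] x) := by
  have hd : 1 ≤ d x := by have := h.dp x hx hv; omega
  have hm : d x ∈ {j | 1 ≤ j ∧ Jn Y (par^[j] x)} := ⟨hd, by rw [h.it_d hx]; exact h.jn⟩
  have hs := Nat.sInf_mem ⟨_, hm⟩
  exact ⟨hs.1, Nat.sInf_le hm, hs.2, fun j h1 h2 hJ => Nat.notMem_of_lt_sInf h2 ⟨h1, hJ⟩⟩

theorem iota_eq {x : V} {m : ℕ} (h1 : 1 ≤ m) (hJ : Jn Y (par^[m] x))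
    (hn : ∀ j, 1 ≤ j → j < m → ¬ Jn Y (par^[j] x)) : iota Y par x = m := by
  have hm : m ∈ {j | 1 ≤ j ∧ Jn Y (par^[j] x)} := ⟨h1, hJ⟩
  have hs := Nat.sInf_mem ⟨_, hm⟩
  refine le_antisymm (Nat.sInf_le hm) (not_lt.1 fun hlt => hn _ hs.1 hlt hs.2)

theorem tree0_nbr (h : PT Y Ω v d par) {x z : V} (hx : x ∈ Ω) (hv : x ≠ v) (hy : ¬ Jn Y (par x))
    (hz : Y.Adj (par x) z) : z = x ∨ z = par (par x) := by
  have hyv : par x ≠ v := fun hh => hy (by rw [hh]; exact h.jn)
  refine not_Jn hy (h.adj _ hx hv) (h.adj _ (h.pm _ hx) hyv).symm (fun e => ?_) z hz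
  have a1 := h.dp _ hx hv
  have a2 := h.dp _ (h.pm _ hx) hyv
  rw [← e] at a2
  omega

/-- A vertex that is not a junction is not the root, so `par y`, `x`, `x'` are neighbours. -/
theorem PT.child_unique (h : PT Y Ω v d par) {y x x' : V} (hy : ¬ Jn Y y) (hx : x ∈ Ω)
    (hx' : x' ∈ Ω) (hv : x ≠ v) (hv' : x' ≠ v) (e : par x = y) (e' : par x' = y) : x = x' := by
  have h1 := tree0_nbr h hx hv (e ▸ hy) (z := x') (by rw [e, ← e']; exact h.adj _ hx' hv')
  rcases h1 with h1 | h1
  · exact h1.symm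
  · have hyv : par x ≠ v := fun hh => hy (by rw [← e, hh]; exact h.jn)
    have a1 := h.dp _ hx' hv'
    have a2 := h.dp _ (h.pm _ hx) hyv
    rw [e', h1] at a1
    rw [e] at a1 a2
    omega

/-- The neighbours of a vertex with a child that is not a junction. -/
theorem PT.nbr (h : PT Y Ω v d par) {x z : V} (hx : x ∈ Ω) (hv : x ≠ v) (hy : ¬ Jn Y (par x))
    (hz : Y.Adj (par x) z) : z = x ∨ z = par (par x) := by
  exact tree0_nbr h hx hv hy hz

end FSDiam
end

-- part Tree1
section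
namespace FSDiam
open Equiv

variable {V T : Type*} [DecidableEq V] [Fintype V] [Fintype T] [DecidableEq T]
variable {Y : SimpleGraph V} {col : T → Bool} {κ : Bool}
variable {Ω : Finset V} {v : V} {d : V → ℕ} {par : V → V}

/-- Induction on the depth: every vertex reaches `g` inside `A`. -/
theorem PT.con_closed (h : PT Y Ω v d par) {A : Finset V} (hA : A ⊆ Ω) {g : V} (hg : g ∈ A)
    (hc : ∀ x ∈ A, x ≠ g → x ≠ v ∧ par x ∈ A) : Con Y (A : Set V) := by
  have key : ∀ n, ∀ x ∈ A, d x = n → (YU Y (A : Set V)).Reachable x g := by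
    intro n
    induction n with
    | zero =>
      intro x hx h0
      by_cases e : x = g
      · rw [e]
      · have := h.dp x (hA hx) (hc x hx e).1
        omega
    | succ n ih =>
      intro x hx h0
      by_cases e : x = g
      · rw [e]
      · obtain ⟨a1, a2⟩ := hc x hx e
        have := h.dp x (hA hx) a1
        have a3 : (YU Y (A : Set V)).Adj x (par x) :=
          ⟨(h.adj x (hA hx) a1).symm, Finset.mem_coe.2 hx, Finset.mem_coe.2 a2⟩
        exact a3.reachable.trans (ih _ a2 (by omega))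
  intro x hx y hy
  exact (key _ x (Finset.mem_coe.1 hx) rfl).trans (key _ y (Finset.mem_coe.1 hy) rfl).symm

theorem tree1_aux (h : PT Y Ω v d par) {Q : Finset V} {w : V} (hQ : Q ⊆ Ω) (hv : v ∉ Q)
    (hp : HP par Q w) : ∀ n, ∀ y ∈ Q, d y = n →
    w ∈ Ω ∧ d w < d y ∧ par^[d y - d w] y = w ∧ ∀ j, j + d w < d y → par^[j] y ∈ Q := by
  intro n
  induction n with
  | zero =>
    intro y hy h0
    have := h.dp y (hQ hy) (fun e => hv (e ▸ hy))
    omega
  | succ n ih =>
    intro y hy h0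
    have e1 := h.dp y (hQ hy) (fun e => hv (e ▸ hy))
    rcases hp.2 y hy with e | e
    · obtain ⟨a1, a2, a3, a4⟩ := ih _ e (by omega)
      refine ⟨a1, by omega, ?_, fun j hj => ?_⟩
      · rw [show d y - d w = (d (par y) - d w) + 1 by omega, Function.iterate_succ_apply]
        exact a3
      · rcases j with _ | j
        · exact hy
        · rw [Function.iterate_succ_apply]
          exact a4 j (by omega)
    · rw [e] at e1
      refine ⟨e ▸ h.pm y (hQ hy), by omega, ?_, fun j hj => ?_⟩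
      · rw [show d y - d w = 1 by omega]
        exact e
      · rw [show j = 0 by omega]
        exact hy

/-- Induction on the depth; the ancestors below `w` are different elements of `Q`. -/
theorem PT.hp_depth (h : PT Y Ω v d par) {Q : Finset V} {w : V} (hQ : Q ⊆ Ω) (hv : v ∉ Q)
    (hp : HP par Q w) {y : V} (hy : y ∈ Q) :
    w ∈ Ω ∧ d w < d y ∧ d y ≤ d w + Q.card ∧ par^[d y - d w] y = w ∧
      ∀ j, j + d w < d y → par^[j] y ∈ Q := by
  obtain ⟨a1, a2, a3, a4⟩ := tree1_aux h hQ hv hp _ y hy rfl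
  refine ⟨a1, a2, ?_, a3, a4⟩
  have := Finset.card_le_card_of_injOn (s := Finset.range (d y - d w)) (t := Q)
    (fun j => par^[j] y) (fun j hj => by
      have := Finset.mem_range.1 (Finset.mem_coe.1 hj)
      exact Finset.mem_coe.2 (a4 j (by omega)))
    (fun i hi j hj e => by
      have b1 := Finset.mem_range.1 (Finset.mem_coe.1 hi)
      have b2 := Finset.mem_range.1 (Finset.mem_coe.1 hj)
      have := congrArg d e
      simp only [h.d_it (hQ hy)] at this
      omega)
  rw [Finset.card_range] at this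
  omega

theorem PT.hp_root (h : PT Y Ω v d par) {Q : Finset V} {w : V} (hQ : Q ⊆ Ω) (hv : v ∉ Q)
    (hp : HP par Q w) (hne : Q.Nonempty) : ∃ ρ ∈ Q, par ρ = w := by
  obtain ⟨y, hy⟩ := hne
  obtain ⟨-, a2, a3, a4⟩ := tree1_aux h hQ hv hp _ y hy rfl
  refine ⟨par^[d y - d w - 1] y, a4 _ (by omega), ?_⟩
  rw [show d y - d w = (d y - d w - 1) + 1 by omega, Function.iterate_succ_apply'] at a3
  exact a3

theorem Ds.refl (x : V) : Ds d par x x := by
  exact ⟨le_rfl, by simp⟩

theorem PT.ds_it (h : PT Y Ω v d par) {x : V} (hx : x ∈ Ω) {j : ℕ} (hj : j ≤ d x) :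
    Ds d par (par^[j] x) x := by
  refine ⟨by rw [h.d_it hx]; omega, ?_⟩
  rw [h.d_it hx, show d x - (d x - j) = j by omega]

theorem PT.ds_trans (h : PT Y Ω v d par) {x y z : V} (hz : z ∈ Ω) (h1 : Ds d par x y)
    (h2 : Ds d par y z) : Ds d par x z := by
  obtain ⟨a1, a2⟩ := h1
  obtain ⟨b1, b2⟩ := h2
  refine ⟨a1.trans b1, ?_⟩
  rw [show d z - d x = (d y - d x) + (d z - d y) by omega, Function.iterate_add_apply, b2, a2]

/-- The parent of a proper descendant is a descendant. -/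
theorem PT.ds_par (h : PT Y Ω v d par) {x y : V} (hy : y ∈ Ω) (h1 : Ds d par x y) (hne : y ≠ x) :
    y ≠ v ∧ Ds d par x (par y) := by
  obtain ⟨a1, a2⟩ := h1
  have hlt : d x < d y := by
    by_contra hcon
    rw [show d y - d x = 0 by omega] at a2
    exact hne a2
  have hv : y ≠ v := by
    intro e
    have := h.d0
    rw [← e] at this
    omega
  have e1 := h.dp y hy hv
  refine ⟨hv, by omega, ?_⟩
  rw [show d y - d x = (d (par y) - d x) + 1 by omega, Function.iterate_succ_apply] at a2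
  exact a2

theorem PT.ds_child (h : PT Y Ω v d par) {x y : V} (hy : y ∈ Ω) (hv : y ≠ v)
    (h1 : Ds d par x (par y)) : Ds d par x y := by
  obtain ⟨a1, a2⟩ := h1
  have e1 := h.dp y hy hv
  refine ⟨by omega, ?_⟩
  rw [show d y - d x = (d (par y) - d x) + 1 by omega, Function.iterate_succ_apply]
  exact a2

/-- Two ancestors of one vertex are comparable. -/
theorem PT.ds_cmp (h : PT Y Ω v d par) {x x' y : V} (hy : y ∈ Ω) (h1 : Ds d par x y)
    (h2 : Ds d par x' y) (hd : d x ≤ d x') : Ds d par x x' := by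
  obtain ⟨a1, a2⟩ := h1
  obtain ⟨b1, b2⟩ := h2
  refine ⟨hd, ?_⟩
  rw [show d y - d x = (d x' - d x) + (d y - d x') by omega, Function.iterate_add_apply, b2] at a2
  exact a2

/-- A set closed under parents that contains a descendant of `x` contains `x`. -/
theorem ds_closed {S : Finset V} (hS : ∀ x ∈ S, par x ∈ S) {x y : V} (h1 : Ds d par x y)
    (hy : y ∈ S) : x ∈ S := by
  have key : ∀ j, par^[j] y ∈ S := by
    intro j
    induction j with
    | zero => exact hy
    | succ j ih => rw [Function.iterate_succ_apply']; exact hS _ ih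
  rw [← h1.2]
  exact key _

/-- Two connected sets with a common vertex or joined by an edge. -/
theorem Con.union {A B : Set V} (hA : Con Y A) (hB : Con Y B) {x y : V} (hx : x ∈ A) (hy : y ∈ B)
    (hxy : x = y ∨ Y.Adj x y) : Con Y (A ∪ B) := by
  have hyx : (YU Y (A ∪ B)).Reachable y x := by
    rcases hxy with e | e
    · rw [e]
    · exact SimpleGraph.Adj.reachable ⟨e.symm, Or.inr hy, Or.inl hx⟩
  have key : ∀ z ∈ A ∪ B, (YU Y (A ∪ B)).Reachable z x := by
    rintro z (hz | hz)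
    · exact (hA z hz x hx).mono (YU_mono Set.subset_union_left)
    · exact ((hB z hz y hy).mono (YU_mono Set.subset_union_right)).trans hyx
  intro a ha b hb
  exact (key a ha).trans (key b hb).symm

end FSDiam
end

-- part Tree2a
section
namespace FSDiam
open Equiv

variable {V T : Type*} [DecidableEq V] [Fintype V] [Fintype T] [DecidableEq T]
variable {Y : SimpleGraph V} {col : T → Bool} {κ : Bool}
variable {Ω : Finset V} {v : V} {d : V → ℕ} {par : V → V}

/-- A connected set that is not all of the connected set `U` has a neighbour in `U`. -/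
theorem exists_next {A U : Finset V} (hU : Con Y (U : Set V)) (hAU : A ⊆ U) (hne : A.Nonempty)
    (hlt : A.card < U.card) : ∃ x ∈ U, x ∉ A ∧ ∃ y ∈ A, Y.Adj y x := by
  obtain ⟨a, ha⟩ := hne
  obtain ⟨b, hb, hbA⟩ : ∃ b ∈ U, b ∉ A := by
    by_contra hcon
    push Not at hcon
    exact absurd (Finset.card_le_card (fun x hx => hcon x hx)) (by omega)
  have hr := hU a (hAU ha) b hb
  rw [SimpleGraph.reachable_iff_reflTransGen] at hr
  by_contra hcon
  apply hbA
  clear hbA hb
  induction hr with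
  | refl => exact ha
  | tail _ h2 ih =>
    by_contra hc
    exact hcon ⟨_, h2.2.2, hc, _, ih, h2.1⟩

/-- Add neighbours one by one (`exists_next`, `Con.insert`). -/
theorem grow_sup {A U : Finset V} (hA : Con Y (A : Set V)) (hU : Con Y (U : Set V)) (hAU : A ⊆ U)
    (hne : A.Nonempty) {ν : ℕ} (h1 : A.card ≤ ν) (h2 : ν ≤ U.card) :
    ∃ N : Finset V, A ⊆ N ∧ N ⊆ U ∧ Con Y (N : Set V) ∧ N.card = ν := by
  induction ν, h1 using Nat.le_induction with
  | base => exact ⟨A, Finset.Subset.refl _, hAU, hA, rfl⟩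
  | succ n _ ih =>
    obtain ⟨N, h3, h4, h5, h6⟩ := ih (by omega)
    obtain ⟨x, hx, hxN, y, hy, hadj⟩ := exists_next hU h4 (hne.mono h3) (by omega)
    refine ⟨insert x N, h3.trans (Finset.subset_insert _ _), Finset.insert_subset hx h4, ?_, ?_⟩
    · rw [Finset.coe_insert]
      exact h5.insert (Finset.mem_coe.2 hy) hadj.symm
    · rw [Finset.card_insert_of_notMem hxN, h6]

theorem grow {U : Finset V} (hU : Con Y (U : Set V)) {g : V} (hg : g ∈ U) {ν : ℕ} (h1 : 1 ≤ ν)
    (h2 : ν ≤ U.card) : ∃ N : Finset V, g ∈ N ∧ N ⊆ U ∧ Con Y (N : Set V) ∧ N.card = ν := by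
  have hc : Con Y (({g} : Finset V) : Set V) := by
    intro x hx y hy
    rw [Finset.mem_coe, Finset.mem_singleton] at hx hy
    rw [hx, hy]
  obtain ⟨N, h3, h4, h5, h6⟩ := grow_sup hc hU (Finset.singleton_subset_iff.2 hg)
    (Finset.singleton_nonempty g) (ν := ν) (by simpa using h1) h2
  exact ⟨N, h3 (Finset.mem_singleton_self g), h4, h5, h6⟩

/-- A tree on `A` extends to the connected set `B`: add a vertex `x` next to `y` with
`Function.update par x y`, `Function.update d x (d y + 1)`. -/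
theorem PT.extend {A B : Finset V} (h : PT Y A v d par) (hAB : A ⊆ B) (hB : Con Y (B : Set V)) :
    ∃ (d' : V → ℕ) (par' : V → V), PT Y B v d' par' ∧ ∀ x ∈ A, par' x = par x := by
  have key : ∀ n, A.card ≤ n → n ≤ B.card → ∃ (N : Finset V) (d' : V → ℕ) (par' : V → V),
      A ⊆ N ∧ N ⊆ B ∧ N.card = n ∧ PT Y N v d' par' ∧ ∀ x ∈ A, par' x = par x := by
    intro n h1
    induction n, h1 using Nat.le_induction with
    | base => exact fun _ => ⟨A, d, par, Finset.Subset.refl _, hAB, rfl, h, fun _ _ => rfl⟩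
    | succ n _ ih =>
      intro h2
      obtain ⟨N, d1, p1, h3, h4, h5, h6, h7⟩ := ih (by omega)
      obtain ⟨x, hx, hxN, y, hy, hadj⟩ := exists_next hB h4 ⟨v, h6.mem⟩ (by omega)
      have ne : ∀ z ∈ N, z ≠ x := fun z hz e => hxN (e ▸ hz)
      refine ⟨insert x N, Function.update d1 x (d1 y + 1), Function.update p1 x y,
        h3.trans (Finset.subset_insert _ _), Finset.insert_subset hx h4, ?_, ?_, ?_⟩
      · rw [Finset.card_insert_of_notMem hxN, h5]
      · refine ⟨Finset.mem_insert_of_mem h6.mem, h6.jn, ?_, ?_, ?_, ?_, ?_⟩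
        · rw [Function.update_of_ne (ne v h6.mem)]; exact h6.d0
        · rw [Function.update_of_ne (ne v h6.mem)]; exact h6.pv
        · intro z hz
          rcases Finset.mem_insert.1 hz with rfl | hz
          · rw [Function.update_self]; exact Finset.mem_insert_of_mem hy
          · rw [Function.update_of_ne (ne z hz)]; exact Finset.mem_insert_of_mem (h6.pm z hz)
        · intro z hz hzv
          rcases Finset.mem_insert.1 hz with rfl | hz
          · rw [Function.update_self]; exact hadj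
          · rw [Function.update_of_ne (ne z hz)]; exact h6.adj z hz hzv
        · intro z hz hzv
          rcases Finset.mem_insert.1 hz with rfl | hz
          · rw [Function.update_self, Function.update_self, Function.update_of_ne (ne y hy)]
          · rw [Function.update_of_ne (ne z hz), Function.update_of_ne (ne z hz),
              Function.update_of_ne (ne _ (h6.pm z hz))]
            exact h6.dp z hz hzv
      · intro z hz
        rw [Function.update_of_ne (ne z (h3 hz))]; exact h7 z hz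
  obtain ⟨N, d1, p1, -, h4, h5, h6, h7⟩ := key B.card (Finset.card_le_card hAB) le_rfl
  have e : N = B := Finset.eq_of_subset_of_card_le h4 (by omega)
  subst e
  exact ⟨d1, p1, h6, h7⟩

/-- Start from `{v}` with `par = id`, `d = 0`, extend to `A`, then to `B`. -/
theorem exists_PT {A B : Finset V} (hJ : Jn Y v) (hv : v ∈ A) (hAB : A ⊆ B)
    (hA : Con Y (A : Set V)) (hB : Con Y (B : Set V)) :
    ∃ (d : V → ℕ) (par : V → V), PT Y B v d par ∧ ∀ x ∈ A, par x ∈ A := by
  have h0 : PT Y {v} v (fun _ => 0) id :=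
    ⟨Finset.mem_singleton_self v, hJ, rfl, rfl, fun x hx => hx,
      fun x hx hne => absurd (Finset.mem_singleton.1 hx) hne,
      fun x hx hne => absurd (Finset.mem_singleton.1 hx) hne⟩
  obtain ⟨d1, p1, h1, -⟩ := h0.extend (Finset.singleton_subset_iff.2 hv) hA
  obtain ⟨d2, p2, h2, h3⟩ := h1.extend hAB hB
  exact ⟨d2, p2, h2, fun x hx => by rw [h3 x hx]; exact h1.pm x hx⟩

/-- Take a tree on `insert g A`, a deepest vertex `x` and the vertical path to it. -/
theorem peel {g : V} (hJ : Jn Y g) {A : Finset V} (hg : g ∉ A) (hne : A.Nonempty)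
    (hA : Con Y ((insert g A : Finset V) : Set V)) :
    ∃ (L : ℕ) (γ : ℕ → V), 1 ≤ L ∧ γ 0 = g ∧ (∀ j, 1 ≤ j → j ≤ L → γ j ∈ A) ∧
      (∀ j < L, Y.Adj (γ j) (γ (j + 1))) ∧ (∀ i ≤ L, ∀ j ≤ L, γ i = γ j → i = j) ∧
      Con Y ((insert g (A.erase (γ L)) : Finset V) : Set V) := by
  obtain ⟨d, par, h, -⟩ := exists_PT hJ (Finset.mem_insert_self g A) (Finset.Subset.refl _) hA hA
  obtain ⟨x, hx, hmax⟩ := A.exists_max_image d hne
  have hxΩ : x ∈ insert g A := Finset.mem_insert_of_mem hx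
  have hxg : x ≠ g := fun e => hg (e ▸ hx)
  have hL : 1 ≤ d x := by
    by_contra hc
    exact hxg (h.zero hxΩ (by omega))
  refine ⟨d x, fun j => par^[d x - j] x, hL, ?_, ?_, ?_, ?_, ?_⟩
  · simpa using h.it_d hxΩ
  · intro j h1 h2
    rcases Finset.mem_insert.1 (h.it_mem hxΩ (d x - j)) with e | e
    · have h3 := h.d_it hxΩ (d x - j)
      rw [e, h.d0] at h3
      omega
    · exact e
  · intro j hj
    have h3 := h.adj_it hxΩ (j := d x - (j + 1)) (by omega)
    have e : d x - (j + 1) + 1 = d x - j := by omega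
    rw [e] at h3
    exact h3
  · intro i hi j hj e
    have h3 := h.d_it hxΩ (d x - i)
    have h4 := h.d_it hxΩ (d x - j)
    have e' : par^[d x - i] x = par^[d x - j] x := e
    rw [e'] at h3
    omega
  · simp only [Nat.sub_self, Function.iterate_zero, id_eq]
    refine h.con_closed (Finset.insert_subset_insert _ (Finset.erase_subset _ _))
      (Finset.mem_insert_self g _) ?_
    intro z hz hzg
    refine ⟨hzg, ?_⟩
    have hzA : z ∈ A := by
      rcases Finset.mem_insert.1 hz with e | e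
      · exact absurd e hzg
      · exact Finset.mem_of_mem_erase e
    have hzΩ : z ∈ insert g A := Finset.mem_insert_of_mem hzA
    rcases Finset.mem_insert.1 (h.pm z hzΩ) with e | e
    · rw [e]; exact Finset.mem_insert_self g _
    · refine Finset.mem_insert_of_mem (Finset.mem_erase.2 ⟨fun e' => ?_, e⟩)
      have h3 := h.dp z hzΩ hzg
      have h4 := hmax z hzA
      rw [e'] at h3
      omega

end FSDiam
end

-- part Tree2
section
namespace FSDiam
open Equiv

variable {V T : Type*} [DecidableEq V] [Fintype V] [Fintype T] [DecidableEq T]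
variable {Y : SimpleGraph V} {col : T → Bool} {κ : Bool}
variable {Ω : Finset V} {v : V} {d : V → ℕ} {par : V → V}

omit [DecidableEq V] [Fintype V] in
/-- A set closed under adjacency inside the connected set `S` that meets `S` contains `S`. -/
theorem tree2_all {S W : Set V} (hS : Con Y S) {g : V} (hg : g ∈ S) (hgW : g ∈ W)
    (hcl : ∀ x ∈ W, ∀ y ∈ S, Y.Adj x y → y ∈ W) : ∀ y ∈ S, y ∈ W := by
  intro y hy
  have h := (SimpleGraph.reachable_iff_reflTransGen _ _).1 (hS g hg y hy)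
  clear hy
  induction h with
  | refl => exact hgW
  | tail _ h2 ih => exact hcl _ ih _ h2.2.2 h2.1

omit [Fintype V] in
/-- The component of `g` after deleting `a`. -/
theorem tree2_comp {g a : V} {A : Finset V} (ha : Y.Adj g a) :
    ∃ A' : Finset V, a ∉ A' ∧ A' ⊆ A ∧ Con Y ((insert g A' : Finset V) : Set V) ∧
      ∀ x ∈ insert g A', ∀ y ∈ insert g A, y ≠ a → Y.Adj x y → y ∈ insert g A' := by
  classical
  obtain ⟨W, hW, h0, hWS, hcl⟩ := exists_comp (Y := Y) {x | x ∈ insert g A ∧ x ≠ a} (w := g)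
    ⟨Finset.mem_insert_self _ _, ha.ne⟩
  have e : ∀ x, x ∈ insert g (A.filter (· ∈ W)) ↔ x ∈ W := by
    intro x
    rw [Finset.mem_insert, Finset.mem_filter]
    constructor
    · rintro (rfl | h)
      · exact h0
      · exact h.2
    · intro h
      rcases Finset.mem_insert.1 (hWS h).1 with h1 | h1
      · exact Or.inl h1
      · exact Or.inr ⟨h1, h⟩
  refine ⟨A.filter (· ∈ W), fun h => (hWS (Finset.mem_filter.1 h).2).2 rfl,
    Finset.filter_subset _ _, ?_, fun x hx y hy hya hxy => ?_⟩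
  · have e' : ((insert g (A.filter (· ∈ W)) : Finset V) : Set V) = W :=
      Set.ext fun x => by rw [Finset.mem_coe]; exact e x
    rw [e']; exact hW
  · exact (e y).2 (hcl x ((e x).1 hx) y ⟨hy, hya⟩ hxy)

/-- Two neighbours `a`, `b` of `g` in `A`: the components of `g` after deleting `a` and after
deleting `b` (`exists_comp`) cover `insert g A`, since their union is closed under adjacency; the
larger one has half of the vertices. -/
theorem half {g a b : V} {A : Finset V} (hg : g ∉ A) (ha : Y.Adj g a) (hb : Y.Adj g b)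
    (hab : a ≠ b) (hA : Con Y ((insert g A : Finset V) : Set V)) :
    ∃ (l : V) (A' : Finset V), (l = a ∨ l = b) ∧ l ∉ A' ∧ A' ⊆ A ∧
      Con Y ((insert g A' : Finset V) : Set V) ∧ A.card ≤ 2 * A'.card := by
  obtain ⟨P, p1, p2, p3, p4⟩ := tree2_comp (A := A) ha
  obtain ⟨Q, q1, q2, q3, q4⟩ := tree2_comp (A := A) hb
  have key := tree2_all (W := {x | x ∈ insert g P ∨ x ∈ insert g Q}) hA (g := g)
    (Finset.mem_coe.2 (Finset.mem_insert_self _ _)) (Or.inl (Finset.mem_insert_self _ _)) (by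
      intro x hx y hy hxy
      have hy' : y ∈ insert g A := Finset.mem_coe.1 hy
      by_cases e1 : y = a
      · exact Or.inr (q4 g (Finset.mem_insert_self _ _) y hy' (e1 ▸ hab) (e1 ▸ ha))
      by_cases e2 : y = b
      · exact Or.inl (p4 g (Finset.mem_insert_self _ _) y hy' e1 (e2 ▸ hb))
      rcases hx with hx | hx
      · exact Or.inl (p4 x hx y hy' e1 hxy)
      · exact Or.inr (q4 x hx y hy' e2 hxy))
  have sub : A ⊆ P ∪ Q := by
    intro y hy
    have hne : y ≠ g := fun e => hg (e ▸ hy)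
    rcases key y (Finset.mem_coe.2 (Finset.mem_insert_of_mem hy)) with h | h
    · exact Finset.mem_union_left _ ((Finset.mem_insert.1 h).resolve_left hne)
    · exact Finset.mem_union_right _ ((Finset.mem_insert.1 h).resolve_left hne)
  have hc := (Finset.card_le_card sub).trans (Finset.card_union_le P Q)
  by_cases hle : Q.card ≤ P.card
  · exact ⟨a, P, Or.inl rfl, p1, p2, p3, by omega⟩
  · exact ⟨b, Q, Or.inr rfl, q1, q2, q3, by omega⟩

/-- One side of a machine shrinks. -/
theorem tree2_one {g : V} {X : Finset V} (gX : g ∉ X)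
    (cX : Con Y ((insert g X : Finset V) : Set V)) {B : ℕ} (hX : B ≤ X.card) :
    ∃ X' : Finset V, X' ⊆ X ∧ Con Y ((insert g X' : Finset V) : Set V) ∧ X'.card = B := by
  obtain ⟨N, n1, n2, n3, n4⟩ := grow cX (Finset.mem_insert_self g X) (ν := B + 1) (by omega)
    (by rw [Finset.card_insert_of_notMem gX]; omega)
  refine ⟨N.erase g, fun x hx => ?_, ?_, ?_⟩
  · exact (Finset.mem_insert.1 (n2 (Finset.mem_of_mem_erase hx))).resolve_left
      (Finset.ne_of_mem_erase hx)
  · rw [Finset.insert_erase n1]; exact n3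
  · rw [Finset.card_erase_of_mem n1, n4]; rfl

/-- Smaller machines, by `grow`. -/
theorem Mach.shrink {g : V} {X U : Finset V} (hJ : Jn Y g) (gX : g ∉ X) (gU : g ∉ U)
    (dis : Disjoint X U) (cX : Con Y ((insert g X : Finset V) : Set V))
    (cU : Con Y ((insert g U : Finset V) : Set V)) {B : ℕ} (hX : B ≤ X.card) (hU : B ≤ U.card) :
    ∃ X' U' : Finset V, X' ⊆ X ∧ U' ⊆ U ∧ Mach Y g X' U' B := by
  obtain ⟨X', x1, x2, x3⟩ := tree2_one gX cX hX
  obtain ⟨U', u1, u2, u3⟩ := tree2_one gU cU hU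
  exact ⟨X', U', x1, u1, hJ, fun h => gX (x1 h), fun h => gU (u1 h), dis.mono x1 u1, x2, u2, x3, u3⟩

/-- Two neighbours outside `U`: halve `X`. -/
theorem tree2_slot {g a b : V} {X U : Finset V} {B : ℕ} (h : Mach Y g X U (2 * B))
    (ha : Y.Adj g a) (hb : Y.Adj g b) (hab : a ≠ b) (aU : a ∉ U) (bU : b ∉ U) :
    ∃ (l : V) (X' U' : Finset V), Y.Adj g l ∧ l ∉ X' ∧ l ∉ U' ∧ Mach Y g X' U' B := by
  obtain ⟨l, A, l1, l2, l3, l4, l5⟩ := half h.gX ha hb hab h.cX
  have nX := h.nX
  have nU := h.nU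
  obtain ⟨X', U', s1, s2, s3⟩ := Mach.shrink (B := B) h.jn (fun hh => h.gX (l3 hh)) h.gU
    (h.dis.mono_left l3) l4 h.cU (by omega) (by omega)
  refine ⟨l, X', U', ?_, fun hh => l2 (s1 hh), fun hh => ?_, s3⟩
  · rcases l1 with rfl | rfl
    · exact ha
    · exact hb
  · rcases l1 with rfl | rfl
    · exact aU (s2 hh)
    · exact bU (s2 hh)

omit [Fintype V] in
theorem tree2_symm {g : V} {X U : Finset V} {B : ℕ} (h : Mach Y g X U B) : Mach Y g U X B :=
  ⟨h.jn, h.gU, h.gX, h.dis.symm, h.cU, h.cX, h.nU, h.nX⟩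

/-- Of three neighbours of `g` one is outside `X ∪ U`, or two are in `X`, or two are in `U`. -/
theorem Mach.slot {g : V} {X U : Finset V} {B : ℕ} (h : Mach Y g X U (2 * B)) :
    ∃ (l : V) (X' U' : Finset V), Y.Adj g l ∧ l ∉ X' ∧ l ∉ U' ∧ Mach Y g X' U' B := by
  obtain ⟨a, b, c, ha, hb, hc, h1, h2, h3⟩ := h.jn
  have other : ∀ x y, Y.Adj g x → Y.Adj g y → x ≠ y → x ∈ U → y ∈ U →
      ∃ (l : V) (X' U' : Finset V), Y.Adj g l ∧ l ∉ X' ∧ l ∉ U' ∧ Mach Y g X' U' B := by
    intro x y hx hy hxy xU yU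
    obtain ⟨l, U', X', l1, l2, l3, l4⟩ := tree2_slot (tree2_symm h) hx hy hxy
      (fun hh => Finset.disjoint_left.1 h.dis hh xU) (fun hh => Finset.disjoint_left.1 h.dis hh yU)
    exact ⟨l, X', U', l1, l3, l2, tree2_symm l4⟩
  by_cases aU : a ∈ U <;> by_cases bU : b ∈ U <;> by_cases cU : c ∈ U
  · exact other a b ha hb h1 aU bU
  · exact other a b ha hb h1 aU bU
  · exact other a c ha hc h2 aU cU
  · exact tree2_slot h hb hc h3 bU cU
  · exact other b c hb hc h3 bU cU
  · exact tree2_slot h ha hc h2 aU cU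
  · exact tree2_slot h ha hb h1 aU bU
  · exact tree2_slot h ha hb h1 aU bU

end FSDiam
end

-- part Tree3a
section
namespace FSDiam
open Equiv

variable {V T : Type*} [DecidableEq V] [Fintype V] [Fintype T] [DecidableEq T]
variable {Y : SimpleGraph V} {col : T → Bool} {κ : Bool}
variable {Ω : Finset V} {v : V} {d : V → ℕ} {par : V → V}

/-- Below a run of non-junctions the way down is unique. -/
theorem tree3a_down (h : PT Y Ω v d par) {x y : V} (hx : x ∈ Ω) (hy : y ∈ Ω) :
    ∀ j, j ≤ d x → j ≤ d y → (∀ i, 1 ≤ i → i ≤ j → ¬ Jn Y (par^[i] x)) →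
      par^[j] x = par^[j] y → x = y := by
  intro j
  induction j with
  | zero => exact fun _ _ _ e => e
  | succ j ih =>
    intro h1 h2 hn e
    refine ih (by omega) (by omega) (fun i a b => hn i a (by omega)) ?_
    have n1 : par^[j] x ≠ v := fun e' => by
      have := h.d_it hx j
      rw [e', h.d0] at this
      omega
    have n2 : par^[j] y ≠ v := fun e' => by
      have := h.d_it hy j
      rw [e', h.d0] at this
      omega
    refine h.child_unique (hn (j + 1) (by omega) le_rfl) (h.it_mem hx j) (h.it_mem hy j) n1 n2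
      (Function.iterate_succ_apply' par j x).symm ?_
    rw [e]
    exact (Function.iterate_succ_apply' par j y).symm

theorem tree3a_inj (h : PT Y Ω v d par) {x y : V} (hx : x ∈ Ω) (hy : y ∈ Ω) (hxv : x ≠ v)
    (hyv : y ≠ v) (hJ : Jn Y x) {i j : ℕ} (hij : i ≤ j) (hi : i < iota Y par x)
    (hj : j < iota Y par y) (e : par^[i] x = par^[j] y) : x = y ∧ i = j := by
  obtain ⟨-, a2, -, a4⟩ := h.iota_spec hx hxv
  obtain ⟨-, b2, -, b4⟩ := h.iota_spec hy hyv
  have e1 : x = par^[j - i] y := by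
    refine tree3a_down h hx (h.it_mem hy _) i (by omega) (by rw [h.d_it hy]; omega)
      (fun t t1 t2 => a4 t t1 (by omega)) ?_
    rw [e, ← Function.iterate_add_apply, Nat.add_sub_cancel' hij]
  by_cases h0 : j - i = 0
  · rw [h0] at e1
    exact ⟨e1, by omega⟩
  · exact absurd (e1 ▸ hJ) (b4 (j - i) (by omega) (by omega))

theorem tree3a_lam {x : V} {j : ℕ} (h1 : 1 ≤ j) (h2 : j ≤ lam Y par x) :
    Jn Y x ∧ j < iota Y par x := by
  unfold lam at h2
  split_ifs at h2 with hJ
  · exact ⟨hJ, by omega⟩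
  · omega

theorem tree3a_ds (h : PT Y Ω v d par) {ρ : V} (hρ : ρ ∈ Ω) {i m : ℕ} (him : i ≤ m)
    (hm : m ≤ d ρ) : Ds d par (par^[m] ρ) (par^[i] ρ) := by
  have := h.ds_it (h.it_mem hρ i) (j := m - i) (by rw [h.d_it hρ]; omega)
  rwa [← Function.iterate_add_apply, Nat.sub_add_cancel him] at this

/-- The corridors above different junctions are disjoint: the map `(x, j) ↦ par^[j] x` on
junctions `x ∈ Q`, `1 ≤ j < iota x` is injective (go down with `child_unique`). -/
theorem PT.sum_lam (h : PT Y Ω v d par) {Q W : Finset V} (hQ : Q ⊆ Ω) (hv : v ∉ Q)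
    (hW : ∀ x ∈ Q, ∀ j, 1 ≤ j → j < iota Y par x → par^[j] x ∈ W) :
    ∑ x ∈ Q, lam Y par x ≤ W.card := by
  have e : ∑ x ∈ Q, lam Y par x = (Q.sigma fun x => Finset.Icc 1 (lam Y par x)).card := by
    rw [Finset.card_sigma]
    simp
  rw [e]
  refine Finset.card_le_card_of_injOn (fun p => par^[p.2] p.1) ?_ ?_
  · intro p hp
    obtain ⟨p1, p2⟩ := Finset.mem_sigma.1 (Finset.mem_coe.1 hp)
    rw [Finset.mem_Icc] at p2
    exact Finset.mem_coe.2 (hW p.1 p1 p.2 p2.1 (tree3a_lam p2.1 p2.2).2)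
  · rintro ⟨x, i⟩ hp ⟨y, j⟩ hq e'
    obtain ⟨p1, p2⟩ := Finset.mem_sigma.1 (Finset.mem_coe.1 hp)
    obtain ⟨q1, q2⟩ := Finset.mem_sigma.1 (Finset.mem_coe.1 hq)
    rw [Finset.mem_Icc] at p2 q2
    obtain ⟨a1, a2⟩ := tree3a_lam p2.1 p2.2
    obtain ⟨b1, b2⟩ := tree3a_lam q2.1 q2.2
    have nx : x ≠ v := fun t => hv (t ▸ p1)
    have ny : y ≠ v := fun t => hv (t ▸ q1)
    have key : x = y ∧ i = j := by
      rcases le_total i j with hij | hij
      · exact tree3a_inj h (hQ p1) (hQ q1) nx ny a1 hij a2 b2 e'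
      · obtain ⟨c1, c2⟩ := tree3a_inj h (hQ q1) (hQ p1) ny nx b1 hij b2 a2 e'.symm
        exact ⟨c1.symm, c2.symm⟩
    obtain ⟨rfl, rfl⟩ := key
    rfl

/-- If the `m` nearest proper ancestors are not junctions then `m < iota`. -/
theorem PT.le_lam (h : PT Y Ω v d par) {x : V} (hx : x ∈ Ω) (hv : x ≠ v) (hJ : Jn Y x) {m : ℕ}
    (hn : ∀ j, 1 ≤ j → j ≤ m → ¬ Jn Y (par^[j] x)) : m ≤ lam Y par x := by
  obtain ⟨a1, -, a3, -⟩ := h.iota_spec hx hv
  have : m < iota Y par x := not_le.1 fun hle => hn _ a1 hle a3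
  unfold lam
  rw [if_pos hJ]
  omega

/-- Below a run of non-junctions there is only one way down. -/
theorem PT.ds_run (h : PT Y Ω v d par) {ρ x : V} (hρ : ρ ∈ Ω) (hx : x ∈ Ω) {m : ℕ} (hm : m ≤ d ρ)
    (hn : ∀ j, 1 ≤ j → j ≤ m → ¬ Jn Y (par^[j] ρ)) (hd : Ds d par (par^[m] ρ) x) :
    (∃ j, 1 ≤ j ∧ j ≤ m ∧ x = par^[j] ρ) ∨ Ds d par ρ x := by
  obtain ⟨h1, h2⟩ := hd
  rw [h.d_it hρ] at h1 h2
  by_cases hc : d ρ ≤ d x
  · refine Or.inr ⟨hc, (tree3a_down h hρ (h.it_mem hx _) m hm (by rw [h.d_it hx]; omega) hn ?_).symm⟩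
    rw [← h2, ← Function.iterate_add_apply]
    exact congrArg (fun t => par^[t] x) (by omega)
  · refine Or.inl ⟨d ρ - d x, by omega, by omega, ?_⟩
    refine (tree3a_down h (h.it_mem hρ _) hx (d x - (d ρ - m)) (by rw [h.d_it hρ]; omega)
      (by omega) (fun i i1 i2 => ?_) ?_).symm
    · rw [← Function.iterate_add_apply]
      exact hn _ (by omega) (by omega)
    · rw [h2, ← Function.iterate_add_apply]
      exact congrArg (fun t => par^[t] ρ) (by omega)

/-- An edge that leaves the descendants of `par^[m] ρ` starts below the run (`PT.nbr`). -/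
theorem PT.out_low (h : PT Y Finset.univ v d par) {ρ z y : V} {m : ℕ} (hm : m < d ρ)
    (hn : ∀ j, 1 ≤ j → j ≤ m → ¬ Jn Y (par^[j] ρ)) (ho : Out Y d par (par^[m] ρ) z y) :
    Ds d par ρ z := by
  obtain ⟨o1, o2, o3, o4⟩ := ho
  have hρ : ρ ∈ (Finset.univ : Finset V) := Finset.mem_univ _
  rcases h.ds_run hρ (Finset.mem_univ z) hm.le hn o1 with ⟨j, j1, j2, rfl⟩ | hh
  · exfalso
    obtain ⟨i, rfl⟩ : ∃ i, j = i + 1 := ⟨j - 1, by omega⟩
    have n1 : par^[i] ρ ≠ v := fun e' => by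
      have := h.d_it hρ i
      rw [e', h.d0] at this
      omega
    have e := Function.iterate_succ_apply' par i ρ
    rcases h.nbr (Finset.mem_univ _) n1 (e ▸ hn (i + 1) j1 j2) (e ▸ o3) with t | t
    · exact o2 (t ▸ tree3a_ds h hρ (by omega) hm.le)
    · rw [← e] at t
      by_cases hc : i + 1 = m
      · exact o4 ⟨by rw [hc], by rw [t, ← hc]⟩
      · rw [← Function.iterate_succ_apply' par] at t
        exact o2 (t ▸ tree3a_ds h hρ (by omega) hm.le)
  · exact hh

end FSDiam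
end

-- part Tree3
section
namespace FSDiam
open Equiv

variable {V T : Type*} [DecidableEq V] [Fintype V] [Fintype T] [DecidableEq T]
variable {Y : SimpleGraph V} {col : T → Bool} {κ : Bool}
variable {Ω : Finset V} {v : V} {d : V → ℕ} {par : V → V}

/-- If no other edge leaves the descendants of `g1 = par^[m] x`, the path from `par g1` down is a
bridge path: with `Z` the set of the non-descendants of `g1`, `γ j = par^[m + 1 - j] x` gives
`IBr Y k` as soon as `k ≤ m + 2` (the last vertex `γ (k - 1)` has the further neighbour `γ k` or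
the child `y`; use `Jn.two` at `γ 0`). -/
theorem PT.bridge_bound (h : PT Y Finset.univ v d par) {k : ℕ} (hk : 3 ≤ k) (hbr : ¬ IBr Y k)
    {x y : V} {m : ℕ} (hm : m < d x) (hJ : Jn Y (par^[m + 1] x))
    (hn : ∀ j, 1 ≤ j → j ≤ m → ¬ Jn Y (par^[j] x)) (hy : y ≠ v) (hyx : par y = x)
    (ho : ¬ ∃ z y, Out Y d par (par^[m] x) z y) : m + 3 ≤ k := by
  by_contra hcon
  apply hbr
  have hdy : d x + 1 = d y := by rw [← hyx]; exact h.dp y (Finset.mem_univ _) hy
  have hit : ∀ j, par^[j + 1] y = par^[j] x := fun j => by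
    rw [Function.iterate_succ_apply, hyx]
  set γ : ℕ → V := fun j => par^[m + 2 - j] y with hγ
  have dγ : ∀ j ≤ m + 2, d (γ j) = d y - (m + 2) + j := fun j hj => by
    simp only [hγ, h.d_it (Finset.mem_univ y)]; omega
  have hadj : ∀ j < m + 2, Y.Adj (γ j) (γ (j + 1)) := fun j hj => by
    have := h.adj_it (Finset.mem_univ y) (j := m + 2 - (j + 1)) (by omega)
    rwa [show m + 2 - (j + 1) + 1 = m + 2 - j by omega] at this
  have hinj : ∀ j ≤ m + 2, ∀ l ≤ m + 2, γ j = γ l → j = l := fun j hj l hl e => by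
    have := congrArg d e
    rw [dγ j hj, dγ l hl] at this; omega
  have h1 : γ 1 = par^[m] x := by
    simp only [hγ]; rw [show m + 2 - 1 = m + 1 by omega, hit]
  have h0 : γ 0 = par^[m + 1] x := by
    simp only [hγ]; rw [show m + 2 - 0 = m + 1 + 1 by omega, hit]
  have h01 : par (γ 1) = γ 0 := by rw [h0, h1, Function.iterate_succ_apply']
  obtain ⟨a, b, ha, -, -, ha1, -⟩ := hJ.two (γ 1)
  refine ⟨γ, {w | ¬ Ds d par (γ 1) w}, a, γ k, fun i hi j hj => hinj i (by omega) j (by omega),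
    fun j hj => hadj j (by omega), fun j hj => ?_, ?_, fun j hj hj' hh => hh ?_,
    fun w hw w' hw' hadj' => ?_, h0 ▸ ha, ha1, ?_, fun e => ?_⟩
  · refine not_Jn ?_ (hadj j (by omega)).symm (hadj (j + 1) (by omega))
      (fun e => by have := hinj _ (by omega) _ (by omega) e; omega)
    simp only [hγ]
    rw [show m + 2 - (j + 1) = m - j + 1 by omega, hit]
    exact hn _ (by omega) (by omega)
  · intro hh
    have := hh.1
    rw [dγ 1 (by omega), dγ 0 (by omega)] at this; omega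
  · refine ⟨by rw [dγ 1 (by omega), dγ j (by omega)]; omega, ?_⟩
    rw [dγ 1 (by omega), dγ j (by omega)]
    simp only [hγ]
    rw [← Function.iterate_add_apply]
    congr 1; omega
  · by_contra hc
    refine ho ⟨w', w, ?_⟩
    rw [← h1]
    refine ⟨not_not.1 hw', hw, hadj'.symm, fun e => hc ⟨?_, e.1⟩⟩
    rw [e.2, h01]
  · have := hadj (k - 1) (by omega)
    rwa [show k - 1 + 1 = k by omega] at this
  · have := hinj _ (by omega) _ (by omega) e
    omega

open Classical in
/-- The non-descendants of `g1` are closed under parents. -/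
theorem PT.con_above (h : PT Y Finset.univ v d par) {g1 : V} (hv : g1 ≠ v) :
    Con Y ((Finset.univ.filter fun x => ¬ Ds d par g1 x : Finset V) : Set V) ∧
      ¬ Ds d par g1 (par g1) ∧ ¬ Ds d par g1 v := by
  have hd := h.dp g1 (Finset.mem_univ _) hv
  have h0 : ¬ Ds d par g1 v := fun hh => by
    have := hh.1
    rw [h.d0] at this; omega
  refine ⟨h.con_closed (g := v) (Finset.subset_univ _) (by simpa using h0) fun x hx hxv => ?_,
    fun hh => ?_, h0⟩
  · refine ⟨hxv, Finset.mem_filter.2 ⟨Finset.mem_univ _, fun hh => ?_⟩⟩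
    exact (Finset.mem_filter.1 hx).2 (h.ds_child (Finset.mem_univ _) hxv hh)
  · have := hh.1
    omega

/-- The vertical path `vp` from `par g1` to a descendant `z` of `g1`. -/
theorem PT.vp_spec (h : PT Y Finset.univ v d par) {g1 z : V} (hv : g1 ≠ v) (hz : Ds d par g1 z) :
    1 ≤ d z - d (par g1) ∧ vp d par g1 z 0 = par g1 ∧ vp d par g1 z 1 = g1 ∧
      vp d par g1 z (d z - d (par g1)) = z ∧
      (∀ j ≤ d z - d (par g1), d (vp d par g1 z j) = d (par g1) + j) ∧
      (∀ j < d z - d (par g1), par (vp d par g1 z (j + 1)) = vp d par g1 z j ∧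
        Y.Adj (vp d par g1 z j) (vp d par g1 z (j + 1))) ∧
      (∀ j, 1 ≤ j → j ≤ d z - d (par g1) → Ds d par g1 (vp d par g1 z j)) ∧
      ∀ x, Ds d par g1 x → Ds d par x z → x = vp d par g1 z (d x - d (par g1)) := by
  have hd := h.dp g1 (Finset.mem_univ _) hv
  obtain ⟨h1, h2⟩ := hz
  have dv : ∀ j ≤ d z - d (par g1), d (vp d par g1 z j) = d (par g1) + j := fun j hj => by
    unfold vp
    rw [h.d_it (Finset.mem_univ z)]; omega
  refine ⟨by omega, ?_, ?_, ?_, dv, fun j hj => ⟨?_, ?_⟩, fun j hj hj' => ⟨?_, ?_⟩,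
    fun x hx hx' => ?_⟩
  · unfold vp
    rw [show d z - d (par g1) - 0 = d z - d g1 + 1 by omega, Function.iterate_succ_apply', h2]
  · unfold vp
    rw [show d z - d (par g1) - 1 = d z - d g1 by omega, h2]
  · unfold vp
    rw [Nat.sub_self]; rfl
  · unfold vp
    rw [show d z - d (par g1) - j = d z - d (par g1) - (j + 1) + 1 by omega,
      Function.iterate_succ_apply']
  · unfold vp
    have := h.adj_it (Finset.mem_univ z) (j := d z - d (par g1) - (j + 1)) (by omega)
    rwa [show d z - d (par g1) - (j + 1) + 1 = d z - d (par g1) - j by omega] at this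
  · rw [dv j hj']; omega
  · rw [dv j hj']
    unfold vp
    rw [← Function.iterate_add_apply,
      show d (par g1) + j - d g1 + (d z - d (par g1) - j) = d z - d g1 by omega, h2]
  · have h3 := hx.1
    obtain ⟨h4, h5⟩ := hx'
    unfold vp
    rw [show d z - d (par g1) - (d x - d (par g1)) = d z - d x by omega, h5]

end FSDiam
end

-- part MachF
section
namespace FSDiam
open Equiv

variable {V T : Type*} [DecidableEq V] [Fintype V] [Fintype T] [DecidableEq T]
variable {Y : SimpleGraph V} {col : T → Bool} {κ : Bool}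
variable {Ω : Finset V} {v : V} {d : V → ℕ} {par : V → V}

open Classical in
/-- The descendants of `x`. -/
noncomputable def machf_D (d : V → ℕ) (par : V → V) (x : V) : Finset V :=
  Finset.univ.filter fun y => Ds d par x y

omit [DecidableEq V] in
theorem machf_mem {x y : V} : y ∈ machf_D d par x ↔ Ds d par x y := by
  unfold machf_D
  simp only [Finset.mem_filter, Finset.mem_univ, true_and]

theorem machf_con (h : PT Y Finset.univ v d par) {A : Finset V} {g : V}
    (hA : ∀ y ∈ A, y ≠ v ∧ (par y = g ∨ par y ∈ A)) :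
    Con Y ((insert g A : Finset V) : Set V) := by
  refine h.con_closed (Finset.subset_univ _) (Finset.mem_insert_self g A) fun y hy hne => ?_
  have hyA := (Finset.mem_insert.1 hy).resolve_left hne
  exact ⟨(hA y hyA).1, Finset.mem_insert.2 (hA y hyA).2⟩

theorem machf_child (h : PT Y Finset.univ v d par) {x y : V} (hd : Ds d par x y) (hne : y ≠ x) :
    ∃ c, c ≠ v ∧ par c = x ∧ Ds d par c y := by
  have hlt : d x < d y := by
    rcases Nat.lt_or_ge (d x) (d y) with c | c
    · exact c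
    · have := hd.2
      rw [Nat.sub_eq_zero_of_le c] at this
      exact absurd this hne
  refine ⟨par^[d y - d x - 1] y, fun e => ?_, ?_, h.ds_it (Finset.mem_univ _) (by omega)⟩
  · have := h.d_it (Finset.mem_univ y) (d y - d x - 1)
    rw [e, h.d0] at this
    omega
  · rw [← Function.iterate_succ_apply' par, show (d y - d x - 1).succ = d y - d x by omega]
    exact hd.2

theorem machf_sub (h : PT Y Finset.univ v d par) {c x y : V} (hv : c ≠ v) (hp : par c = x)
    (hd : Ds d par c y) : y ≠ v ∧ y ≠ x ∧ (par y = x ∨ Ds d par c (par y)) := by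
  have h1 := h.dp c (Finset.mem_univ _) hv
  have h2 := hd.1
  rw [hp] at h1
  refine ⟨fun e => ?_, fun e => ?_, ?_⟩
  · rw [e, h.d0] at h2; omega
  · rw [e] at h2; omega
  · by_cases e : y = c
    · exact Or.inl (e ▸ hp)
    · exact Or.inr (h.ds_par (Finset.mem_univ _) hd e).2

theorem machf_big (h : PT Y Finset.univ v d par) {x : V} {B : ℕ} (h1 : 1 ≤ B)
    (hx : 3 * B + 2 ≤ (machf_D d par x).card)
    (hc : ∀ c, c ≠ v → par c = x → (machf_D d par c).card ≤ B) :
    ∃ (g : V) (X U : Finset V), Mach Y g X U B := by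
  have hxx : x ∈ machf_D d par x := machf_mem.2 (Ds.refl x)
  have hce := Finset.card_erase_of_mem hxx
  have hch : ∀ y ∈ (machf_D d par x).erase x, ∃ c, c ≠ v ∧ par c = x ∧ Ds d par c y :=
    fun y hy => machf_child h (machf_mem.1 (Finset.mem_erase.1 hy).2) (Finset.mem_erase.1 hy).1
  have hJ : Jn Y x := by
    by_contra hJ
    obtain ⟨y, hy⟩ : ((machf_D d par x).erase x).Nonempty := Finset.card_pos.1 (by omega)
    obtain ⟨c, c1, c2, -⟩ := hch y hy
    have : (machf_D d par x).erase x ⊆ machf_D d par c := fun y' hy' => by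
      obtain ⟨c', e1, e2, e3⟩ := hch y' hy'
      rw [h.child_unique hJ (Finset.mem_univ _) (Finset.mem_univ _) c1 e1 c2 e2]
      exact machf_mem.2 e3
    have := Finset.card_le_card this
    have := hc c c1 c2
    omega
  obtain ⟨S, ⟨hS, hSB⟩, hmin⟩ := (measure Finset.card).wf.has_min
    {S : Finset V | (∀ c ∈ S, c ≠ v ∧ par c = x) ∧ B ≤ (S.biUnion (machf_D d par)).card}
    ⟨Finset.univ.filter fun c => c ≠ v ∧ par c = x, fun c hc => (Finset.mem_filter.1 hc).2, by
      have : (machf_D d par x).erase x ⊆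
          (Finset.univ.filter fun c => c ≠ v ∧ par c = x).biUnion (machf_D d par) := fun y hy => by
        obtain ⟨c, c1, c2, c3⟩ := hch y hy
        exact Finset.mem_biUnion.2
          ⟨c, Finset.mem_filter.2 ⟨Finset.mem_univ _, c1, c2⟩, machf_mem.2 c3⟩
      have := Finset.card_le_card this
      omega⟩
  have hup : (S.biUnion (machf_D d par)).card ≤ 2 * B := by
    obtain ⟨y, hy⟩ : (S.biUnion (machf_D d par)).Nonempty := Finset.card_pos.1 (by omega)
    obtain ⟨c, hcS, -⟩ := Finset.mem_biUnion.1 hy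
    have hlt : ((S.erase c).biUnion (machf_D d par)).card < B := by
      by_contra hcon
      exact hmin (S.erase c) ⟨fun c' hc' => hS c' (Finset.mem_of_mem_erase hc'), not_lt.1 hcon⟩
        (Finset.card_erase_lt_of_mem hcS)
    have e : S.biUnion (machf_D d par) =
        machf_D d par c ∪ (S.erase c).biUnion (machf_D d par) := by
      rw [← Finset.biUnion_insert, Finset.insert_erase hcS]
    have := Finset.card_union_le (machf_D d par c) ((S.erase c).biUnion (machf_D d par))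
    have := hc c (hS c hcS).1 (hS c hcS).2
    rw [e]
    omega
  have hU := Finset.le_card_sdiff (S.biUnion (machf_D d par)) ((machf_D d par x).erase x)
  obtain ⟨X', U', -, -, hM⟩ := Mach.shrink (X := S.biUnion (machf_D d par))
    (U := (machf_D d par x).erase x \ S.biUnion (machf_D d par)) (B := B) hJ
    (fun m => by
      obtain ⟨c, hcS, hy⟩ := Finset.mem_biUnion.1 m
      exact (machf_sub h (hS c hcS).1 (hS c hcS).2 (machf_mem.1 hy)).2.1 rfl)
    (fun m => (Finset.mem_erase.1 (Finset.mem_sdiff.1 m).1).1 rfl)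
    Finset.disjoint_sdiff
    (machf_con h fun y m => by
      obtain ⟨c, hcS, hy⟩ := Finset.mem_biUnion.1 m
      obtain ⟨a1, -, a3⟩ := machf_sub h (hS c hcS).1 (hS c hcS).2 (machf_mem.1 hy)
      exact ⟨a1, a3.imp_right fun a => Finset.mem_biUnion.2 ⟨c, hcS, machf_mem.2 a⟩⟩)
    (machf_con h fun y m => by
      obtain ⟨m1, m2⟩ := Finset.mem_sdiff.1 m
      obtain ⟨m3, m4⟩ := Finset.mem_erase.1 m1
      obtain ⟨a1, a2⟩ := h.ds_par (Finset.mem_univ _) (machf_mem.1 m4) m3
      refine ⟨a1, ?_⟩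
      by_cases e : par y = x
      · exact Or.inl e
      · refine Or.inr (Finset.mem_sdiff.2 ⟨Finset.mem_erase.2 ⟨e, machf_mem.2 a2⟩, fun m' => ?_⟩)
        obtain ⟨c, hcS, hy⟩ := Finset.mem_biUnion.1 m'
        exact m2 (Finset.mem_biUnion.2
          ⟨c, hcS, machf_mem.2 (h.ds_child (Finset.mem_univ _) a1 (machf_mem.1 hy))⟩))
    hSB (by omega)
  exact ⟨x, X', U', hM⟩

theorem machf_above (h : PT Y Finset.univ v d par) {g1 : V} (hv : g1 ≠ v) :
    Con Y (((machf_D d par g1)ᶜ : Finset V) : Set V) ∧ par g1 ∈ (machf_D d par g1)ᶜ := by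
  obtain ⟨a1, a2, -⟩ := h.con_above hv
  refine ⟨?_, Finset.mem_compl.2 fun m => a2 (machf_mem.1 m)⟩
  convert a1 using 2
  ext y
  simp only [Finset.mem_compl, machf_mem, Finset.mem_filter, Finset.mem_univ, true_and]

theorem machf_short (h : PT Y Finset.univ v d par) {g1 : V} (hv : g1 ≠ v) (hJ : Jn Y (par g1))
    {B : ℕ} (hX : B ≤ (machf_D d par g1).card)
    (hU : B + 1 + (machf_D d par g1).card ≤ Fintype.card V) :
    ∃ (g : V) (X U : Finset V), Mach Y g X U B := by
  obtain ⟨a1, a2⟩ := machf_above h hv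
  obtain ⟨X', U', -, -, hM⟩ := Mach.shrink (X := machf_D d par g1)
    (U := (machf_D d par g1)ᶜ.erase (par g1)) (B := B) hJ (Finset.mem_compl.1 a2)
    (Finset.notMem_erase _ _)
    (Finset.disjoint_left.2 fun y m m' => Finset.mem_compl.1 (Finset.mem_of_mem_erase m') m)
    (machf_con h fun y m => by
      obtain ⟨b1, -, b3⟩ := machf_sub h hv rfl (machf_mem.1 m)
      exact ⟨b1, b3.imp_right machf_mem.2⟩)
    (by rw [Finset.insert_erase a2]; exact a1) hX
    (by rw [Finset.card_erase_of_mem a2, Finset.card_compl]; omega)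
  exact ⟨_, X', U', hM⟩

theorem machf_long (h : PT Y Finset.univ v d par) {g1 z y : V} (hv : g1 ≠ v)
    (hJ : Jn Y (par g1)) {B : ℕ} (ho : Out Y d par g1 z y)
    (hM : 2 * B + 1 ≤ d z - d (par g1)) : ∃ (g : V) (X U : Finset V), Mach Y g X U B := by
  obtain ⟨a1, a2⟩ := machf_above h hv
  obtain ⟨-, s0, -, sM, sd, sp, sD, -⟩ := h.vp_spec hv ho.1
  generalize d z - d (par g1) = M at hM sM sd sp sD
  generalize vp d par g1 z = γ at s0 sM sd sp sD
  have inj : ∀ i ≤ M, ∀ j ≤ M, γ i = γ j → i = j := fun i hi j hj e => by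
    have h1 := sd i hi
    have h2 := sd j hj
    rw [e] at h1
    omega
  have cardI : ∀ a b, b ≤ M → ((Finset.Icc a b).image γ).card = b + 1 - a := fun a b hb => by
    rw [Finset.card_image_of_injOn, Nat.card_Icc]
    intro i hi j hj e
    exact inj i ((Finset.mem_Icc.1 hi).2.trans hb) j ((Finset.mem_Icc.1 hj).2.trans hb) e
  have hnv : ∀ j, 1 ≤ j → j ≤ M → γ j ≠ v := fun j h1 h2 e => by
    have := sd j h2
    rw [e, h.d0] at this
    omega
  have hpar : ∀ j, 1 ≤ j → j ≤ M → par (γ j) = γ (j - 1) := fun j h1 h2 => by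
    have := (sp (j - 1) (by omega)).1
    rwa [Nat.sub_add_cancel h1] at this
  have cP : Con Y (((Finset.Icc (B + 1) M).image γ : Finset V) : Set V) := by
    refine h.con_closed (Finset.subset_univ _) (g := γ (B + 1))
      (Finset.mem_image_of_mem _ (Finset.mem_Icc.2 ⟨le_rfl, by omega⟩)) fun w hw hne => ?_
    obtain ⟨j, hj, rfl⟩ := Finset.mem_image.1 hw
    obtain ⟨j1, j2⟩ := Finset.mem_Icc.1 hj
    have : j ≠ B + 1 := fun e => hne (by rw [e])
    refine ⟨hnv j (by omega) j2, ?_⟩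
    rw [hpar j (by omega) j2]
    exact Finset.mem_image_of_mem _ (Finset.mem_Icc.2 ⟨by omega, by omega⟩)
  have hg : par g1 ∈ (machf_D d par g1)ᶜ ∪ (Finset.Icc (B + 1) M).image γ :=
    Finset.mem_union_left _ a2
  have hsub : (Finset.Icc (B + 1) M).image γ ⊆
      ((machf_D d par g1)ᶜ ∪ (Finset.Icc (B + 1) M).image γ).erase (par g1) := fun w hw => by
    refine Finset.mem_erase.2 ⟨fun e => ?_, Finset.mem_union_right _ hw⟩
    obtain ⟨j, hj, rfl⟩ := Finset.mem_image.1 hw
    obtain ⟨j1, j2⟩ := Finset.mem_Icc.1 hj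
    have := inj j j2 0 (Nat.zero_le _) (e.trans s0.symm)
    omega
  obtain ⟨X', U', -, -, hM'⟩ := Mach.shrink (X := (Finset.Icc 1 B).image γ)
    (U := ((machf_D d par g1)ᶜ ∪ (Finset.Icc (B + 1) M).image γ).erase (par g1)) (B := B) hJ
    (fun m => by
      obtain ⟨j, hj, e⟩ := Finset.mem_image.1 m
      obtain ⟨j1, j2⟩ := Finset.mem_Icc.1 hj
      have := inj j (by omega) 0 (Nat.zero_le _) (e.trans s0.symm)
      omega)
    (Finset.notMem_erase _ _)
    (Finset.disjoint_left.2 fun w m m' => by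
      obtain ⟨j, hj, rfl⟩ := Finset.mem_image.1 m
      obtain ⟨j1, j2⟩ := Finset.mem_Icc.1 hj
      rcases Finset.mem_union.1 (Finset.mem_of_mem_erase m') with c | c
      · exact Finset.mem_compl.1 c (machf_mem.2 (sD j j1 (by omega)))
      · obtain ⟨i, hi, e⟩ := Finset.mem_image.1 c
        obtain ⟨i1, i2⟩ := Finset.mem_Icc.1 hi
        have := inj i i2 j (by omega) e
        omega)
    (machf_con h fun w m => by
      obtain ⟨j, hj, rfl⟩ := Finset.mem_image.1 m
      obtain ⟨j1, j2⟩ := Finset.mem_Icc.1 hj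
      refine ⟨hnv j j1 (by omega), ?_⟩
      rw [hpar j j1 (by omega)]
      by_cases e : j = 1
      · exact Or.inl (by rw [e]; exact s0)
      · exact Or.inr (Finset.mem_image_of_mem _ (Finset.mem_Icc.2 ⟨by omega, by omega⟩)))
    (by
      rw [Finset.insert_erase hg, Finset.coe_union]
      refine Con.union a1 cP (x := y) (y := z) ?_ ?_ (Or.inr ho.2.2.1.symm)
      · exact Finset.mem_coe.2 (Finset.mem_compl.2 fun m => ho.2.1 (machf_mem.1 m))
      · exact Finset.mem_coe.2
          (Finset.mem_image.2 ⟨M, Finset.mem_Icc.2 ⟨by omega, le_rfl⟩, sM⟩))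
    (by rw [cardI 1 B (by omega)]; omega)
    (by
      have h1 := Finset.card_le_card hsub
      rw [cardI (B + 1) M le_rfl] at h1
      omega)
  exact ⟨_, X', U', hM'⟩

/-- Take a tree on `univ` with root `v0` (`exists_PT` with `A = {v0}`, `Con.univ`) and a deepest `x`
with at least `B + 1` descendants (`Ds`; the root has all `≥ 8 B + 4` vertices), so every child of
`x` has at most `B` descendants. (i) `x` has at least `3 B + 2` descendants: it has at least four
children, so it is a junction; collect child subtrees until their union `X` has between `B` and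
`2 B - 1` vertices, `U` is the union of the others (`con_closed`). (ii) Otherwise `x ≠ v0`; let
`i = iota x`, `g1 = par^[i - 1] x`, `g = par g1`. The descendants of `g1` are those of `x` and
`i - 1` more (`ds_run`). If `i ≤ k` take `X` = descendants of `g1`, `U` = the other vertices
without `g` (`con_above`), at least `k - 3 B - 1` of them. If `i > k` then `bridge_bound` (`x` has a
child) gives `Out g1 z y`, `z` is a descendant of `x` (`out_low`); `X = {vp 1, …, vp B}` and
`insert g U` = non-descendants of `g1` and `vp (B + 1), …, vp M = z` (`vp_spec`, `Con.union` along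
the edge `z y`, `con_closed`). End with `Mach.shrink`. -/
theorem exists_mach (hc : Y.Connected) {v0 : V} (hJ : Jn Y v0) {k B : ℕ} (hbr : ¬ IBr Y k)
    (hn : 2 * k ≤ Fintype.card V) (hB : 4 * B + 2 ≤ k) (h1 : 1 ≤ B) :
    ∃ (g : V) (X U : Finset V), Mach Y g X U B := by
  obtain ⟨d, par, h, -⟩ := exists_PT (A := Finset.univ) (B := Finset.univ) hJ (Finset.mem_univ _)
    (Finset.Subset.refl _) (by rw [Finset.coe_univ]; exact Con.univ hc.preconnected)
    (by rw [Finset.coe_univ]; exact Con.univ hc.preconnected)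
  have hroot : (machf_D d par v0).card = Fintype.card V := by
    rw [← Finset.card_univ]
    congr 1
    refine Finset.eq_univ_of_forall fun y => machf_mem.2 ⟨?_, ?_⟩
    · rw [h.d0]; exact Nat.zero_le _
    · rw [h.d0]; exact h.it_d (Finset.mem_univ _)
  obtain ⟨x, hx, hmax⟩ := Finset.exists_max_image
    (Finset.univ.filter fun x => B + 1 ≤ (machf_D d par x).card) d
    ⟨v0, Finset.mem_filter.2 ⟨Finset.mem_univ _, by omega⟩⟩
  have hxB := (Finset.mem_filter.1 hx).2
  by_cases hbig : 3 * B + 2 ≤ (machf_D d par x).card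
  · refine machf_big h h1 hbig fun c c1 c2 => ?_
    by_contra hcon
    have a1 := hmax c (Finset.mem_filter.2 ⟨Finset.mem_univ _, by omega⟩)
    have a2 := h.dp c (Finset.mem_univ _) c1
    rw [c2] at a2
    omega
  have hxv : x ≠ v0 := fun e => by rw [e] at hbig; omega
  obtain ⟨i1, i2, i3, i4⟩ := h.iota_spec (Finset.mem_univ x) hxv
  obtain ⟨m, hm⟩ : ∃ m, iota Y par x = m + 1 := ⟨iota Y par x - 1, by omega⟩
  rw [hm] at i2 i3 i4
  have hnj : ∀ j, 1 ≤ j → j ≤ m → ¬ Jn Y (par^[j] x) := fun j a b => i4 j a (by omega)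
  have hdg := h.d_it (Finset.mem_univ x) m
  have hg1 : par^[m] x ≠ v0 := fun e => by rw [e, h.d0] at hdg; omega
  have hJ' : Jn Y (par (par^[m] x)) := by rwa [Function.iterate_succ_apply'] at i3
  by_cases hk : m + 3 ≤ k
  · have s1 : machf_D d par x ⊆ machf_D d par (par^[m] x) := fun y hy => machf_mem.2
      (h.ds_trans (Finset.mem_univ _) (h.ds_it (Finset.mem_univ _) (by omega)) (machf_mem.1 hy))
    have s2 : machf_D d par (par^[m] x) ⊆
        (Finset.Icc 1 m).image (fun j => par^[j] x) ∪ machf_D d par x := fun y hy => by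
      rcases h.ds_run (Finset.mem_univ x) (Finset.mem_univ y) (by omega) hnj (machf_mem.1 hy)
        with ⟨j, j1, j2, e⟩ | c
      · exact Finset.mem_union_left _ (Finset.mem_image.2 ⟨j, Finset.mem_Icc.2 ⟨j1, j2⟩, e.symm⟩)
      · exact Finset.mem_union_right _ (machf_mem.2 c)
    have c1 := Finset.card_le_card s1
    have c2 := (Finset.card_le_card s2).trans (Finset.card_union_le _ _)
    have c3 := Finset.card_image_le (s := Finset.Icc 1 m) (f := fun j => par^[j] x)
    rw [Nat.card_Icc] at c3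
    exact machf_short h hg1 hJ' (by omega) (by omega)
  · obtain ⟨y, hy⟩ : ((machf_D d par x).erase x).Nonempty := Finset.card_pos.1 (by
      rw [Finset.card_erase_of_mem (machf_mem.2 (Ds.refl x))]; omega)
    obtain ⟨c, c1, c2, -⟩ :=
      machf_child h (machf_mem.1 (Finset.mem_erase.1 hy).2) (Finset.mem_erase.1 hy).1
    obtain ⟨z, w, ho⟩ : ∃ z w, Out Y d par (par^[m] x) z w := by
      by_contra hcon
      exact hk (h.bridge_bound (by omega) hbr (by omega) i3 hnj c1 c2 hcon)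
    have hz := (h.out_low (by omega) hnj ho).1
    have hdp := h.dp _ (Finset.mem_univ _) hg1
    exact machf_long h hg1 hJ' ho (by omega)

end FSDiam
end

-- part TopA
section
namespace FSDiam
open Equiv

variable {V T : Type*} [DecidableEq V] [Fintype V] [Fintype T] [DecidableEq T]
variable {Y : SimpleGraph V} {col : T → Bool} {κ : Bool}
variable {Ω : Finset V} {v : V} {d : V → ℕ} {par : V → V}

/-- `exists_mach`, `S` from `grow_sup` (from `insert v (X0 ∪ U0)`, connected by `Con.union`, inside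
`univ`, to `β` vertices), `exists_PT` with `A = S`, `B = univ`, and `arrange_exact`. -/
theorem top_ctx (hc : Y.Connected) {v0 : V} (hJ : Jn Y v0) {k B : ℕ} (hbr : ¬ IBr Y k)
    (hn : 2 * k ≤ Fintype.card V) (hB : 4 * B + 2 ≤ k) (h1 : 1 ≤ B)
    (hβ : k ≤ (Finset.univ.filter fun t => col t = κ).card) (c : V ≃ T) :
    ∃ (v : V) (d : V → ℕ) (par : V → V) (S X0 U0 : Finset V) (c0 : V ≃ T),
      Rn Y col (Fintype.card V * Fintype.card V) c c0 ∧ Ctx Y col κ k v d par S c0 ∧
      Mach Y v X0 U0 B ∧ X0 ⊆ S ∧ U0 ⊆ S ∧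
      S.card = (Finset.univ.filter fun t => col t = κ).card := by
  obtain ⟨g, X, U, hM⟩ := exists_mach hc hJ hbr hn hB h1
  have hU : Con Y ((Finset.univ : Finset V) : Set V) := by
    rw [Finset.coe_univ]; exact Con.univ hc.preconnected
  have hA : Con Y ((insert g (X ∪ U) : Finset V) : Set V) := by
    have h2 := Con.union hM.cX hM.cU (x := g) (y := g) (by simp) (by simp) (Or.inl rfl)
    have h3 : ((insert g (X ∪ U) : Finset V) : Set V) =
        ((insert g X : Finset V) : Set V) ∪ ((insert g U : Finset V) : Set V) := by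
      ext x
      simp only [Finset.coe_insert, Finset.coe_union, Set.mem_insert_iff, Set.mem_union]
      tauto
    rw [h3]; exact h2
  have h4 : (insert g (X ∪ U) : Finset V).card ≤
      (Finset.univ.filter fun t => col t = κ).card := by
    have h5 := Finset.card_insert_le g (X ∪ U)
    have h6 := Finset.card_union_le X U
    have h7 := hM.nX
    have h8 := hM.nU
    omega
  have h9 : (Finset.univ.filter fun t => col t = κ).card ≤ (Finset.univ : Finset V).card := by
    rw [Finset.card_univ, Fintype.card_congr c]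
    exact Finset.card_le_univ _
  obtain ⟨S, s1, -, s3, s4⟩ := grow_sup hA hU (Finset.subset_univ _)
    (Finset.insert_nonempty _ _) h4 h9
  have hg : g ∈ S := s1 (Finset.mem_insert_self _ _)
  obtain ⟨d, par, p1, p2⟩ := exists_PT hM.jn hg (Finset.subset_univ S) s3 hU
  obtain ⟨c0, r1, r2, r3⟩ := arrange_exact (col := col) hc κ c S s4.le
  refine ⟨g, d, par, S, X, U, c0, r1, ⟨p1, hg, p2, fun x => ⟨r3 s4 x, r2 x⟩, by omega, hbr⟩, hM,
    fun x hx => s1 ?_, fun x hx => s1 ?_, s4⟩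
  · exact Finset.mem_insert_of_mem (Finset.mem_union_left _ hx)
  · exact Finset.mem_insert_of_mem (Finset.mem_union_right _ hx)

theorem topa_win (w : ℕ → ℕ) (s M : ℕ) :
    ∑ j ∈ Finset.range M, ∑ i ∈ Finset.Ico (j * s) ((j + 2) * s - 1), w i ≤
      ∑ i ∈ Finset.range (M * s), w i + ∑ i ∈ Finset.range ((M + 1) * s), w i := by
  induction M with
  | zero => simp
  | succ M ih =>
    have h1 : M * s ≤ (M + 1) * s := Nat.mul_le_mul_right _ (by omega)
    have h2 : (M + 1) * s ≤ (M + 2) * s := Nat.mul_le_mul_right _ (by omega)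
    have h3 : ∑ i ∈ Finset.Ico (M * s) ((M + 2) * s - 1), w i ≤
        ∑ i ∈ Finset.Ico (M * s) ((M + 2) * s), w i :=
      Finset.sum_le_sum_of_subset (Finset.Ico_subset_Ico_right (Nat.sub_le _ _))
    have h4 := Finset.sum_Ico_consecutive w h1 h2
    have h5 := Finset.sum_range_add_sum_Ico w h1
    have h6 := Finset.sum_range_add_sum_Ico w h2
    rw [Finset.sum_range_succ, show M + 1 + 1 = M + 2 from rfl]
    omega

/-- Every index lies in at most two of the intervals. -/
theorem sum_win (w : ℕ → ℕ) (s N : ℕ) :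
    ∑ j ∈ Finset.range (N + 1), ∑ i ∈ Finset.Ico (j * s) ((j + 2) * s - 1), w i ≤
      2 * ∑ i ∈ Finset.range ((N + 2) * s), w i := by
  have h1 := topa_win w s (N + 1)
  have h2 : ∑ i ∈ Finset.range ((N + 1) * s), w i ≤ ∑ i ∈ Finset.range ((N + 2) * s), w i :=
    Finset.sum_le_sum_of_subset
      (Finset.range_subset_range.2 (Nat.mul_le_mul_right _ (by omega)))
  rw [show N + 1 + 1 = N + 2 from rfl] at h1
  omega

/-- Distribute the sums; `∑ ω j ≤ 6 n`, `∑ (ω j + ω (j + 1)) ≤ 12 n`, `8 s + 1 ≤ k`. -/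
theorem top_num {n k β s N w : ℕ} {ω : ℕ → ℕ} (hω : ∑ j ∈ Finset.range (N + 1), ω j ≤ 6 * n)
    (hs : 8 * s + 1 ≤ k) :
    2 * ∑ j ∈ Finset.range (N + 1), (3 * w + 4 * n * ω j) +
      4 * ∑ j ∈ Finset.range N, 2 * n * (2 * (β + 2 * (4 * s) + 1) + ω j + ω (j + 1)) ≤
      16 * (N + 1) * (w + n * (β + k)) + 150 * (n * n) := by
  have h1 : ∑ j ∈ Finset.range N, ω j ≤ 6 * n := by
    rw [Finset.sum_range_succ] at hω; omega
  have h2 : ∑ j ∈ Finset.range N, ω (j + 1) ≤ 6 * n := by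
    rw [Finset.sum_range_succ'] at hω; omega
  have h3 : ∑ j ∈ Finset.range (N + 1), (3 * w + 4 * n * ω j) =
      (N + 1) * (3 * w) + 4 * n * ∑ j ∈ Finset.range (N + 1), ω j := by
    rw [Finset.sum_add_distrib, Finset.sum_const, Finset.card_range, smul_eq_mul, Finset.mul_sum]
  have h4 : ∑ j ∈ Finset.range N, 2 * n * (2 * (β + 2 * (4 * s) + 1) + ω j + ω (j + 1)) =
      2 * n * (N * (2 * (β + 2 * (4 * s) + 1)) + ∑ j ∈ Finset.range N, ω j +
        ∑ j ∈ Finset.range N, ω (j + 1)) := by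
    rw [← Finset.mul_sum, Finset.sum_add_distrib, Finset.sum_add_distrib, Finset.sum_const,
      Finset.card_range, smul_eq_mul]
  have h5 := Nat.mul_le_mul_left (4 * n) hω
  have h6 : N * (2 * (β + 2 * (4 * s) + 1)) ≤ N * (2 * (β + k)) :=
    Nat.mul_le_mul_left _ (by omega)
  have h7 := Nat.mul_le_mul_left (2 * n) (Nat.add_le_add (Nat.add_le_add h6 h1) h2)
  rw [h3, h4]
  refine (Nat.add_le_add (Nat.mul_le_mul_left 2 (Nat.add_le_add_left h5 _))
    (Nat.mul_le_mul_left 4 h7)).trans ?_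
  have h8 : 16 * (N + 1) * (w + n * (β + k)) + 150 * (n * n) =
      2 * ((N + 1) * (3 * w) + 4 * n * (6 * n)) +
        4 * (2 * n * (N * (2 * (β + k)) + 6 * n + 6 * n)) +
        (10 * (N + 1) * w + 16 * n * (β + k) + 6 * (n * n)) := by ring
  rw [h8]
  exact Nat.le_add_right _ _

end FSDiam
end

-- part MdP
section
namespace FSDiam
open Equiv

variable {V T : Type*} [DecidableEq V] [Fintype V] [Fintype T] [DecidableEq T]
variable {Y : SimpleGraph V} {col : T → Bool} {κ : Bool}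
variable {Ω : Finset V} {v : V} {d : V → ℕ} {par : V → V}

omit [DecidableEq V] [Fintype V] in
theorem mdp_it {S : Finset V} (hS : ∀ x ∈ S, par x ∈ S) {x : V} (hx : x ∈ S) (n : ℕ) :
    par^[n] x ∈ S := by
  induction n with
  | zero => exact hx
  | succ n ih => rw [Function.iterate_succ_apply']; exact hS _ ih

omit [DecidableEq V] [Fintype V] in
theorem mdp_vp {g1 z : V} {M n j L : ℕ} (hM : d z - d (par g1) = M) (hL : L ≤ M) (hj : n + j = L) :
    par^[n] (vp d par g1 z L) = vp d par g1 z j := by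
  unfold vp
  rw [← Function.iterate_add_apply, hM, show n + (M - L) = M - j by omega]

omit [DecidableEq V] [Fintype V] in
theorem mdp_lt {x y : V} (h : Ds d par x y) (hne : y ≠ x) : d x < d y := by
  rcases h.1.lt_or_eq with e | e
  · exact e
  · have h2 := h.2
    rw [e, Nat.sub_self] at h2
    exact absurd h2 hne

/-- `ρ ≠ v` since `par^[D] v = v ∈ S`; `iota_spec`, `out_low` with `m = i - 1`, `vp_spec`; for the
last part `ds_run`, `ds_closed`. -/
theorem md_path {k D : ℕ} {S : Finset V} {c0 : V ≃ T} (C : Ctx Y col κ k v d par S c0)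
    {Q : Finset V} {ρ g1 z y : V} {i M : ℕ} (hm : Md Y d par S D Q ρ) (hg : top Y par ρ = g1)
    (hi : iota Y par ρ = i) (hM : d z - d (par g1) = M) (ho : Out Y d par g1 z y) :
    ρ ≠ v ∧ g1 ≠ v ∧ Jn Y (par g1) ∧ D < i ∧ i ≤ M ∧ M < Fintype.card V ∧
      (∀ j ≤ i, vp d par g1 z j = par^[i - j] ρ) ∧
      (∀ j, 1 ≤ j → j < i → ¬ Jn Y (vp d par g1 z j)) ∧
      (∀ j, i ≤ j + D → j ≤ M → vp d par g1 z j ∉ S) ∧
      ∀ x ∈ S, Ds d par g1 x → ∃ j, 1 ≤ j ∧ j + D < i ∧ x = vp d par g1 z j := by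
  have h := C.pt
  obtain ⟨-, -, hD, hnS, -⟩ := hm
  have hv : ρ ≠ v := by
    rintro rfl
    exact hnS (mdp_it C.closed C.mem D)
  obtain ⟨i1, i2, i3, i4⟩ := h.iota_spec (Finset.mem_univ ρ) hv
  rw [hi] at i1 i2 i3 i4 hD
  have eg : g1 = par^[i - 1] ρ := by rw [← hg, top, hi]
  have ep : par g1 = par^[i] ρ := by
    rw [eg, ← Function.iterate_succ_apply' par, show (i - 1).succ = i by omega]
  have dg : d g1 = d ρ - (i - 1) := by rw [eg]; exact h.d_it (Finset.mem_univ ρ) _
  have dp : d (par g1) = d ρ - i := by rw [ep]; exact h.d_it (Finset.mem_univ ρ) _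
  have hn : ∀ j, 1 ≤ j → j ≤ i - 1 → ¬ Jn Y (par^[j] ρ) := fun j a b => i4 j a (by omega)
  have hz : Ds d par ρ z := h.out_low (m := i - 1) (by omega) hn (eg ▸ ho)
  have z1 := hz.1
  have hiM : i ≤ M := by omega
  have hvp : ∀ j ≤ i, vp d par g1 z j = par^[i - j] ρ := by
    intro j hj
    unfold vp
    rw [hM, show M - j = (i - j) + (d z - d ρ) by omega, Function.iterate_add_apply, hz.2]
  refine ⟨hv, ?_, ep ▸ i3, hD, hiM, ?_, hvp, fun j a b => ?_, fun j a b hj => ?_, fun x hx hd => ?_⟩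
  · rintro rfl
    have := h.d0
    omega
  · have := h.d_lt (Finset.mem_univ z)
    rw [Finset.card_univ] at this
    omega
  · rw [hvp j b.le]
    exact i4 _ (by omega) (by omega)
  · have e := mdp_vp (n := j - (i - D)) (j := i - D) hM b (by omega)
    rw [hvp _ (Nat.sub_le _ _), show i - (i - D) = D by omega] at e
    exact hnS (e ▸ mdp_it C.closed hj _)
  · rcases h.ds_run (m := i - 1) (Finset.mem_univ ρ) (Finset.mem_univ x) (by omega) hn (eg ▸ hd)
      with ⟨j, a, b, e⟩ | e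
    · have hj : D < j := by
        by_contra hc
        have := mdp_it C.closed hx (D - j)
        rw [e, ← Function.iterate_add_apply, show D - j + j = D by omega] at this
        exact hnS this
      exact ⟨i - j, by omega, by omega, by
        rw [hvp _ (Nat.sub_le _ _), show i - (i - j) = j by omega, e]⟩
    · exact absurd (mdp_it C.closed (ds_closed C.closed e hx) D) hnS

/-- Both parents have the same depth (`hp_depth`), so they are equal; `child_unique`. -/
theorem md_unique {k D : ℕ} {S : Finset V} {c0 : V ≃ T} (C : Ctx Y col κ k v d par S c0)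
    {Q : Finset V} (hS : ∀ y ∈ Q, y ∉ S) (h1 : 1 ≤ D) {ρ ρ' : V} (hm : Md Y d par S D Q ρ)
    (hm' : Md Y d par S D Q ρ') : ρ = ρ' := by
  have h := C.pt
  have hvQ : v ∉ Q := fun hh => hS v hh C.mem
  obtain ⟨a1, a2, a3, -, -⟩ := hm
  obtain ⟨b1, b2, -, -, -⟩ := hm'
  have hv : ρ ≠ v := fun e => hvQ (e ▸ a1)
  have hv' : ρ' ≠ v := fun e => hvQ (e ▸ b1)
  obtain ⟨-, c1, -, c2, -⟩ := h.hp_depth (Finset.subset_univ Q) hvQ a2 b1
  obtain ⟨-, c3, -, -, -⟩ := h.hp_depth (Finset.subset_univ Q) hvQ b2 a1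
  have d1 := h.dp ρ (Finset.mem_univ _) hv
  have d2 := h.dp ρ' (Finset.mem_univ _) hv'
  rw [show d ρ' - d (par ρ) = 1 by omega] at c2
  have hJ := (h.iota_spec (Finset.mem_univ ρ) hv).2.2.2 1 le_rfl (by omega)
  exact h.child_unique hJ (Finset.mem_univ _) (Finset.mem_univ _) hv hv' rfl c2

/-- All of `Q` are descendants of `ρ = vp i` of depth below `d ρ + D` whose ancestors up to `ρ` are
in `Q` (`hp_depth`, `child_unique` at `par ρ`). If some `x ∈ Q` is off the path, the last path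
vertex `vp L'` above it is a junction (parent, the child off the path, and `vp (L' + 1)`, or `y` if
`L' = M`). Let `L ≥ i` be least with `vp L` a junction; `vp L ∈ Q` has a child in `Q`, so
`L - 1 ≤ lam (vp L) ≤ ω` (`le_lam`). The last part is `ds_run` (or `child_unique` and depth). -/
theorem nb_split {k D ω : ℕ} {S : Finset V} {c0 : V ≃ T} (C : Ctx Y col κ k v d par S c0)
    {Q : Finset V} {ρ g1 z y : V} {i M : ℕ} (hm : Md Y d par S D Q ρ) (hg : top Y par ρ = g1)
    (hi : iota Y par ρ = i) (hM : d z - d (par g1) = M) (ho : Out Y d par g1 z y)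
    (hS : ∀ x ∈ Q, x ∉ S) (hQ : Q.card ≤ D)
    (hω : ∀ x ∈ Q, ∀ x' ∈ Q, par x' = x → lam Y par x ≤ ω) :
    (∀ x ∈ Q, ∃ j, i ≤ j ∧ j < i + D ∧ j ≤ M ∧ x = vp d par g1 z j) ∨
      ∃ L, i ≤ L ∧ L < i + D ∧ L ≤ M ∧ Jn Y (vp d par g1 z L) ∧ L ≤ ω + 1 ∧
        ∀ x ∈ Q, (∃ j, i ≤ j ∧ j ≤ L ∧ x = vp d par g1 z j) ∨
          (d (vp d par g1 z L) < d x ∧ (par x = vp d par g1 z L ∨
            (par x ∈ Q ∧ d (vp d par g1 z L) < d (par x)))) := by
  classical
  have h := C.pt
  have u := fun x : V => Finset.mem_univ x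
  obtain ⟨hv, hg1, -, hD, hiM, -, hvp, hnJ, -, -⟩ := md_path C hm hg hi hM ho
  obtain ⟨-, -, p1, pM, pd, pp, pds, -⟩ := h.vp_spec hg1 ho.1
  rw [hM] at pM pd pp pds
  obtain ⟨a1, a2, -, -, -⟩ := hm
  have hvQ : v ∉ Q := fun hh => hS v hh C.mem
  have hD1 : 1 ≤ D := (Finset.card_pos.2 ⟨ρ, a1⟩).trans_le hQ
  have eρ : vp d par g1 z i = ρ := by rw [hvp i le_rfl, Nat.sub_self]; rfl
  have dρ : d ρ = d (par g1) + i := by rw [← eρ]; exact pd i hiM
  have dw := h.dp ρ (u _) hv
  have hJw : ¬ Jn Y (par ρ) :=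
    (h.iota_spec (u ρ) hv).2.2.2 1 le_rfl (by omega)
  have key : ∀ x ∈ Q, Ds d par ρ x ∧ d x < d ρ + D ∧ ∀ j, j + d ρ ≤ d x → par^[j] x ∈ Q := by
    intro x hx
    obtain ⟨-, c1, c2, c3, c4⟩ := h.hp_depth (Finset.subset_univ Q) hvQ a2 hx
    refine ⟨⟨by omega, ?_⟩, by omega, fun j hj => c4 j (by omega)⟩
    have m1 : par^[d x - d ρ] x ∈ Q := c4 _ (by omega)
    refine h.child_unique hJw (u _) (u _) (fun e => hvQ (e ▸ m1)) hv ?_ rfl
    rw [← Function.iterate_succ_apply' par, show (d x - d ρ).succ = d x - d (par ρ) by omega, c3]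
  have gρ : Ds d par g1 ρ := eρ ▸ pds i (by omega) hiM
  by_cases hall : ∀ x ∈ Q, ∃ j ≤ M, x = vp d par g1 z j
  · refine Or.inl fun x hx => ?_
    obtain ⟨j, hj, e⟩ := hall x hx
    obtain ⟨k1, k2, -⟩ := key x hx
    have k3 := k1.1
    have k4 : d x = d (par g1) + j := by rw [e]; exact pd j hj
    exact ⟨j, by omega, by omega, hj, e⟩
  push Not at hall
  obtain ⟨x0, hx0, hoff⟩ := hall
  obtain ⟨k1, k2, k3⟩ := key x0 hx0
  have k4 := k1.1
  have hex : ∃ n, ∃ j ≤ M, par^[n] x0 = vp d par g1 z j := ⟨_, i, hiM, k1.2.trans eρ.symm⟩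
  obtain ⟨L', hL', eL'⟩ := Nat.find_spec hex
  have n1 : Nat.find hex ≤ d x0 - d ρ := Nat.find_min' hex ⟨i, hiM, k1.2.trans eρ.symm⟩
  have n0 : 1 ≤ Nat.find hex := by
    rw [Nat.one_le_iff_ne_zero]
    intro e
    rw [e] at eL'
    exact hoff L' hL' eL'
  have nmin := Nat.find_min hex (m := Nat.find hex - 1) (by omega)
  generalize Nat.find hex = n at eL' n1 n0 nmin
  have dL' : d x0 = d (par g1) + L' + n := by
    have e1 := h.d_it (u x0) n
    rw [eL', pd L' hL'] at e1
    omega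
  have cQ : par^[n - 1] x0 ∈ Q := k3 _ (by omega)
  have cv : par^[n - 1] x0 ≠ v := fun e => hvQ (e ▸ cQ)
  have cp : par (par^[n - 1] x0) = vp d par g1 z L' := by
    rw [← Function.iterate_succ_apply' par, show (n - 1).succ = n by omega, eL']
  have hJ' : Jn Y (vp d par g1 z L') := by
    by_contra hJ
    rcases hL'.lt_or_eq with e | e
    · refine nmin ⟨L' + 1, e, h.child_unique hJ (u _) (u _) cv (fun e2 => ?_) cp (pp L' e).1⟩
      have e3 := pd (L' + 1) e
      rw [e2, h.d0] at e3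
      omega
    · have hz : par (par^[n - 1] x0) = z := by rw [cp, e, pM]
      rcases h.nbr (z := y) (u _) cv (cp ▸ hJ) (hz ▸ ho.2.2.1) with e2 | e2
      · exact ho.2.1 (e2 ▸ h.ds_trans (u _) gρ (key _ cQ).1)
      · have e3 := (pp (M - 1) (by omega)).1
        rw [show M - 1 + 1 = M by omega, pM] at e3
        rw [hz, e3] at e2
        exact ho.2.1 (e2 ▸ pds (M - 1) (by omega) (by omega))
  have hex2 : ∃ L, i ≤ L ∧ Jn Y (vp d par g1 z L) := ⟨L', by omega, hJ'⟩
  obtain ⟨l1, l2⟩ := Nat.find_spec hex2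
  have l3 : Nat.find hex2 ≤ L' := Nat.find_min' hex2 ⟨by omega, hJ'⟩
  have l4 : ∀ j, i ≤ j → j < Nat.find hex2 → ¬ Jn Y (vp d par g1 z j) :=
    fun j a b c => Nat.find_min hex2 b ⟨a, c⟩
  generalize Nat.find hex2 = L at l1 l2 l3 l4
  have hL : L ≤ M := l3.trans hL'
  have dL := pd L hL
  have eL : par^[L' - L + n] x0 = vp d par g1 z L := by
    rw [Function.iterate_add_apply, eL']
    exact mdp_vp hM hL' (by omega)
  have LQ : vp d par g1 z L ∈ Q := eL ▸ k3 _ (by omega)
  have Lw : lam Y par (vp d par g1 z L) ≤ ω := by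
    refine hω _ LQ (par^[L' - L + n - 1] x0) (k3 _ (by omega)) ?_
    rw [← Function.iterate_succ_apply' par, show (L' - L + n - 1).succ = L' - L + n by omega, eL]
  have hrun : ∀ j, 1 ≤ j → j ≤ L - 1 → ¬ Jn Y (par^[j] (vp d par g1 z L)) := by
    intro j a b
    rw [mdp_vp (n := j) (j := L - j) hM hL (by omega)]
    by_cases c : L - j < i
    · exact hnJ _ (by omega) c
    · exact l4 _ (by omega) (by omega)
  have Ll := h.le_lam (u _) (fun e => hvQ (e ▸ LQ)) l2 hrun
  refine Or.inr ⟨L, l1, by omega, hL, l2, by omega, fun x hx => ?_⟩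
  have er : par^[L - i] (vp d par g1 z L) = ρ := (mdp_vp hM hL (by omega)).trans eρ
  rcases h.ds_run (m := L - i) (u (vp d par g1 z L)) (u x) (by omega)
    (fun j a b => hrun j a (by omega)) (er ▸ (key x hx).1) with ⟨j, a, b, e⟩ | e
  · exact Or.inl ⟨L - j, by omega, by omega, e.trans (mdp_vp hM hL (by omega))⟩
  by_cases e1 : x = vp d par g1 z L
  · exact Or.inl ⟨L, l1, le_rfl, e1⟩
  refine Or.inr ⟨mdp_lt e e1, ?_⟩
  by_cases e2 : par x = vp d par g1 z L
  · exact Or.inl e2
  have e3 := mdp_lt (h.ds_par (u x) e e1).2 e2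
  refine Or.inr ⟨(a2.2 x hx).resolve_right fun e4 => ?_, e3⟩
  rw [e4] at e3
  omega

end FSDiam
end

-- part Trans
section
namespace FSDiam
open Equiv

variable {V T : Type*} [DecidableEq V] [Fintype V] [Fintype T] [DecidableEq T]
variable {Y : SimpleGraph V} {col : T → Bool} {κ : Bool}
variable {Ω : Finset V} {v : V} {d : V → ℕ} {par : V → V}

/-- Let `i = iota ρ` be larger. `y` is a descendant of `ρ` with `d y < d ρ + D`. The first shape of
`Q'` is impossible: within `D` steps up from `y` one reaches `S`, which puts `par^[D] ρ` into `S`.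
In the second shape let `ρ'` be the ancestor of `y` in `Q'` with `par ρ' = w` (`hp_depth`),
`d y < d ρ' + D`. If `d ρ' ≤ d ρ` then `ρ' = par^[e] ρ` with `e < D`, `iota ρ' = i - e` (`iota_eq`),
and `par^[D] ρ' ∉ S` by `d_lt_closed`. If `d ρ < d ρ'` all vertices from `ρ` down to `ρ'` are in
`Q`; the highest junction among them other than `ρ'` would give `i - 1 ≤ ω` (`le_lam`), so there is
none and `iota ρ' = i + e`. -/
theorem md_trans {k D ω : ℕ} {S : Finset V} {c0 : V ≃ T} (C : Ctx Y col κ k v d par S c0)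
    {Q Q' : Finset V} (hS : ∀ x ∈ Q, x ∉ S) (hH : Hull par S Q') (hQ : Q.card ≤ D)
    (hQ' : Q'.card ≤ D) {y ρ : V} (hy : y ∈ Q) (hy' : y ∈ Q') (hm : Md Y d par S D Q ρ)
    (hω : ∀ x ∈ Q, ∀ x' ∈ Q, par x' = x → lam Y par x ≤ ω) :
    iota Y par ρ ≤ S.card + 2 * D + 1 + ω ∨ ∃ ρ', Md Y d par S D Q' ρ' ∧
      top Y par ρ' = top Y par ρ ∧ iota Y par ρ' ≤ iota Y par ρ + D ∧
      iota Y par ρ ≤ iota Y par ρ' + D := by
  have h := C.pt
  have u := fun x : V => Finset.mem_univ x
  obtain ⟨a1, a2, -, -, a5⟩ := hm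
  rcases le_or_gt (iota Y par ρ) (S.card + 2 * D + 1 + ω) with hi | hi
  · exact Or.inl hi
  refine Or.inr ?_
  have hvQ : v ∉ Q := fun hh => hS v hh C.mem
  have hvQ' : v ∉ Q' := fun hh => hH.1 v hh C.mem
  have hv : ρ ≠ v := fun e => hvQ (e ▸ a1)
  obtain ⟨i1, i2, i3, i4⟩ := h.iota_spec (u ρ) hv
  have dw := h.dp ρ (u _) hv
  obtain ⟨-, c1, c2, c3, c4⟩ := h.hp_depth (Finset.subset_univ Q) hvQ a2 hy
  have hdeep : ∀ j, j + S.card ≤ d y → par^[j] y ∉ S := fun j hj hh => by
    have e1 := h.d_lt_closed C.closed (u _) hh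
    rw [h.d_it (u y)] at e1
    omega
  have ea : par^[d y - d ρ] y = ρ := by
    have m1 : par^[d y - d ρ] y ∈ Q := c4 _ (by omega)
    refine h.child_unique (i4 1 le_rfl (by omega)) (u _) (u _) (fun e => hvQ (e ▸ m1)) hv ?_ rfl
    rw [← Function.iterate_succ_apply' par, show (d y - d ρ).succ = d y - d (par ρ) by omega, c3]
    rfl
  obtain ⟨a, ha⟩ : ∃ a, d y = d ρ + a := ⟨d y - d ρ, by omega⟩
  rw [show d y - d ρ = a by omega] at ea
  rcases hH.2 with h1 | ⟨w, -, h1⟩
  · have m1 : ∀ j ≤ D, par^[j] y ∈ Q' := fun j => by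
      induction j with
      | zero => exact fun _ => hy'
      | succ j ih =>
        intro hj
        have e1 := hdeep (j + 1) (by omega)
        rw [Function.iterate_succ_apply'] at e1 ⊢
        exact (h1 _ (ih (by omega))).resolve_right e1
    have m2 := Finset.card_le_card_of_injOn (s := Finset.range (D + 1)) (t := Q')
      (fun j => par^[j] y) (fun j hj => m1 j (by simpa [Nat.lt_succ_iff] using hj))
      fun j hj j' hj' e => by
        have e1 := congrArg d e
        simp only [h.d_it (u y)] at e1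
        simp only [Finset.coe_range, Set.mem_Iio] at hj hj'
        omega
    rw [Finset.card_range] at m2
    omega
  obtain ⟨-, b1, b2, b3, b4⟩ := h.hp_depth (Finset.subset_univ Q') hvQ' h1 hy'
  obtain ⟨b, hb⟩ : ∃ b, d y = d w + b + 1 := ⟨d y - d w - 1, by omega⟩
  rw [show d y - d w = b + 1 by omega, Function.iterate_succ_apply'] at b3
  have up : ∀ j, par^[j] ρ = par^[j + a] y := fun j => by rw [Function.iterate_add_apply, ea]
  have key : ∀ j, 1 ≤ j + b → b < j + b → j + b < iota Y par ρ + a → ¬ Jn Y (par^[j + b] y) := by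
    have hnj : ∀ n t, b < t → t ≤ a → a < t + n → ¬ Jn Y (par^[t] y) := by
      intro n
      induction n with
      | zero => intro t _ _ _; omega
      | succ n ih =>
        intro t t1 t2 t3 hJ
        have q1 : par^[t] y ∈ Q := c4 _ (by omega)
        have q2 := hω _ q1 (par^[t - 1] y) (c4 _ (by omega)) (by
          rw [← Function.iterate_succ_apply' par, show (t - 1).succ = t by omega])
        have q3 := h.le_lam (u _) (fun e => hvQ (e ▸ q1)) hJ (m := iota Y par ρ - 1)
          fun j j1 j2 => by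
            rw [← Function.iterate_add_apply]
            rcases le_or_gt (j + t) a with hc | hc
            · exact ih _ (by omega) hc (by omega)
            · rw [show j + t = (j + t - a) + a by omega, ← up]
              exact i4 _ (by omega) (by omega)
        omega
    intro j _ j2 j3
    rcases le_or_gt (j + b) a with hc | hc
    · exact hnj (a + 1) _ j2 hc (by omega)
    · rw [show j + b = (j + b - a) + a by omega, ← up]
      exact i4 _ (by omega) (by omega)
  have ei : iota Y par (par^[b] y) = iota Y par ρ + a - b := iota_eq (by omega)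
    (by rw [← Function.iterate_add_apply, show iota Y par ρ + a - b + b = iota Y par ρ + a by omega,
          ← up]
        exact i3)
    fun j j1 j2 => by
      rw [← Function.iterate_add_apply]
      exact key j (by omega) (by omega) (by omega)
  have et : top Y par (par^[b] y) = top Y par ρ := by
    rw [top, top, ei, up, ← Function.iterate_add_apply]
    congr 1
    omega
  refine ⟨par^[b] y, ⟨b4 _ (by omega), b3.symm ▸ h1, by omega, ?_, et.symm ▸ a5⟩, et, by omega,
    by omega⟩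
  rw [← Function.iterate_add_apply]
  exact hdeep _ (by omega)

end FSDiam
end

-- part SoA
section
namespace FSDiam
open Equiv

variable {V T : Type*} [DecidableEq V] [Fintype V] [Fintype T] [DecidableEq T]
variable {Y : SimpleGraph V} {col : T → Bool} {κ : Bool}
variable {Ω : Finset V} {v : V} {d : V → ℕ} {par : V → V}

/-- A rhombus moves only ranks in its interval that are below `μ`. -/
theorem Rh.supp {μ a j : ℕ} {p : Perm ℕ} (h : Rh μ a j p) (i : ℕ)
    (hi : i < a ∨ a + 2 ^ j ≤ i ∨ μ ≤ i) : p i = i := by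
  induction h with
  | one a => rfl
  | swap a ha =>
    rw [pow_one] at hi
    exact swap_apply_of_ne_of_ne (by omega) (by omega)
  | step a j p1 p2 p3 p4 _ _ _ _ i1 i2 i3 i4 =>
    have e1 : 2 ^ (j + 1) = 2 * 2 ^ j := by rw [pow_succ]; omega
    have e2 : 2 ^ (j + 2) = 4 * 2 ^ j := by rw [pow_succ, pow_succ]; omega
    rw [e2] at hi
    rw [e1] at i1 i2 i3 i4
    rw [Perm.mul_apply, Perm.mul_apply, Perm.mul_apply, i4 (by omega), i3 (by omega),
      i2 (by omega), i1 (by omega)]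

theorem So.supp {μ a j : ℕ} {p : Perm ℕ} (h : So μ a j p) (i : ℕ)
    (hi : i < a ∨ a + 2 ^ j ≤ i ∨ μ ≤ i) : p i = i := by
  induction h with
  | base a p hp => exact hp.supp i hi
  | step a j p1 p2 p3 _ _ h3 i1 i2 =>
    have e2 : 2 ^ (j + 2) = 2 * 2 ^ (j + 1) := by rw [pow_succ]; omega
    have g3 := h3.supp i hi
    rw [e2] at hi
    rw [Perm.mul_apply, Perm.mul_apply, g3, i2 (by omega), i1 (by omega)]

theorem soa_mem {p : Perm ℕ} {b e : ℕ} (hp : ∀ i, i < b ∨ e ≤ i → p i = i) {i : ℕ}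
    (h1 : b ≤ i) (h2 : i < e) : b ≤ p i ∧ p i < e := by
  by_contra hcon
  have h3 : p (p i) = p i := hp _ (by omega)
  have h4 : p i = i := p.injective h3
  omega

theorem soa_inv {p : Perm ℕ} {b e : ℕ} (hp : ∀ i, i < b ∨ e ≤ i → p i = i) :
    ∀ i, i < b ∨ e ≤ i → p⁻¹ i = i := fun i hi => by
  rw [Perm.inv_eq_iff_eq, hp i hi]

/-- After sorting, the lower half is below any bound valid on a block of half the length. -/
theorem soa_low {g p : Perm ℕ} {b m c t : ℕ} (hp : ∀ i, i < b ∨ b + 2 * m ≤ i → p i = i)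
    (hs : ∀ i i', b ≤ i → i ≤ i' → i' < b + 2 * m → (g * p) i ≤ (g * p) i')
    (hc1 : b ≤ c) (hc2 : c + m ≤ b + 2 * m) (ht : ∀ u, c ≤ u → u < c + m → g u ≤ t) :
    ∀ x, b ≤ x → x < b + m → (g * p) x ≤ t := by
  intro x hx1 hx2
  by_contra hcon
  have hcard : (Finset.Ico c (c + m)).card ≤ (Finset.Ico b x).card := by
    refine Finset.card_le_card_of_injOn (⇑p⁻¹) (fun u hu => ?_)
      (fun u _ u' _ h => p⁻¹.injective h)
    rw [Finset.mem_coe, Finset.mem_Ico] at hu ⊢
    have h1 := soa_mem (soa_inv hp) (i := u) (by omega) (by omega)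
    refine ⟨h1.1, ?_⟩
    by_contra h2
    have h3 := hs x (p⁻¹ u) hx1 (by omega) h1.2
    have h4 : (g * p) (p⁻¹ u) = g u := by simp
    have h5 := ht u hu.1 hu.2
    omega
  rw [Nat.card_Ico, Nat.card_Ico] at hcard
  omega

/-- After sorting, the upper half is above any bound valid on a block of half the length. -/
theorem soa_high {g p : Perm ℕ} {b m c t : ℕ} (hp : ∀ i, i < b ∨ b + 2 * m ≤ i → p i = i)
    (hs : ∀ i i', b ≤ i → i ≤ i' → i' < b + 2 * m → (g * p) i ≤ (g * p) i')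
    (hc1 : b ≤ c) (hc2 : c + m ≤ b + 2 * m) (ht : ∀ u, c ≤ u → u < c + m → t ≤ g u) :
    ∀ x, b + m ≤ x → x < b + 2 * m → t ≤ (g * p) x := by
  intro x hx1 hx2
  by_contra hcon
  have hcard : (Finset.Ico c (c + m)).card ≤ (Finset.Ico (x + 1) (b + 2 * m)).card := by
    refine Finset.card_le_card_of_injOn (⇑p⁻¹) (fun u hu => ?_)
      (fun u _ u' _ h => p⁻¹.injective h)
    rw [Finset.mem_coe, Finset.mem_Ico] at hu ⊢
    have h1 := soa_mem (soa_inv hp) (i := u) (by omega) (by omega)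
    refine ⟨?_, h1.2⟩
    by_contra h2
    have h3 := hs (p⁻¹ u) x h1.1 (by omega) hx2
    have h4 : (g * p) (p⁻¹ u) = g u := by simp
    have h5 := ht u hu.1 hu.2
    omega
  rw [Nat.card_Ico, Nat.card_Ico] at hcard
  omega

/-- The four merges of the rhombus sort the whole interval. -/
theorem soa_four {f p1 p2 p3 p4 : Perm ℕ} {a m : ℕ}
    (s12 : ∀ i i', a ≤ i → i ≤ i' → i' < a + 2 * m → f i ≤ f i')
    (s34 : ∀ i i', a + 2 * m ≤ i → i ≤ i' → i' < a + 4 * m → f i ≤ f i')
    (u1 : ∀ i, i < a + m ∨ a + m + 2 * m ≤ i → p1 i = i)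
    (u2 : ∀ i, i < a ∨ a + 2 * m ≤ i → p2 i = i)
    (u3 : ∀ i, i < a + 2 * m ∨ a + 2 * m + 2 * m ≤ i → p3 i = i)
    (u4 : ∀ i, i < a + m ∨ a + m + 2 * m ≤ i → p4 i = i)
    (t1 : ∀ i i', a + m ≤ i → i ≤ i' → i' < a + m + 2 * m → (f * p1) i ≤ (f * p1) i')
    (t2 : ∀ i i', a ≤ i → i ≤ i' → i' < a + 2 * m → (f * p1 * p2) i ≤ (f * p1 * p2) i')
    (t3 : ∀ i i', a + 2 * m ≤ i → i ≤ i' → i' < a + 2 * m + 2 * m →
      (f * p1 * p2 * p3) i ≤ (f * p1 * p2 * p3) i')
    (t4 : ∀ i i', a + m ≤ i → i ≤ i' → i' < a + m + 2 * m →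
      (f * p1 * p2 * p3 * p4) i ≤ (f * p1 * p2 * p3 * p4) i') :
    ∀ i i', a ≤ i → i ≤ i' → i' < a + 4 * m →
      (f * p1 * p2 * p3 * p4) i ≤ (f * p1 * p2 * p3 * p4) i' := by
  have e1 : ∀ i, i < a + m ∨ a + m + 2 * m ≤ i → (f * p1) i = f i := fun i hi => by
    rw [Perm.mul_apply, u1 i hi]
  have e2 : ∀ i, i < a ∨ a + 2 * m ≤ i → (f * p1 * p2) i = (f * p1) i := fun i hi => by
    rw [Perm.mul_apply, u2 i hi]
  have e3 : ∀ i, i < a + 2 * m ∨ a + 2 * m + 2 * m ≤ i →
      (f * p1 * p2 * p3) i = (f * p1 * p2) i := fun i hi => by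
    rw [Perm.mul_apply, u3 i hi]
  have e4 : ∀ i, i < a + m ∨ a + m + 2 * m ≤ i →
      (f * p1 * p2 * p3 * p4) i = (f * p1 * p2 * p3) i := fun i hi => by
    rw [Perm.mul_apply, u4 i hi]
  have hA : ∀ y, a + 2 * m ≤ y → y < a + 4 * m → ∀ x, a ≤ x → x < a + m →
      (f * p1 * p2) x ≤ (f * p1) y := by
    intro y hy1 hy2
    refine soa_low (c := a + m) u2 t2 (by omega) (by omega) ?_
    by_cases hy : y < a + m + 2 * m
    · intro u h1 h2
      exact t1 u y h1 (by omega) hy
    · rw [e1 y (by omega)]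
      refine soa_low (c := a + 2 * m) u1 t1 (by omega) (by omega) ?_
      intro u h1 h2
      exact s34 u y h1 (by omega) hy2
  have hB : ∀ x, a ≤ x → x < a + 2 * m → ∀ y, a + 2 * m + m ≤ y → y < a + 2 * m + 2 * m →
      (f * p1) x ≤ (f * p1 * p2 * p3) y := by
    intro x hx1 hx2
    refine soa_high (c := a + 2 * m) u3 t3 (by omega) (by omega) ?_
    intro u h1 h2
    rw [e2 u (by omega)]
    by_cases hx : a + m ≤ x
    · exact t1 x u hx (by omega) (by omega)
    · rw [e1 x (by omega)]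
      refine soa_high (c := a + m) u1 t1 (by omega) (by omega) ?_ u (by omega) (by omega)
      intro w h3 h4
      exact s12 x w hx1 (by omega) (by omega)
  have hA' : ∀ x, a ≤ x → x < a + m → ∀ u, a + m ≤ u → u < a + 4 * m →
      (f * p1 * p2 * p3) x ≤ (f * p1 * p2 * p3) u := by
    intro x hx1 hx2 u h1 h2
    rw [e3 x (by omega)]
    by_cases hu : u < a + 2 * m
    · rw [e3 u (by omega)]
      exact t2 x u hx1 (by omega) hu
    · have h3 := soa_mem u3 (i := u) (by omega) (by omega)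
      rw [Perm.mul_apply _ p3, e2 (p3 u) (by omega)]
      exact hA _ h3.1 (by omega) x hx1 hx2
  have hB' : ∀ y, a + 2 * m + m ≤ y → y < a + 4 * m → ∀ u, a ≤ u → u ≤ y →
      (f * p1 * p2 * p3) u ≤ (f * p1 * p2 * p3) y := by
    intro y hy1 hy2 u h1 h2
    by_cases hu : u < a + 2 * m
    · have h3 := soa_mem u2 (i := u) h1 hu
      rw [e3 u (by omega), Perm.mul_apply _ p2]
      exact hB _ h3.1 h3.2 y hy1 (by omega)
    · exact t3 u y (by omega) h2 (by omega)
  intro i i' h1 h2 h3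
  by_cases c1 : i' < a + m
  · rw [e4 i (by omega), e4 i' (by omega), e3 i (by omega), e3 i' (by omega)]
    exact t2 i i' h1 h2 (by omega)
  by_cases c2 : i' < a + m + 2 * m
  · by_cases c3 : i < a + m
    · have h4 := soa_mem u4 (i := i') (by omega) c2
      rw [e4 i (by omega), Perm.mul_apply _ p4]
      exact hA' i h1 c3 _ h4.1 (by omega)
    · exact t4 i i' (by omega) h2 c2
  · rw [e4 i' (by omega)]
    by_cases c3 : a + m ≤ i ∧ i < a + m + 2 * m
    · have h4 := soa_mem u4 (i := i) c3.1 c3.2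
      rw [Perm.mul_apply _ p4]
      exact hB' i' (by omega) h3 _ (by omega) (by omega)
    · rw [e4 i (by omega)]
      exact hB' i' (by omega) h3 i h1 h2

/-- Merging two sorted halves. Induction on `j` over all `a`, `f`. With quarters `Q1 … Q4` merge
`Q2 Q3`, then `Q1 Q2`, then `Q3 Q4`, then `Q2 Q3`. After the first merge the values on `Q2` are at
most the largest old value on `Q3` and at most all values on `Q3`; so after the second merge the
values on `Q1` (the smallest half of a set of which half is at most that bound, count through the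
bijection) are at most all values on `Q2, Q3, Q4`; dually for `Q4`. For `j = 0` an exchange is
needed only if `a + 1 < μ`, since `f` fixes all `i ≥ μ` and maps the others below `μ`. -/
theorem rh_merge (μ j : ℕ) : ∀ (a : ℕ) (f : Perm ℕ), (∀ i, μ ≤ i → f i = i) →
    (∀ i i', a ≤ i → i ≤ i' → i' < a + 2 ^ j → f i ≤ f i') →
    (∀ i i', a + 2 ^ j ≤ i → i ≤ i' → i' < a + 2 ^ (j + 1) → f i ≤ f i') →
    ∃ p, Rh μ a (j + 1) p ∧
      ∀ i i', a ≤ i → i ≤ i' → i' < a + 2 ^ (j + 1) → (f * p) i ≤ (f * p) i' := by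
  induction j with
  | zero =>
    intro a f hf _ _
    by_cases h : f a ≤ f (a + 1)
    · refine ⟨1, Rh.one a, fun i i' h1 h2 h3 => ?_⟩
      rw [mul_one]
      have h4 : i = i' ∨ (i = a ∧ i' = a + 1) := by omega
      rcases h4 with rfl | ⟨rfl, rfl⟩
      · exact le_rfl
      · exact h
    · have hμ : a + 1 < μ := by
        by_contra hcon
        have h1 := hf (a + 1) (by omega)
        have h2 : f (f a) = f a := hf _ (by omega)
        have h3 : f a = a := f.injective h2
        omega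
      refine ⟨swap a (a + 1), Rh.swap a hμ, fun i i' h1 h2 h3 => ?_⟩
      have h4 : i = i' ∨ (i = a ∧ i' = a + 1) := by omega
      rcases h4 with rfl | ⟨rfl, rfl⟩
      · exact le_rfl
      · rw [Perm.mul_apply, Perm.mul_apply, swap_apply_left, swap_apply_right]
        omega
  | succ j ih =>
    intro a f hf s12 s34
    have e1 : 2 ^ (j + 1) = 2 * 2 ^ j := by rw [pow_succ]; omega
    have e2 : 2 ^ (j + 1 + 1) = 4 * 2 ^ j := by rw [pow_succ, pow_succ]; omega
    rw [e1] at s12 ih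
    rw [e1, e2] at s34
    rw [e2]
    have hsup : ∀ {b : ℕ} {p : Perm ℕ}, Rh μ b (j + 1) p →
        (∀ i, i < b ∨ b + 2 * 2 ^ j ≤ i → p i = i) ∧ ∀ i, μ ≤ i → p i = i := fun h =>
      ⟨fun i hi => h.supp i (by rw [e1]; omega), fun i hi => h.supp i (by omega)⟩
    obtain ⟨p1, r1, t1⟩ := ih (a + 2 ^ j) f hf
      (fun i i' h1 h2 h3 => s12 i i' (by omega) h2 (by omega))
      (fun i i' h1 h2 h3 => s34 i i' (by omega) h2 (by omega))
    obtain ⟨u1, w1⟩ := hsup r1
    have hf1 : ∀ i, μ ≤ i → (f * p1) i = i := fun i hi => by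
      rw [Perm.mul_apply, w1 i hi, hf i hi]
    obtain ⟨p2, r2, t2⟩ := ih a (f * p1) hf1
      (fun i i' h1 h2 h3 => by
        rw [Perm.mul_apply, Perm.mul_apply, u1 i (by omega), u1 i' (by omega)]
        exact s12 i i' h1 h2 (by omega))
      (fun i i' h1 h2 h3 => t1 i i' h1 h2 (by omega))
    obtain ⟨u2, w2⟩ := hsup r2
    have hf2 : ∀ i, μ ≤ i → (f * p1 * p2) i = i := fun i hi => by
      rw [Perm.mul_apply, w2 i hi, hf1 i hi]
    obtain ⟨p3, r3, t3⟩ := ih (a + 2 * 2 ^ j) (f * p1 * p2) hf2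
      (fun i i' h1 h2 h3 => by
        rw [Perm.mul_apply _ p2, Perm.mul_apply _ p2, u2 i (by omega), u2 i' (by omega)]
        exact t1 i i' (by omega) h2 (by omega))
      (fun i i' h1 h2 h3 => by
        rw [Perm.mul_apply _ p2, Perm.mul_apply _ p2, u2 i (by omega), u2 i' (by omega),
          Perm.mul_apply, Perm.mul_apply, u1 i (by omega), u1 i' (by omega)]
        exact s34 i i' (by omega) h2 (by omega))
    obtain ⟨u3, w3⟩ := hsup r3
    have hf3 : ∀ i, μ ≤ i → (f * p1 * p2 * p3) i = i := fun i hi => by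
      rw [Perm.mul_apply, w3 i hi, hf2 i hi]
    obtain ⟨p4, r4, t4⟩ := ih (a + 2 ^ j) (f * p1 * p2 * p3) hf3
      (fun i i' h1 h2 h3 => by
        rw [Perm.mul_apply _ p3, Perm.mul_apply _ p3, u3 i (by omega), u3 i' (by omega)]
        exact t2 i i' (by omega) h2 (by omega))
      (fun i i' h1 h2 h3 => t3 i i' (by omega) h2 (by omega))
    obtain ⟨u4, -⟩ := hsup r4
    refine ⟨p1 * p2 * p3 * p4, Rh.step a j p1 p2 p3 p4 r1 r2 (by rw [e1]; exact r3) r4, ?_⟩
    rw [← mul_assoc, ← mul_assoc, ← mul_assoc]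
    exact soa_four s12 s34 u1 u2 u3 u4 t1 t2 t3 t4

end FSDiam
end

-- part SoAll
section
namespace FSDiam
open Equiv

variable {V T : Type*} [DecidableEq V] [Fintype V] [Fintype T] [DecidableEq T]
variable {Y : SimpleGraph V} {col : T → Bool} {κ : Bool}
variable {Ω : Finset V} {v : V} {d : V → ℕ} {par : V → V}

theorem so_sort (μ j : ℕ) : ∀ (a : ℕ) (f : Perm ℕ), (∀ i, μ ≤ i → f i = i) →
    ∃ p, So μ a (j + 1) p ∧
      ∀ i i', a ≤ i → i ≤ i' → i' < a + 2 ^ (j + 1) → (f * p) i ≤ (f * p) i' := by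
  induction j with
  | zero =>
    intro a f hf
    obtain ⟨p, hp, hs⟩ := rh_merge μ 0 a f hf
      (fun i i' h1 h2 h3 => by
        have : i = i' := by simp only [pow_zero] at h3; omega
        rw [this])
      (fun i i' h1 h2 h3 => by
        have : i = i' := by simp only [pow_zero, zero_add, pow_one] at h1 h3; omega
        rw [this])
    exact ⟨p, So.base a p hp, hs⟩
  | succ j ih =>
    intro a f hf
    obtain ⟨p1, hp1, hs1⟩ := ih a f hf
    have hf1 : ∀ i, μ ≤ i → (f * p1) i = i := fun i hi => by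
      rw [Perm.mul_apply, hp1.supp i (Or.inr (Or.inr hi)), hf i hi]
    obtain ⟨p2, hp2, hs2⟩ := ih (a + 2 ^ (j + 1)) (f * p1) hf1
    have hf2 : ∀ i, μ ≤ i → (f * p1 * p2) i = i := fun i hi => by
      rw [Perm.mul_apply, hp2.supp i (Or.inr (Or.inr hi)), hf1 i hi]
    obtain ⟨p3, hp3, hs3⟩ := rh_merge μ (j + 1) a (f * p1 * p2) hf2
      (fun i i' h1 h2 h3 => by
        rw [Perm.mul_apply (f * p1), Perm.mul_apply (f * p1), hp2.supp i (Or.inl (by omega)),
          hp2.supp i' (Or.inl h3)]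
        exact hs1 i i' h1 h2 h3)
      (fun i i' h1 h2 h3 => hs2 i i' h1 h2 (by rw [pow_succ 2 (j + 1)] at h3; omega))
    refine ⟨p1 * p2 * p3, So.step a j p1 p2 p3 hp1 hp2 hp3, ?_⟩
    rw [← mul_assoc, ← mul_assoc]
    exact hs3

/-- Sort `f⁻¹`; a monotone permutation that fixes all `i ≥ μ` is the identity. -/
theorem so_all {μ J : ℕ} (hJ : 1 ≤ J) (hμ : μ ≤ 2 ^ J) (f : Perm ℕ) (hf : ∀ i, μ ≤ i → f i = i) :
    So μ 0 J f := by
  obtain ⟨j, rfl⟩ : ∃ j, J = j + 1 := ⟨J - 1, by omega⟩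
  have hf' : ∀ i, μ ≤ i → f⁻¹ i = i := fun i hi => by
    rw [Perm.inv_eq_iff_eq, hf i hi]
  obtain ⟨p, hp, hs⟩ := so_sort μ j 0 f⁻¹ hf'
  generalize hg : f⁻¹ * p = g at hs
  have hfix : ∀ i, μ ≤ i → g i = i := fun i hi => by
    rw [← hg, Perm.mul_apply, hp.supp i (Or.inr (Or.inr hi)), hf' i hi]
  have hlt : ∀ i, i < μ → g i < μ := fun i hi => by
    by_contra hcon
    have h1 := g.injective (hfix (g i) (not_lt.1 hcon))
    omega
  have hmono : Monotone g := fun i i' h => by
    by_cases h1 : i' < μ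
    · exact hs i i' (Nat.zero_le _) h (by omega)
    · by_cases h2 : i < μ
      · have := hlt i h2
        rw [hfix i' (not_lt.1 h1)]
        omega
      · rw [hfix i' (not_lt.1 h1), hfix i (not_lt.1 h2)]
        exact h
  have hst : StrictMono g := hmono.strictMono_of_injective g.injective
  have hst' : StrictMono g.symm := fun i i' h => by
    rw [← hst.lt_iff_lt]
    simpa using h
  have h1 : g = 1 := by
    ext i
    have h2 : g i ≤ g.symm (g i) := hst'.le_apply
    have h3 : i ≤ g i := hst.le_apply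
    rw [Equiv.symm_apply_apply] at h2
    exact le_antisymm h2 h3
  rw [h1, inv_mul_eq_one] at hg
  rw [hg]
  exact hp

end FSDiam
end

-- part SoC
section
namespace FSDiam
open Equiv

variable {V T : Type*} [DecidableEq V] [Fintype V] [Fintype T] [DecidableEq T]
variable {Y : SimpleGraph V} {col : T → Bool} {κ : Bool}
variable {Ω : Finset V} {v : V} {d : V → ℕ} {par : V → V}

theorem Lf.mul {z : ℕ → T} {μ : ℕ} {p p' : Perm ℕ} {σ σ' : Perm T} (h : Lf z μ p σ)
    (h' : Lf z μ p' σ') : Lf z μ (p * p') (σ * σ') := by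
  refine ⟨fun i hi => ?_, fun t ht => ?_⟩
  · obtain ⟨a1, a2⟩ := h'.1 i hi
    obtain ⟨b1, b2⟩ := h.1 _ a1
    exact ⟨b1, by rw [Perm.mul_apply, Perm.mul_apply, a2, b2]⟩
  · rw [Perm.mul_apply, h'.2 t ht, h.2 t ht]

theorem soc_term (a i q j : ℕ) :
    (64 * (j + 1) * min (i + 1 - (a + q)) (a + q + 2 * q - (i + 1)) +
        16 * (2 * q) * if a + q ≤ i ∧ i + 1 < a + q + 2 * q then 1 else 0)
      + (64 * (j + 1) * min (i + 1 - a) (a + 2 * q - (i + 1)) +
        16 * (2 * q) * if a ≤ i ∧ i + 1 < a + 2 * q then 1 else 0)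
      + (64 * (j + 1) * min (i + 1 - (a + 2 * q)) (a + 2 * q + 2 * q - (i + 1)) +
        16 * (2 * q) * if a + 2 * q ≤ i ∧ i + 1 < a + 2 * q + 2 * q then 1 else 0)
      + (64 * (j + 1) * min (i + 1 - (a + q)) (a + q + 2 * q - (i + 1)) +
        16 * (2 * q) * if a + q ≤ i ∧ i + 1 < a + q + 2 * q then 1 else 0)
      + 32 * q * (if a ≤ i ∧ i + 1 < a + 4 * q then 1 else 0)
      ≤ 64 * (j + 2) * min (i + 1 - a) (a + 4 * q - (i + 1)) +
        16 * (4 * q) * if a ≤ i ∧ i + 1 < a + 4 * q then 1 else 0 := by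
  have h1 : min (i + 1 - a) (a + 4 * q - (i + 1))
      = 2 * min (i + 1 - (a + q)) (a + q + 2 * q - (i + 1)) + min (i + 1 - a) (a + 2 * q - (i + 1))
        + min (i + 1 - (a + 2 * q)) (a + 2 * q + 2 * q - (i + 1)) := by omega
  have h2 : (16 * (2 * q) * if a + q ≤ i ∧ i + 1 < a + q + 2 * q then 1 else 0)
      + (16 * (2 * q) * if a ≤ i ∧ i + 1 < a + 2 * q then 1 else 0)
      + (16 * (2 * q) * if a + 2 * q ≤ i ∧ i + 1 < a + 2 * q + 2 * q then 1 else 0)
      + (16 * (2 * q) * if a + q ≤ i ∧ i + 1 < a + q + 2 * q then 1 else 0)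
      + 32 * q * (if a ≤ i ∧ i + 1 < a + 4 * q then 1 else 0)
      ≤ 64 * min (i + 1 - a) (a + 4 * q - (i + 1)) +
        16 * (4 * q) * if a ≤ i ∧ i + 1 < a + 4 * q then 1 else 0 := by
    split_ifs <;> omega
  have h3 : 64 * (j + 2) * min (i + 1 - a) (a + 4 * q - (i + 1))
      = 64 * (j + 1) * (2 * min (i + 1 - (a + q)) (a + q + 2 * q - (i + 1))
        + min (i + 1 - a) (a + 2 * q - (i + 1))
        + min (i + 1 - (a + 2 * q)) (a + 2 * q + 2 * q - (i + 1)))
        + 64 * min (i + 1 - a) (a + 4 * q - (i + 1)) := by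
    rw [← h1]; ring
  rw [h3]
  linarith

theorem soc_ico (w : ℕ → ℕ) {a h M : ℕ} (hM : a + h ≤ M) :
    ∑ i ∈ Finset.Ico a (a + h - 1), w i
      = ∑ i ∈ Finset.range M, w i * if a ≤ i ∧ i + 1 < a + h then 1 else 0 := by
  have : Finset.Ico a (a + h - 1) = (Finset.range M).filter fun i => a ≤ i ∧ i + 1 < a + h := by
    ext i
    simp only [Finset.mem_Ico, Finset.mem_filter, Finset.mem_range]
    omega
  rw [this, Finset.sum_filter]
  refine Finset.sum_congr rfl fun i _ => ?_
  split_ifs <;> simp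

/-- Induction on `Rh`. The tent `min (i + 1 - a) (a + 2 ^ j - (i + 1))` of a rhombus is the sum of
the tents of its four parts (the middle part twice); each part is reached by `hstep` and
`Ev.transport`, in all `8 K h (h + W)` with `h = 2 ^ (j + 2)`. Termwise in `i`, with `q = 2 ^ j`
and indicators of the intervals: `64 tent + 16 (4q) ind ≥ 16 (2q) (indL + indR + 2 indM) + 8 (4q)
ind` (`split_ifs`, `omega`). Write the sum over `Finset.Ico a (a + h - 1)` as a sum over
`Finset.range M` with an indicator. -/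
theorem rh_cost {z : ℕ → T} {μ K M : ℕ} {w : ℕ → ℕ} {Rd : (V ≃ T) → ℕ → ℕ → Prop}
    (hz : ∀ i < μ, ∀ j < μ, z i = z j → i = j)
    (hleaf : ∀ c a, Rd c a 1 → a + 1 < μ →
      Ev Y col κ (K * (1 + w a)) c (swap (z a) (z (a + 1))))
    (hstep : ∀ c a j a', 1 ≤ j → Rd c a (j + 1) → a ≤ a' → a' + 2 ^ j ≤ a + 2 ^ (j + 1) →
      ∃ c', Rn Y col (K * 2 ^ (j + 1) *
        (2 ^ (j + 1) + ∑ i ∈ Finset.Ico a (a + 2 ^ (j + 1) - 1), w i)) c c' ∧ Rd c' a' j)
    {a j : ℕ} {p : Perm ℕ} (h : Rh μ a j p) : a + 2 ^ j ≤ M → ∀ c, Rd c a j →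
    ∃ σ, Lf z μ p σ ∧ Ev Y col κ (K * (8 * j * 2 ^ j * 2 ^ j + ∑ i ∈ Finset.range M, w i *
      (64 * j * min (i + 1 - a) (a + 2 ^ j - (i + 1)) +
        16 * 2 ^ j * if a ≤ i ∧ i + 1 < a + 2 ^ j then 1 else 0))) c σ := by
  induction h with
  | one a => exact fun _ c _ => ⟨1, ⟨fun i hi => ⟨hi, rfl⟩, fun _ _ => rfl⟩, Ev.one _ c⟩
  | swap a ha =>
    intro hM c hc
    refine ⟨swap (z a) (z (a + 1)), ⟨fun i hi => ?_, fun t ht => ?_⟩, (hleaf c a hc ha).mono ?_⟩
    · by_cases h1 : i = a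
      · subst h1; simp [ha]
      by_cases h2 : i = a + 1
      · subst h2
        simp only [swap_apply_right, and_true]
        omega
      rw [swap_apply_of_ne_of_ne h1 h2, swap_apply_of_ne_of_ne
        (fun e => h1 (hz i hi a (by omega) e)) (fun e => h2 (hz i hi (a + 1) ha e))]
      exact ⟨hi, rfl⟩
    · exact swap_apply_of_ne_of_ne (ht a (by omega)) (ht (a + 1) ha)
    · refine Nat.mul_le_mul_left _ (Nat.add_le_add (by norm_num) ?_)
      refine le_trans ?_ (Finset.single_le_sum (f := fun i => w i *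
        (64 * 1 * min (i + 1 - a) (a + 2 ^ 1 - (i + 1)) +
        16 * 2 ^ 1 * if a ≤ i ∧ i + 1 < a + 2 ^ 1 then 1 else 0)) (fun _ _ => Nat.zero_le _)
        (Finset.mem_range.2 (by omega : a < M)))
      refine Nat.le_mul_of_pos_right _ ?_
      rw [if_pos (by omega)]
      omega
  | step a j p1 p2 p3 p4 _ _ _ _ ih1 ih2 ih3 ih4 =>
    intro hM c hc
    have e1 : 2 ^ (j + 1) = 2 * 2 ^ j := by ring
    have e2 : 2 ^ (j + 2) = 4 * 2 ^ j := by ring
    have e3 : 2 ^ (j + 1 + 1) = 4 * 2 ^ j := by ring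
    obtain ⟨c1, r1, d1⟩ := hstep c a (j + 1) (a + 2 ^ j) (by omega) hc (by omega) (by omega)
    obtain ⟨c2, r2, d2⟩ := hstep c a (j + 1) a (by omega) hc (by omega) (by omega)
    obtain ⟨c3, r3, d3⟩ := hstep c a (j + 1) (a + 2 ^ (j + 1)) (by omega) hc (by omega) (by omega)
    obtain ⟨σ1, l1, v1⟩ := ih1 (by omega) c1 d1
    obtain ⟨σ2, l2, v2⟩ := ih2 (by omega) c2 d2
    obtain ⟨σ3, l3, v3⟩ := ih3 (by omega) c3 d3
    obtain ⟨σ4, l4, v4⟩ := ih4 (by omega) c1 d1
    refine ⟨σ1 * σ2 * σ3 * σ4, ((l1.mul l2).mul l3).mul l4,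
      ((((v1.transport r1).mul (v2.transport r2)).mul (v3.transport r3)).mul
        (v4.transport r1)).mono ?_⟩
    rw [e3, e1, soc_ico w (M := M) (by omega)]
    generalize 2 ^ j = q
    have hs := Finset.sum_le_sum (s := Finset.range M)
      fun i _ => Nat.mul_le_mul_left (w i) (soc_term a i q j)
    simp only [mul_add (w _) (_ + _) _, Finset.sum_add_distrib] at hs
    have e4 : ∑ i ∈ Finset.range M, w i * (32 * q * if a ≤ i ∧ i + 1 < a + 4 * q then 1 else 0)
        = 32 * q * ∑ i ∈ Finset.range M, w i * if a ≤ i ∧ i + 1 < a + 4 * q then 1 else 0 := by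
      rw [Finset.mul_sum]
      exact Finset.sum_congr rfl fun i _ => by ring
    rw [e4] at hs
    have := Nat.mul_le_mul_left K hs
    nlinarith [this]

end FSDiam
end

-- part SoCost
section
namespace FSDiam
open Equiv

variable {V T : Type*} [DecidableEq V] [Fintype V] [Fintype T] [DecidableEq T]
variable {Y : SimpleGraph V} {col : T → Bool} {κ : Bool}
variable {Ω : Finset V} {v : V} {d : V → ℕ} {par : V → V}

theorem socost_term (a i h j : ℕ) (hj : 1 ≤ j) :
    (64 * j * min (i + 1 - a) (a + h - (i + 1)) +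
        16 * h * if a ≤ i ∧ i + 1 < a + h then 1 else 0) ≤
      48 * j * h * if a ≤ i ∧ i + 1 < a + h then 1 else 0 := by
  split_ifs with hi
  · have h1 : 2 * min (i + 1 - a) (a + h - (i + 1)) ≤ h := by omega
    have h2 := Nat.mul_le_mul_left (32 * j) h1
    have h3 := Nat.mul_le_mul_left (16 * h) hj
    nlinarith
  · have h1 : min (i + 1 - a) (a + h - (i + 1)) = 0 := by omega
    simp [h1]

theorem socost_rh {z : ℕ → T} {μ K : ℕ} {w : ℕ → ℕ} {Rd : (V ≃ T) → ℕ → ℕ → Prop}
    (hz : ∀ i < μ, ∀ j < μ, z i = z j → i = j)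
    (hleaf : ∀ c a, Rd c a 1 → a + 1 < μ →
      Ev Y col κ (K * (1 + w a)) c (swap (z a) (z (a + 1))))
    (hstep : ∀ c a j a', 1 ≤ j → Rd c a (j + 1) → a ≤ a' → a' + 2 ^ j ≤ a + 2 ^ (j + 1) →
      ∃ c', Rn Y col (K * 2 ^ (j + 1) *
        (2 ^ (j + 1) + ∑ i ∈ Finset.Ico a (a + 2 ^ (j + 1) - 1), w i)) c c' ∧ Rd c' a' j)
    {a j : ℕ} {p : Perm ℕ} (hj : 1 ≤ j) (h : Rh μ a j p) (c : V ≃ T) (hc : Rd c a j) :
    ∃ σ, Lf z μ p σ ∧ Ev Y col κ (48 * K * j * 2 ^ j *
      (2 ^ j + ∑ i ∈ Finset.Ico a (a + 2 ^ j - 1), w i)) c σ := by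
  obtain ⟨σ, l, e⟩ := rh_cost (M := a + 2 ^ j) hz hleaf hstep h le_rfl c hc
  refine ⟨σ, l, e.mono ?_⟩
  rw [soc_ico w (M := a + 2 ^ j) le_rfl]
  generalize 2 ^ j = q
  have hs := Finset.sum_le_sum (s := Finset.range (a + q))
    fun i _ => Nat.mul_le_mul_left (w i) (socost_term a i q j hj)
  have e4 : ∑ i ∈ Finset.range (a + q), w i * (48 * j * q * if a ≤ i ∧ i + 1 < a + q then 1 else 0)
      = 48 * j * q * ∑ i ∈ Finset.range (a + q), w i * if a ≤ i ∧ i + 1 < a + q then 1 else 0 := by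
    rw [Finset.mul_sum]
    exact Finset.sum_congr rfl fun i _ => by ring
  rw [e4] at hs
  generalize (∑ i ∈ Finset.range (a + q), w i * if a ≤ i ∧ i + 1 < a + q then 1 else 0) = W at hs ⊢
  refine (Nat.mul_le_mul_left K (Nat.add_le_add_left hs _)).trans ?_
  have e5 : 48 * K * j * q * (q + W) = K * (8 * j * q * q + 48 * j * q * W) + 40 * (K * j * q * q) := by
    ring
  rw [e5]
  exact Nat.le_add_right _ _

theorem socost_num (K j q W L R : ℕ) (h : L + R ≤ W) :
    200 * K * (j + 1) * (2 * q) * (2 * q + L) + 2 * (K * (4 * q) * (4 * q + W)) +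
      (200 * K * (j + 1) * (2 * q) * (2 * q + R) + 2 * (K * (4 * q) * (4 * q + W))) +
      48 * K * (j + 2) * (4 * q) * (4 * q + W) ≤ 200 * K * (j + 2) * (4 * q) * (4 * q + W) := by
  obtain ⟨e, rfl⟩ := Nat.exists_eq_add_of_le h
  have : 200 * K * (j + 2) * (4 * q) * (4 * q + (L + R + e)) =
      200 * K * (j + 1) * (2 * q) * (2 * q + L) + 2 * (K * (4 * q) * (4 * q + (L + R + e))) +
      (200 * K * (j + 1) * (2 * q) * (2 * q + R) + 2 * (K * (4 * q) * (4 * q + (L + R + e)))) +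
      48 * K * (j + 2) * (4 * q) * (4 * q + (L + R + e)) +
      (400 * K * (j + 1) * q * e + (208 * j + 800) * K * q * (4 * q + (L + R + e))) := by
    ring
  rw [this]
  exact Nat.le_add_right _ _

omit [Fintype T] in
theorem socost_rank {z : ℕ → T} {μ : ℕ} (σ : Perm T)
    (hσ : ∀ t, t ∉ (Finset.range μ).image z → σ t = t) (i : ℕ) :
    ∃ j, (i < μ → j < μ ∧ σ (z i) = z j) ∧ (μ ≤ i → j = i) := by
  by_cases hi : i < μ
  · have h1 : σ (z i) ∈ (Finset.range μ).image z := by
      by_contra hcon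
      have h2 := σ.injective (hσ _ hcon)
      rw [h2] at hcon
      exact hcon (Finset.mem_image_of_mem z (Finset.mem_range.2 hi))
    obtain ⟨j, hj, e⟩ := Finset.mem_image.1 h1
    exact ⟨j, fun _ => ⟨Finset.mem_range.1 hj, e.symm⟩, fun h => absurd hi (by omega)⟩
  · exact ⟨i, fun h => absurd h hi, fun _ => rfl⟩

/-- Induction on `So`; a rhombus costs at most `48 K j h (h + W)` since a tent is at most `h / 2`. -/
theorem so_cost {z : ℕ → T} {μ K : ℕ} {w : ℕ → ℕ} {Rd : (V ≃ T) → ℕ → ℕ → Prop}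
    (hz : ∀ i < μ, ∀ j < μ, z i = z j → i = j)
    (hleaf : ∀ c a, Rd c a 1 → a + 1 < μ →
      Ev Y col κ (K * (1 + w a)) c (swap (z a) (z (a + 1))))
    (hstep : ∀ c a j a', 1 ≤ j → Rd c a (j + 1) → a ≤ a' → a' + 2 ^ j ≤ a + 2 ^ (j + 1) →
      ∃ c', Rn Y col (K * 2 ^ (j + 1) *
        (2 ^ (j + 1) + ∑ i ∈ Finset.Ico a (a + 2 ^ (j + 1) - 1), w i)) c c' ∧ Rd c' a' j)
    {a j : ℕ} {p : Perm ℕ} (h : So μ a j p) : ∀ c, Rd c a j →
    ∃ σ, Lf z μ p σ ∧ Ev Y col κ (200 * K * j * 2 ^ j *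
      (2 ^ j + ∑ i ∈ Finset.Ico a (a + 2 ^ j - 1), w i)) c σ := by
  induction h with
  | base a p hp =>
    intro c hc
    obtain ⟨σ, l, e⟩ := socost_rh hz hleaf hstep le_rfl hp c hc
    refine ⟨σ, l, e.mono ?_⟩
    gcongr
    norm_num
  | step a j p1 p2 p3 _ _ hp3 ih1 ih2 =>
    intro c hc
    have e1 : 2 ^ (j + 1) = 2 * 2 ^ j := by ring
    have e2 : 2 ^ (j + 2) = 4 * 2 ^ j := by ring
    have e3 : 2 ^ (j + 1 + 1) = 4 * 2 ^ j := by ring
    obtain ⟨c1, r1, d1⟩ := hstep c a (j + 1) a (by omega) hc (by omega) (by omega)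
    obtain ⟨c2, r2, d2⟩ := hstep c a (j + 1) (a + 2 ^ (j + 1)) (by omega) hc (by omega) (by omega)
    obtain ⟨σ1, l1, v1⟩ := ih1 c1 d1
    obtain ⟨σ2, l2, v2⟩ := ih2 c2 d2
    obtain ⟨σ3, l3, v3⟩ := socost_rh hz hleaf hstep (by omega) hp3 c hc
    refine ⟨σ1 * σ2 * σ3, (l1.mul l2).mul l3,
      (((v1.transport r1).mul (v2.transport r2)).mul v3).mono ?_⟩
    rw [e3, e1]
    have hq : 0 < 2 ^ j := by positivity
    generalize 2 ^ j = q at hq
    refine socost_num K j q _ _ _ ?_
    rw [← Finset.sum_union (Finset.disjoint_left.2 fun i h1 h2 => by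
      simp only [Finset.mem_Ico] at h1 h2; omega)]
    refine Finset.sum_le_sum_of_subset fun i hi => ?_
    simp only [Finset.mem_union, Finset.mem_Ico] at hi ⊢
    omega

/-- A permutation supported in the image of `z` is the lift of a permutation `f` of ranks
(`ext_perm`-like: `f i` is the rank of `σ (z i)` for `i < μ`); `so_all`, `so_cost`; two lifts of `f`
are equal. -/
theorem merge_sort {z : ℕ → T} {μ K J : ℕ} {w : ℕ → ℕ} {Rd : (V ≃ T) → ℕ → ℕ → Prop}
    (hz : ∀ i < μ, ∀ j < μ, z i = z j → i = j)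
    (hleaf : ∀ c a, Rd c a 1 → a + 1 < μ →
      Ev Y col κ (K * (1 + w a)) c (swap (z a) (z (a + 1))))
    (hstep : ∀ c a j a', 1 ≤ j → Rd c a (j + 1) → a ≤ a' → a' + 2 ^ j ≤ a + 2 ^ (j + 1) →
      ∃ c', Rn Y col (K * 2 ^ (j + 1) *
        (2 ^ (j + 1) + ∑ i ∈ Finset.Ico a (a + 2 ^ (j + 1) - 1), w i)) c c' ∧ Rd c' a' j)
    (hJ : 1 ≤ J) (hμ : μ ≤ 2 ^ J) {c : V ≃ T} (hc : Rd c 0 J) :
    Sy Y col κ (200 * K * J * 2 ^ J * (2 ^ J + ∑ i ∈ Finset.range (2 ^ J), w i)) c
      ((Finset.range μ).image z) := by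
  intro σ hσ
  have hσ' : ∀ t, t ∉ (Finset.range μ).image z → σ⁻¹ t = t := fun t ht => by
    rw [Perm.inv_eq_iff_eq, hσ t ht]
  choose f hf1 hf2 using socost_rank σ hσ
  choose g hg1 hg2 using socost_rank σ⁻¹ hσ'
  have hl : Function.LeftInverse g f := fun i => by
    by_cases hi : i < μ
    · obtain ⟨a1, a2⟩ := hf1 i hi
      obtain ⟨b1, b2⟩ := hg1 _ a1
      rw [← a2] at b2
      exact (hz _ hi _ b1 (by simpa using b2)).symm
    · rw [hf2 i (by omega), hg2 i (by omega)]
  have hr : Function.RightInverse g f := fun i => by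
    by_cases hi : i < μ
    · obtain ⟨a1, a2⟩ := hg1 i hi
      obtain ⟨b1, b2⟩ := hf1 _ a1
      rw [← a2] at b2
      exact (hz _ hi _ b1 (by simpa using b2)).symm
    · rw [hg2 i (by omega), hf2 i (by omega)]
  obtain ⟨τ, l, e⟩ := so_cost hz hleaf hstep (so_all hJ hμ ⟨f, g, hl, hr⟩ hf2) c hc
  have hτ : τ = σ := by
    ext t
    by_cases ht : t ∈ (Finset.range μ).image z
    · obtain ⟨i, hi, rfl⟩ := Finset.mem_image.1 ht
      rw [(l.1 i (Finset.mem_range.1 hi)).2, (hf1 i (Finset.mem_range.1 hi)).2]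
      rfl
    · rw [hσ t ht]
      exact l.2 t fun i hi e => ht (e ▸ Finset.mem_image_of_mem z (Finset.mem_range.2 hi))
  rw [← hτ]
  refine e.mono (Nat.mul_le_mul_left _ (Nat.add_le_add_left ?_ _))
  refine Finset.sum_le_sum_of_subset fun i hi => ?_
  simp only [Finset.mem_Ico, Finset.mem_range] at hi ⊢
  omega

end FSDiam
end

-- part SekF
section
namespace FSDiam
open Equiv

variable {V T : Type*} [DecidableEq V] [Fintype V] [Fintype T] [DecidableEq T]
variable {Y : SimpleGraph V} {col : T → Bool} {κ : Bool}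
variable {Ω : Finset V} {v : V} {d : V → ℕ} {par : V → V}

/-- A list from `a` to `b` whose consecutive entries are two steps apart, with the middle list. -/
inductive SekfCh {W : Type*} (R : W → W → Prop) : W → W → List W → List W → Prop
  | one (x : W) : SekfCh R x x [x] []
  | cons (x m y b : W) (zs us : List W) : R x m → R m y → SekfCh R y b zs us →
      SekfCh R x b (x :: zs) (m :: us)

theorem sekf_glue {W : Type*} {R : W → W → Prop} {a b c e m : W} {zs us zs' us' : List W}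
    (h : SekfCh R a b zs us) (h1 : R b m) (h2 : R m c) (h' : SekfCh R c e zs' us') :
    SekfCh R a e (zs ++ zs') (us ++ m :: us') := by
  induction h with
  | one x => exact SekfCh.cons _ _ _ _ _ _ h1 h2 h'
  | cons x n y b zs us g1 g2 _ ih => exact SekfCh.cons _ _ _ _ _ _ g1 g2 (ih h1)

theorem sekf_rev {W : Type*} {R : W → W → Prop} (hs : ∀ x y, R x y → R y x) {a b : W}
    {zs us : List W} (h : SekfCh R a b zs us) : SekfCh R b a zs.reverse us.reverse := by
  induction h with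
  | one x => exact SekfCh.one x
  | cons x n y b zs us g1 g2 _ ih =>
    rw [List.reverse_cons, List.reverse_cons]
    exact sekf_glue ih (hs _ _ g2) (hs _ _ g1) (SekfCh.one x)

theorem sekf_mono {W : Type*} {R R' : W → W → Prop} (hs : ∀ x y, R x y → R' x y) {a b : W}
    {zs us : List W} (h : SekfCh R a b zs us) : SekfCh R' a b zs us := by
  induction h with
  | one x => exact SekfCh.one x
  | cons x n y b zs us g1 g2 _ ih => exact SekfCh.cons _ _ _ _ _ _ (hs _ _ g1) (hs _ _ g2) ih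

theorem sekf_mem {W : Type*} {R : W → W → Prop} {a b : W} {zs us : List W}
    (h : SekfCh R a b zs us) : a ∈ zs ∧ b ∈ zs := by
  induction h with
  | one x => simp
  | cons x n y b zs us _ _ _ ih => exact ⟨List.mem_cons_self, List.mem_cons_of_mem _ ih.2⟩

theorem sekf_get {W : Type*} {R : W → W → Prop} (w : W) {a b : W} {zs us : List W}
    (h : SekfCh R a b zs us) : zs.getD 0 w = a ∧ zs.length = us.length + 1 ∧
      ∀ i < us.length, R (zs.getD i w) (us.getD i w) ∧ R (us.getD i w) (zs.getD (i + 1) w) := by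
  induction h with
  | one x => simp
  | cons x n y b zs us g1 g2 _ ih =>
    obtain ⟨i1, i2, i3⟩ := ih
    refine ⟨rfl, by simp [i2], fun i hi => ?_⟩
    cases i with
    | zero =>
      simp only [List.getD_cons_zero, List.getD_cons_succ, i1]
      exact ⟨g1, g2⟩
    | succ i =>
      simp only [List.getD_cons_succ]
      exact i3 i (by simpa using hi)

/-- The link relation inside `X`. -/
def sekfR {W : Type*} (par : W → W) (X : Finset W) (x y : W) : Prop :=
  x ∈ X ∧ y ∈ X ∧ Lk par X x y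

theorem sekf_symm {W : Type*} (par : W → W) (X : Finset W) (x y : W) (h : sekfR par X x y) :
    sekfR par X y x := by
  obtain ⟨h1, h2, h3⟩ := h
  refine ⟨h2, h1, ?_⟩
  unfold Lk at h3 ⊢
  rcases h3 with h | h | h | h | h
  · exact Or.inl h.symm
  · exact Or.inr (Or.inr (Or.inl h))
  · exact Or.inr (Or.inl h)
  · exact Or.inr (Or.inr (Or.inr (Or.inl h.symm)))
  · exact Or.inr (Or.inr (Or.inr (Or.inr h.symm)))

omit [Fintype V] in
theorem sekf_split (X : Finset V) (r : V) : ∃ X1 X2 : Finset V,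
    (∀ x, x ∈ X ↔ x ∈ X2 ∨ x ∈ X1 ∨ (x = r ∧ r ∈ X)) ∧ r ∉ X1 ∧ r ∉ X2 ∧ (∀ x ∈ X2, x ∉ X1) ∧
      (∀ x ∈ X1, par x ∉ X1 → par x = r) ∧ ∀ x ∈ X2, par x ∉ X2 → par x ∉ X := by
  classical
  let p : V → Prop := fun x => ∃ j, par^[j] x = r ∧ ∀ i < j, par^[i] x ∈ X
  refine ⟨(X.erase r).filter p, (X.erase r).filter fun x => ¬ p x, fun x => ?_, by simp, by simp,
    fun x hx hx' => (Finset.mem_filter.1 hx).2 (Finset.mem_filter.1 hx').2, fun x hx hn => ?_,
    fun x hx hn hp => ?_⟩
  · simp only [Finset.mem_filter, Finset.mem_erase]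
    constructor
    · intro hx
      by_cases h1 : x = r
      · exact Or.inr (Or.inr ⟨h1, h1 ▸ hx⟩)
      · by_cases h2 : p x
        · exact Or.inr (Or.inl ⟨⟨h1, hx⟩, h2⟩)
        · exact Or.inl ⟨⟨h1, hx⟩, h2⟩
    · rintro (h | h | h)
      · exact h.1.2
      · exact h.1.2
      · exact h.1 ▸ h.2
  · by_contra hr
    obtain ⟨hx1, j, j1, j2⟩ := Finset.mem_filter.1 hx
    have hxr := (Finset.mem_erase.1 hx1).1
    cases j with
    | zero => exact hxr j1
    | succ j =>
      have e1 : par^[j] (par x) = r := j1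
      have e2 : ∀ i < j, par^[i] (par x) ∈ X := fun i hi => j2 (i + 1) (by omega)
      refine hn (Finset.mem_filter.2 ⟨Finset.mem_erase.2 ⟨hr, ?_⟩, j, e1, e2⟩)
      cases j with
      | zero => exact absurd e1 hr
      | succ j => exact e2 0 (by omega)
  · obtain ⟨hx1, hx2⟩ := Finset.mem_filter.1 hx
    have hxX := (Finset.mem_erase.1 hx1).2
    have key : ¬ p (par x) := by
      rintro ⟨j, j1, j2⟩
      refine hx2 ⟨j + 1, j1, fun i hi => ?_⟩
      cases i with
      | zero => exact hxX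
      | succ i => exact j2 i (by omega)
    refine hn (Finset.mem_filter.2 ⟨Finset.mem_erase.2 ⟨fun hr => key ⟨0, hr, by simp⟩, hp⟩, key⟩)

omit [Fintype V] in
theorem sekf_main (h : PT Y Ω v d par) (n : ℕ) : ∀ X : Finset V, X.card ≤ n → X ⊆ Ω → v ∉ X →
    X.Nonempty → ∃ (a b r1 : V) (zs us : List V), SekfCh (sekfR par X) a b zs us ∧ zs.Nodup ∧
      (∀ x, x ∈ zs ↔ x ∈ X) ∧ us.Nodup ∧ (∀ m ∈ us, m ∈ X) ∧ par b ∉ X ∧ r1 ∈ X ∧ par r1 ∉ X ∧
        r1 ∉ us ∧ (a = r1 ∨ par a = r1) := by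
  induction n with
  | zero =>
    intro X hc _ _ hne
    have := hne.card_pos
    omega
  | succ n ih =>
    intro X hc hX hv hne
    obtain ⟨r, hr, hmin⟩ := Finset.exists_min_image X d hne
    have hroot : par r ∉ X := fun hp => by
      have h1 := hmin _ hp
      have h2 := h.dp r (hX hr) (fun e => hv (e ▸ hr))
      omega
    obtain ⟨X1, X2, s1, s2, s3, s4, s5, s6⟩ := sekf_split (par := par) X r
    have m1 : ∀ x ∈ X1, x ∈ X := fun x hx => (s1 x).2 (Or.inr (Or.inl hx))
    have m2 : ∀ x ∈ X2, x ∈ X := fun x hx => (s1 x).2 (Or.inl hx)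
    have cd : ∀ Z : Finset V, (∀ x ∈ Z, x ∈ X) → r ∉ Z → Z.card ≤ n := fun Z hZ hrZ => by
      have : Z.card < X.card := Finset.card_lt_card ⟨hZ, fun hh => hrZ (hh hr)⟩
      omega
    have l1 : ∀ x y, sekfR par X1 x y → sekfR par X x y := by
      rintro x y ⟨g1, g2, g3⟩
      refine ⟨m1 _ g1, m1 _ g2, ?_⟩
      unfold Lk at g3 ⊢
      rcases g3 with g | g | g | g | g
      · exact Or.inl g
      · exact Or.inr (Or.inl g)
      · exact Or.inr (Or.inr (Or.inl g))
      · exact Or.inr (Or.inr (Or.inr (Or.inl g)))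
      · exact Or.inr (Or.inr (Or.inr (Or.inl ((s5 _ g1 g.1).trans (s5 _ g2 g.2).symm))))
    have l2 : ∀ x y, sekfR par X2 x y → sekfR par X x y := by
      rintro x y ⟨g1, g2, g3⟩
      refine ⟨m2 _ g1, m2 _ g2, ?_⟩
      unfold Lk at g3 ⊢
      rcases g3 with g | g | g | g | g
      · exact Or.inl g
      · exact Or.inr (Or.inl g)
      · exact Or.inr (Or.inr (Or.inl g))
      · exact Or.inr (Or.inr (Or.inr (Or.inl g)))
      · exact Or.inr (Or.inr (Or.inr (Or.inr ⟨s6 _ g1 g.1, s6 _ g2 g.2⟩)))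
    have tr : ∃ (a : V) (zs us : List V), SekfCh (sekfR par X) a r zs us ∧ zs.Nodup ∧
        (∀ x, x ∈ zs ↔ x ∈ X1 ∨ x = r) ∧ us.Nodup ∧ (∀ m ∈ us, m ∈ X1) ∧ (a = r ∨ par a = r) := by
      rcases X1.eq_empty_or_nonempty with e | e
      · exact ⟨r, [r], [], SekfCh.one r, by simp, by simp [e], by simp, by simp, Or.inl rfl⟩
      · obtain ⟨a, b, r1, zs, us, c1, c2, c3, c4, c5, c6, c7, c8, c9, c10⟩ :=
          ih X1 (cd X1 m1 s2) (fun x hx => hX (m1 x hx)) (fun hh => hv (m1 _ hh)) e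
        have ha : a ∈ X1 := (c3 a).1 (sekf_mem c1).1
        have hb : b ∈ X1 := (c3 b).1 (sekf_mem c1).2
        refine ⟨b, zs.reverse ++ [r], us.reverse ++ [r1],
          sekf_glue (sekf_rev (sekf_symm par X) (sekf_mono l1 c1)) ⟨m1 _ ha, m1 _ c7, ?_⟩
            ⟨m1 _ c7, hr, Or.inr (Or.inl (s5 _ c7 c8))⟩ (SekfCh.one r), ?_, fun x => ?_, ?_,
          fun m hm => ?_, Or.inr (s5 _ hb c6)⟩
        · rcases c10 with g | g
          · exact Or.inl g
          · exact Or.inr (Or.inl g)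
        · rw [← List.reverse_cons, List.nodup_reverse, List.nodup_cons]
          exact ⟨fun hh => s2 ((c3 r).1 hh), c2⟩
        · rw [List.mem_append, List.mem_reverse, List.mem_singleton, c3]
        · rw [← List.reverse_cons, List.nodup_reverse, List.nodup_cons]
          exact ⟨c9, c4⟩
        · rw [List.mem_append, List.mem_reverse, List.mem_singleton] at hm
          rcases hm with g | g
          · exact c5 m g
          · exact g ▸ c7
    obtain ⟨a', zs', us', t1, t2, t3, t4, t5, t6⟩ := tr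
    have ha' : a' ∈ X := by
      rcases (t3 a').1 (sekf_mem t1).1 with g | g
      · exact m1 _ g
      · exact g ▸ hr
    rcases X2.eq_empty_or_nonempty with e | e
    · refine ⟨a', r, r, zs', us', t1, t2, fun x => ?_, t4, fun m hm => m1 _ (t5 m hm), hroot, hr,
        hroot, fun hh => s2 (t5 _ hh), t6⟩
      rw [t3, s1 x, e]
      simp [hr]
    · obtain ⟨a, b, r1, zs, us, c1, c2, c3, c4, c5, c6, c7, c8, c9, c10⟩ :=
        ih X2 (cd X2 m2 s3) (fun x hx => hX (m2 x hx)) (fun hh => hv (m2 _ hh)) e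
      have hb : b ∈ X2 := (c3 b).1 (sekf_mem c1).2
      refine ⟨a, r, r1, zs ++ zs', us ++ r :: us',
        sekf_glue (sekf_mono l2 c1)
          ⟨m2 _ hb, hr, Or.inr (Or.inr (Or.inr (Or.inr ⟨s6 _ hb c6, hroot⟩)))⟩ ⟨hr, ha', ?_⟩ t1,
        ?_, fun x => ?_, ?_, fun m hm => ?_, hroot, m2 _ c7, s6 _ c7 c8, fun hm => ?_, c10⟩
      · rcases t6 with g | g
        · exact Or.inl g.symm
        · exact Or.inr (Or.inr (Or.inl g))
      · refine List.Nodup.append c2 t2 fun x hx hx' => ?_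
        rcases (t3 x).1 hx' with g | g
        · exact s4 x ((c3 x).1 hx) g
        · exact s3 (g ▸ (c3 x).1 hx)
      · rw [List.mem_append, c3, t3, s1 x]
        simp [hr]
      · refine List.Nodup.append c4 (List.nodup_cons.2 ⟨fun hh => s2 (t5 _ hh), t4⟩)
          fun x hx hx' => ?_
        rcases List.mem_cons.1 hx' with g | g
        · exact s3 (g ▸ c5 x hx)
        · exact s4 x (c5 x hx) (t5 x g)
      · rcases List.mem_append.1 hm with g | g
        · exact m2 _ (c5 m g)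
        · rcases List.mem_cons.1 g with g | g
          · exact g ▸ hr
          · exact m1 _ (t5 m g)
      · rcases List.mem_append.1 hm with g | g
        · exact c9 g
        · rcases List.mem_cons.1 g with g | g
          · exact s3 (g ▸ c7)
          · exact s4 _ c7 (t5 _ g)

/-- Strong induction on `X.card` with the extra claims: the last vertex is a root of the forest
`X` (its parent is not in `X`), and there is a root `r1` that is no middle vertex with
`z 0 = r1` or `par (z 0) = r1`. Take a root `r` (least depth), let `X1` be the vertices of `X` other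
than `r` whose chain of parents reaches `r` inside `X`, and `X2` the rest without `r`. The roots of
`X1` are children of `r`, the roots of `X2` are roots of `X`. The order is: the order of `X2`, the
reversed order of `X1`, then `r`; the new middle vertices are `r` (from the end of `X2`) and the
vertex `r1` of `X1` (step to `r`). `Lk` is symmetric. -/
theorem exists_sek (h : PT Y Ω v d par) (X : Finset V) (hX : X ⊆ Ω) (hv : v ∉ X) :
    ∃ z u : ℕ → V, Sek par X z u := by
  rcases X.eq_empty_or_nonempty with e | e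
  · subst e
    exact ⟨fun _ => v, fun _ => v, by simp, by simp, by simp, by simp, by simp⟩
  obtain ⟨a, b, r1, zs, us, c1, c2, c3, c4, -, -⟩ := sekf_main h X.card X le_rfl hX hv e
  obtain ⟨-, g2, g3⟩ := sekf_get v c1
  have hl : X.card = zs.length := by
    rw [← List.toFinset_card_of_nodup c2]
    congr 1
    ext x
    rw [List.mem_toFinset, c3]
  refine ⟨fun i => zs.getD i v, fun i => us.getD i v, fun i hi => ?_, fun i hi j hj e => ?_,
    fun x hx => ?_, fun i hi => ?_, fun i j hi hj e => ?_⟩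
  · rw [hl] at hi
    rw [List.getD_eq_getElem _ _ hi]
    exact (c3 _).1 (List.getElem_mem hi)
  · rw [hl] at hi hj
    rw [List.getD_eq_getElem _ _ hi, List.getD_eq_getElem _ _ hj] at e
    exact (c2.getElem_inj_iff).1 e
  · obtain ⟨i, hi, e⟩ := List.getElem_of_mem ((c3 x).2 hx)
    exact ⟨i, hl ▸ hi, by rw [List.getD_eq_getElem _ _ hi, e]⟩
  · obtain ⟨k1, k2⟩ := g3 i (by omega)
    exact ⟨k1.2.1, k1.2.2, k2.2.2⟩
  · have hi' : i < us.length := by omega
    have hj' : j < us.length := by omega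
    rw [List.getD_eq_getElem _ _ hi', List.getD_eq_getElem _ _ hj'] at e
    exact (c4.getElem_inj_iff).1 e

end FSDiam
end

-- part HullA
section
namespace FSDiam
open Equiv

variable {V T : Type*} [DecidableEq V] [Fintype V] [Fintype T] [DecidableEq T]
variable {Y : SimpleGraph V} {col : T → Bool} {κ : Bool}
variable {Ω : Finset V} {v : V} {d : V → ℕ} {par : V → V}

omit [Fintype V] in
theorem hulla_mem {z u : ℕ → V} {a b : ℕ} {y : V} : y ∈ Qh z u a b ↔
    (∃ i, a ≤ i ∧ i < b ∧ z i = y) ∨ ∃ i, a ≤ i ∧ i + 1 < b ∧ u i = y := by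
  unfold Qh
  simp only [Finset.mem_union, Finset.mem_image, Finset.mem_Ico]
  constructor
  · rintro (⟨i, ⟨h1, h2⟩, h3⟩ | ⟨i, ⟨h1, h2⟩, h3⟩)
    · exact Or.inl ⟨i, h1, h2, h3⟩
    · exact Or.inr ⟨i, h1, by omega, h3⟩
  · rintro (⟨i, h1, h2, h3⟩ | ⟨i, h1, h2, h3⟩)
    · exact Or.inl ⟨i, ⟨h1, h2⟩, h3⟩
    · exact Or.inr ⟨i, ⟨h1, by omega⟩, h3⟩

theorem Qh_card (z u : ℕ → V) (a b : ℕ) : (Qh z u a b).card ≤ 2 * (b - a) := by
  unfold Qh
  have h1 := Finset.card_union_le ((Finset.Ico a b).image z) ((Finset.Ico a (b - 1)).image u)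
  have h2 : ((Finset.Ico a b).image z).card ≤ (Finset.Ico a b).card := Finset.card_image_le
  have h3 : ((Finset.Ico a (b - 1)).image u).card ≤ (Finset.Ico a (b - 1)).card :=
    Finset.card_image_le
  rw [Nat.card_Ico] at h2 h3
  omega

theorem Qh_mono (z u : ℕ → V) {a b a' b' : ℕ} (h1 : a ≤ a') (h2 : b' ≤ b) :
    Qh z u a' b' ⊆ Qh z u a b := by
  intro y hy
  rw [hulla_mem] at hy ⊢
  rcases hy with ⟨i, g1, g2, g3⟩ | ⟨i, g1, g2, g3⟩
  · exact Or.inl ⟨i, by omega, by omega, g3⟩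
  · exact Or.inr ⟨i, by omega, by omega, g3⟩

theorem Sek.Qh_sub {X : Finset V} {z u : ℕ → V} (hs : Sek par X z u) {a b : ℕ} (hb : b ≤ X.card) :
    Qh z u a b ⊆ X := by
  intro y hy
  rw [hulla_mem] at hy
  rcases hy with ⟨i, -, g2, rfl⟩ | ⟨i, -, g2, rfl⟩
  · exact hs.zm i (by omega)
  · exact (hs.um i (by omega)).1

theorem Sek.Qh_all {X : Finset V} {z u : ℕ → V} (hs : Sek par X z u) : Qh z u 0 X.card = X := by
  refine Finset.Subset.antisymm (hs.Qh_sub le_rfl) fun x hx => ?_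
  obtain ⟨i, hi, rfl⟩ := hs.zs x hx
  exact hulla_mem.2 (Or.inl ⟨i, Nat.zero_le _, hi, rfl⟩)

/-- `w` is a proper ancestor of `y` through vertices of `X`. -/
def hulla_A (par : V → V) (X : Finset V) (w y : V) : Prop :=
  ∃ j, par^[j + 1] y = w ∧ ∀ i ≤ j, par^[i + 1] y ∈ X

omit [DecidableEq V] [Fintype V] in
theorem hulla_symm {X : Finset V} {x y : V} (h : Lk par X x y) : Lk par X y x := by
  rcases h with h | h | h | h | h
  · exact Or.inl h.symm
  · exact Or.inr (Or.inr (Or.inl h))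
  · exact Or.inr (Or.inl h)
  · exact Or.inr (Or.inr (Or.inr (Or.inl h.symm)))
  · exact Or.inr (Or.inr (Or.inr (Or.inr h.symm)))

omit [DecidableEq V] [Fintype V] in
theorem hulla_link {X : Finset V} {w x y : V} (hx : x ∈ X) (hy : y ≠ w) (h : Lk par X x y)
    (hA : hulla_A par X w x) : hulla_A par X w y := by
  obtain ⟨j, h1, h2⟩ := hA
  rcases h with h | h | h | h | h
  · exact h ▸ ⟨j, h1, h2⟩
  · cases j with
    | zero => exact absurd (h.symm.trans h1) hy
    | succ j =>
      refine ⟨j, ?_, fun i hi => ?_⟩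
      · rw [← h, ← Function.iterate_succ_apply]; exact h1
      · rw [← h, ← Function.iterate_succ_apply]; exact h2 (i + 1) (by omega)
  · refine ⟨j + 1, ?_, fun i hi => ?_⟩
    · rw [Function.iterate_succ_apply, h]; exact h1
    · rw [Function.iterate_succ_apply, h]
      cases i with
      | zero => exact hx
      | succ i => exact h2 i (by omega)
  · refine ⟨j, ?_, fun i hi => ?_⟩
    · rw [Function.iterate_succ_apply, ← h]; exact h1
    · rw [Function.iterate_succ_apply, ← h]; exact h2 i hi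
  · exact absurd (h2 0 (Nat.zero_le _)) h.1

theorem hulla_all {X : Finset V} {z u : ℕ → V} (hs : Sek par X z u) {a b : ℕ} (hb : b ≤ X.card)
    {w : V} (hw : w ∉ Qh z u a b) {x y : V} (hx : x ∈ Qh z u a b) (hy : y ∈ Qh z u a b)
    (hA : hulla_A par X w x) : hulla_A par X w y := by
  have key : ∀ p ∈ Qh z u a b, ∀ q ∈ Qh z u a b, Lk par X p q →
      (hulla_A par X w p ↔ hulla_A par X w q) := fun p hp q hq hl =>
    ⟨hulla_link (hs.Qh_sub hb hp) (fun e => hw (e ▸ hq)) hl,
      hulla_link (hs.Qh_sub hb hq) (fun e => hw (e ▸ hp)) (hulla_symm hl)⟩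
  have hz : ∀ i, a ≤ i → i < b → z i ∈ Qh z u a b := fun i h1 h2 =>
    hulla_mem.2 (Or.inl ⟨i, h1, h2, rfl⟩)
  have hu : ∀ i, a ≤ i → i + 1 < b → u i ∈ Qh z u a b := fun i h1 h2 =>
    hulla_mem.2 (Or.inr ⟨i, h1, h2, rfl⟩)
  have h1 : ∀ i, a ≤ i → i < b → (hulla_A par X w (z a) ↔ hulla_A par X w (z i)) := by
    intro i hi
    induction i, hi using Nat.le_induction with
    | base => exact fun _ => Iff.rfl
    | succ i hi ih =>
      intro hlt
      obtain ⟨-, l1, l2⟩ := hs.um i (by omega)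
      exact (ih (by omega)).trans ((key _ (hz i hi (by omega)) _ (hu i hi hlt) l1).trans
        (key _ (hu i hi hlt) _ (hz (i + 1) (by omega) hlt) l2))
  have h2 : ∀ p ∈ Qh z u a b, (hulla_A par X w (z a) ↔ hulla_A par X w p) := by
    intro p hp
    rcases hulla_mem.1 hp with ⟨i, g1, g2, rfl⟩ | ⟨i, g1, g2, rfl⟩
    · exact h1 i g1 g2
    · obtain ⟨-, l1, -⟩ := hs.um i (by omega)
      exact (h1 i g1 (by omega)).trans (key _ (hz i g1 (by omega)) _ (hu i g1 g2) l1)
  exact (h2 y hy).1 ((h2 x hx).2 hA)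

/-- If `y0 ∈ Q` has its parent `w` in `X` outside `Q`, the set of all `y` with `par^[j] y = w` for
some `j ≥ 1` and `par^[i] y ∈ X` for `1 ≤ i ≤ j` is closed under links between elements of `Q`, so
it contains `Q` (walk along the ranks). Two such `w` are ancestors of each other, so equal by depth. -/
theorem Sek.hull (h : PT Y Ω v d par) {X : Finset V} (hX : X ⊆ Ω) (hv : v ∉ X) {z u : ℕ → V}
    (hs : Sek par X z u) {a b : ℕ} (hb : b ≤ X.card) :
    (∀ y ∈ Qh z u a b, par y ∈ Qh z u a b ∨ par y ∉ X) ∨ ∃ w ∈ X, HP par (Qh z u a b) w := by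
  by_cases H : ∀ y ∈ Qh z u a b, par y ∈ Qh z u a b ∨ par y ∉ X
  · exact Or.inl H
  right
  simp only [not_forall, not_or, not_not] at H
  obtain ⟨y0, hy0, hn0, hX0⟩ := H
  have one : ∀ y, par y ∈ X → hulla_A par X (par y) y := fun y hy =>
    ⟨0, rfl, fun i hi => by rw [Nat.le_zero.1 hi]; exact hy⟩
  have pos : ∀ x ∈ X, d x ≠ 0 := fun x hx e => hv (h.zero (hX hx) e ▸ hx)
  have dep : ∀ x ∈ X, d (par x) + 1 = d x := fun x hx =>
    h.dp x (hX hx) fun e => hv (e ▸ hx)
  refine ⟨par y0, hX0, hn0, fun y hy => ?_⟩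
  by_cases hq : par y ∈ Qh z u a b
  · exact Or.inl hq
  right
  obtain ⟨j, e1, e2⟩ := hulla_all hs hb hn0 hy0 hy (one y0 hX0)
  have hXy : par y ∈ X := e2 0 (Nat.zero_le _)
  obtain ⟨j', f1, -⟩ := hulla_all hs hb hq hy hy0 (one y hXy)
  have hy' := hs.Qh_sub hb hy
  have hy0' := hs.Qh_sub hb hy0
  have d1 := h.d_it (hX hy') (j + 1)
  have d2 := h.d_it (hX hy0') (j' + 1)
  rw [e1] at d1
  rw [f1] at d2
  have p1 := pos _ hX0
  have p2 := pos _ hXy
  have q1 := dep _ hy'
  have q2 := dep _ hy0'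
  have : j = 0 := by omega
  subst this
  exact e1

end FSDiam
end

-- part HullF
section
namespace FSDiam
open Equiv

variable {V T : Type*} [DecidableEq V] [Fintype V] [Fintype T] [DecidableEq T]
variable {Y : SimpleGraph V} {col : T → Bool} {κ : Bool}
variable {Ω : Finset V} {v : V} {d : V → ℕ} {par : V → V}

/-- A window with a parent and its child has two ranks, so every element lies on a step. -/
theorem Sek.lam_le (h : PT Y Ω v d par) {X : Finset V} (hX : X ⊆ Ω) (hv : v ∉ X) {z u : ℕ → V}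
    (hs : Sek par X z u) {a b b' : ℕ} (hb : b ≤ X.card) (hb' : b ≤ b') :
    ∀ x ∈ Qh z u a b, ∀ y ∈ Qh z u a b, par y = x →
      lam Y par x ≤ ∑ i ∈ Finset.Ico a (b' - 1), wt Y par z u X.card i := by
  intro x hx y hy hp
  simp only [Qh, Finset.mem_union, Finset.mem_image, Finset.mem_Ico] at hx hy
  have hab : a + 2 ≤ b := by
    by_contra hc
    rcases hx with ⟨i, hi, rfl⟩ | ⟨i, hi, -⟩
    · rcases hy with ⟨j, hj, rfl⟩ | ⟨j, hj, -⟩
      · obtain rfl : i = j := by omega
        have h1 := hs.zm i (by omega)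
        have h2 := h.dp _ (hX h1) fun e => hv (e ▸ h1)
        rw [hp] at h2
        omega
      · omega
    · omega
  have key : ∀ i, a ≤ i → i + 1 < b →
      lam Y par (z i) + lam Y par (u i) + lam Y par (z (i + 1)) ≤
        ∑ i ∈ Finset.Ico a (b' - 1), wt Y par z u X.card i := fun i h1 h2 => by
    refine le_trans ?_ (Finset.single_le_sum (f := wt Y par z u X.card)
      (fun _ _ => Nat.zero_le _) (Finset.mem_Ico.2 ⟨h1, (by omega : i < b' - 1)⟩))
    rw [wt, if_pos (by omega)]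
  rcases hx with ⟨i, hi, rfl⟩ | ⟨i, hi, rfl⟩
  · by_cases h1 : i + 1 < b
    · have := key i hi.1 h1
      omega
    · obtain ⟨j, rfl⟩ : ∃ j, i = j + 1 := ⟨i - 1, by omega⟩
      have := key j (by omega) hi.2
      omega
  · have := key i hi.1 (by omega)
    omega

omit [Fintype V] in
theorem hullf_sum {X : Finset V} (g : V → ℕ) (s : Finset ℕ) (f : ℕ → V) (hm : ∀ i ∈ s, f i ∈ X)
    (hi : ∀ i ∈ s, ∀ j ∈ s, f i = f j → i = j) : ∑ i ∈ s, g (f i) ≤ ∑ x ∈ X, g x := by
  rw [← Finset.sum_image hi]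
  exact Finset.sum_le_sum_of_subset (Finset.image_subset_iff.2 hm)

/-- `z`, `u` and the shifted `z` are injective on the steps. -/
theorem Sek.sum_wt {X : Finset V} {z u : ℕ → V} (hs : Sek par X z u) (M : ℕ) :
    ∑ i ∈ Finset.range M, wt Y par z u X.card i ≤ 3 * ∑ x ∈ X, lam Y par x := by
  have hm : ∀ i ∈ (Finset.range M).filter fun i => i + 1 < X.card, i + 1 < X.card :=
    fun i hi => (Finset.mem_filter.1 hi).2
  have h1 := hullf_sum (lam Y par) _ z (fun i hi => hs.zm i (by have := hm i hi; omega))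
    fun i hi j hj => hs.zi i (by have := hm i hi; omega) j (by have := hm j hj; omega)
  have h2 := hullf_sum (lam Y par) _ u (fun i hi => (hs.um i (hm i hi)).1)
    fun i hi j hj => hs.ui i j (hm i hi) (hm j hj)
  have h3 := hullf_sum (lam Y par) _ (fun i => z (i + 1)) (fun i hi => hs.zm _ (hm i hi))
    fun i hi j hj e => Nat.succ_injective (hs.zi _ (hm i hi) _ (hm j hj) e)
  simp only [wt]
  rw [← Finset.sum_filter, Finset.sum_add_distrib, Finset.sum_add_distrib]
  omega

end FSDiam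
end

-- part MoveA
section
namespace FSDiam
open Equiv

variable {V T : Type*} [DecidableEq V] [Fintype V] [Fintype T] [DecidableEq T]
variable {Y : SimpleGraph V} {col : T → Bool} {κ : Bool}
variable {Ω : Finset V} {v : V} {d : V → ℕ} {par : V → V}

omit [DecidableEq V] [Fintype V] in
theorem movea_supp {U : Set V} {x y : V} (p : (YU Y U).Walk x y) (hx : x ∈ U) :
    ∀ z ∈ p.support, z ∈ U := by
  induction p with
  | nil => intro z hz; simp only [SimpleGraph.Walk.support_nil, List.mem_singleton] at hz; exact hz ▸ hx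
  | cons h p ih =>
    intro z hz
    rw [SimpleGraph.Walk.support_cons, List.mem_cons] at hz
    rcases hz with rfl | hz
    · exact hx
    · exact ih h.2.2 z hz

omit [Fintype V] in
theorem movea_len {U : Finset V} {x y : V} (p : (YU Y (U : Set V)).Walk x y) (hp : p.IsPath)
    (hx : x ∈ U) : p.length + 1 ≤ U.card := by
  rw [← p.length_support, ← List.toFinset_card_of_nodup hp.support_nodup]
  exact Finset.card_le_card fun z hz => movea_supp p hx z (List.mem_toFinset.1 hz)

omit [Fintype V] [Fintype T] [DecidableEq T] in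
theorem movea_arrange {U : Finset V} (hU : Con Y (U : Set V)) (c : V ≃ T) (R : Finset V)
    (hRU : ∀ x ∈ R, x ∈ U) (hR : ∀ x ∈ R, col (c x) = κ) (A : Finset V) :
    (∀ x ∈ A, x ∈ U) → A.card ≤ R.card →
    ∃ (c' : V ≃ T) (R' : Finset V), Rn Y col (A.card * U.card) c c' ∧ A ⊆ R' ∧
      (∀ x ∈ R', x ∈ U) ∧ R'.card = R.card ∧ (∀ x ∈ R', col (c' x) = κ) ∧
      ∀ z, z ∉ U → c' z = c z := by
  induction A using Finset.induction_on with
  | empty => exact fun _ _ => ⟨c, R, Rn.refl _ _, by simp, hRU, rfl, hR, fun _ _ => rfl⟩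
  | insert y A0 hy ih =>
    intro hAU hA
    rw [Finset.card_insert_of_notMem hy] at hA ⊢
    obtain ⟨c1, R1, r1, r2, r3, r4, r5, r6⟩ :=
      ih (fun x hx => hAU x (Finset.mem_insert_of_mem hx)) (by omega)
    by_cases hy1 : y ∈ R1
    · exact ⟨c1, R1, r1.mono (Nat.mul_le_mul_right _ (by omega)),
        Finset.insert_subset hy1 r2, r3, r4, r5, r6⟩
    obtain ⟨x, hx1, hx0⟩ : ∃ x ∈ R1, x ∉ A0 := by
      by_contra hcon
      push Not at hcon
      have := Finset.card_le_card (show R1 ⊆ A0 from hcon)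
      omega
    obtain ⟨p, hp, -⟩ := (hU x (r3 x hx1) y (hAU y (Finset.mem_insert_self _ _))).exists_path_of_dist
    obtain ⟨c2, s1, s2, s3, s4⟩ := pull (col := col) p c1 (r5 x hx1)
    refine ⟨c2, insert y (R1.erase x), (r1.trans s1).mono ?_, ?_, ?_, ?_, ?_, ?_⟩
    · have := movea_len p hp (r3 x hx1)
      rw [Nat.succ_mul]; omega
    · intro z hz
      rcases Finset.mem_insert.1 hz with rfl | hz
      · exact Finset.mem_insert_self _ _
      · exact Finset.mem_insert_of_mem (Finset.mem_erase.2 ⟨by rintro rfl; exact hx0 hz, r2 hz⟩)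
    · intro z hz
      rcases Finset.mem_insert.1 hz with rfl | hz
      · exact hAU _ (Finset.mem_insert_self _ _)
      · exact r3 z (Finset.mem_of_mem_erase hz)
    · rw [Finset.card_insert_of_notMem (fun h => hy1 (Finset.mem_of_mem_erase h)),
        Finset.card_erase_of_mem hx1]
      have := Finset.card_pos.2 ⟨x, hx1⟩
      omega
    · intro z hz
      rcases Finset.mem_insert.1 hz with rfl | hz
      · exact s2
      · exact s3 z (Finset.ne_of_mem_erase hz) (r5 z (Finset.mem_of_mem_erase hz))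
    · intro z hz
      rw [s4 z hz, r6 z hz]

/-- `arrange` with the size of `U` in the cost (a path inside `U` has fewer than `U.card` edges;
copy the proof of `arrange`). -/
theorem arrangeL {U : Finset V} (hU : Con Y (U : Set V)) (c : V ≃ T) (R : Finset V) (hRU : R ⊆ U)
    (hR : ∀ x ∈ R, col (c x) = κ) (A : Finset V) (hAU : A ⊆ U) (hA : A.card ≤ R.card) :
    ∃ c' : V ≃ T, Rn Y col (A.card * U.card) c c' ∧ (∀ x ∈ A, col (c' x) = κ) ∧
      ∀ z, z ∉ U → c' z = c z := by
  obtain ⟨c', R', r1, r2, -, -, r5, r6⟩ :=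
    movea_arrange hU c R (fun x hx => hRU hx) hR A (fun x hx => hAU hx) hA
  exact ⟨c', r1, fun x hx => r5 x (r2 hx), r6⟩

/-- Induction on `e`: the red token on `γ e` runs through the blue train (`shift`). -/
theorem shiftup (γ : ℕ → V) (r e : ℕ) (c : V ≃ T)
    (hadj : ∀ j, 1 ≤ j → j < e + r → Y.Adj (γ j) (γ (j + 1)))
    (hinj : ∀ i j, 1 ≤ i → i ≤ e + r → 1 ≤ j → j ≤ e + r → γ i = γ j → i = j)
    (hred : ∀ j, 1 ≤ j → j ≤ e → col (c (γ j)) = κ)
    (hblue : ∀ j, e < j → j ≤ e + r → col (c (γ j)) ≠ κ) :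
    ∃ c' : V ≃ T, Rn Y col (r * e) c c' ∧ (∀ j, 1 ≤ j → j ≤ r → c' (γ j) = c (γ (e + j))) ∧
      (∀ j, r < j → j ≤ r + e → col (c' (γ j)) = κ) ∧
      ∀ z, (∀ j, 1 ≤ j → j ≤ e + r → z ≠ γ j) → c' z = c z := by
  induction e generalizing c with
  | zero =>
    exact ⟨c, Rn.refl _ _, fun j _ _ => by rw [Nat.zero_add], fun j h1 h2 => by omega,
      fun _ _ => rfl⟩
  | succ e ih =>
    have hk : col (c (γ (e + 1 + 0))) = κ := hred (e + 1) (by omega) le_rfl
    obtain ⟨c1, r1, r2, r3, r4⟩ := shift (Y := Y) (col := col) (fun j => γ (e + 1 + j)) c r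
      (fun j hj => hadj (e + 1 + j) (by omega) (by omega))
      (fun i hi j hj h => by
        have := hinj _ _ (by omega) (by omega) (by omega) (by omega) h
        omega)
      (fun j h1 h2 => by rw [hk]; exact hblue _ (by omega) (by omega))
    have t1 : ∀ j, 1 ≤ j → j ≤ r → c1 (γ (e + j)) = c (γ (e + 1 + j)) := fun j h1 h2 => by
      have := r3 (j - 1) (by omega)
      rwa [show e + 1 + (j - 1) = e + j by omega, show j - 1 + 1 = j by omega] at this
    obtain ⟨c2, s1, s2, s3, s4⟩ := ih c1 (fun j h1 h2 => hadj j h1 (by omega))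
      (fun i j a1 a2 a3 a4 => hinj i j a1 (by omega) a3 (by omega))
      (fun j h1 h2 => by
        rw [r4 (γ j) fun i hi h => by
          have := hinj _ _ h1 (by omega) (by omega) (by omega) h
          omega]
        exact hred j h1 (by omega))
      (fun j h1 h2 => by
        have := t1 (j - e) (by omega) (by omega)
        rw [show e + (j - e) = j by omega] at this
        rw [this]
        exact hblue _ (by omega) (by omega))
    refine ⟨c2, ((r1.rn le_rfl).trans s1).mono (by rw [Nat.mul_succ]; omega),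
      fun j h1 h2 => by rw [s2 j h1 h2, t1 j h1 h2], fun j h1 h2 => ?_, fun z hz => ?_⟩
    · by_cases hj : j ≤ r + e
      · exact s3 j h1 hj
      · have e1 : j = e + 1 + r := by omega
        rw [s4 (γ j) fun i a1 a2 h => by
          have := hinj _ _ (by omega) (by omega) a1 (by omega) h
          omega, e1, r2]
        exact hk
    · rw [s4 z fun j a1 a2 => hz j a1 (by omega), r4 z fun j hj => hz _ (by omega) (by omega)]

/-- The claw with the exact permutation (the six moves of `claw`). -/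
theorem claw2 {c : V ≃ T} {g p q s : V} (hp : Y.Adj g p) (hq : Y.Adj g q) (hs : Y.Adj g s)
    (hpq : p ≠ q) (cg : col (c g) = κ) (cs : col (c s) = κ) (cp : col (c p) ≠ κ)
    (cq : col (c q) ≠ κ) : H Y col 6 c (swap (c p) (c q) * swap (c g) (c s)) := by
  have h1 : g ≠ p := hp.ne
  have h2 : g ≠ q := hq.ne
  have h3 : g ≠ s := hs.ne
  have h4 : p ≠ s := by rintro rfl; exact cp cs
  have h5 : q ≠ s := by rintro rfl; exact cq cs
  have h1' := h1.symm
  have h2' := h2.symm
  have h3' := h3.symm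
  have h4' := h4.symm
  have h5' := h5.symm
  have hpq' := hpq.symm
  have cp' := cp.symm
  have cq' := cq.symm
  have hpqc : col (c q) = col (c p) := by
    revert cp cq; cases col (c p) <;> cases col (c q) <;> cases κ <;> simp
  have hex : Ex Y col 6 c ((swap g q).trans ((swap g s).trans ((swap g p).trans
      ((swap g q).trans ((swap g s).trans ((swap g p).trans c)))))) := by
    refine Ex.step (step_swap hp ?_) (Ex.step (step_swap hs ?_) (Ex.step (step_swap hq ?_)
      (Ex.step (step_swap hp ?_) (Ex.step (step_swap hs ?_) (Ex.step (step_swap hq ?_)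
      (Ex.refl _))))))
    all_goals simp [swap_apply_def, *]
  have e : (swap g q).trans ((swap g s).trans ((swap g p).trans
      ((swap g q).trans ((swap g s).trans ((swap g p).trans c))))) =
      c.trans (swap (c p) (c q) * swap (c g) (c s)) := by
    ext z
    simp only [trans_apply, Perm.mul_apply, c.injective.swap_apply]
    congr 1
    by_cases a1 : z = g
    · subst a1; simp [swap_apply_def, *]
    by_cases a2 : z = p
    · subst a2; simp [swap_apply_def, *]
    by_cases a3 : z = q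
    · subst a3; simp [swap_apply_def, *]
    by_cases a4 : z = s
    · subst a4; simp [swap_apply_def, *]
    simp [swap_apply_def, *]
  rw [e] at hex
  refine ⟨fun t => ?_, hex.rn le_rfl⟩
  rw [Perm.mul_apply, col_swap hpqc, col_swap (cs.trans cg.symm)]

end FSDiam
end

-- part Move
section
namespace FSDiam
open Equiv

variable {V T : Type*} [DecidableEq V] [Fintype V] [Fintype T] [DecidableEq T]
variable {Y : SimpleGraph V} {col : T → Bool} {κ : Bool}
variable {Ω : Finset V} {v : V} {d : V → ℕ} {par : V → V}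

/-- Two blue neighbours of a junction: take a third neighbour `s`, make `g` and `s` red inside
`insert s N` (`arrangeL`), use `claw`. -/
theorem leafS {c : V ≃ T} {g p q : V} (hJ : Jn Y g) (hp : Y.Adj g p) (hq : Y.Adj g q)
    (hpq : p ≠ q) {N : Finset V} (hN : Con Y (N : Set V)) (hg : g ∈ N) (hpN : p ∉ N) (hqN : q ∉ N)
    (hred : ∀ x ∈ N, col (c x) = κ) (h2 : 2 ≤ N.card) (h16 : N.card ≤ 16) (cp : col (c p) ≠ κ)
    (cq : col (c q) ≠ κ) : Pure Y col 100 c (c p) (c q) := by
  obtain ⟨s, hs, hsp, hsq⟩ : ∃ s, Y.Adj g s ∧ s ≠ p ∧ s ≠ q := by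
    obtain ⟨a, b, ha, hb, hab, hap, hbp⟩ := hJ.two p
    by_cases e : a = q
    · exact ⟨b, hb, hbp, fun h => hab (e.trans h.symm)⟩
    · exact ⟨a, ha, hap, e⟩
  have hU : Con Y ((insert s N : Finset V) : Set V) := by
    rw [Finset.coe_insert]
    exact hN.insert (Finset.mem_coe.2 hg) hs.symm
  have hA : ({g, s} : Finset V).card ≤ 2 := Finset.card_le_two
  obtain ⟨c1, r1, r2, r3⟩ := arrangeL (col := col) (κ := κ) hU c N (Finset.subset_insert _ _) hred
    {g, s} (by
      intro x hx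
      simp only [Finset.mem_insert, Finset.mem_singleton] at hx ⊢
      rcases hx with rfl | rfl
      · exact Or.inr hg
      · exact Or.inl rfl) (by omega)
  have e1 : c1 p = c p := r3 p (by
    simp only [Finset.mem_insert, not_or]; exact ⟨hsp.symm, hpN⟩)
  have e2 : c1 q = c q := r3 q (by
    simp only [Finset.mem_insert, not_or]; exact ⟨hsq.symm, hqN⟩)
  have p1 := claw (Y := Y) (col := col) (κ := κ) (c := c1) hp hq hs hpq (r2 g (by simp))
    (r2 s (by simp)) (by rw [e1]; exact cp) (by rw [e2]; exact cq)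
  have p2 := p1.transport r1
  rw [e1, e2] at p2
  refine p2.mono ?_
  have hc : (insert s N).card ≤ 17 := (Finset.card_insert_le _ _).trans (by omega)
  have := Nat.mul_le_mul hA hc
  omega

/-- Blue tokens on `p` and behind it on `q`. If `q` is adjacent to `g` use `leafS`. Otherwise take
`a`, `b` from `Jn.two`, make `g`, `a`, `b` red inside `N ∪ {a, b}`, move the token of `p` to `g`
and `a`, the token of `q` to `p`, and use `claw` on `a`, `p`, `b`. -/
theorem leafV {c : V ≃ T} {g p q : V} (hJ : Jn Y g) (hp : Y.Adj g p) (hq : Y.Adj p q)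
    {N : Finset V} (hN : Con Y (N : Set V)) (hg : g ∈ N) (hpN : p ∉ N) (hqN : q ∉ N)
    (hred : ∀ x ∈ N, col (c x) = κ) (h3 : 3 ≤ N.card) (h16 : N.card ≤ 16) (cp : col (c p) ≠ κ)
    (cq : col (c q) ≠ κ) : Pure Y col 150 c (c p) (c q) := by
  by_cases hgq : Y.Adj g q
  · exact (leafS hJ hp hgq hq.ne hN hg hpN hqN hred (by omega) h16 cp cq).mono (by omega)
  obtain ⟨a, b, ha, hb, hab, hap, hbp⟩ := hJ.two p
  have haq : a ≠ q := fun h => hgq (h ▸ ha)
  have hbq : b ≠ q := fun h => hgq (h ▸ hb)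
  have hgq' : g ≠ q := fun h => hqN (h ▸ hg)
  have hU : Con Y ((insert a (insert b N) : Finset V) : Set V) := by
    rw [Finset.coe_insert, Finset.coe_insert]
    exact (hN.insert (Finset.mem_coe.2 hg) hb.symm).insert
      (Set.mem_insert_of_mem _ (Finset.mem_coe.2 hg)) ha.symm
  have hA : ({g, a, b} : Finset V).card ≤ 3 := Finset.card_le_three
  obtain ⟨c1, r1, r2, r3⟩ := arrangeL (col := col) (κ := κ) hU c N
    ((Finset.subset_insert _ _).trans (Finset.subset_insert _ _)) hred {g, a, b} (by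
      intro x hx
      simp only [Finset.mem_insert, Finset.mem_singleton] at hx ⊢
      rcases hx with rfl | rfl | rfl
      · exact Or.inr (Or.inr hg)
      · exact Or.inl rfl
      · exact Or.inr (Or.inl rfl)) (by omega)
  have e1 : c1 p = c p := r3 p (by
    simp only [Finset.mem_insert, not_or]; exact ⟨hap.symm, hbp.symm, hpN⟩)
  have e2 : c1 q = c q := r3 q (by
    simp only [Finset.mem_insert, not_or]; exact ⟨haq.symm, hbq.symm, hqN⟩)
  have qg : col (c1 g) = κ := r2 g (by simp)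
  have qa : col (c1 a) = κ := r2 a (by simp)
  have qb : col (c1 b) = κ := r2 b (by simp)
  have n1 : g ≠ p := hp.ne
  have n2 : g ≠ a := ha.ne
  have n3 : g ≠ b := hb.ne
  have n4 : p ≠ q := hq.ne
  have hex : Ex Y col 3 c1 ((swap p q).trans ((swap g a).trans ((swap g p).trans c1))) := by
    refine Ex.step (step_swap hp ?_) (Ex.step (step_swap ha ?_) (Ex.step (step_swap hq ?_)
      (Ex.refl _)))
    · rw [qg, e1]; exact cp.symm
    · simp only [trans_apply, swap_apply_left, swap_apply_of_ne_of_ne n2.symm hap]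
      rw [qa, e1]; exact cp
    · simp only [trans_apply, swap_apply_right, swap_apply_of_ne_of_ne n1.symm hap.symm,
        swap_apply_of_ne_of_ne hgq'.symm haq.symm, swap_apply_of_ne_of_ne hgq'.symm n4.symm]
      rw [qg, e2]; exact cq.symm
  set c3 := (swap p q).trans ((swap g a).trans ((swap g p).trans c1)) with hc3
  have v1 : c3 a = c p := by
    simp only [hc3, trans_apply, swap_apply_of_ne_of_ne hap haq, swap_apply_right,
      swap_apply_left, e1]
  have v2 : c3 p = c q := by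
    simp only [hc3, trans_apply, swap_apply_left, swap_apply_of_ne_of_ne hgq'.symm haq.symm,
      swap_apply_of_ne_of_ne hgq'.symm n4.symm, e2]
  have v3 : c3 g = c1 a := by
    simp only [hc3, trans_apply, swap_apply_of_ne_of_ne n1 hgq', swap_apply_left,
      swap_apply_of_ne_of_ne n2.symm hap]
  have v4 : c3 b = c1 b := by
    simp only [hc3, trans_apply, swap_apply_of_ne_of_ne hbp hbq,
      swap_apply_of_ne_of_ne n3.symm hab.symm, swap_apply_of_ne_of_ne n3.symm hbp]
  have p1 := claw (Y := Y) (col := col) (κ := κ) (c := c3) ha hp hb hap (by rw [v3]; exact qa)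
    (by rw [v4]; exact qb) (by rw [v1]; exact cp) (by rw [v2]; exact cq)
  have p2 := p1.transport (r1.trans (hex.rn le_rfl))
  rw [v1, v2] at p2
  refine p2.mono ?_
  have hc : (insert a (insert b N)).card ≤ 18 :=
    (Finset.card_insert_le _ _).trans (Nat.succ_le_succ ((Finset.card_insert_le _ _).trans
      (by omega)))
  have := Nat.mul_le_mul hA hc
  omega

end FSDiam
end

-- part Mk
section
namespace FSDiam
open Equiv

variable {V T : Type*} [DecidableEq V] [Fintype V] [Fintype T] [DecidableEq T]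
variable {Y : SimpleGraph V} {col : T → Bool} {κ : Bool}
variable {Ω : Finset V} {v : V} {d : V → ℕ} {par : V → V}

/-- The end `x` of the vertical path and the length `r` of the train. -/
theorem mk_pick (h : PT Y Ω v d par) {Q : Finset V} {w : V} {a : ℕ} (hQ : Q ⊆ Ω) (hv : v ∉ Q)
    (hne : Q.Nonempty) (hp : HP par Q w) (ha : a ≤ d w) (hJ : Jn Y (par^[a] w))
    (hnJ : ∀ j < a, ¬ Jn Y (par^[j] w)) :
    ∃ (x : V) (r : ℕ), x ∈ Ω ∧ d x = d w + r ∧ par^[r] x = w ∧ (∀ j < r, par^[j] x ∈ Q) ∧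
      (∀ j, 1 ≤ j → j < a + r → ¬ Jn Y (par^[j] x)) ∧ (a = 0 → r = 0) ∧ (0 < a → 0 < r) ∧
      r ≤ Q.card ∧ ∀ y ∈ Q, par y = x → Jn Y x := by
  classical
  obtain ⟨ρ, hρ, eρ⟩ := h.hp_root hQ hv hp hne
  have hw : w ∈ Ω := (h.hp_depth hQ hv hp hρ).1
  rcases Nat.eq_zero_or_pos a with rfl | ha0
  · exact ⟨w, 0, hw, rfl, rfl, fun j hj => absurd hj (by omega),
      fun j h1 h2 => absurd h2 (by omega), fun _ => rfl, fun h0 => absurd h0 (by omega),
      Nat.zero_le _, fun _ _ _ => hJ⟩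
  have dρ : d w + 1 = d ρ := by
    have := h.dp ρ (hQ hρ) (fun e => hv (e ▸ hρ))
    rwa [eρ] at this
  obtain ⟨x, hx, hmax⟩ := Finset.exists_max_image
    (Q.filter fun y => ∀ j, 1 ≤ j → j + d w < d y + a → ¬ Jn Y (par^[j] y)) d
    ⟨ρ, Finset.mem_filter.2 ⟨hρ, fun j h1 h2 => by
      obtain ⟨i, rfl⟩ : ∃ i, j = i + 1 := ⟨j - 1, by omega⟩
      rw [Function.iterate_succ_apply, eρ]
      exact hnJ i (by omega)⟩⟩
  obtain ⟨hxQ, hxn⟩ := Finset.mem_filter.1 hx
  obtain ⟨-, e1, e2, e3, e4⟩ := h.hp_depth hQ hv hp hxQ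
  refine ⟨x, d x - d w, hQ hxQ, by omega, e3, fun j hj => e4 j (by omega),
    fun j h1 h2 => hxn j h1 (by omega), fun h0 => absurd h0 (by omega), fun _ => by omega,
    by omega, fun y hy ey => ?_⟩
  by_contra hcon
  have dy : d x + 1 = d y := by
    have := h.dp y (hQ hy) (fun e => hv (e ▸ hy))
    rwa [ey] at this
  have := hmax y (Finset.mem_filter.2 ⟨hy, fun j h1 h2 => by
    obtain ⟨i, rfl⟩ : ∃ i, j = i + 1 := ⟨j - 1, by omega⟩
    rw [Function.iterate_succ_apply, ey]
    rcases Nat.eq_zero_or_pos i with rfl | hi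
    · exact hcon
    · exact hxn i hi (by omega)⟩)
  omega

/-- The stock region with the corridor down to `w` is connected. -/
theorem mk_con (h : PT Y Ω v d par) {w : V} {a : ℕ} {U : Finset V} (hw : w ∈ Ω) (ha : a ≤ d w)
    (hU : Con Y (U : Set V)) (hg : par^[a] w ∈ U) :
    Con Y ((U ∪ (Finset.range a).image fun j => par^[j] w : Finset V) : Set V) := by
  have h1 := con_path (Y := Y) (fun j => par^[a - j] w) hU (by simpa using hg) (a + 1)
    (fun j hj => by
      have := h.adj_it hw (j := a - (j + 1)) (by omega)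
      rwa [show a - (j + 1) + 1 = a - j by omega] at this)
  convert h1 using 1
  ext x
  simp only [Finset.coe_union, Finset.coe_image, Finset.coe_range, Set.mem_union, Finset.mem_coe,
    Set.mem_image, Set.mem_Iio, Set.mem_ofPred_eq]
  constructor
  · rintro (hx | ⟨j, hj, rfl⟩)
    · exact Or.inl hx
    · exact Or.inr ⟨a - j, by omega, by rw [show a - (a - j) = j by omega]⟩
  · rintro (hx | ⟨j, hj, rfl⟩)
    · exact Or.inl hx
    · rcases Nat.eq_zero_or_pos j with rfl | hj0
      · exact Or.inl (by simpa using hg)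
      · exact Or.inr ⟨a - j, by omega, rfl⟩

/-- `γ j = par^[a - j] w` for `a = 0`, `r = 0`. For `a > 0` take the deepest `x ∈ Q` all of whose
proper ancestors below `g = par^[a] w` are non-junctions (a root of `Q` is such), `r = d x - d w`,
`γ j = par^[a + r - j] x`. Take `N` from `grow`, make `N ∪ {γ 1, …, γ a}` red by `arrangeL` inside
`U ∪ {γ 1, …, γ a}` (no vertex of `Q` is in it), then `shiftup`. -/
theorem mk_ready (h : PT Y Ω v d par) {c0 c : V ≃ T} {Q : Finset V} {w : V} {q a ν : ℕ}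
    {U R : Finset V} (hQ : Q ⊆ Ω) (hv : v ∉ Q) (hne : Q.Nonempty) (hp : HP par Q w)
    (hcard : Q.card ≤ q) (hblue : ∀ y ∈ Q, col (c0 y) ≠ κ) (hhome : ∀ y ∈ Q, c y = c0 y)
    (ha : a ≤ d w) (hJ : Jn Y (par^[a] w)) (hnJ : ∀ j < a, ¬ Jn Y (par^[j] w))
    (hU : Con Y (U : Set V)) (hg : par^[a] w ∈ U)
    (hav : ∀ y ∈ Q, ∀ j, j + d (par^[a] w) < d y → par^[j] y ∉ U)
    (hRU : ∀ x ∈ R, x ∈ U ∨ ∃ j < a, x = par^[j] w) (hR : ∀ x ∈ R, col (c x) = κ)
    (h1 : 1 ≤ ν) (hνU : ν ≤ U.card) (hνR : ν + a ≤ R.card) (h8 : ν ≤ 8 * q) (h4 : 4 * q ≤ ν + a)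
    (hK : 0 < a → ∀ y ∈ Q, par y ∈ Q →
      (∀ j, 1 ≤ j → j + d (par^[a] w) < d (par y) → ¬ Jn Y (par^[j] (par y))) →
      d (par y) + 2 ≤ d w + ν) :
    ∃ c', Rn Y col ((ν + a) * (U.card + a) + q * a) c c' ∧ Ready Y col κ Ω d par c0 c' Q q := by
  obtain ⟨x, r, hx, dx, ex, hxQ, hxn, a0, a1, hr, hlow⟩ := mk_pick h hQ hv hne hp ha hJ hnJ
  obtain ⟨ρ, hρ⟩ := hne
  have hw : w ∈ Ω := (h.hp_depth hQ hv hp hρ).1
  have dg : d (par^[a] w) = d w - a := h.d_it hw a
  have hdQ : ∀ y ∈ Q, d w < d y := fun y hy => (h.hp_depth hQ hv hp hy).2.1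
  set γ : ℕ → V := fun j => par^[a + r - j] x with hγ
  have dγ : ∀ j ≤ a + r, d (γ j) = d w - a + j := fun j hj => by
    simp only [hγ, h.d_it hx]; omega
  have γw : ∀ j ≤ a, γ j = par^[a - j] w := fun j hj => by
    simp only [hγ]
    rw [show a + r - j = a - j + r by omega, Function.iterate_add_apply, ex]
  have γ0 : γ 0 = par^[a] w := γw 0 (by omega)
  have γa : γ a = w := by rw [γw a le_rfl, Nat.sub_self]; rfl
  have γx : γ (a + r) = x := by simp only [hγ, Nat.sub_self]; rfl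
  have γQ : ∀ j, a < j → j ≤ a + r → γ j ∈ Q := fun j h1 h2 => hxQ _ (by omega)
  have γU : ∀ j, 1 ≤ j → j ≤ a + r → γ j ∉ U := fun j h1 h2 =>
    hav x (hxQ 0 (by omega)) _ (by omega)
  have hpar : ∀ j < a + r, par (γ (j + 1)) = γ j := fun j hj => by
    simp only [hγ]
    rw [show a + r - j = a + r - (j + 1) + 1 by omega, Function.iterate_succ_apply']
  obtain ⟨N, gN, NU, cN, nN⟩ := grow hU hg h1 hνU
  set P : Finset V := (Finset.range a).image fun j => par^[j] w with hP
  have nP : P.card ≤ a := Finset.card_image_le.trans (by simp)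
  have nA : (N ∪ P).card ≤ ν + a := (Finset.card_union_le _ _).trans (by omega)
  have nU : (U ∪ P).card ≤ U.card + a := (Finset.card_union_le _ _).trans (by omega)
  obtain ⟨c1, r1, r2, r3⟩ := arrangeL (col := col) (κ := κ) (mk_con h hw ha hU hg) c R
    (fun z hz => by
      rcases hRU z hz with hh | ⟨j, hj, rfl⟩
      · exact Finset.mem_union_left _ hh
      · exact Finset.mem_union_right _ (Finset.mem_image.2 ⟨j, Finset.mem_range.2 hj, rfl⟩))
    hR (N ∪ P) (Finset.union_subset_union NU (Finset.Subset.refl _)) (nA.trans hνR)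
  have c1Q : ∀ y ∈ Q, c1 y = c0 y := fun y hy => by
    rw [← hhome y hy]
    refine r3 y fun hh => ?_
    have := hdQ y hy
    rcases Finset.mem_union.1 hh with hh | hh
    · exact hav y hy 0 (by omega) hh
    · obtain ⟨j, -, e⟩ := Finset.mem_image.1 hh
      have := h.d_it hw j
      rw [e] at this
      omega
  obtain ⟨c2, s1, s2, s3, s4⟩ := shiftup (Y := Y) (col := col) (κ := κ) γ r a c1
    (fun j _ hj => by
      have := h.adj_it hx (j := a + r - (j + 1)) (by omega)
      rwa [show a + r - (j + 1) + 1 = a + r - j by omega] at this)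
    (fun i j _ hi _ hj e => by
      have := congrArg d e
      rw [dγ i hi, dγ j hj] at this
      omega)
    (fun j h1 h2 => r2 _ (Finset.mem_union_right _ (Finset.mem_image.2
      ⟨a - j, Finset.mem_range.2 (by omega), (γw j h2).symm⟩)))
    (fun j h1 h2 => by rw [c1Q _ (γQ j h1 h2)]; exact hblue _ (γQ j h1 h2))
  refine ⟨c2, (r1.trans s1).mono (Nat.add_le_add (Nat.mul_le_mul nA nU)
    (Nat.mul_le_mul_right _ (hr.trans hcard))), a, r, γ, N, γ0 ▸ hJ, h.it_mem hx _,
    fun j hj => ⟨h.it_mem hx _, hpar j hj, by rw [dγ _ (by omega), dγ 0 (by omega)]; omega⟩,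
    fun j h1 h2 => hxn _ (by omega) (by omega), a0, a1, γa ▸ hp,
    fun j h1 h2 => ⟨γQ _ (by omega) (by omega), by
      rw [s2 j h1 h2, c1Q _ (γQ _ (by omega) (by omega))]⟩,
    fun y hy hd => ?_, fun y hy e => ⟨γx ▸ hlow y hy (γx ▸ e), by omega, s3⟩, cN, γ0 ▸ gN,
    fun z hz => ?_, by omega, fun y hy j hj hh => hav y hy j (γ0 ▸ hj) (NU hh),
    fun j h1 h2 y hy e => ?_⟩
  · rw [s4 y, c1Q y hy]
    intro j _ hj e
    rw [e, dγ j hj, dγ 0 (by omega)] at hd
    omega
  · rw [s4 z fun j h1 h2 e => γU j h1 h2 (e ▸ NU hz)]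
    exact r2 z (Finset.mem_union_left _ hz)
  · have := hK (by omega) y hy (e ▸ γQ _ (by omega) (by omega)) fun i h3 h4 => by
      rw [e, dγ _ (by omega)] at h4
      rw [e]
      simp only [hγ]
      rw [← Function.iterate_add_apply]
      exact hxn _ (by omega) (by omega)
    rw [e, dγ _ (by omega)] at this
    omega

end FSDiam
end

-- part Rd
section
namespace FSDiam
open Equiv

variable {V T : Type*} [DecidableEq V] [Fintype V] [Fintype T] [DecidableEq T]
variable {Y : SimpleGraph V} {col : T → Bool} {κ : Bool}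
variable {Ω : Finset V} {v : V} {d : V → ℕ} {par : V → V}

variable {c0 c : V ≃ T} {Q : Finset V} {q a r : ℕ} {γ : ℕ → V} {N : Finset V}

theorem RD.mem (R : RD Y col κ Ω d par c0 c Q q a r γ N) {j : ℕ} (hj : j ≤ a + r) :
    γ j ∈ Ω ∧ d (γ j) = d (γ 0) + j := by
  cases j with
  | zero => exact ⟨R.m0, rfl⟩
  | succ j => exact ⟨(R.path j (by omega)).1, (R.path j (by omega)).2.2⟩

theorem RD.it (R : RD Y col κ Ω d par c0 c Q q a r γ N) {i j : ℕ} (hj : j ≤ a + r) (hi : i ≤ j) :
    par^[i] (γ j) = γ (j - i) := by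
  induction i with
  | zero => rfl
  | succ i ih =>
    rw [Function.iterate_succ_apply', ih (by omega),
      show j - i = j - (i + 1) + 1 by omega]
    exact (R.path _ (by omega)).2.1

theorem RD.adj (h : PT Y Ω v d par) (R : RD Y col κ Ω d par c0 c Q q a r γ N) {j : ℕ}
    (hj : j < a + r) : Y.Adj (γ j) (γ (j + 1)) := by
  obtain ⟨h1, h2, h3⟩ := R.path j hj
  have := h.adj _ h1 fun e => by rw [e, h.d0] at h3; omega
  rwa [h2] at this

/-- Induction on the depth with `child_unique`. -/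
theorem RD.high (h : PT Y Ω v d par) (hQ : Q ⊆ Ω) (hv : v ∉ Q)
    (R : RD Y col κ Ω d par c0 c Q q a r γ N) {y : V} (hy : y ∈ Q) :
    d (γ 0) + a < d y ∧ (d y ≤ d (γ 0) + (a + r) → y = γ (d y - d (γ 0))) := by
  have ha := (R.mem (j := a) (by omega)).2
  have h1 : ∀ y ∈ Q, d (γ 0) + a < d y := fun y hy => ha ▸ (h.hp_depth hQ hv R.hp hy).2.1
  have h2 : ∀ n, ∀ y ∈ Q, d y = d (γ 0) + (a + n + 1) → n + 1 ≤ r → y = γ (a + n + 1) := by
    intro n
    induction n using Nat.strong_induction_on with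
    | _ n ih =>
      intro y hy e hn
      have hyv : y ≠ v := fun hh => hv (hh ▸ hy)
      have hd := h.dp y (hQ hy) hyv
      have hp : par y = γ (a + n) := by
        rcases R.hp.2 y hy with hq | he
        · have := h1 _ hq
          obtain ⟨m, rfl⟩ : ∃ m, n = m + 1 := ⟨n - 1, by omega⟩
          exact ih m (by omega) _ hq (by omega) (by omega)
        · rw [he, ha] at hd
          obtain rfl : n = 0 := by omega
          exact he
      have a0 : a ≠ 0 := fun hh => by have := R.a0 hh; omega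
      obtain ⟨p1, p2, p3⟩ := R.path (a + n) (by omega)
      refine h.child_unique (R.njn (a + n) (by omega) (by omega)) (hQ hy) p1 hyv
        (fun hh => ?_) hp p2
      rw [hh, h.d0] at p3
      omega
  refine ⟨h1 y hy, fun hle => ?_⟩
  have h3 := h1 y hy
  have h4 := h2 (d y - (d (γ 0) + a) - 1) y hy (by omega) (by omega)
  rwa [show a + (d y - (d (γ 0) + a) - 1) + 1 = d y - d (γ 0) by omega] at h4

/-- A deeper vertex of `Q` hangs below the last vertex of the train. -/
theorem RD.deep (h : PT Y Ω v d par) (hQ : Q ⊆ Ω) (hv : v ∉ Q)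
    (R : RD Y col κ Ω d par c0 c Q q a r γ N) {y : V} (hy : y ∈ Q)
    (hd : d (γ 0) + (a + r) < d y) :
    par^[d y - (d (γ 0) + (a + r))] y = γ (a + r) ∧ ∃ y' ∈ Q, par y' = γ (a + r) := by
  have ha := (R.mem (j := a) (by omega)).2
  obtain ⟨-, -, -, h4, h5⟩ := h.hp_depth hQ hv R.hp hy
  have h1 : par^[d y - (d (γ 0) + (a + r))] y = γ (a + r) := by
    rcases Nat.eq_zero_or_pos r with h0 | h0
    · subst h0
      rw [ha] at h4
      exact h4
    · have hq := h5 (d y - (d (γ 0) + (a + r))) (by omega)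
      have hdd := h.d_it (hQ hy) (d y - (d (γ 0) + (a + r)))
      have := (R.high h hQ hv hq).2 (by omega)
      rwa [hdd, show d y - (d y - (d (γ 0) + (a + r))) - d (γ 0) = a + r by omega] at this
  refine ⟨h1, par^[d y - (d (γ 0) + (a + r)) - 1] y, h5 _ (by omega), ?_⟩
  rw [← h1, ← Function.iterate_succ_apply' par]
  congr 1
  omega

/-- The path below the junction avoids the stock. -/
theorem RD.nm (R : RD Y col κ Ω d par c0 c Q q a r γ N) {j : ℕ} (h1 : 1 ≤ j) (hj : j ≤ a + r) :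
    γ j ∉ N := by
  have a0 : a ≠ 0 := fun hh => by have := R.a0 hh; omega
  have r0 := R.a1 (by omega)
  have hm := (R.mem (j := a + r) le_rfl).2
  have := R.av _ (R.train r r0 le_rfl).1 (a + r - j) (by omega)
  rwa [R.it le_rfl (by omega), show a + r - (a + r - j) = j by omega] at this

theorem RD.r_le (R : RD Y col κ Ω d par c0 c Q q a r γ N) : r ≤ Q.card := by
  rw [← Finset.card_range r]
  refine Finset.card_le_card_of_injOn (fun j => γ (a + (j + 1)))
    (fun j hj => (R.train (j + 1) (by omega) (by simpa using hj)).1) fun i hi j hj e => ?_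
  simp only [Finset.coe_range, Set.mem_Iio] at hi hj
  have a1 := (R.mem (j := a + (i + 1)) (by omega)).2
  have a2 := (R.mem (j := a + (j + 1)) (by omega)).2
  have e' : γ (a + (i + 1)) = γ (a + (j + 1)) := e
  rw [e'] at a1
  omega

/-- The advance is at most the weight of the last vertex of the train (`le_lam`). -/
theorem RD.a_le (h : PT Y Ω v d par) (hv : v ∉ Q) (R : RD Y col κ Ω d par c0 c Q q a r γ N)
    {ω : ℕ} (hω : ∀ x ∈ Q, ∀ y ∈ Q, par y = x → lam Y par x ≤ ω) {y : V} (hy : y ∈ Q)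
    (e : par y = γ (a + r)) : a ≤ ω := by
  rcases Nat.eq_zero_or_pos a with h0 | h0
  · omega
  have r0 := R.a1 h0
  have hx := (R.train r r0 le_rfl).1
  refine le_trans (h.le_lam (R.mem le_rfl).1 (fun hh => hv (hh ▸ hx)) (R.low y hy e).1
    fun j j1 j2 => ?_) (hω _ hx y hy e)
  rw [R.it le_rfl (by omega)]
  exact R.njn _ (by omega) (by omega)

end FSDiam
end

-- part RebA
section
namespace FSDiam
open Equiv

variable {V T : Type*} [DecidableEq V] [Fintype V] [Fintype T] [DecidableEq T]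
variable {Y : SimpleGraph V} {col : T → Bool} {κ : Bool}
variable {Ω : Finset V} {v : V} {d : V → ℕ} {par : V → V}

variable {c0 c : V ≃ T} {Q Q' : Finset V} {q a r : ℕ} {γ : ℕ → V} {N : Finset V} {w' : V}

/-- All of `Q'` is at home. Let `a'` be least with `Jn (par^[a'] w')`; the junction `γ (a + r)`
(`RD.low`, `RD.deep`) is an ancestor of `w'` or `w'`, so `a' ≤ Q.card ≤ 2 q`. Use `mk_ready` with
`ν = 4 q`, `U = N ∪ {ancestors of par^[a'] w' up to γ 0}` (at most `16 q + a + 2 q + 1` vertices,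
connected by `Con.union` and `con_closed`, contains `γ 1, …, γ (a + r)`),
`R = N ∪ {γ (r + 1), …, γ (r + a)}`, `8 q ≤ R.card`; `a ≤ ω` by `RD.a_le`. -/
theorem rebaseA (h : PT Y Ω v d par) (hQ : Q ⊆ Ω) (hv : v ∉ Q) (hblue : ∀ y ∈ Q, col (c0 y) ≠ κ)
    (R : RD Y col κ Ω d par c0 c Q (2 * q) a r γ N) (hcard : Q.card ≤ 2 * q) (hsub : Q' ⊆ Q)
    (hne : Q'.Nonempty) (hp : HP par Q' w') (hcard' : Q'.card ≤ q) {ω : ℕ}
    (hω : ∀ x ∈ Q, ∀ y ∈ Q, par y = x → lam Y par x ≤ ω) (hw : d (γ 0) + (a + r) ≤ d w') :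
    ∃ c', Rn Y col (400 * q * (q + ω)) c c' ∧ Ready Y col κ Ω d par c0 c' Q' q := by
  classical
  have hQ' : Q' ⊆ Ω := hsub.trans hQ
  have hv' : v ∉ Q' := fun hh => hv (hsub hh)
  have hq : 1 ≤ q := (Finset.card_pos.2 hne).trans_le hcard'
  obtain ⟨ρ, hρ, eρ⟩ := h.hp_root hQ' hv' hp hne
  have hρv : ρ ≠ v := fun e => hv' (e ▸ hρ)
  have hwΩ : w' ∈ Ω := (h.hp_depth hQ' hv' hp hρ).1
  have dρ : d w' + 1 = d ρ := by rw [← eρ]; exact h.dp ρ (hQ' hρ) hρv
  obtain ⟨e1, y', hy', ey'⟩ := R.deep h hQ hv (hsub hρ) (by omega)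
  obtain ⟨hJL, h8, hred⟩ := R.low y' hy' ey'
  have haω : a ≤ ω := R.a_le h hv hω hy' ey'
  obtain ⟨m, hm⟩ : ∃ m, d w' = d (γ 0) + (a + r) + m := ⟨d w' - (d (γ 0) + (a + r)), by omega⟩
  have em : par^[m] w' = γ (a + r) := by
    have e2 : d ρ - (d (γ 0) + (a + r)) = m + 1 := by omega
    rw [e2, Function.iterate_succ_apply, eρ] at e1
    exact e1
  have hmQ : m + r + 1 ≤ 2 * q := by
    have e2 := (h.hp_depth hQ hv R.hp (hsub hρ)).2.2.1
    have e3 := (R.mem (j := a) (by omega)).2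
    omega
  have hex : ∃ j, Jn Y (par^[j] w') := ⟨m, by rw [em]; exact hJL⟩
  obtain ⟨a', hJ, hnJ, ham⟩ : ∃ a', Jn Y (par^[a'] w') ∧ (∀ j < a', ¬ Jn Y (par^[j] w')) ∧ a' ≤ m :=
    ⟨Nat.find hex, Nat.find_spec hex, fun j hj => Nat.find_min hex hj,
      Nat.find_min' hex (by rw [em]; exact hJL)⟩
  have eγ : ∀ j ≤ a + r, par^[m + (a + r - j)] w' = γ j := by
    intro j hj
    rw [add_comm m, Function.iterate_add_apply, em, R.it le_rfl (by omega)]
    congr 1
    omega
  obtain ⟨A, hA⟩ : ∃ A : Finset V,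
      A = (Finset.Icc a' (m + (a + r))).image fun i => par^[i] w' := ⟨_, rfl⟩
  have memA : ∀ x, x ∈ A ↔ ∃ i, a' ≤ i ∧ i ≤ m + (a + r) ∧ par^[i] w' = x := by
    intro x
    rw [hA]
    simp only [Finset.mem_image, Finset.mem_Icc, and_assoc]
  have cA : A.card ≤ m + (a + r) + 1 := by
    rw [hA]
    refine Finset.card_image_le.trans ?_
    rw [Nat.card_Icc]
    omega
  have γA : ∀ j ≤ a + r, γ j ∈ A := fun j hj =>
    (memA _).2 ⟨m + (a + r - j), by omega, by omega, eγ j hj⟩
  have conA : Con Y (A : Set V) := by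
    refine h.con_closed (g := γ 0) ?_ (γA 0 (by omega)) ?_
    · intro x hx
      obtain ⟨i, -, -, rfl⟩ := (memA x).1 hx
      exact h.it_mem hwΩ i
    · intro x hx hx0
      obtain ⟨i, h1, h2, rfl⟩ := (memA x).1 hx
      have hi : i ≠ m + (a + r) := by
        rintro rfl
        exact hx0 (by simpa using eγ 0 (by omega))
      refine ⟨fun e => ?_, (memA _).2 ⟨i + 1, by omega, by omega, ?_⟩⟩
      · have e2 := h.d_it hwΩ i
        rw [e, h.d0] at e2
        omega
      · rw [Function.iterate_succ_apply']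
  have conU : Con Y ((N ∪ A : Finset V) : Set V) := by
    rw [Finset.coe_union]
    exact R.con.union conA (x := γ 0) (y := γ 0) R.gN (γA 0 (by omega)) (Or.inl rfl)
  obtain ⟨B, hB⟩ : ∃ B : Finset V, B = (Finset.Ioc r (r + a)).image γ := ⟨_, rfl⟩
  have memB : ∀ x, x ∈ B ↔ ∃ j, r < j ∧ j ≤ r + a ∧ γ j = x := by
    intro x
    rw [hB]
    simp only [Finset.mem_image, Finset.mem_Ioc, and_assoc]
  have cB : B.card = a := by
    rw [hB, Finset.card_image_of_injOn, Nat.card_Ioc]
    · omega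
    · intro i hi j hj e
      rw [Finset.mem_coe, Finset.mem_Ioc] at hi hj
      have e2 := (R.mem (j := i) (by omega)).2
      have e3 := (R.mem (j := j) (by omega)).2
      rw [e] at e2
      omega
  have dNB : Disjoint N B := by
    rw [Finset.disjoint_right]
    intro x hx
    obtain ⟨j, h1, h2, rfl⟩ := (memB x).1 hx
    exact R.nm (by omega) (by omega)
  have cNB : (N ∪ B).card = N.card + a := by rw [Finset.card_union_of_disjoint dNB, cB]
  have sub : N ∪ B ⊆ N ∪ A := by
    refine Finset.union_subset_union_right fun x hx => ?_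
    obtain ⟨j, h1, h2, rfl⟩ := (memB x).1 hx
    exact γA j (by omega)
  have cU1 : N.card + a ≤ (N ∪ A).card := cNB ▸ Finset.card_le_card sub
  have cU2 : (N ∪ A).card ≤ 18 * q + a := by
    have e2 := Finset.card_union_le N A
    have e3 := R.le
    omega
  have dg : d (par^[a'] w') = d w' - a' := h.d_it hwΩ a'
  obtain ⟨c', hc', hR'⟩ := mk_ready (col := col) (κ := κ) h (c0 := c0) (c := c) (Q := Q') (w := w')
    (q := q) (a := a') (ν := 4 * q) (U := N ∪ A) (R := N ∪ B) hQ' hv' hne hp hcard'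
    (fun y hy => hblue y (hsub hy))
    (fun y hy => R.home y (hsub hy) (by
      have e2 := (h.hp_depth hQ' hv' hp hy).2.1
      omega))
    (by omega) hJ hnJ conU
    (Finset.mem_union_right _ ((memA _).2 ⟨a', le_rfl, by omega, rfl⟩))
    (fun y hy j hj hh => by
      rcases Finset.mem_union.1 hh with hh | hh
      · exact R.av y (hsub hy) j (by omega) hh
      · obtain ⟨i, h1, h2, e⟩ := (memA _).1 hh
        have e2 := h.d_it hwΩ i
        have e3 := h.d_it (hQ' hy) j
        rw [e] at e2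
        omega)
    (fun x hx => Or.inl (sub hx))
    (fun x hx => by
      rcases Finset.mem_union.1 hx with hh | hh
      · exact R.red x hh
      · obtain ⟨j, h1, h2, rfl⟩ := (memB x).1 hh
        exact hred j h1 h2)
    (by omega) (by omega) (by omega) (by omega) (by omega)
    (fun _ y _ hy _ => by
      have e2 := (h.hp_depth hQ' hv' hp hy).2.2.1
      omega)
  refine ⟨c', hc'.mono ?_, hR'⟩
  have b1 : (4 * q + a') * ((N ∪ A).card + a') ≤ (6 * q) * (20 * (q + ω)) :=
    Nat.mul_le_mul (by omega) (by omega)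
  have b2 : q * a' ≤ q * (2 * (q + ω)) := Nat.mul_le_mul le_rfl (by omega)
  have b3 : (6 * q) * (20 * (q + ω)) + q * (2 * (q + ω)) = 122 * (q * (q + ω)) := by ring
  have b4 : 400 * q * (q + ω) = 400 * (q * (q + ω)) := by ring
  omega

end FSDiam
end

-- part RebB
section
namespace FSDiam
open Equiv

variable {V T : Type*} [DecidableEq V] [Fintype V] [Fintype T] [DecidableEq T]
variable {Y : SimpleGraph V} {col : T → Bool} {κ : Bool}
variable {Ω : Finset V} {v : V} {d : V → ℕ} {par : V → V}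

variable {c0 c : V ≃ T} {Q Q' : Finset V} {q a r : ℕ} {γ : ℕ → V} {N : Finset V} {w' : V}

/-- The root of `Q'` is `γ (a + e + 1)` with `w' = γ (a + e)`, `e < r` (`RD.high`). Let `r'` be
largest with `e + r' ≤ r` and `γ (a + e + 1), …, γ (a + e + r')` in `Q'`. Keep `γ`, the new advance is
`a + e`. Take `N' ⊆ N` from `grow` with `min (N.card - e) (8 q)` vertices (`e + 2 ≤ N.card` by
`RD.cnt` if `e ≥ 1`), make `N' ∪ {γ 1, …, γ e}` red by `arrangeL` inside `N ∪ {γ 1, …, γ e}`, then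
`shiftup` with `r'`, `e`. If a vertex of `Q'` hangs below `γ (a + e + r')` then `e + r' = r`. -/
theorem rebaseB (h : PT Y Ω v d par) (hQ : Q ⊆ Ω) (hv : v ∉ Q) (hblue : ∀ y ∈ Q, col (c0 y) ≠ κ)
    (R : RD Y col κ Ω d par c0 c Q (2 * q) a r γ N) (hcard : Q.card ≤ 2 * q) (hsub : Q' ⊆ Q)
    (hne : Q'.Nonempty) (hp : HP par Q' w') (hcard' : Q'.card ≤ q)
    (hw : d w' < d (γ 0) + (a + r)) :
    ∃ c', Rn Y col (400 * q * q) c c' ∧ Ready Y col κ Ω d par c0 c' Q' q := by
  obtain ⟨ρ, hρ, hρw⟩ := h.hp_root (hsub.trans hQ) (fun hh => hv (hsub hh)) hp hne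
  have hq : 1 ≤ q := le_trans (Finset.card_pos.2 hne) hcard'
  have hne_v : ∀ y ∈ Q, y ≠ v := fun y hy e => hv (e ▸ hy)
  have hdp : ∀ y ∈ Q, d (par y) + 1 = d y := fun y hy => h.dp y (hQ hy) (hne_v y hy)
  have hdρ : d w' + 1 = d ρ := by rw [← hρw]; exact hdp ρ (hsub hρ)
  obtain ⟨hh1, hh2⟩ := R.high h hQ hv (hsub hρ)
  obtain ⟨e, he⟩ : ∃ e, d ρ = d (γ 0) + (a + e + 1) := ⟨d ρ - d (γ 0) - a - 1, by omega⟩
  have her : e < r := by omega
  have ha : 1 ≤ a := by
    by_contra hcon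
    have := R.a0 (by omega)
    omega
  have hργ : ρ = γ (a + e + 1) := by
    rw [hh2 (by omega)]
    congr 1
    omega
  have hwγ : w' = γ (a + e) := by
    rw [← hρw, hργ]
    exact (R.path (a + e) (by omega)).2.1
  have hr2 : r ≤ 2 * q := R.r_le.trans hcard
  have hN16 : N.card ≤ 16 * q := by have := R.le; omega
  have hN1 : 1 ≤ N.card := Finset.card_pos.2 ⟨_, R.gN⟩
  have hNe : e + 1 ≤ N.card := by
    rcases Nat.eq_zero_or_pos e with h0 | h0
    · omega
    · have := R.cnt e h0 her.le ρ (hsub hρ) (by rw [hρw, hwγ])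
      omega
  have hdγ : ∀ j, j ≤ a + r → d (γ j) = d (γ 0) + j := fun j hj => (R.mem hj).2
  have hinj : ∀ i j, i ≤ a + r → j ≤ a + r → γ i = γ j → i = j := by
    intro i j hi hj hij
    have h1 := hdγ i hi
    have h2 := hdγ j hj
    rw [hij] at h1
    omega
  obtain ⟨r', hr1, hrr, hrQ, hrmax⟩ : ∃ r', 1 ≤ r' ∧ e + r' ≤ r ∧
      (∀ j, 1 ≤ j → j ≤ r' → γ (a + e + j) ∈ Q') ∧ (e + r' = r ∨ γ (a + e + r' + 1) ∉ Q') := by
    have hex : ∃ s, 1 ≤ s ∧ (r ≤ e + s ∨ γ (a + e + s + 1) ∉ Q') :=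
      ⟨r, by omega, Or.inl (by omega)⟩
    classical
    have hs := Nat.find_spec hex
    have hm : ∀ s, s < Nat.find hex → 1 ≤ s → e + s < r ∧ γ (a + e + s + 1) ∈ Q' := by
      intro s h1 h2
      have := Nat.find_min hex h1
      push Not at this
      exact this h2
    have hle : e + Nat.find hex ≤ r := by
      rcases Nat.lt_or_ge 1 (Nat.find hex) with h1 | h1
      · have := (hm (Nat.find hex - 1) (by omega) (by omega)).1
        omega
      · omega
    refine ⟨Nat.find hex, hs.1, hle, fun j h1 h2 => ?_, ?_⟩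
    · rcases Nat.lt_or_ge 1 j with h3 | h3
      · have := (hm (j - 1) (by omega) (by omega)).2
        rwa [show a + e + (j - 1) + 1 = a + e + j by omega] at this
      · rw [show j = 1 by omega, ← hργ]
        exact hρ
    · rcases hs.2 with h1 | h1
      · exact Or.inl (by omega)
      · exact Or.inr h1
  obtain ⟨N', hgN', hN'N, hcN', hcard'N⟩ := grow (Y := Y) R.con R.gN
    (ν := min (N.card - e) (8 * q)) (by omega) (by omega)
  have hUm : ∀ x, x ∈ N ∪ (Finset.Icc 1 e).image γ ↔ x ∈ N ∨ ∃ j, 1 ≤ j ∧ j ≤ e ∧ γ j = x := by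
    intro x
    simp only [Finset.mem_union, Finset.mem_image, Finset.mem_Icc, and_assoc]
  have hcU : Con Y ((N ∪ (Finset.Icc 1 e).image γ : Finset V) : Set V) := by
    have := con_path (Y := Y) γ R.con (Finset.mem_coe.2 R.gN) (e + 1)
      (fun j hj => R.adj h (by omega))
    convert this using 1
    ext x
    simp only [Finset.mem_coe, hUm, Set.mem_ofPred_eq]
    constructor
    · rintro (hx | ⟨j, -, h2, rfl⟩)
      · exact Or.inl hx
      · exact Or.inr ⟨j, by omega, rfl⟩
    · rintro (hx | ⟨j, h2, rfl⟩)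
      · exact Or.inl hx
      · rcases Nat.eq_zero_or_pos j with h0 | h0
        · rw [h0]; exact Or.inl R.gN
        · exact Or.inr ⟨j, h0, by omega, rfl⟩
  have hIc : ((Finset.Icc 1 e).image γ).card ≤ e :=
    Finset.card_image_le.trans (by simp)
  have hAc : (N' ∪ (Finset.Icc 1 e).image γ).card ≤ N.card :=
    (Finset.card_union_le _ _).trans (by omega)
  have hUc : (N ∪ (Finset.Icc 1 e).image γ).card ≤ 18 * q :=
    (Finset.card_union_le _ _).trans (by omega)
  obtain ⟨c1, hc1, hc1red, hc1out⟩ := arrangeL (col := col) (κ := κ) hcU c N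
    Finset.subset_union_left R.red (N' ∪ (Finset.Icc 1 e).image γ)
    (Finset.union_subset_union hN'N (Finset.Subset.refl _)) hAc
  have hc1γ : ∀ j, e < j → j ≤ a + r → c1 (γ j) = c (γ j) := by
    intro j h1 h2
    apply hc1out
    rw [hUm]
    rintro (hx | ⟨i, -, h4, h5⟩)
    · exact R.nm (by omega) h2 hx
    · have := hinj i j (by omega) h2 h5
      omega
  obtain ⟨c2, hc2, hc2a, hc2b, hc2c⟩ := shiftup (Y := Y) (col := col) (κ := κ) γ r' e c1
    (fun j _ hj => R.adj h (by omega))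
    (fun i j _ hi _ hj hij => hinj i j (by omega) (by omega) hij)
    (fun j h1 h2 => hc1red _ (Finset.mem_union_right _
      (Finset.mem_image_of_mem γ (Finset.mem_Icc.2 ⟨h1, h2⟩))))
    (fun j h1 h2 => by
      obtain ⟨t1, t2⟩ := R.train j (by omega) (by omega)
      rw [hc1γ j h1 (by omega), t2]
      exact hblue _ t1)
  refine ⟨c2, (hc1.trans hc2).mono ?_, a + e, r', γ, N', ?_⟩
  · have h1 : (N' ∪ (Finset.Icc 1 e).image γ).card * (N ∪ (Finset.Icc 1 e).image γ).card ≤
        (16 * q) * (18 * q) := Nat.mul_le_mul (hAc.trans hN16) hUc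
    have h2 : r' * e ≤ (2 * q) * (2 * q) := Nat.mul_le_mul (by omega) (by omega)
    nlinarith
  refine ⟨R.jn, R.m0, fun j hj => R.path j (by omega), fun j h1 hj => R.njn j h1 (by omega),
    fun h0 => by omega, fun _ => hr1, hwγ ▸ hp, fun j h1 h2 => ⟨hrQ j h1 h2, ?_⟩,
    fun y hy hd => ?_, fun y hy hpy => ?_, hcN', hgN', fun x hx => ?_, by omega,
    fun y hy j hj hx => R.av y (hsub hy) j hj (hN'N hx), fun j h1 h2 y hy hpy => ?_⟩
  · rw [hc2a j h1 h2, hc1γ (e + j) (by omega) (by omega),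
      (R.train (e + j) (by omega) (by omega)).2, Nat.add_assoc]
  · have hdeep : d (γ 0) + (a + r) < d y := by
      by_contra hcon
      have h1 := (R.high h hQ hv (hsub hy)).2 (by omega)
      have h2 := (h.hp_depth (hsub.trans hQ) (fun hh => hv (hsub hh)) hp hy).2.2.2.2
        (d y - d (γ 0) - (a + e + r' + 1)) (by omega)
      have h3 := R.it (i := d y - d (γ 0) - (a + e + r' + 1)) (j := d y - d (γ 0)) (by omega)
        (by omega)
      rw [← h1, show d y - d (γ 0) - (d y - d (γ 0) - (a + e + r' + 1)) = a + e + r' + 1 by omega]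
        at h3
      rw [h3] at h2
      rcases hrmax with h4 | h4
      · omega
      · exact h4 h2
    have hyγ : ∀ j, j ≤ a + r → y ≠ γ j := by
      intro j hj hyj
      have := hdγ j hj
      rw [← hyj] at this
      omega
    rw [hc2c y (fun j _ hj => hyγ j (by omega)), hc1out y, R.home y (hsub hy) hdeep]
    rw [hUm]
    rintro (hx | ⟨i, -, h4, h5⟩)
    · exact R.av y (hsub hy) 0 (by omega) hx
    · exact hyγ i (by omega) h5.symm
  · have hdy : d y = d (γ 0) + (a + e + r' + 1) := by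
      have h1 := hdp y (hsub hy)
      rw [hpy, hdγ _ (by omega)] at h1
      omega
    have hfull : e + r' = r := by
      by_contra hcon
      have h1 := (R.high h hQ hv (hsub hy)).2 (by omega)
      rw [show d y - d (γ 0) = a + e + r' + 1 by omega] at h1
      rcases hrmax with h4 | h4
      · omega
      · exact h4 (h1 ▸ hy)
    have hE : a + e + r' = a + r := by omega
    rw [hE] at hpy ⊢
    obtain ⟨l1, l2, l3⟩ := R.low y (hsub hy) hpy
    refine ⟨l1, by omega, fun j h1 h2 => ?_⟩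
    rcases Nat.lt_or_ge (r' + e) j with h3 | h3
    · rw [hc2c (γ j) (fun i _ hi hij => by
        have := hinj j i (by omega) (by omega) hij
        omega), hc1γ j (by omega) (by omega)]
      exact l3 j (by omega) (by omega)
    · exact hc2b j h1 h3
  · rw [hc2c x (fun j h1 hj hxj => R.nm h1 (by omega) (hxj ▸ hN'N hx))]
    exact hc1red x (Finset.mem_union_left _ hx)
  · have := R.cnt (e + j) (by omega) (by omega) y (hsub hy) (by rw [hpy, Nat.add_assoc])
    omega

end FSDiam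
end

-- part Leaf
section
namespace FSDiam
open Equiv

variable {V T : Type*} [DecidableEq V] [Fintype V] [Fintype T] [DecidableEq T]
variable {Y : SimpleGraph V} {col : T → Bool} {κ : Bool}
variable {Ω : Finset V} {v : V} {d : V → ℕ} {par : V → V}

/-- Siblings: `a = 0` (else `child_unique`), both at home, `leafS`. Parent `x` and child `y`:
`γ a = par x`. If `a = 0` use `leafV` at home. If `a > 0` then `x = γ (a + 1)` stands on `γ 1`, and
`3 ≤ N.card` by `RD.cnt`; for `r = 2` the token of `y` stands on `γ 2`; for `r = 1` it is at home and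
runs through the red vertices `γ (a + 1), …, γ 2` (`shift`, `a ≤ ω` moves by `RD.a_le`). -/
theorem leaf_link (h : PT Y Ω v d par) {c0 c : V ≃ T} {x y : V} (hx : x ∈ Ω) (hy : y ∈ Ω)
    (hxv : x ≠ v) (hyv : y ≠ v) (hxy : x ≠ y) (hl : par y = x ∨ par x = par y)
    (cx : col (c0 x) ≠ κ) (cy : col (c0 y) ≠ κ) (hR : Ready Y col κ Ω d par c0 c {x, y} 2) {ω : ℕ}
    (hω : par y = x → lam Y par x ≤ ω) : Pure Y col (200 * (1 + ω)) c (c0 x) (c0 y) := by
  obtain ⟨a, r, γ, N, R⟩ := hR
  have hQ : ({x, y} : Finset V) ⊆ Ω := by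
    intro z hz
    rcases Finset.mem_insert.1 hz with e | e
    · exact e ▸ hx
    · exact (Finset.mem_singleton.1 e) ▸ hy
  have hv : v ∉ ({x, y} : Finset V) := by
    intro hz
    rcases Finset.mem_insert.1 hz with e | e
    · exact hxv e.symm
    · exact hyv (Finset.mem_singleton.1 e).symm
  have xQ : x ∈ ({x, y} : Finset V) := Finset.mem_insert_self _ _
  have yQ : y ∈ ({x, y} : Finset V) := Finset.mem_insert_of_mem (Finset.mem_singleton_self _)
  have mQ : ∀ z, z ∈ ({x, y} : Finset V) → z = x ∨ z = y := fun z hz =>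
    (Finset.mem_insert.1 hz).imp id Finset.mem_singleton.1
  have dx := h.dp x hx hxv
  have dy := h.dp y hy hyv
  have ax := h.adj x hx hxv
  have ay := h.adj y hy hyv
  have h16 : N.card ≤ 16 := R.le
  have da := (R.mem (j := a) (by omega)).2
  rcases hl with hl | hl
  · have dyx : d x + 1 = d y := by rw [← dy, hl]
    have px : par x = γ a := by
      rcases R.hp.2 x xQ with e | e
      · rcases mQ _ e with e | e <;> rw [e] at dx <;> omega
      · exact e
    rw [px] at dx ax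
    rw [hl] at ay
    have xN : x ∉ N := R.av x xQ 0 (by omega)
    have yN : y ∉ N := R.av y yQ 0 (by omega)
    rcases Nat.eq_zero_or_pos a with a0 | a0
    · have r0 := R.a0 a0
      subst a0
      subst r0
      have ex : c x = c0 x := R.home x xQ (by omega)
      have ey : c y = c0 y := R.home y yQ (by omega)
      have h8 := (R.low x xQ px).2.1
      have := leafV (c := c) R.jn ax ay R.con R.gN xN yN R.red (by omega) h16
        (by rw [ex]; exact cx) (by rw [ey]; exact cy)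
      rw [ex, ey] at this
      exact this.mono (by omega)
    · have r0 := R.a1 a0
      have r2 : r ≤ 2 := R.r_le.trans (Finset.card_le_two)
      obtain ⟨t1, t2⟩ := R.train 1 le_rfl r0
      have d1 := (R.mem (j := a + 1) (by omega)).2
      have e1 : γ (a + 1) = x := by
        rcases mQ _ t1 with e | e
        · exact e
        · rw [e] at d1; omega
      rw [e1] at t2
      have h3 : 3 ≤ N.card := R.cnt 1 le_rfl r0 y yQ (hl.trans e1.symm)
      have a01 : Y.Adj (γ 0) (γ 1) := R.adj h (j := 0) (by omega)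
      have a12 : Y.Adj (γ 1) (γ 2) := R.adj h (j := 1) (by omega)
      have n1 : γ 1 ∉ N := R.nm le_rfl (by omega)
      have n2 : γ 2 ∉ N := R.nm (by omega) (by omega)
      rcases Nat.lt_or_ge r 2 with r1 | r1
      · have r1' : r = 1 := by omega
        subst r1'
        have ey : c y = c0 y := R.home y yQ (by omega)
        have py : par y = γ (a + 1) := hl.trans e1.symm
        have hred := (R.low y yQ py).2.2
        have haω : a ≤ ω := by
          refine R.a_le h hv (fun x' hx' y' hy' e => ?_) yQ py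
          rcases mQ _ hx' with e' | e'
          · rw [e']; exact hω hl
          · have := h.dp y' (hQ hy') (fun e2 => hv (e2 ▸ hy'))
            rw [e, e'] at this
            rcases mQ _ hy' with e3 | e3 <;> rw [e3] at this <;> omega
        obtain ⟨δ, hδ0, hδ⟩ : ∃ δ : ℕ → V, δ 0 = y ∧ ∀ j, 1 ≤ j → δ j = γ (a + 2 - j) :=
          ⟨fun j => if j = 0 then y else γ (a + 2 - j), if_pos rfl,
            fun j hj => if_neg (by omega)⟩
        have dδ : ∀ j ≤ a, d (δ j) + j = d (γ 0) + (a + 2) := by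
          intro j hj
          rcases Nat.eq_zero_or_pos j with e | e
          · rw [e, hδ0]; omega
          · rw [hδ j e, (R.mem (j := a + 2 - j) (by omega)).2]; omega
        obtain ⟨c', s1, s2, -, s4⟩ := shift (Y := Y) (col := col) δ c a (fun j hj => by
            rcases Nat.eq_zero_or_pos j with e | e
            · rw [e, hδ0, hδ (0 + 1) (by omega), show a + 2 - (0 + 1) = a + 1 by omega, e1]
              exact ay.symm
            · rw [hδ j e, hδ (j + 1) (by omega), show a + 2 - j = a + 2 - (j + 1) + 1 by omega]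
              exact (R.adj h (by omega)).symm)
          (fun i hi j hj e => by
            have e2 := dδ i hi
            have e3 := dδ j hj
            rw [e] at e2
            omega)
          (fun j h1 h2 => by
            rw [hδ j h1, hred (a + 2 - j) (by omega) (by omega), hδ0, ey]
            exact cy.symm)
        rw [hδ a a0, show a + 2 - a = 2 by omega, hδ0, ey] at s2
        have s5 : c' (γ 1) = c0 x := by
          rw [s4 _ (fun j hj e => by
            have e2 := dδ j hj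
            rw [← e, (R.mem (j := 1) (by omega)).2] at e2
            omega), t2]
        have red' : ∀ z ∈ N, col (c' z) = κ := by
          intro z hz
          rw [s4 z (fun j hj e => ?_)]
          · exact R.red z hz
          · rcases Nat.eq_zero_or_pos j with e0 | e0
            · rw [e0, hδ0] at e
              exact yN (e ▸ hz)
            · rw [hδ j e0] at e
              exact R.nm (j := a + 2 - j) (by omega) (by omega) (e ▸ hz)
        have := leafV (c := c') R.jn a01 a12 R.con R.gN n1 n2 red' h3 h16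
          (by rw [s5]; exact cx) (by rw [s2]; exact cy)
        rw [s5, s2] at this
        exact (this.transport (s1.rn le_rfl)).mono (by omega)
      · obtain ⟨t3, t4⟩ := R.train 2 (by omega) r1
        have d2 := (R.mem (j := a + 2) (by omega)).2
        have e2 : γ (a + 2) = y := by
          rcases mQ _ t3 with e | e
          · rw [e] at d2; omega
          · exact e
        rw [e2] at t4
        have := leafV (c := c) R.jn a01 a12 R.con R.gN n1 n2 R.red h3 h16
          (by rw [t2]; exact cx) (by rw [t4]; exact cy)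
        rw [t2, t4] at this
        exact this.mono (by omega)
  · have dyx : d x = d y := by rw [← dx, ← dy, hl]
    have px : par x = γ a := by
      rcases R.hp.2 x xQ with e | e
      · rcases mQ _ e with e | e <;> rw [e] at dx <;> omega
      · exact e
    have py : par y = γ a := hl.symm.trans px
    rcases Nat.eq_zero_or_pos a with a0 | a0
    · have r0 := R.a0 a0
      subst a0
      subst r0
      rw [px] at dx ax
      rw [py] at dy ay
      have xN : x ∉ N := R.av x xQ 0 (by omega)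
      have yN : y ∉ N := R.av y yQ 0 (by omega)
      have ex : c x = c0 x := R.home x xQ (by omega)
      have ey : c y = c0 y := R.home y yQ (by omega)
      have h8 := (R.low x xQ px).2.1
      have := leafS (c := c) R.jn ax ay hxy R.con R.gN xN yN R.red (by omega) h16
        (by rw [ex]; exact cx) (by rw [ey]; exact cy)
      rw [ex, ey] at this
      exact this.mono (by omega)
    · have r0 := R.a1 a0
      exact absurd (h.child_unique (R.njn a a0 (by omega)) hx hy hxv hyv px py) hxy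

end FSDiam
end

-- part LslA
section
namespace FSDiam
open Equiv

variable {V T : Type*} [DecidableEq V] [Fintype V] [Fintype T] [DecidableEq T]
variable {Y : SimpleGraph V} {col : T → Bool} {κ : Bool}
variable {Ω : Finset V} {v : V} {d : V → ℕ} {par : V → V}

theorem rebase (h : PT Y Ω v d par) {c0 c : V ≃ T} {Q Q' : Finset V} {q : ℕ} {w' : V}
    (hQ : Q ⊆ Ω) (hv : v ∉ Q) (hblue : ∀ y ∈ Q, col (c0 y) ≠ κ)
    (R : Ready Y col κ Ω d par c0 c Q (2 * q)) (hcard : Q.card ≤ 2 * q) (hsub : Q' ⊆ Q)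
    (hne : Q'.Nonempty) (hp : HP par Q' w') (hcard' : Q'.card ≤ q) {ω : ℕ}
    (hω : ∀ x ∈ Q, ∀ y ∈ Q, par y = x → lam Y par x ≤ ω) :
    ∃ c', Rn Y col (400 * q * (q + ω)) c c' ∧ Ready Y col κ Ω d par c0 c' Q' q := by
  obtain ⟨a, r, γ, N, R⟩ := R
  by_cases hw : d (γ 0) + (a + r) ≤ d w'
  · exact rebaseA h hQ hv hblue R hcard hsub hne hp hcard' hω hw
  · obtain ⟨c', h1, h2⟩ := rebaseB h hQ hv hblue R hcard hsub hne hp hcard' (not_le.1 hw)
    exact ⟨c', h1.mono (Nat.mul_le_mul_left _ (Nat.le_add_right _ _)), h2⟩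

theorem lsla_link (h : PT Y Ω v d par) {c0 c : V ≃ T} {Q : Finset V} (hQ : Q ⊆ Ω)
    (hv : v ∉ Q) (hblue : ∀ y ∈ Q, col (c0 y) ≠ κ)
    (hcard : Q.card ≤ 4) (R : Ready Y col κ Ω d par c0 c Q 4) {ω : ℕ}
    (hω : ∀ x ∈ Q, ∀ y ∈ Q, par y = x → lam Y par x ≤ ω) {x y : V} (hx : x ∈ Q) (hy : y ∈ Q)
    (hxy : x ≠ y) (hl : par y = x ∨ par x = par y) :
    Pure Y col (3400 * (1 + ω)) c (c0 x) (c0 y) := by
  have hxv : x ≠ v := fun e => hv (e ▸ hx)
  have hyv : y ≠ v := fun e => hv (e ▸ hy)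
  have dx := h.dp x (hQ hx) hxv
  have dy := h.dp y (hQ hy) hyv
  have hp : HP par {x, y} (par x) := by
    refine ⟨fun hm => ?_, fun z hz => ?_⟩
    · rcases Finset.mem_insert.1 hm with e | e
      · rw [e] at dx; omega
      · rw [Finset.mem_singleton] at e
        rcases hl with e' | e'
        · rw [e] at dx; rw [e'] at dy; omega
        · rw [← e', e] at dy; omega
    · rcases Finset.mem_insert.1 hz with e | e
      · exact Or.inr (by rw [e])
      · rw [Finset.mem_singleton] at e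
        rcases hl with e' | e'
        · exact Or.inl (by rw [e, e']; exact Finset.mem_insert_self _ _)
        · exact Or.inr (by rw [e, e'])
  have hsub : ({x, y} : Finset V) ⊆ Q :=
    Finset.insert_subset hx (Finset.singleton_subset_iff.2 hy)
  obtain ⟨c', h1, h2⟩ := rebase (q := 2) h hQ hv hblue R hcard hsub
    (Finset.insert_nonempty _ _) hp Finset.card_le_two hω
  have h3 := leaf_link h (hQ hx) (hQ hy) hxv hyv hxy hl (hblue x hx) (hblue y hy) h2
    (hω x hx y hy)
  exact (h3.transport h1).mono (by omega)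

/-- One link inside a window that is ready at scale four: `rebase` to `{x, y}`, `leaf_link`. Two
roots of `X` are siblings. -/
theorem link_pure (h : PT Y Ω v d par) {c0 c : V ≃ T} {X Q : Finset V} {w : V} (hX : X ⊆ Ω)
    (hv : v ∉ X) (hp : HP par X w) (hblue : ∀ y ∈ X, col (c0 y) ≠ κ) (hQ : Q ⊆ X)
    (hcard : Q.card ≤ 4) (R : Ready Y col κ Ω d par c0 c Q 4) {ω : ℕ}
    (hω : ∀ x ∈ Q, ∀ y ∈ Q, par y = x → lam Y par x ≤ ω) {x y : V} (hx : x ∈ Q) (hy : y ∈ Q)
    (hl : Lk par X x y) : Pure Y col (3400 * (1 + ω)) c (c0 x) (c0 y) := by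
  by_cases hxy : x = y
  · rw [hxy]; exact Pure.refl _ _ _
  have hQΩ : Q ⊆ Ω := hQ.trans hX
  have hvQ : v ∉ Q := fun hh => hv (hQ hh)
  have hb : ∀ y ∈ Q, col (c0 y) ≠ κ := fun y hy => hblue y (hQ hy)
  rcases hl with e | e | e | e | e
  · exact absurd e hxy
  · exact (lsla_link h hQΩ hvQ hb hcard R hω hy hx (Ne.symm hxy) (Or.inl e)).symm
  · exact lsla_link h hQΩ hvQ hb hcard R hω hx hy hxy (Or.inl e)
  · exact lsla_link h hQΩ hvQ hb hcard R hω hx hy hxy (Or.inr e)
  · refine lsla_link h hQΩ hvQ hb hcard R hω hx hy hxy (Or.inr ?_)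
    rw [(hp.2 x (hQ hx)).resolve_left e.1, (hp.2 y (hQ hy)).resolve_left e.2]

end FSDiam
end

-- part Lsl
section
namespace FSDiam
open Equiv

variable {V T : Type*} [DecidableEq V] [Fintype V] [Fintype T] [DecidableEq T]
variable {Y : SimpleGraph V} {col : T → Bool} {κ : Bool}
variable {Ω : Finset V} {v : V} {d : V → ℕ} {par : V → V}

omit [Fintype V] in
theorem lsl_z (z u : ℕ → V) {a b i : ℕ} (h1 : a ≤ i) (h2 : i < b) : z i ∈ Qh z u a b :=
  Finset.mem_union_left _ (Finset.mem_image_of_mem z (Finset.mem_Ico.2 ⟨h1, h2⟩))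

omit [Fintype V] in
theorem lsl_u (z u : ℕ → V) {a b i : ℕ} (h1 : a ≤ i) (h2 : i + 1 < b) : u i ∈ Qh z u a b :=
  Finset.mem_union_right _ (Finset.mem_image_of_mem u (Finset.mem_Ico.2 ⟨h1, by omega⟩))

theorem lsl_hp (h : PT Y Ω v d par) {X : Finset V} {w : V} (hX : X ⊆ Ω) (hv : v ∉ X)
    (hp : HP par X w) {z u : ℕ → V} (hs : Sek par X z u) {a b : ℕ} (hb : b ≤ X.card) :
    ∃ w', HP par (Qh z u a b) w' := by
  rcases Sek.hull h hX hv hs (a := a) hb with h1 | ⟨w', -, h1⟩
  · refine ⟨w, fun hw => hp.1 (hs.Qh_sub hb hw), fun y hy => ?_⟩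
    rcases h1 y hy with h2 | h2
    · exact Or.inl h2
    · rcases hp.2 y (hs.Qh_sub hb hy) with h3 | h3
      · exact absurd h3 h2
      · exact Or.inr h3
  · exact ⟨w', h1⟩

theorem lsl_leaf (h : PT Y Ω v d par) {c0 c : V ≃ T} {X : Finset V} {w : V} (hX : X ⊆ Ω)
    (hv : v ∉ X) (hp : HP par X w) (hblue : ∀ y ∈ X, col (c0 y) ≠ κ) {z u : ℕ → V}
    (hs : Sek par X z u) {a : ℕ} (ha : a + 1 < X.card)
    (R : Ready Y col κ Ω d par c0 c (Qh z u a (a + 2)) 4) :
    Ev Y col κ (11000 * (1 + wt Y par z u X.card a)) c (swap (c0 (z a)) (c0 (z (a + 1)))) := by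
  have hb : a + 2 ≤ X.card := ha
  have hQ : Qh z u a (a + 2) ⊆ X := hs.Qh_sub hb
  have hc : (Qh z u a (a + 2)).card ≤ 4 := (Qh_card z u a (a + 2)).trans (by omega)
  have hω : ∀ x ∈ Qh z u a (a + 2), ∀ y ∈ Qh z u a (a + 2), par y = x →
      lam Y par x ≤ wt Y par z u X.card a := by
    intro x hx y hy e
    have h1 := Sek.lam_le h hX hv hs hb (le_refl (a + 2)) x hx y hy e
    have e1 : a + 2 - 1 = a + 1 := by omega
    rwa [e1, Nat.Ico_succ_singleton, Finset.sum_singleton] at h1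
  have m1 : z a ∈ Qh z u a (a + 2) := lsl_z z u le_rfl (by omega)
  have m2 : u a ∈ Qh z u a (a + 2) := lsl_u z u le_rfl (by omega)
  have m3 : z (a + 1) ∈ Qh z u a (a + 2) := lsl_z z u (by omega) (by omega)
  obtain ⟨-, l1, l2⟩ := hs.um a ha
  have p1 := link_pure h hX hv hp hblue hQ hc R hω m1 m2 l1
  have p2 := link_pure h hX hv hp hblue hQ hc R hω m2 m3 l2
  exact ((p1.chain p2).ev (hblue _ (hQ m1))).mono (by omega)

theorem lsl_step (h : PT Y Ω v d par) {c0 c : V ≃ T} {X : Finset V} {w : V} (hX : X ⊆ Ω)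
    (hv : v ∉ X) (hp : HP par X w) (hblue : ∀ y ∈ X, col (c0 y) ≠ κ) {z u : ℕ → V}
    (hs : Sek par X z u) {a a' p : ℕ} (hp1 : 1 ≤ p) (h1 : a ≤ a') (h2 : a' + p ≤ a + 2 * p)
    (h3 : a' < X.card)
    (R : Ready Y col κ Ω d par c0 c (Qh z u a (min (a + 2 * p) X.card)) (2 * (2 * p))) :
    ∃ c', Rn Y col (11000 * (2 * p) *
        (2 * p + ∑ i ∈ Finset.Ico a (a + 2 * p - 1), wt Y par z u X.card i)) c c' ∧
      Ready Y col κ Ω d par c0 c' (Qh z u a' (min (a' + p) X.card)) (2 * p) := by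
  have hb : min (a + 2 * p) X.card ≤ X.card := min_le_right _ _
  have hb' : min (a' + p) X.card ≤ X.card := min_le_right _ _
  have hQ : Qh z u a (min (a + 2 * p) X.card) ⊆ X := hs.Qh_sub hb
  obtain ⟨w', hw'⟩ := lsl_hp h hX hv hp hs (a := a') hb'
  obtain ⟨c', r, R'⟩ := rebase h (hQ.trans hX) (fun hh => hv (hQ hh))
    (fun y hy => hblue y (hQ hy)) R ((Qh_card z u a _).trans (by omega))
    (Qh_mono z u (b' := min (a' + p) X.card) h1 (by omega))
    ⟨z a', lsl_z z u le_rfl (by omega)⟩ hw' ((Qh_card z u a' _).trans (by omega))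
    (Sek.lam_le h hX hv hs hb (min_le_left _ _))
  exact ⟨c', r.mono (Nat.mul_le_mul_right _ (by omega)), R'⟩

/-- `merge_sort` with the tokens `c0 (z i)`, `K = 11000`, `w = wt Y par z u X.card` and
`Rd c a j := X.card ≤ a ∨ Ready … c (Qh z u a (min (a + 2 ^ j) X.card)) (2 ^ (j + 1))`. The first
alternative of `Sek.hull` gives `HP … w`. -/
theorem lsl (h : PT Y Ω v d par) {c0 c : V ≃ T} {X : Finset V} {w : V} (hX : X ⊆ Ω) (hv : v ∉ X)
    (hp : HP par X w) (hblue : ∀ y ∈ X, col (c0 y) ≠ κ) {J : ℕ} (hJ : 1 ≤ J)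
    (hcard : X.card ≤ 2 ^ J) (R : Ready Y col κ Ω d par c0 c X (2 ^ (J + 1))) :
    Sy Y col κ (10 ^ 7 * J * 2 ^ J * (2 ^ J + ∑ x ∈ X, lam Y par x)) c (X.image c0) := by
  obtain ⟨z, u, hs⟩ := exists_sek h X hX hv
  have key := merge_sort (Y := Y) (col := col) (κ := κ) (z := fun i => c0 (z i)) (μ := X.card)
    (K := 11000) (J := J) (w := wt Y par z u X.card)
    (Rd := fun c a j => X.card ≤ a ∨
      Ready Y col κ Ω d par c0 c (Qh z u a (min (a + 2 ^ j) X.card)) (2 ^ (j + 1)))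
    (fun i hi j hj e => hs.zi i hi j hj (c0.injective e))
    (fun c a hR ha => by
      rcases hR with hR | hR
      · omega
      · have e1 : min (a + 2 ^ 1) X.card = a + 2 := by omega
        have e2 : 2 ^ (1 + 1) = 4 := by norm_num
        rw [e1, e2] at hR
        exact lsl_leaf h hX hv hp hblue hs ha hR)
    (fun c a j a' _ hR h1 h2 => by
      by_cases h3 : X.card ≤ a'
      · exact ⟨c, Rn.refl _ _, Or.inl h3⟩
      · have e1 : 2 ^ (j + 1) = 2 * 2 ^ j := by ring
        have e2 : 2 ^ (j + 1 + 1) = 2 * (2 * 2 ^ j) := by ring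
        rcases hR with hR | hR
        · omega
        · rw [e2, e1] at hR
          rw [e1] at h2
          obtain ⟨c', r, R'⟩ := lsl_step h hX hv hp hblue hs Nat.one_le_two_pow h1 h2
            (not_le.1 h3) hR
          refine ⟨c', ?_, Or.inr ?_⟩
          · rw [e1]; exact r
          · rw [e1]; exact R')
    hJ hcard (c := c) (Or.inr (by
      have e1 : min (0 + 2 ^ J) X.card = X.card := by omega
      rw [e1, hs.Qh_all]
      exact R))
  refine (key.mono ?_).sub ?_
  · have h1 := hs.sum_wt (Y := Y) (2 ^ J)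
    have h2 : 2 ^ J + ∑ i ∈ Finset.range (2 ^ J), wt Y par z u X.card i ≤
        3 * (2 ^ J + ∑ x ∈ X, lam Y par x) := by omega
    calc 200 * 11000 * J * 2 ^ J * (2 ^ J + ∑ i ∈ Finset.range (2 ^ J), wt Y par z u X.card i)
        ≤ 200 * 11000 * J * 2 ^ J * (3 * (2 ^ J + ∑ x ∈ X, lam Y par x)) :=
          Nat.mul_le_mul_left _ h2
      _ = 6600000 * (J * 2 ^ J * (2 ^ J + ∑ x ∈ X, lam Y par x)) := by ring
      _ ≤ 10 ^ 7 * (J * 2 ^ J * (2 ^ J + ∑ x ∈ X, lam Y par x)) :=
          Nat.mul_le_mul_right _ (by norm_num)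
      _ = 10 ^ 7 * J * 2 ^ J * (2 ^ J + ∑ x ∈ X, lam Y par x) := by ring
  · intro t ht
    obtain ⟨x, hx, rfl⟩ := Finset.mem_image.1 ht
    obtain ⟨i, hi, rfl⟩ := hs.zs x hx
    exact Finset.mem_image.2 ⟨i, Finset.mem_range.2 hi, rfl⟩

end FSDiam
end

-- part Lsl0
section
namespace FSDiam
open Equiv

variable {V T : Type*} [DecidableEq V] [Fintype V] [Fintype T] [DecidableEq T]
variable {Y : SimpleGraph V} {col : T → Bool} {κ : Bool}
variable {Ω : Finset V} {v : V} {d : V → ℕ} {par : V → V}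

/-- A tree on `insert g X` (`exists_PT`), `J = Nat.log 2 t + 1`, `t < 2 ^ J ≤ 2 t`, `mk_ready` with
`a = 0`, `w = g`, `q = 2 ^ (J + 1)`, `ν = 4 q ≤ 16 t`, then `lsl` and `sum_lam` with
`W = insert g X`. An empty `X` is `Sy.small`. -/
theorem lsl1 {c : V ≃ T} {g : V} (hJ : Jn Y g) {X U R : Finset V} (hg : g ∉ X)
    (hX : Con Y ((insert g X : Finset V) : Set V)) (hblue : ∀ y ∈ X, col (c y) ≠ κ)
    (hU : Con Y (U : Set V)) (hgU : g ∈ U) (hdis : ∀ x ∈ X, x ∉ U) (hRU : R ⊆ U)
    (hR : ∀ x ∈ R, col (c x) = κ) {t k : ℕ} (ht : X.card ≤ t) (h1 : 1 ≤ t) (htk : t ≤ k)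
    (hRc : 16 * t ≤ R.card) : Sy Y col κ (cw (Fintype.card V) k) c (X.image c) := by
  rcases X.eq_empty_or_nonempty with rfl | hne
  · exact Sy.small (by simp)
  obtain ⟨d, par, h, -⟩ := exists_PT hJ (Finset.mem_insert_self g X) (Finset.Subset.refl _) hX hX
  have hQ : X ⊆ insert g X := Finset.subset_insert g X
  have hp : HP par X g := ⟨hg, fun y hy => (Finset.mem_insert.1 (h.pm y (hQ hy))).symm⟩
  obtain ⟨J, hJ'⟩ : ∃ J, J = Nat.log 2 t + 1 := ⟨_, rfl⟩
  have p1 : t < 2 ^ J := by rw [hJ']; exact Nat.lt_pow_succ_log_self (by omega) t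
  have p2 : 2 ^ J ≤ 2 * t := by
    have := Nat.pow_log_le_self 2 (show t ≠ 0 by omega)
    rw [hJ', pow_succ]
    omega
  have p3 : J ≤ Nat.log 2 k + 1 := by
    have := Nat.log_mono_right (b := 2) htk
    omega
  have p4 : 2 ^ (J + 1) = 2 * 2 ^ J := by rw [pow_succ, mul_comm]
  have p5 := Finset.card_le_card hRU
  obtain ⟨c', hr, hrd⟩ := mk_ready (κ := κ) (c0 := c) (c := c) (q := 2 ^ (J + 1)) (a := 0)
    (ν := 4 * 2 ^ (J + 1)) (U := U) (R := R) h hQ hg hne hp (by omega) hblue (fun _ _ => rfl)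
    (Nat.zero_le _) hJ (fun j hj => absurd hj (Nat.not_lt_zero j)) hU hgU
    (fun y hy j hj => hdis _ ((h.hp_depth hQ hg hp hy).2.2.2.2 j hj))
    (fun x hx => Or.inl (hRU hx)) hR (by omega) (by omega) (by omega) (by omega) (by omega)
    (fun h0 => absurd h0 (lt_irrefl 0))
  have hs : ∑ x ∈ X, lam Y par x ≤ (insert g X).card :=
    h.sum_lam hQ hg fun x hx j _ _ => h.it_mem (hQ hx) j
  have hs2 := Finset.card_insert_le g X
  refine ((lsl h hQ hg hp hblue (J := J) (by omega) (by omega) hrd).transport hr).mono ?_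
  have e1 : 10 ^ 7 * J * 2 ^ J * (2 ^ J + ∑ x ∈ X, lam Y par x) ≤
      10 ^ 7 * (Nat.log 2 k + 1) * (2 * k) * (4 * k) :=
    Nat.mul_le_mul (Nat.mul_le_mul (Nat.mul_le_mul_left _ p3) (by omega)) (by omega)
  have e2 : (4 * 2 ^ (J + 1) + 0) * (U.card + 0) ≤ (16 * k) * Fintype.card V :=
    Nat.mul_le_mul (by omega) (Finset.card_le_univ U)
  obtain ⟨A, hA⟩ : ∃ A, A = k * (k * (Nat.log 2 k + 1)) := ⟨_, rfl⟩
  obtain ⟨B, hB⟩ : ∃ B, B = k * Fintype.card V := ⟨_, rfl⟩
  have e3 : 10 ^ 7 * (Nat.log 2 k + 1) * (2 * k) * (4 * k) = 80000000 * A := by rw [hA]; ring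
  have e4 : (16 * k) * Fintype.card V = 16 * B := by rw [hB]; ring
  have e5 : cw (Fintype.card V) k = 10000000000 * B + 10000000000 * A := by
    rw [cw, hA, hB]; ring
  rw [mul_zero]
  omega

end FSDiam
end

-- part NbB
section
namespace FSDiam
open Equiv

variable {V T : Type*} [DecidableEq V] [Fintype V] [Fintype T] [DecidableEq T]
variable {Y : SimpleGraph V} {col : T → Bool} {κ : Bool}
variable {Ω : Finset V} {v : V} {d : V → ℕ} {par : V → V}

/-- Let `j0 ≥ L` be largest with `j0 ≤ M` and `g = vp j0` a junction. The vertices `vp j`,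
`j0 < j ≤ M`, have no child off the path (neighbours: parent and `vp (j + 1)`, or `y`). `lsl1` at
`c0` with `X = ({vp j, i - D ≤ j < j0} ∪ Q) \ {vp j, j0 ≤ j ≤ M}`, `t = 4 D`; `insert g X` is
connected by `con_closed` with top `vp (i - D)` (`par x = par ρ` forces `x = ρ`); `U` =
non-descendants of `g1`, `vp j` for `1 ≤ j < i - D` and for `j0 ≤ j ≤ M` (edge `z y`), `R = S`
(`md_path`). All of `Q` are descendants of `ρ`. -/
theorem nb_B {k D : ℕ} {S : Finset V} {c0 : V ≃ T} (C : Ctx Y col κ k v d par S c0)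
    {Q : Finset V} {ρ g1 z y : V} {i M L : ℕ} (hm : Md Y d par S D Q ρ) (hg : top Y par ρ = g1)
    (hi : iota Y par ρ = i) (hM : d z - d (par g1) = M) (ho : Out Y d par g1 z y)
    (hS : ∀ x ∈ Q, x ∉ S) (hQ : Q.card ≤ D) (hk : 64 * D ≤ k) (hL : i ≤ L) (hLM : L ≤ M)
    (hJ : Jn Y (vp d par g1 z L)) (hshort : M < i + 2 * D) :
    ∃ W : Finset T, Sy Y col κ (cw (Fintype.card V) k) c0 W ∧
      (∀ j, i ≤ j + D → j < i → c0 (vp d par g1 z j) ∈ W) ∧
      ∀ x ∈ Q, (∃ j, i ≤ j ∧ j ≤ M ∧ x = vp d par g1 z j) ∨ c0 x ∈ W := by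
  classical
  have h := C.pt
  obtain ⟨hρv, hgv, -, hDi, hiM, -, pa, -, nS, hSd⟩ := md_path C hm hg hi hM ho
  obtain ⟨-, p0, -, pM, dp, pp, ds, -⟩ := h.vp_spec hgv ho.1
  rw [hM] at pM dp pp ds
  generalize vp d par g1 z = p at *
  have hD : 1 ≤ D := (Finset.card_pos.2 ⟨ρ, hm.1⟩).trans_le hQ
  have hvQ : v ∉ Q := fun hv => hS v hv C.mem
  have inj : ∀ a ≤ M, ∀ b ≤ M, p a = p b → a = b := fun a ha b hb e => by
    have h1 := dp a ha
    have h2 := dp b hb
    rw [e] at h1
    omega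
  have nv : ∀ j, 1 ≤ j → j ≤ M → p j ≠ v := fun j h1 h2 e => by
    have h3 := dp j h2
    rw [e, h.d0] at h3
    omega
  have pr : ∀ j, 1 ≤ j → j ≤ M → par (p j) = p (j - 1) := fun j h1 h2 => by
    have h3 := (pp (j - 1) (by omega)).1
    rwa [Nat.sub_add_cancel h1] at h3
  have pw : par ρ = p (i - 1) := by
    rw [pa (i - 1) (by omega), show i - (i - 1) = 1 by omega]
    rfl
  have seg : ∀ a b, a ≤ b → b ≤ M → Con Y (((Finset.Icc a b).image p : Finset V) : Set V) := by
    intro a b hab hb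
    refine h.con_closed (Finset.subset_univ _) (g := p a)
      (Finset.mem_image_of_mem _ (Finset.mem_Icc.2 ⟨le_rfl, hab⟩)) fun x hx hne => ?_
    obtain ⟨j, hj, rfl⟩ := Finset.mem_image.1 hx
    rw [Finset.mem_Icc] at hj
    have hja : j ≠ a := fun e => hne (by rw [e])
    refine ⟨nv j (by omega) (by omega), ?_⟩
    rw [pr j (by omega) (by omega)]
    exact Finset.mem_image_of_mem _ (Finset.mem_Icc.2 ⟨by omega, by omega⟩)
  have hQd : ∀ x ∈ Q, Ds d par g1 x ∧ d (par g1) + i ≤ d x := fun x hx => by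
    obtain ⟨-, h1, -, h2, -⟩ := h.hp_depth (Finset.subset_univ _) hvQ hm.2.1 hx
    have h3 := dp (i - 1) (by omega)
    have h4 := ds (i - 1) (by omega) (by omega)
    rw [← pw] at h3 h4
    exact ⟨h.ds_trans (Finset.mem_univ _) h4 ⟨h1.le, h2⟩, by omega⟩
  obtain ⟨j0, hL0, h0M, hJ0, hmax⟩ : ∃ j0, L ≤ j0 ∧ j0 ≤ M ∧ Jn Y (p j0) ∧
      ∀ j, j0 < j → j ≤ M → ¬ Jn Y (p j) :=
    ⟨Nat.findGreatest (fun j => Jn Y (p j)) M, Nat.le_findGreatest hLM hJ, Nat.findGreatest_le M,
      Nat.findGreatest_spec (P := fun j => Jn Y (p j)) hLM hJ,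
      fun j h1 h2 => Nat.findGreatest_is_greatest h1 h2⟩
  obtain ⟨E, hE⟩ : ∃ E, E = (Finset.Icc j0 M).image p := ⟨_, rfl⟩
  obtain ⟨X, hX⟩ : ∃ X, X = ((Finset.Ico (i - D) j0).image p ∪ Q) \ E := ⟨_, rfl⟩
  have mE : ∀ x, x ∈ E ↔ ∃ j, j0 ≤ j ∧ j ≤ M ∧ p j = x := fun x => by
    simp only [hE, Finset.mem_image, Finset.mem_Icc, and_assoc]
  have mX : ∀ x, x ∈ X ↔ ((∃ j, i - D ≤ j ∧ j < j0 ∧ p j = x) ∨ x ∈ Q) ∧ x ∉ E := fun x => by
    simp only [hX, Finset.mem_sdiff, Finset.mem_union, Finset.mem_image, Finset.mem_Ico, and_assoc]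
  have pX : ∀ j, i - D ≤ j → j < j0 → p j ∈ X := fun j h1 h2 => by
    refine (mX _).2 ⟨Or.inl ⟨j, h1, h2, rfl⟩, fun h3 => ?_⟩
    obtain ⟨j', h4, h5, e⟩ := (mE _).1 h3
    have := inj _ h5 _ (by omega) e
    omega
  have gE : p j0 ∈ E := (mE _).2 ⟨j0, le_rfl, h0M, rfl⟩
  have cX : Con Y ((insert (p j0) X : Finset V) : Set V) := by
    refine h.con_closed (Finset.subset_univ _) (g := p (i - D))
      (Finset.mem_insert_of_mem (pX _ le_rfl (by omega))) fun x hx hne => ?_
    have key : ∀ j, i - D < j → j ≤ j0 → p j ≠ v ∧ par (p j) ∈ insert (p j0) X := fun j h1 h2 => by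
      refine ⟨nv j (by omega) (by omega), ?_⟩
      rw [pr j (by omega) (by omega)]
      exact Finset.mem_insert_of_mem (pX _ (by omega) (by omega))
    rcases Finset.mem_insert.1 hx with rfl | hx
    · exact key j0 (by omega) le_rfl
    obtain ⟨⟨j, h1, h2, rfl⟩ | hxQ, hxE⟩ := (mX x).1 hx
    · have hja : j ≠ i - D := fun e => hne (by rw [e])
      exact key j (by omega) h2.le
    have hxv : x ≠ v := fun e => hvQ (e ▸ hxQ)
    refine ⟨hxv, ?_⟩
    rcases hm.2.1.2 x hxQ with h1 | h1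
    · by_cases h2 : par x ∈ E
      · obtain ⟨j, h3, h4, e⟩ := (mE _).1 h2
        rcases h3.eq_or_lt with rfl | h3
        · exact e ▸ Finset.mem_insert_self _ _
        exfalso
        have hn := hmax j h3 h4
        rcases h4.eq_or_lt with rfl | h4
        · rw [e] at hn
          have e' : par x = z := e.symm.trans pM
          rcases h.nbr (Finset.mem_univ _) hxv hn (z := y) (by rw [e']; exact ho.2.2.1) with
            h5 | h5
          · exact ho.2.1 (h5 ▸ (hQd x hxQ).1)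
          · rw [← e, pr j (by omega) le_rfl] at h5
            exact ho.2.1 (h5 ▸ ds (j - 1) (by omega) (by omega))
        · have h5 := h.child_unique hn (Finset.mem_univ _) (Finset.mem_univ _) hxv
            (nv (j + 1) (by omega) h4) e.symm (pp j h4).1
          exact hxE ((mE _).2 ⟨j + 1, by omega, h4, h5.symm⟩)
      · exact Finset.mem_insert_of_mem ((mX _).2 ⟨Or.inr h1, h2⟩)
    · rw [h1, pw]
      exact Finset.mem_insert_of_mem (pX _ (by omega) (by omega))
  obtain ⟨cA, a1, -⟩ := h.con_above hgv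
  obtain ⟨A, hA⟩ : ∃ A : Finset V, A = Finset.univ.filter fun x => ¬ Ds d par g1 x := ⟨_, rfl⟩
  have mA : ∀ x, x ∈ A ↔ ¬ Ds d par g1 x := fun x => by simp [hA]
  have cA' : Con Y (A : Set V) := by
    convert cA using 1
    ext x
    simp [mA]
  have cU : Con Y ((A ∪ (Finset.Icc 0 (i - D - 1)).image p ∪ E : Finset V) : Set V) := by
    rw [Finset.coe_union, Finset.coe_union]
    refine Con.union (Con.union cA' (seg 0 _ (Nat.zero_le _) (by omega)) (x := p 0) (y := p 0)
      ((mA _).2 (p0 ▸ a1)) (Finset.mem_coe.2 (Finset.mem_image_of_mem _ (by simp))) (Or.inl rfl))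
      (hE ▸ seg j0 M h0M le_rfl) (x := y) (y := z) (Or.inl ((mA _).2 ho.2.1))
      ((mE _).2 ⟨M, h0M, le_rfl, pM⟩) (Or.inr ho.2.2.1.symm)
  have main := lsl1 (col := col) (κ := κ) (c := c0) hJ0 (X := X) (R := S)
    (fun h1 => ((mX _).1 h1).2 gE) cX (fun x hx => ?_) cU (Finset.mem_union_right _ gE)
    (fun x hx => ?_) (fun x hx => ?_) (fun x hx => (C.red x).2 hx) (t := 4 * D) (k := k) ?_
    (by omega) (by omega) (by have := C.card; omega)
  · refine ⟨X.image c0, main, fun j h1 h2 => Finset.mem_image_of_mem _ (pX j (by omega) (by omega)),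
      fun x hx => ?_⟩
    by_cases h1 : x ∈ E
    · obtain ⟨j, h2, h3, e⟩ := (mE _).1 h1
      exact Or.inl ⟨j, by omega, h3, e.symm⟩
    · exact Or.inr (Finset.mem_image_of_mem _ ((mX _).2 ⟨Or.inr hx, h1⟩))
  · rw [Ne, C.red]
    obtain ⟨⟨j, h1, h2, rfl⟩ | hxQ, -⟩ := (mX x).1 hx
    · exact nS j (by omega) (by omega)
    · exact hS x hxQ
  · obtain ⟨h1, hxE⟩ := (mX x).1 hx
    have h2 : Ds d par g1 x ∧ d (par g1) + (i - D) ≤ d x := by
      rcases h1 with ⟨j, h1, h2, rfl⟩ | hxQ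
      · exact ⟨ds j (by omega) (by omega), by rw [dp j (by omega)]; omega⟩
      · exact ⟨(hQd x hxQ).1, by have := (hQd x hxQ).2; omega⟩
    intro h3
    rcases Finset.mem_union.1 h3 with h3 | h3
    · rcases Finset.mem_union.1 h3 with h3 | h3
      · exact (mA x).1 h3 h2.1
      · obtain ⟨j, hj, rfl⟩ := Finset.mem_image.1 h3
        rw [Finset.mem_Icc] at hj
        have := dp j (by omega)
        omega
    · exact hxE h3
  · refine Finset.mem_union_left _ ?_
    by_cases h1 : Ds d par g1 x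
    · obtain ⟨j, -, h2, rfl⟩ := hSd x hx h1
      exact Finset.mem_union_right _
        (Finset.mem_image_of_mem _ (Finset.mem_Icc.2 ⟨Nat.zero_le _, by omega⟩))
    · exact Finset.mem_union_left _ ((mA x).2 h1)
  · have h1 : X.card ≤ ((Finset.Ico (i - D) j0).image p ∪ Q).card :=
      hX ▸ Finset.card_le_card Finset.sdiff_subset
    have h2 := Finset.card_union_le ((Finset.Ico (i - D) j0).image p) Q
    have h3 := Finset.card_image_le (s := Finset.Ico (i - D) j0) (f := p)
    rw [Nat.card_Ico] at h3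
    omega

end FSDiam
end

-- part Lsl1
section
namespace FSDiam
open Equiv

variable {V T : Type*} [DecidableEq V] [Fintype V] [Fintype T] [DecidableEq T]
variable {Y : SimpleGraph V} {col : T → Bool} {κ : Bool}
variable {Ω : Finset V} {v : V} {d : V → ℕ} {par : V → V}

theorem lsl1_cost {n k t J ν a u q L W : ℕ} (htk : 16 * t ≤ k) (hJ : J ≤ L + 1)
    (h2J : 2 ^ J ≤ 2 * t) (hq : q ≤ 4 * t) (hν : ν ≤ 8 * q) (hak : a ≤ k) (han : a ≤ n)
    (hu : u ≤ n) (hW : W ≤ t + a) :
    10 ^ 7 * J * 2 ^ J * (2 ^ J + W) + 2 * ((ν + a) * (u + a) + q * a) ≤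
      10 ^ 10 * k * (n + k * (L + 1)) := by
  have e1 : 2 ^ J ≤ k := by omega
  have e2 : 2 ^ J + W ≤ 3 * k := by omega
  have e3 : J * 2 ^ J * (2 ^ J + W) ≤ (L + 1) * k * (3 * k) :=
    Nat.mul_le_mul (Nat.mul_le_mul hJ e1) e2
  have e4 : (ν + a) * (u + a) ≤ (3 * k) * (2 * n) := Nat.mul_le_mul (by omega) (by omega)
  have e5 : q * a ≤ k * n := Nat.mul_le_mul (by omega) han
  have e6 : 10 ^ 7 * J * 2 ^ J * (2 ^ J + W) = 10 ^ 7 * (J * 2 ^ J * (2 ^ J + W)) := by ring
  have e7 : (L + 1) * k * (3 * k) = 3 * (k * (k * (L + 1))) := by ring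
  have e8 : (3 * k) * (2 * n) = 6 * (k * n) := by ring
  have e9 : 10 ^ 10 * k * (n + k * (L + 1)) =
      10 ^ 10 * (k * n) + 10 ^ 10 * (k * (k * (L + 1))) := by ring
  rw [e6, e9]
  rw [e7] at e3
  rw [e8] at e4
  generalize J * 2 ^ J * (2 ^ J + W) = A at *
  generalize (ν + a) * (u + a) = B at *
  generalize q * a = C at *
  generalize k * (k * (L + 1)) = D at *
  generalize k * n = E at *
  norm_num
  omega

/-- `Z` is the set of the vertices of `S` and of the ancestors of `g = par^[iota ρ] ρ` that are no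
descendants of `top ρ`; it is closed under parents. If `Q.card ≤ 1` use `Sy.small`; otherwise `ρ`
has a child in `Q`, so `iota ρ + 2 ≤ k` by `bridge_bound`. `mk_ready` with `w = par ρ`,
`a = iota ρ - 1`, `U = Z`, `R = S` (`ds_run`, `ds_closed`), `J = Nat.log 2 t + 1`, `q = 2 ^ (J + 1)`,
`ν = min (S.card - a) (8 q)`; `hK` is `bridge_bound` again. Then `lsl`; `sum_lam` with
`W = Q ∪ {par^[j] ρ, 1 ≤ j ≤ a}`. -/
theorem win_bridge {k : ℕ} {S : Finset V} {c0 : V ≃ T} (C : Ctx Y col κ k v d par S c0)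
    {Q : Finset V} {ρ : V} (hS : ∀ y ∈ Q, y ∉ S) (hρ : ρ ∈ Q) (hp : HP par Q (par ρ))
    (h2 : 2 ≤ iota Y par ρ) (ho : ¬ ∃ z y, Out Y d par (top Y par ρ) z y) {t : ℕ}
    (ht : Q.card ≤ t) (htk : 16 * t ≤ k) :
    Sy Y col κ (cw (Fintype.card V) k) c0 (Q.image c0) := by
  classical
  have h := C.pt
  by_cases hsm : Q.card ≤ 1
  · exact Sy.small (Finset.card_image_le.trans hsm)
  have hvQ : v ∉ Q := fun hh => hS v hh C.mem
  have hρv : ρ ≠ v := fun e => hvQ (e ▸ hρ)
  have hQ : Q ⊆ Finset.univ := Finset.subset_univ Q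
  obtain ⟨-, hι, hJg, hnJ⟩ := h.iota_spec (Finset.mem_univ ρ) hρv
  obtain ⟨a, ha⟩ : ∃ a, iota Y par ρ = a + 1 := ⟨iota Y par ρ - 1, by omega⟩
  have htop : top Y par ρ = par^[a] ρ := by simp [top, ha]
  rw [htop] at ho
  rw [ha] at hι hJg hnJ h2
  have hdit : ∀ x j, d (par^[j] x) = d x - j := fun x j => h.d_it (Finset.mem_univ x) j
  have hdw : d (par ρ) = d ρ - 1 := hdit ρ 1
  have hgw : par^[a] (par ρ) = par^[a + 1] ρ := (Function.iterate_succ_apply par a ρ).symm
  have hpg : par (par^[a] ρ) = par^[a + 1] ρ := (Function.iterate_succ_apply' par a ρ).symm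
  have hdg : d (par^[a + 1] ρ) = d ρ - (a + 1) := hdit ρ _
  have hdg1 : d (par^[a] ρ) = d ρ - a := hdit ρ _
  have hg1v : par^[a] ρ ≠ v := by
    intro e
    have := h.d0
    rw [← e, hdg1] at this
    omega
  have hwJ : ¬ Jn Y (par ρ) := hnJ 1 le_rfl (by omega)
  have hds : ∀ y ∈ Q, Ds d par ρ y := by
    intro y hy
    obtain ⟨-, e1, -, e3, e4⟩ := h.hp_depth hQ hvQ hp hy
    have e5 : par^[d y - d ρ] y ∈ Q := e4 _ (by omega)
    refine ⟨by omega, h.child_unique hwJ (Finset.mem_univ _) (Finset.mem_univ _)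
      (fun e => hvQ (e ▸ e5)) hρv ?_ rfl⟩
    rw [← Function.iterate_succ_apply' par, ← e3]
    congr 1
    omega
  have hds1 : ∀ y ∈ Q, Ds d par (par^[a] ρ) y := fun y hy =>
    h.ds_trans (Finset.mem_univ y) (h.ds_it (Finset.mem_univ ρ) (by omega)) (hds y hy)
  have hk3 : 3 ≤ k := by omega
  have hn : ∀ j, 1 ≤ j → j ≤ a → ¬ Jn Y (par^[j] ρ) := fun j h1 hj => hnJ j h1 (by omega)
  have hak : a + 3 ≤ k := by
    obtain ⟨y, hy, hyρ⟩ : ∃ y ∈ Q, y ≠ ρ := by
      by_contra hcon
      push Not at hcon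
      exact hsm (Finset.card_le_one.2 fun x hx y hy => (hcon x hx).trans (hcon y hy).symm)
    obtain ⟨e1, e2⟩ := hds y hy
    obtain ⟨-, -, -, -, e4⟩ := h.hp_depth hQ hvQ hp hy
    have e3 : d y - d ρ ≠ 0 := by
      intro e
      rw [e] at e2
      exact hyρ e2
    have e5 : par^[d y - d ρ - 1] y ∈ Q := e4 _ (by omega)
    refine h.bridge_bound hk3 C.nbr (x := ρ) (y := par^[d y - d ρ - 1] y) (by omega) hJg hn
      (fun e => hvQ (e ▸ e5)) ?_ ho
    rw [← Function.iterate_succ_apply' par]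
    have e6 : (d y - d ρ - 1).succ = d y - d ρ := by omega
    rw [e6]
    exact e2
  obtain ⟨-, hA1, hA2⟩ := h.con_above hg1v
  obtain ⟨U, hUdef⟩ : ∃ U : Finset V, ∀ x, x ∈ U ↔ ¬ Ds d par (par^[a] ρ) x ∧
      (x ∈ S ∨ ∃ j, x = par^[j] (par^[a + 1] ρ)) :=
    ⟨Finset.univ.filter fun x => ¬ Ds d par (par^[a] ρ) x ∧
      (x ∈ S ∨ ∃ j, x = par^[j] (par^[a + 1] ρ)), fun x => by
        rw [Finset.mem_filter]
        exact and_iff_right (Finset.mem_univ x)⟩
  have hU : Con Y (U : Set V) := by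
    refine h.con_closed (Finset.subset_univ U) (g := v) ((hUdef v).2 ⟨hA2, Or.inl C.mem⟩) ?_
    intro x hx hxv
    obtain ⟨e1, e2⟩ := (hUdef x).1 hx
    refine ⟨hxv, (hUdef _).2 ⟨fun e => e1 (h.ds_child (Finset.mem_univ x) hxv e), ?_⟩⟩
    rcases e2 with e2 | ⟨j, e2⟩
    · exact Or.inl (C.closed x e2)
    · exact Or.inr ⟨j + 1, by rw [Function.iterate_succ_apply', ← e2]⟩
  have hRU : ∀ x ∈ S, x ∈ U ∨ ∃ j < a, x = par^[j] (par ρ) := by
    intro x hx
    by_cases e : Ds d par (par^[a] ρ) x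
    · rcases h.ds_run (Finset.mem_univ ρ) (Finset.mem_univ x) (by omega) hn e with
        ⟨j, h1, hj, e1⟩ | e1
      · refine Or.inr ⟨j - 1, by omega, ?_⟩
        rw [← Function.iterate_succ_apply, e1]
        congr 1
        omega
      · exact absurd (ds_closed C.closed e1 hx) (hS ρ hρ)
    · exact Or.inl ((hUdef x).2 ⟨e, Or.inl hx⟩)
  have hSU : S.card ≤ U.card + a := by
    have e1 : S ⊆ U ∪ (Finset.range a).image fun j => par^[j] (par ρ) := by
      intro x hx
      rcases hRU x hx with e | ⟨j, hj, e⟩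
      · exact Finset.mem_union_left _ e
      · exact Finset.mem_union_right _ (Finset.mem_image.2 ⟨j, Finset.mem_range.2 hj, e.symm⟩)
    have e2 := (Finset.card_le_card e1).trans (Finset.card_union_le _ _)
    have e3 : ((Finset.range a).image fun j => par^[j] (par ρ)).card ≤ a :=
      Finset.card_image_le.trans (by simp)
    omega
  have hkS := C.card
  have ht0 : t ≠ 0 := by omega
  have hlt : t < 2 ^ (Nat.log 2 t + 1) := Nat.lt_pow_succ_log_self (by norm_num) t
  have hle : 2 ^ (Nat.log 2 t + 1) ≤ 2 * t := by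
    have := Nat.pow_log_le_self 2 ht0
    rw [pow_succ]
    omega
  have hlog : Nat.log 2 t + 1 ≤ Nat.log 2 k + 1 :=
    Nat.succ_le_succ (Nat.log_mono_right (by omega))
  generalize Nat.log 2 t + 1 = J at hlt hle hlog
  have hJ1 : 1 ≤ J := by
    rcases J with _ | J
    · simp at hlt
      omega
    · omega
  have hq : 2 ^ (J + 1) = 2 * 2 ^ J := by rw [pow_succ]; omega
  have hblue : ∀ y ∈ Q, col (c0 y) ≠ κ := fun y hy e => hS y hy ((C.red y).1 e)
  obtain ⟨c', hr, hR⟩ := mk_ready h (c0 := c0) (c := c0) (q := 2 ^ (J + 1)) (a := a)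
    (ν := min (S.card - a) (8 * 2 ^ (J + 1))) (U := U) (R := S) hQ hvQ ⟨ρ, hρ⟩ hp (by omega) hblue
    (fun _ _ => rfl) (by omega) (hgw ▸ hJg)
    (fun j hj => by
      rw [← Function.iterate_succ_apply]
      exact hn _ (by omega) (by omega))
    hU (by
      rw [hgw]
      exact (hUdef _).2 ⟨hpg ▸ hA1, Or.inr ⟨0, rfl⟩⟩)
    (fun y hy j hj hh => by
      rw [hgw, hdg] at hj
      refine ((hUdef _).1 hh).1 (h.ds_cmp (Finset.mem_univ y) (hds1 y hy)
        (h.ds_it (Finset.mem_univ y) (by omega)) ?_)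
      rw [hdit, hdit]
      omega)
    hRU (fun x hx => (C.red x).2 hx) (by omega) (by omega) (by omega) (by omega) (by omega)
    (fun _ y hy hx hnn => by
      rw [hgw, hdg] at hnn
      obtain ⟨-, -, e1, -, -⟩ := h.hp_depth hQ hvQ hp hx
      obtain ⟨e2, e3⟩ := hds1 _ hx
      obtain ⟨e4, -⟩ := hds _ hx
      have e5 : d (par y) - d (par^[a] ρ) + 3 ≤ k := by
        refine h.bridge_bound hk3 C.nbr (x := par y) (y := y) (by omega) ?_
          (fun j h1 hj => hnn j h1 (by omega)) (fun e => hvQ (e ▸ hy)) rfl (by rw [e3]; exact ho)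
        rw [Function.iterate_succ_apply', e3, hpg]
        exact hJg
      omega)
  have hsum : ∑ x ∈ Q, lam Y par x ≤
      (Q ∪ (Finset.Icc 1 a).image fun j => par^[j] ρ).card := by
    refine h.sum_lam hQ hvQ fun x hx j h1 hj => ?_
    obtain ⟨-, -, -, -, e4⟩ := h.hp_depth hQ hvQ hp hx
    obtain ⟨e1, e2⟩ := hds x hx
    by_cases e : j + d (par ρ) < d x
    · exact Finset.mem_union_left _ (e4 j e)
    have e5 : ∀ i, par^[i + (d x - d ρ)] x = par^[i] ρ := fun i => by
      rw [Function.iterate_add_apply, e2]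
    obtain ⟨-, -, -, e6⟩ := h.iota_spec (Finset.mem_univ x) (fun e => hvQ (e ▸ hx))
    have e7 : j < a + 1 + (d x - d ρ) := by
      by_contra hcon
      exact e6 (a + 1 + (d x - d ρ)) (by omega) (by omega) (by rw [e5]; exact hJg)
    refine Finset.mem_union_right _ (Finset.mem_image.2 ⟨j - (d x - d ρ),
      Finset.mem_Icc.2 ⟨by omega, by omega⟩, ?_⟩)
    rw [← e5]
    congr 1
    omega
  have hW : ∑ x ∈ Q, lam Y par x ≤ t + a := by
    have e1 := Finset.card_union_le Q ((Finset.Icc 1 a).image fun j => par^[j] ρ)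
    have e2 : ((Finset.Icc 1 a).image fun j => par^[j] ρ).card ≤ a :=
      Finset.card_image_le.trans (by simp)
    omega
  have hSn : S.card ≤ Fintype.card V := Finset.card_le_univ S
  refine ((lsl h hQ hvQ hp hblue hJ1 (by omega) hR).transport hr).mono ?_
  exact lsl1_cost htk hlog hle (by omega) (min_le_right _ _) (by omega) (by omega)
    (Finset.card_le_univ U) hW

end FSDiam
end

-- part WinM
section
namespace FSDiam
open Equiv

variable {V T : Type*} [DecidableEq V] [Fintype V] [Fintype T] [DecidableEq T]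
variable {Y : SimpleGraph V} {col : T → Bool} {κ : Bool}
variable {Ω : Finset V} {v : V} {d : V → ℕ} {par : V → V}

/-- `W = S ∪ Q` is connected (`con_closed`). Take `X ⊆ X0` with `Q.card` vertices and `insert v X`
connected (`grow`), and `arrange` the colour `!κ` from `R = Q` to `A = X` inside `W`. Nothing
outside `W` moves, so a blue token on `W` comes from `Q`; by counting `X.image c' = Q.image c0` and
the rest of `W` is red. `lsl1` with `g = v`, `U = R = insert v U0`, then `Sy.transport`. -/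
theorem win_M {k B : ℕ} {S : Finset V} {c0 : V ≃ T} (C : Ctx Y col κ k v d par S c0)
    {X0 U0 : Finset V} (M : Mach Y v X0 U0 B) (hX : X0 ⊆ S) (hU : U0 ⊆ S) {Q : Finset V}
    (hS : ∀ y ∈ Q, y ∉ S) (hp : ∀ y ∈ Q, par y ∈ Q ∨ par y ∈ S) {t : ℕ} (ht : Q.card ≤ t)
    (h1 : 1 ≤ t) (htk : t ≤ k) (hB : 16 * t ≤ B) :
    Sy Y col κ (2 * cw (Fintype.card V) k) c0 (Q.image c0) := by
  have h := C.pt
  have hW : Con Y ((S ∪ Q : Finset V) : Set V) :=
    h.con_closed (Finset.subset_univ _) (g := v) (Finset.mem_union_left _ C.mem) fun x hx hxv =>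
      ⟨hxv, by
        rcases Finset.mem_union.1 hx with e | e
        · exact Finset.mem_union_left _ (C.closed x e)
        · exact Finset.mem_union.2 (hp x e).symm⟩
  obtain ⟨N, n1, n2, n3, n4⟩ := grow M.cX (Finset.mem_insert_self v X0) (ν := Q.card + 1)
    (by omega) (by rw [Finset.card_insert_of_notMem M.gX, M.nX]; omega)
  have hX0 : N.erase v ⊆ X0 := fun x hx =>
    (Finset.mem_insert.1 (n2 (Finset.mem_of_mem_erase hx))).resolve_left
      (Finset.ne_of_mem_erase hx)
  have hXc : (N.erase v).card = Q.card := by rw [Finset.card_erase_of_mem n1, n4]; rfl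
  have hvX : v ∉ N.erase v := Finset.notMem_erase v N
  rw [← Finset.insert_erase n1] at n3
  generalize N.erase v = X at hX0 hXc hvX n3
  have nb : ∀ b : Bool, b = !κ ↔ b ≠ κ := fun b => by cases b <;> cases κ <;> simp
  obtain ⟨c', R', r1, r2, -, -, r5, r6⟩ := arrange (col := col) (κ := !κ) hW c0 Q
    (fun x hx => Finset.mem_coe.2 (Finset.mem_union_right _ hx))
    (fun x hx => (nb _).2 fun e => hS x hx ((C.red x).1 e)) X
    (fun x hx => Finset.mem_coe.2 (Finset.mem_union_left _ (hX (hX0 hx)))) hXc.le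
  have hb : ∀ x ∈ X, col (c' x) ≠ κ := fun x hx => (nb _).1 (r5 x (r2 hx))
  have key : ∀ x ∈ S, col (c' x) ≠ κ → c' x ∈ Q.image c0 := by
    intro x hx hc
    obtain ⟨y, hy⟩ := c0.surjective (c' x)
    refine Finset.mem_image.2 ⟨y, ?_, hy⟩
    by_contra hQ
    have hyS : y ∉ S := fun e => hc (hy ▸ (C.red y).2 e)
    have e := r6 y fun e => (Finset.mem_union.1 (Finset.mem_coe.1 e)).elim hyS hQ
    exact hyS (c'.injective (e.trans hy) ▸ hx)
  have him : X.image c' = Q.image c0 :=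
    Finset.eq_of_subset_of_card_le
      (fun a ha => by
        obtain ⟨x, hx, rfl⟩ := Finset.mem_image.1 ha
        exact key x (hX (hX0 hx)) (hb x hx))
      (by rw [Finset.card_image_of_injective _ c0.injective,
        Finset.card_image_of_injective _ c'.injective, hXc])
  have hdis : ∀ x ∈ X, x ∉ insert v U0 := fun x hx e =>
    (Finset.mem_insert.1 e).elim (fun e => hvX (e ▸ hx))
      (Finset.disjoint_left.1 M.dis (hX0 hx))
  have hred : ∀ x ∈ insert v U0, col (c' x) = κ := by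
    intro x hx
    by_contra hc
    have e := key x (Finset.insert_subset C.mem hU hx) hc
    rw [← him] at e
    obtain ⟨y, hy, e'⟩ := Finset.mem_image.1 e
    exact hdis x (c'.injective e' ▸ hy) hx
  have main := lsl1 (t := t) (k := k) M.jn hvX n3 hb M.cU (Finset.mem_insert_self v U0) hdis
    (Finset.Subset.refl _) hred (by omega) h1 htk
    (by rw [Finset.card_insert_of_notMem M.gU, M.nU]; omega)
  rw [him] at main
  refine (main.transport r1).mono ?_
  have e1 : X.card * Fintype.card V ≤ k * Fintype.card V := Nat.mul_le_mul_right _ (by omega)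
  have e2 : cw (Fintype.card V) k = 10000000000 * (k * Fintype.card V) +
      10000000000 * (k * (k * (Nat.log 2 k + 1))) := by
    rw [cw]
    ring
  omega

/-- `lsl1` with `X = Q`, `R = S`, `U = S ∪ {par^[j] g}` (closed under parents; the ancestors of `g`
are higher than all of `Q` by `hp_depth`). -/
theorem win_J {k : ℕ} {S : Finset V} {c0 : V ≃ T} (C : Ctx Y col κ k v d par S c0)
    {Q : Finset V} {g : V} (hS : ∀ y ∈ Q, y ∉ S) (hp : HP par Q g) (hJ : Jn Y g) {t : ℕ}
    (ht : Q.card ≤ t) (h1 : 1 ≤ t) (htk : 16 * t ≤ k) :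
    Sy Y col κ (cw (Fintype.card V) k) c0 (Q.image c0) := by
  classical
  have h := C.pt
  have hvQ : v ∉ Q := fun hh => hS v hh C.mem
  obtain ⟨U, hU⟩ : ∃ U : Finset V, ∀ x, x ∈ U ↔ (x ∈ S ∨ ∃ j, x = par^[j] g) :=
    ⟨Finset.univ.filter fun x => x ∈ S ∨ ∃ j, x = par^[j] g, fun x => by
      rw [Finset.mem_filter]
      exact and_iff_right (Finset.mem_univ x)⟩
  have hk := C.card
  refine lsl1 (U := U) (R := S) hJ hp.1 ?_ (fun y hy e => hS y hy ((C.red y).1 e)) ?_
    ((hU g).2 (Or.inr ⟨0, rfl⟩)) ?_ (fun x hx => (hU x).2 (Or.inl hx))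
    (fun x hx => (C.red x).2 hx) ht h1 (by omega) (by omega)
  · refine h.con_closed (Finset.subset_univ _) (Finset.mem_insert_self g Q) fun x hx hxg => ?_
    have hx' := (Finset.mem_insert.1 hx).resolve_left hxg
    exact ⟨fun e => hvQ (e ▸ hx'), Finset.mem_insert.2 (hp.2 x hx').symm⟩
  · refine h.con_closed (Finset.subset_univ U) (g := v) ((hU v).2 (Or.inl C.mem))
      fun x hx hxv => ⟨hxv, (hU _).2 ?_⟩
    rcases (hU x).1 hx with e | ⟨j, e⟩
    · exact Or.inl (C.closed x e)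
    · exact Or.inr ⟨j + 1, by rw [Function.iterate_succ_apply', ← e]⟩
  · intro x hx hxU
    rcases (hU x).1 hxU with e | ⟨j, e⟩
    · exact hS x hx e
    · have e1 := (h.hp_depth (Finset.subset_univ Q) hvQ hp hx).2.1
      have e2 := h.d_it (Finset.mem_univ g) j
      rw [← e] at e2
      omega

end FSDiam
end

-- part ChainA
section
namespace FSDiam
open Equiv

variable {V T : Type*} [DecidableEq V] [Fintype V] [Fintype T] [DecidableEq T]
variable {Y : SimpleGraph V} {col : T → Bool} {κ : Bool}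
variable {Ω : Finset V} {v : V} {d : V → ℕ} {par : V → V}

/-- The tokens whose homes are `vp j ∉ S` with `j > a` are advanced by `a`, the descendants of `g1`
off the path are at home. -/
def ChInv (d : V → ℕ) (par : V → V) (S : Finset V) (c0 : V ≃ T) (g1 z : V) (a : ℕ) (c : V ≃ T) :
    Prop :=
  (∀ j, a < j → j ≤ d z - d (par g1) → vp d par g1 z j ∉ S →
    c (vp d par g1 z (j - a)) = c0 (vp d par g1 z j)) ∧
  ∀ x, Ds d par g1 x → (∀ j ≤ d z - d (par g1), x ≠ vp d par g1 z j) → c x = c0 x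

/-- Let `M = d z - d (par g1)` and `j0` least with `a + 1 < j0 ≤ M`, `vp j0 ∉ S` (none: keep `c`).
Then `vp j ∉ S` for `j0 ≤ j ≤ M`, the blue train stands on `vp (j0 - a), …, vp (M - a)`. The set `U`
of the non-descendants of `g1`, `vp 1, …, vp (j0 - a - 1)` and `vp (M - a + 1), …, vp M` is connected
(`con_above`, `con_closed`, `Con.union`, the edge `z y`) and holds all red tokens (the token
`c0 v` is red). `arrange` one red token to `vp (j0 - a - 1)`, then `shift` it down the train. -/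
theorem chain_step {k : ℕ} {S : Finset V} {c0 : V ≃ T} (C : Ctx Y col κ k v d par S c0)
    {g1 z y : V} (hv : g1 ≠ v) (ho : Out Y d par g1 z y)
    (hS : ∀ x ∈ S, Ds d par g1 x → ∃ j ≤ d z - d (par g1), x = vp d par g1 z j)
    {a : ℕ} {c : V ≃ T} (hc : ChInv d par S c0 g1 z a c) :
    ∃ c', Rn Y col (2 * Fintype.card V) c c' ∧ ChInv d par S c0 g1 z (a + 1) c' := by
  classical
  obtain ⟨o1, o2, o3, -⟩ := ho
  obtain ⟨-, p0, -, pM, pd, pa, pD, -⟩ := C.pt.vp_spec hv o1
  obtain ⟨w1, w2, w3⟩ := C.pt.con_above hv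
  have hn : d z + 1 ≤ Fintype.card V := by
    have := C.pt.d_lt (Finset.mem_univ z)
    rwa [Finset.card_univ] at this
  obtain ⟨h1, h2⟩ := hc
  unfold ChInv
  have hMn : d z - d (par g1) ≤ Fintype.card V := by omega
  generalize d z - d (par g1) = M at *
  generalize vp d par g1 z = p at *
  have inj : ∀ i ≤ M, ∀ j ≤ M, p i = p j → i = j := fun i hi j hj e => by
    have e1 := pd i hi
    have e2 := pd j hj
    rw [e] at e1
    omega
  by_cases hex : ∃ j, a + 1 < j ∧ j ≤ M ∧ p j ∉ S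
  swap
  · exact ⟨c, Rn.refl _ _, fun j a1 a2 a3 => absurd ⟨j, a1, a2, a3⟩ hex, h2⟩
  obtain ⟨j1, j2, j3⟩ := Nat.find_spec hex
  have jmin : ∀ j, a + 1 < j → j ≤ M → p j ∉ S → Nat.find hex ≤ j :=
    fun j a1 a2 a3 => Nat.find_min' hex ⟨a1, a2, a3⟩
  generalize Nat.find hex = j0 at *
  have up : ∀ j, j0 ≤ j → j ≤ M → p j ∉ S := by
    intro j hj
    induction j, hj using Nat.le_induction with
    | base => exact fun _ => j3
    | succ j _ ih =>
      intro hj hm
      exact ih (by omega) ((pa j (by omega)).1 ▸ C.closed _ hm)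
  obtain ⟨i0, hi0⟩ : ∃ i0, j0 = a + 1 + i0 := ⟨j0 - (a + 1), by omega⟩
  have tr : ∀ j, i0 < j → j + a ≤ M → c (p j) = c0 (p (j + a)) := fun j a1 a2 => by
    have := h1 (j + a) (by omega) a2 (up _ (by omega) a2)
    rwa [Nat.add_sub_cancel] at this
  obtain ⟨γ, g0, gs⟩ : ∃ γ : ℕ → V, γ 0 = y ∧ ∀ t, γ (t + 1) = p (M - t) :=
    ⟨fun t => Nat.casesOn t y fun t => p (M - t), rfl, fun _ => rfl⟩
  have c1 := con_path p w1 (by simpa [p0] using w2) (i0 + 1) fun j hj => (pa j (by omega)).2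
  have c2 := con_path γ c1 (Or.inl (by simpa [g0] using o2)) (a + 1) fun j hj => by
    cases j with
    | zero => rw [g0, gs, Nat.sub_zero, pM]; exact o3.symm
    | succ j =>
      rw [gs, gs, show M - j = M - (j + 1) + 1 by omega]
      exact (pa _ (by omega)).2.symm
  obtain ⟨U, hU⟩ : ∃ U : Set V, U = {x | x ∈ {x | x ∈ ((Finset.univ.filter
      fun x => ¬ Ds d par g1 x : Finset V) : Set V) ∨ ∃ j < i0 + 1, x = p j} ∨
      ∃ j < a + 1, x = γ j} := ⟨_, rfl⟩
  rw [← hU] at c2
  have mU : ∀ x, x ∈ U ↔ ¬ Ds d par g1 x ∨ ∃ j ≤ M, (j ≤ i0 ∨ M < j + a) ∧ x = p j := by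
    intro x
    rw [hU]
    constructor
    · rintro ((a1 | ⟨j, a1, a2⟩) | ⟨j, a1, a2⟩)
      · exact Or.inl (by simpa using a1)
      · exact Or.inr ⟨j, by omega, Or.inl (by omega), a2⟩
      · cases j with
        | zero => exact Or.inl (by rw [a2, g0]; exact o2)
        | succ j => exact Or.inr ⟨M - j, by omega, Or.inr (by omega), by rw [a2, gs]⟩
    · rintro (a1 | ⟨j, a1, a2 | a2, a3⟩)
      · exact Or.inl (Or.inl (by simpa using a1))
      · exact Or.inl (Or.inr ⟨j, by omega, a3⟩)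
      · exact Or.inr ⟨M - j + 1, by omega, by rw [gs, a3, Nat.sub_sub_self a1]⟩
  have n1 : ∀ j, i0 < j → j + a ≤ M → p j ∉ U := fun j a1 a2 hm => by
    rcases (mU _).1 hm with b | ⟨i, b1, b2, b3⟩
    · exact b (pD j (by omega) (by omega))
    · have := inj j (by omega) i b1 b3
      omega
  have n2 : ∀ x, Ds d par g1 x → (∀ j ≤ M, x ≠ p j) → x ∉ U := fun x a1 a2 hm => by
    rcases (mU _).1 hm with b | ⟨i, b1, -, b3⟩
    · exact b a1
    · exact a2 i b1 b3
  have hx0 : c.symm (c0 v) ∈ U := by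
    rw [mU]
    by_contra hcon
    rw [not_or, not_not] at hcon
    by_cases hp : ∃ j ≤ M, c.symm (c0 v) = p j
    · obtain ⟨j, b1, b2⟩ := hp
      have b3 : ¬ (j ≤ i0 ∨ M < j + a) := fun t => hcon.2 ⟨j, b1, t, b2⟩
      have b4 := tr j (by omega) (by omega)
      rw [← b2, Equiv.apply_symm_apply] at b4
      exact w3 (c0.injective b4 ▸ pD (j + a) (by omega) (by omega))
    · have b4 := h2 _ hcon.1 fun j b1 b2 => hp ⟨j, b1, b2⟩
      rw [Equiv.apply_symm_apply] at b4
      exact w3 (c0.injective b4 ▸ hcon.1)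
  obtain ⟨e1, R', r1, r2, -, -, r5, r6⟩ := arrange (col := col) (κ := κ) c2 c {c.symm (c0 v)}
    (fun x hx => Finset.mem_singleton.1 hx ▸ hx0)
    (fun x hx => by
      rw [Finset.mem_singleton.1 hx, Equiv.apply_symm_apply]
      exact (C.red v).2 C.mem) {p i0}
    (fun x hx => (mU x).2 (Or.inr ⟨i0, by omega, Or.inl le_rfl, Finset.mem_singleton.1 hx⟩))
    (by simp)
  have red0 : col (e1 (p i0)) = κ := r5 _ (r2 (Finset.mem_singleton_self _))
  obtain ⟨e2, s1, -, s3, s4⟩ := shift (Y := Y) (col := col) (fun t => p (i0 + t)) e1 (M - a - i0)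
    (fun j hj => (pa (i0 + j) (by omega)).2)
    (fun i hi j hj e => by
      have := inj _ (by omega) _ (by omega) e
      omega)
    (fun j a1 a2 => by
      show col (e1 (p (i0 + j))) ≠ col (e1 (p i0))
      rw [red0, r6 _ (n1 _ (by omega) (by omega)), tr _ (by omega) (by omega)]
      exact fun t => up _ (by omega) (by omega) ((C.red _).1 t))
  refine ⟨e2, (r1.trans (s1.rn (le_trans (by omega) hMn))).mono (by simp; omega),
    fun j a1 a2 a3 => ?_, fun x a1 a2 => ?_⟩
  · have b1 := jmin j a1 a2 a3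
    have b2 := s3 (j - j0) (by omega)
    rw [show j - (a + 1) = i0 + (j - j0) by omega, b2, r6 _ (n1 _ (by omega) (by omega)),
      tr _ (by omega) (by omega), show i0 + (j - j0 + 1) + a = j by omega]
  · rw [s4 x fun j hj => a2 _ (by omega), r6 x (n2 x a1 a2), h2 x a1 a2]

end FSDiam
end

-- part ChainF
section
namespace FSDiam
open Equiv

variable {V T : Type*} [DecidableEq V] [Fintype V] [Fintype T] [DecidableEq T]
variable {Y : SimpleGraph V} {col : T → Bool} {κ : Bool}
variable {Ω : Finset V} {v : V} {d : V → ℕ} {par : V → V}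

/-- If `b ≤ a` use `Sy.small`. All `vp j`, `a < j ≤ M`, are outside `S`, so the train stands on
`vp 1, …, vp (M - a)`. `lsl1` with `g = vp 0`, `X = {vp 1, …, vp (b - a)}`, `U` = non-descendants
of `g1` and `vp (M - a + 1), …, vp M`, `R` = the red vertices of `c` (`card_col`: as many as `S`). -/
theorem chain_win {k : ℕ} {S : Finset V} {c0 : V ≃ T} (C : Ctx Y col κ k v d par S c0)
    {g1 z y : V} (hv : g1 ≠ v) (hJ : Jn Y (par g1)) (ho : Out Y d par g1 z y)
    (hS : ∀ x ∈ S, Ds d par g1 x → ∃ j ≤ d z - d (par g1), x = vp d par g1 z j)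
    {a : ℕ} {c : V ≃ T} (hc : ChInv d par S c0 g1 z a c) {b t : ℕ}
    (ha : vp d par g1 z (a + 1) ∉ S) (hb : b ≤ d z - d (par g1)) (hbt : b ≤ a + t) (h1 : 1 ≤ t)
    (htk : 16 * t ≤ k) :
    Sy Y col κ (cw (Fintype.card V) k) c
      ((Finset.Ioc a b).image fun j => c0 (vp d par g1 z j)) := by
  classical
  by_cases hba : b ≤ a
  · exact Sy.small (by rw [Finset.Ioc_eq_empty (by omega)]; simp)
  obtain ⟨-, p0, -, pM, pd, pp, pD, -⟩ := C.pt.vp_spec hv ho.1
  obtain ⟨ab, ab1, -⟩ := C.pt.con_above hv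
  obtain ⟨M, hM⟩ : ∃ M, M = d z - d (par g1) := ⟨_, rfl⟩
  obtain ⟨p, hp⟩ : ∃ p : ℕ → V, p = vp d par g1 z := ⟨_, rfl⟩
  obtain ⟨c1, c2⟩ := hc
  simp only [← hM, ← hp] at pM pd pp pD p0 c1 c2 ha hb hS ⊢
  have hout : ∀ j, a < j → j ≤ M → p j ∉ S := by
    intro j hj
    induction j, hj using Nat.le_induction with
    | base => exact fun _ => ha
    | succ j _ ih =>
      intro hj hm
      exact ih (by omega) (by rw [← (pp j (by omega)).1]; exact C.closed _ hm)
  have htr : ∀ j, 1 ≤ j → j + a ≤ M → c (p j) = c0 (p (j + a)) := by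
    intro j j1 j2
    have := c1 (j + a) (by omega) j2 (hout _ (by omega) j2)
    rwa [Nat.add_sub_cancel] at this
  have hbl : ∀ j, 1 ≤ j → j + a ≤ M → col (c (p j)) ≠ κ := by
    intro j j1 j2 e
    rw [htr j j1 j2] at e
    exact hout _ (by omega) j2 ((C.red _).1 e)
  have hnv : ∀ j, 1 ≤ j → j ≤ M → p j ≠ v := by
    intro j j1 j2 e
    have := pd j j2
    rw [e, C.pt.d0] at this
    omega
  have habove : Con Y {x | ¬ Ds d par g1 x} := by simpa using ab
  have himg : ((Finset.Ioc 0 (b - a)).image p).image c =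
      (Finset.Ioc a b).image fun j => c0 (p j) := by
    ext u
    simp only [Finset.mem_image, Finset.mem_Ioc]
    constructor
    · rintro ⟨x, ⟨j, ⟨j1, j2⟩, rfl⟩, rfl⟩
      exact ⟨j + a, ⟨by omega, by omega⟩, (htr j j1 (by omega)).symm⟩
    · rintro ⟨j, ⟨j1, j2⟩, rfl⟩
      refine ⟨p (j - a), ⟨j - a, ⟨by omega, by omega⟩, rfl⟩, ?_⟩
      rw [htr (j - a) (by omega) (by omega), Nat.sub_add_cancel j1.le]
  rw [← himg]
  refine lsl1 (g := par g1)
    (U := (Finset.univ.filter fun x => ¬ Ds d par g1 x) ∪ (Finset.Ioc (M - a) M).image p)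
    (R := Finset.univ.filter fun x => col (c x) = κ) (t := t) hJ ?_ ?_ ?_ ?_ ?_ ?_ ?_ ?_ ?_ h1
    (by omega) ?_
  · intro hm
    obtain ⟨j, hj, e⟩ := Finset.mem_image.1 hm
    have := Finset.mem_Ioc.1 hj
    have h2 := pd j (by omega)
    rw [e] at h2
    omega
  · refine C.pt.con_closed (g := par g1) (Finset.subset_univ _) (Finset.mem_insert_self _ _) ?_
    intro x hx hne
    obtain ⟨j, hj, rfl⟩ := Finset.mem_image.1 ((Finset.mem_insert.1 hx).resolve_left hne)
    have := Finset.mem_Ioc.1 hj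
    refine ⟨hnv j (by omega) (by omega), ?_⟩
    obtain ⟨i, rfl⟩ : ∃ i, j = i + 1 := ⟨j - 1, by omega⟩
    rw [(pp i (by omega)).1]
    rcases Nat.eq_zero_or_pos i with rfl | hi
    · rw [p0]; exact Finset.mem_insert_self _ _
    · exact Finset.mem_insert_of_mem
        (Finset.mem_image.2 ⟨i, Finset.mem_Ioc.2 ⟨hi, by omega⟩, rfl⟩)
  · intro x hx
    obtain ⟨j, hj, rfl⟩ := Finset.mem_image.1 hx
    have := Finset.mem_Ioc.1 hj
    exact hbl j (by omega) (by omega)
  · have e : (((Finset.univ.filter fun x => ¬ Ds d par g1 x) ∪ (Finset.Ioc (M - a) M).image p :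
        Finset V) : Set V) =
        {x | ¬ Ds d par g1 x} ∪ (((Finset.Ioc (M - a) M).image p : Finset V) : Set V) := by
      rw [Finset.coe_union]
      congr 1
      ext x
      simp
    rw [e]
    rcases Nat.eq_zero_or_pos a with rfl | ha0
    · simpa using habove
    · refine habove.union (x := y) (y := z) ?_ ho.2.1 ?_ (Or.inr ho.2.2.1.symm)
      · refine C.pt.con_closed (g := p (M - a + 1)) (Finset.subset_univ _)
          (Finset.mem_image.2 ⟨_, Finset.mem_Ioc.2 ⟨by omega, by omega⟩, rfl⟩) ?_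
        intro x hx hne
        obtain ⟨j, hj, rfl⟩ := Finset.mem_image.1 hx
        have := Finset.mem_Ioc.1 hj
        refine ⟨hnv j (by omega) (by omega), ?_⟩
        obtain ⟨i, rfl⟩ : ∃ i, j = i + 1 := ⟨j - 1, by omega⟩
        have hi : i ≠ M - a := fun e => hne (by rw [e])
        rw [(pp i (by omega)).1]
        exact Finset.mem_image.2 ⟨i, Finset.mem_Ioc.2 ⟨by omega, by omega⟩, rfl⟩
      · exact Finset.mem_coe.2
          (Finset.mem_image.2 ⟨M, Finset.mem_Ioc.2 ⟨by omega, le_rfl⟩, pM⟩)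
  · exact Finset.mem_union_left _ (Finset.mem_filter.2 ⟨Finset.mem_univ _, ab1⟩)
  · intro x hx hU
    obtain ⟨j, hj, rfl⟩ := Finset.mem_image.1 hx
    have := Finset.mem_Ioc.1 hj
    rcases Finset.mem_union.1 hU with hU | hU
    · exact (Finset.mem_filter.1 hU).2 (pD j (by omega) (by omega))
    · obtain ⟨i, hi, e⟩ := Finset.mem_image.1 hU
      have h3 := Finset.mem_Ioc.1 hi
      have h4 := pd i h3.2
      have h5 := pd j (by omega)
      rw [e] at h4
      omega
  · intro x hx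
    have hr := (Finset.mem_filter.1 hx).2
    by_cases hD : Ds d par g1 x
    · by_cases hp' : ∃ j ≤ M, x = p j
      · obtain ⟨j, j1, rfl⟩ := hp'
        have j0 : j ≠ 0 := by
          rintro rfl
          rw [p0] at hD
          exact ab1 hD
        have j2 : M - a < j := by
          by_contra hcon
          exact hbl j (by omega) (by omega) hr
        exact Finset.mem_union_right _ (Finset.mem_image.2 ⟨j, Finset.mem_Ioc.2 ⟨j2, j1⟩, rfl⟩)
      · have e := c2 x hD fun j hj e => hp' ⟨j, hj, e⟩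
        rw [e] at hr
        exact absurd (hS x ((C.red x).1 hr) hD) hp'
    · exact Finset.mem_union_left _ (Finset.mem_filter.2 ⟨Finset.mem_univ _, hD⟩)
  · exact fun x hx => (Finset.mem_filter.1 hx).2
  · refine Finset.card_image_le.trans ?_
    rw [Nat.card_Ioc]
    omega
  · have e : (Finset.univ.filter fun x => col (c0 x) = κ) = S := by
      ext x
      simp [C.red x]
    rw [card_col, ← card_col κ c0, e]
    exact htk.trans C.card

/-- Recursion on `a` with `chain_step` (choice). -/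
theorem exists_chain {k : ℕ} {S : Finset V} {c0 : V ≃ T} (C : Ctx Y col κ k v d par S c0)
    {g1 z y : V} (hv : g1 ≠ v) (hJ : Jn Y (par g1)) (ho : Out Y d par g1 z y)
    (hS : ∀ x ∈ S, Ds d par g1 x → ∃ j ≤ d z - d (par g1), x = vp d par g1 z j) :
    ∃ σ, Chain Y col κ k d par S c0 g1 z σ := by
  have step : ∀ (a : ℕ) (c : {c : V ≃ T // ChInv d par S c0 g1 z a c}),
      ∃ c' : {c : V ≃ T // ChInv d par S c0 g1 z (a + 1) c},
        Rn Y col (2 * Fintype.card V) c.1 c'.1 := by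
    intro a c
    obtain ⟨c', r1, r2⟩ := chain_step C hv ho hS c.2
    exact ⟨⟨c', r2⟩, r1⟩
  choose f hf using step
  let τ : (a : ℕ) → {c : V ≃ T // ChInv d par S c0 g1 z a c} := fun a =>
    Nat.rec (motive := fun a => {c : V ≃ T // ChInv d par S c0 g1 z a c})
      ⟨c0, fun _ _ _ _ => rfl, fun _ _ _ => rfl⟩ f a
  exact ⟨fun a => (τ a).1, rfl, fun a => hf a (τ a), fun a b t ha hb hbt h1 htk =>
    chain_win C hv hJ ho hS (τ a).2 ha hb hbt h1 htk⟩

theorem Chain.reach {k : ℕ} {S : Finset V} {c0 : V ≃ T} {g1 z : V} {σ : ℕ → V ≃ T}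
    (h : Chain Y col κ k d par S c0 g1 z σ) {a b e : ℕ} (h1 : a ≤ b + e) (h2 : b ≤ a + e) :
    Rn Y col (2 * Fintype.card V * e) (σ a) (σ b) := by
  have key : ∀ i a, Rn Y col (2 * Fintype.card V * i) (σ a) (σ (a + i)) := by
    intro i a
    induction i with
    | zero => exact Rn.refl _ _
    | succ i ih => exact (ih.trans (h.2.1 (a + i))).mono (by rw [Nat.mul_succ])
  rcases le_total a b with hab | hab
  · obtain ⟨i, rfl⟩ := Nat.exists_eq_add_of_le hab
    exact (key i a).mono (Nat.mul_le_mul_left _ (by omega))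
  · obtain ⟨i, rfl⟩ := Nat.exists_eq_add_of_le hab
    exact (key i b).symm.mono (Nat.mul_le_mul_left _ (by omega))

end FSDiam
end

-- part AlgA
section
namespace FSDiam
open Equiv

variable {V T : Type*} [DecidableEq V] [Fintype V] [Fintype T] [DecidableEq T]
variable {Y : SimpleGraph V} {col : T → Bool} {κ : Bool}
variable {Ω : Finset V} {v : V} {d : V → ℕ} {par : V → V}

/-- An injection on `A ⊆ B` into `B` extends to a permutation supported in `B`. -/
theorem ext_perm {A B : Finset T} (g : T → T) (hg : Set.InjOn g (A : Set T)) (hA : A ⊆ B)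
    (hB : ∀ x ∈ A, g x ∈ B) : ∃ ρ : Perm T, (∀ t, t ∉ B → ρ t = t) ∧ ∀ x ∈ A, ρ x = g x := by
  have hinj : Function.Injective
      (fun x : {x : T // x ∈ A ∨ x ∉ B} => if x.1 ∈ A then g x.1 else x.1) := by
    rintro ⟨x, hx⟩ ⟨y, hy⟩ hxy
    apply Subtype.ext
    by_cases h1 : x ∈ A <;> by_cases h2 : y ∈ A
    · simp only [h1, h2, if_true] at hxy
      exact hg h1 h2 hxy
    · simp only [h1, h2, if_true, if_false] at hxy
      exact absurd (hxy ▸ hB x h1) (hy.resolve_left h2)
    · simp only [h1, h2, if_true, if_false] at hxy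
      exact absurd (hxy ▸ hB y h2) (hx.resolve_left h1)
    · simpa only [h1, h2, if_false] using hxy
  obtain ⟨ρ, hρ⟩ := Perm.exists_extending_pair
    (fun x : {x : T // x ∈ A ∨ x ∉ B} => x.1) _ Subtype.val_injective hinj
  refine ⟨ρ, fun t ht => ?_, fun x hx => ?_⟩
  · have h := hρ ⟨t, Or.inr ht⟩
    have hn : t ∉ A := fun hh => ht (hA hh)
    simpa only [hn, if_false] using h
  · have h := hρ ⟨x, Or.inl hx⟩
    simpa only [hx, if_true] using h

/-- A set inside `B` can be moved into any large enough subset of `B`. -/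
theorem ext_into {A A' B : Finset T} (hA : A ⊆ B) (hA' : A' ⊆ B) (hc : A.card ≤ A'.card) :
    ∃ ρ : Perm T, (∀ t, t ∉ B → ρ t = t) ∧ ∀ x ∈ A, ρ x ∈ A' := by
  obtain ⟨e⟩ : Nonempty (A ↪ A') :=
    Function.Embedding.nonempty_of_card_le (by simpa only [Fintype.card_coe] using hc)
  have hm : ∀ x ∈ A, (if h : x ∈ A then (e ⟨x, h⟩ : T) else x) ∈ A' := by
    intro x hx
    rw [dif_pos hx]
    exact (e ⟨x, hx⟩).2
  obtain ⟨ρ, h1, h2⟩ := ext_perm (A := A) (B := B)
    (fun x => if h : x ∈ A then (e ⟨x, h⟩ : T) else x) (by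
      intro x hx y hy hxy
      have hx' : x ∈ A := hx
      have hy' : y ∈ A := hy
      simp only [dif_pos hx', dif_pos hy'] at hxy
      exact congrArg Subtype.val (e.injective (Subtype.ext hxy))) hA (fun x hx => hA' (hm x hx))
  exact ⟨ρ, h1, fun x hx => (h2 x hx) ▸ hm x hx⟩

end FSDiam
end

-- part Alg
section
namespace FSDiam
open Equiv

variable {V T : Type*} [DecidableEq V] [Fintype V] [Fintype T] [DecidableEq T]
variable {Y : SimpleGraph V} {col : T → Bool} {κ : Bool}
variable {Ω : Finset V} {v : V} {d : V → ℕ} {par : V → V}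

omit [Fintype V] in
/-- Conjugation: a permutation that moves `A` into `W` carries the window over. -/
theorem alg_conj {N M : ℕ} {c : V ≃ T} {h : Perm T} {A W : Finset T} (e : Ev Y col κ N c h)
    (hW : Sy Y col κ M c W) (hA : ∀ t ∈ A, h t ∈ W) : Sy Y col κ (2 * N + M) c A := by
  intro σ hσ
  have hm : ∀ t, t ∉ W → (h * σ * h⁻¹) t = t := by
    intro t ht
    have hn : h⁻¹ t ∉ A := fun hh => ht (by simpa using hA _ hh)
    rw [Perm.mul_apply, Perm.mul_apply, hσ _ hn]
    simp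
  have := (e.inv.mul (hW _ hm)).mul e
  have e2 : h⁻¹ * (h * σ * h⁻¹) * h = σ := by group
  rw [e2] at this
  exact this.mono (by omega)

/-- Induction on `N` (shift the sequences). The part of `A` in the later windows is moved into
`W 1` by `h'`, which fixes the rest; then a permutation supported in `W 1` moves
`h' A ∩ W 1` into `W 0 ∩ W 1`. -/
theorem gather_aux (b N : ℕ) : ∀ (W : ℕ → Finset T) (st : ℕ → V ≃ T) (m τ : ℕ → ℕ),
    (∀ j ≤ N, Sy Y col κ (m j) (st j) (W j)) → (∀ j < N, Rn Y col (τ j) (st j) (st (j + 1))) →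
    (∀ j < N, b ≤ (W j ∩ W (j + 1)).card) → ∀ A : Finset T, A.card ≤ b →
    (∀ t ∈ A, ∃ j ≤ N, t ∈ W j) →
    ∃ h : Perm T, Ev Y col κ (∑ j ∈ Finset.range N, (m (j + 1) + 2 * τ j)) (st 0) h ∧
      (∀ t, (∀ j ≤ N, t ∉ W j) → h t = t) ∧ ∀ t ∈ A, h t ∈ W 0 := by
  classical
  induction N with
  | zero =>
    intro W st m τ _ _ _ A _ hW
    refine ⟨1, Ev.one _ _, fun _ _ => rfl, fun t ht => ?_⟩
    obtain ⟨j, hj, hjt⟩ := hW t ht
    obtain rfl : j = 0 := by omega
    simpa using hjt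
  | succ N ih =>
    intro W st m τ hS hτ hb A hA hW
    obtain ⟨h', e1, e2, e3⟩ := ih (fun j => W (j + 1)) (fun j => st (j + 1)) (fun j => m (j + 1))
      (fun j => τ (j + 1)) (fun j hj => hS (j + 1) (by omega)) (fun j hj => hτ (j + 1) (by omega))
      (fun j hj => hb (j + 1) (by omega)) (A.filter fun t => ∃ j ≤ N, t ∈ W (j + 1))
      ((Finset.card_filter_le _ _).trans hA) (fun t ht => (Finset.mem_filter.1 ht).2)
    obtain ⟨ρ, r1, r2⟩ := ext_into
      (A := (A.filter fun t => ∃ j ≤ N, t ∈ W (j + 1)).image h') (A' := W 0 ∩ W 1) (B := W 1)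
      (by
        intro x hx
        obtain ⟨t, ht, rfl⟩ := Finset.mem_image.1 hx
        exact e3 t ht)
      Finset.inter_subset_right
      (Finset.card_image_le.trans ((Finset.card_filter_le _ _).trans
        (hA.trans (hb 0 (by omega)))))
    refine ⟨ρ * h', ?_, fun t ht => ?_, fun t ht => ?_⟩
    · refine (((hS 1 (by omega) ρ r1).mul e1).transport (hτ 0 (by omega))).mono (le_of_eq ?_)
      rw [Finset.sum_range_succ']
      ring
    · rw [Perm.mul_apply, e2 t fun j hj => ht (j + 1) (by omega), r1 t (ht 1 (by omega))]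
    · by_cases hc : ∃ j ≤ N, t ∈ W (j + 1)
      · exact (Finset.mem_inter.1 (r2 _ (Finset.mem_image_of_mem _
          (Finset.mem_filter.2 ⟨ht, hc⟩)))).1
      · have hn : ∀ j ≤ N, t ∉ W (j + 1) := fun j hj hh => hc ⟨j, hj, hh⟩
        rw [Perm.mul_apply, e2 t hn, r1 t (hn 0 (by omega))]
        obtain ⟨j, hj, hjt⟩ := hW t ht
        cases j with
        | zero => exact hjt
        | succ j => exact absurd hjt (hn j (by omega))

/-- `σ = h⁻¹ * (h * σ * h⁻¹) * h` and the middle factor is supported in `W 0`. -/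
theorem gather {b N : ℕ} {W : ℕ → Finset T} {st : ℕ → V ≃ T} {m τ : ℕ → ℕ}
    (hS : ∀ j ≤ N, Sy Y col κ (m j) (st j) (W j)) (hτ : ∀ j < N, Rn Y col (τ j) (st j) (st (j + 1)))
    (hb : ∀ j < N, b ≤ (W j ∩ W (j + 1)).card) {A : Finset T} (hA : A.card ≤ b)
    (hW : ∀ t ∈ A, ∃ j ≤ N, t ∈ W j) :
    Sy Y col κ (2 * ∑ j ∈ Finset.range (N + 1), m j + 4 * ∑ j ∈ Finset.range N, τ j) (st 0) A := by
  obtain ⟨h, e1, -, e3⟩ := gather_aux b N W st m τ hS hτ hb A hA hW
  refine (alg_conj e1 (hS 0 (Nat.zero_le N)) e3).mono ?_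
  rw [Finset.sum_range_succ', Finset.sum_add_distrib, ← Finset.mul_sum]
  omega

/-- Two windows, the second one reached at cost `τ`. -/
theorem gather_two {m τ : ℕ} {c c1 : V ≃ T} {W W1 A : Finset T} (h0 : Sy Y col κ m c W)
    (h1 : Sy Y col κ m c1 W1) (hτ : Rn Y col τ c c1) (hA : A.card ≤ (W ∩ W1).card)
    (hW : A ⊆ W ∪ W1) : Sy Y col κ (3 * m + 2 * τ) c A := by
  obtain ⟨ρ, r1, r2⟩ := ext_into (A := A ∩ W) (A' := W ∩ W1) (B := W) Finset.inter_subset_right
    Finset.inter_subset_left ((Finset.card_le_card Finset.inter_subset_left).trans hA)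
  refine (alg_conj (h0 ρ r1) (h1.transport hτ) fun t ht => ?_).mono (by omega)
  by_cases hc : t ∈ W
  · exact (Finset.mem_inter.1 (r2 t (Finset.mem_inter.2 ⟨ht, hc⟩))).2
  · rw [r1 t hc]
    exact (Finset.mem_union.1 (hW ht)).resolve_left hc

/-- Induction on the number of moved points: take `min b` of them as `A`, a permutation `τ`
supported in `A ∪ σ A` with `τ = σ` on `A` (`ext_perm`); `τ⁻¹ * σ` moves `A.card` points less. -/
theorem decomp {b m : ℕ} (hb : 1 ≤ b) {c : V ≃ T} {B : Finset T}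
    (h : ∀ A ⊆ B, A.card ≤ 2 * b → Sy Y col κ m c A) :
    Sy Y col κ ((B.card / b + 1) * m) c B := by
  have key : ∀ k : ℕ, ∀ σ : Perm T, σ.support ⊆ B → σ.support.card ≤ k * b →
      Ev Y col κ (k * m) c σ := by
    intro k
    induction k with
    | zero =>
      intro σ _ hc
      have : σ = 1 := by
        rw [← Perm.support_eq_empty_iff, ← Finset.card_eq_zero]
        omega
      rw [this]
      exact Ev.one _ _
    | succ k ih =>
      intro σ hB hc
      obtain ⟨A, hA, hAc⟩ := Finset.exists_subset_card_eq (s := σ.support)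
        (n := min b σ.support.card) (min_le_right _ _)
      have hU : A ∪ A.image σ ⊆ σ.support := by
        refine Finset.union_subset hA fun x hx => ?_
        obtain ⟨t, ht, rfl⟩ := Finset.mem_image.1 hx
        exact Perm.apply_mem_support.2 (hA ht)
      obtain ⟨ρ, r1, r2⟩ := ext_perm (A := A) (B := A ∪ A.image σ) σ σ.injective.injOn
        Finset.subset_union_left
        (fun x hx => Finset.mem_union_right _ (Finset.mem_image_of_mem _ hx))
      have hcard : (A ∪ A.image σ).card ≤ 2 * b := by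
        have h1 := Finset.card_union_le A (A.image σ)
        have h2 : (A.image σ).card ≤ A.card := Finset.card_image_le
        have h3 := min_le_left b σ.support.card
        omega
      have hs : (ρ⁻¹ * σ).support ⊆ σ.support \ A := by
        intro x hx
        rw [Perm.mem_support] at hx
        refine Finset.mem_sdiff.2 ⟨?_, fun hxA => hx ?_⟩
        · by_contra hn
          refine hx ?_
          rw [Perm.mul_apply, Perm.notMem_support.1 hn, Perm.inv_eq_iff_eq]
          exact (r1 x fun hh => hn (hU hh)).symm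
        · rw [Perm.mul_apply, Perm.inv_eq_iff_eq]
          exact (r2 x hxA).symm
      have hc' : (ρ⁻¹ * σ).support.card ≤ k * b := by
        have h1 := Finset.card_le_card hs
        rw [Finset.card_sdiff_of_subset hA, hAc] at h1
        rw [Nat.succ_mul] at hc
        omega
      have := (h _ (hU.trans hB) hcard ρ r1).mul
        (ih (ρ⁻¹ * σ) (hs.trans (Finset.sdiff_subset.trans hB)) hc')
      rw [mul_inv_cancel_left] at this
      exact this.mono (le_of_eq (by ring))
  intro σ hσ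
  have hB : σ.support ⊆ B := fun x hx => by
    by_contra hn
    exact Perm.mem_support.1 hx (hσ x hn)
  refine key _ σ hB ((Finset.card_le_card hB).trans ?_)
  exact (Nat.lt_div_mul_add (a := B.card) hb).le.trans (le_of_eq (by ring))

end FSDiam
end

-- part WinNB
section
namespace FSDiam
open Equiv

variable {V T : Type*} [DecidableEq V] [Fintype V] [Fintype T] [DecidableEq T]
variable {Y : SimpleGraph V} {col : T → Bool} {κ : Bool}
variable {Ω : Finset V} {v : V} {d : V → ℕ} {par : V → V}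

omit [DecidableEq V] [Fintype V] [Fintype T] [DecidableEq T] in
theorem winnb_card (c0 : V ≃ T) (γ : ℕ → V) (d : V → ℕ) {e a D : ℕ} {W : Finset T}
    (hd : ∀ j, j ≤ a + D → d (γ j) = e + j) (hW : ∀ j, a < j → j ≤ a + D → c0 (γ j) ∈ W) :
    D ≤ W.card := by
  have := Finset.card_le_card_of_injOn (s := Finset.Ioc a (a + D)) (t := W) (fun j => c0 (γ j))
    (fun j hj => by
      have hj' := Finset.mem_Ioc.1 (Finset.mem_coe.1 hj)
      exact Finset.mem_coe.2 (hW j hj'.1 hj'.2))
    (fun j hj l hl h => by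
      have hj' := Finset.mem_Ioc.1 (Finset.mem_coe.1 hj)
      have hl' := Finset.mem_Ioc.1 (Finset.mem_coe.1 hl)
      have h1 := hd j hj'.2
      have h2 := hd l hl'.2
      rw [c0.injective h] at h1
      omega)
  simpa using this

/-- `win_J` with `g = vp L`, `t = 2 D` for the vertices of `Q` deeper than `vp L` together with
`vp (L + 1), …, vp (L + D)`. -/
theorem nb_A {k D : ℕ} {S : Finset V} {c0 : V ≃ T} (C : Ctx Y col κ k v d par S c0)
    {Q : Finset V} {ρ g1 z y : V} {i M L : ℕ} (hm : Md Y d par S D Q ρ) (hg : top Y par ρ = g1)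
    (hi : iota Y par ρ = i) (hM : d z - d (par g1) = M) (ho : Out Y d par g1 z y)
    (hS : ∀ x ∈ Q, x ∉ S) (hQ : Q.card ≤ D) (hk : 32 * D ≤ k) (hL : i ≤ L) (hLM : L + D ≤ M)
    (hJ : Jn Y (vp d par g1 z L))
    (hx : ∀ x ∈ Q, (∃ j, i ≤ j ∧ j ≤ L ∧ x = vp d par g1 z j) ∨
      (d (vp d par g1 z L) < d x ∧ (par x = vp d par g1 z L ∨
        (par x ∈ Q ∧ d (vp d par g1 z L) < d (par x))))) :
    ∃ W : Finset T, Sy Y col κ (cw (Fintype.card V) k) c0 W ∧
      (∀ j, L < j → j ≤ L + D → c0 (vp d par g1 z j) ∈ W) ∧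
      ∀ x ∈ Q, (∃ j, i ≤ j ∧ j ≤ L ∧ x = vp d par g1 z j) ∨ c0 x ∈ W := by
  classical
  obtain ⟨-, hg1, -, hDi, hiM, -, -, -, hnS, -⟩ := md_path C hm hg hi hM ho
  obtain ⟨-, -, -, -, hd, hpar, -, -⟩ := C.pt.vp_spec hg1 ho.1
  rw [hM] at hd hpar
  have hD : 1 ≤ D := le_trans (Finset.card_pos.2 ⟨ρ, hm.1⟩) hQ
  have hmem : ∀ x, x ∈ (Q.filter fun x => d (vp d par g1 z L) < d x) ∪
      (Finset.Ioc L (L + D)).image (vp d par g1 z) ↔ (x ∈ Q ∧ d (vp d par g1 z L) < d x) ∨
        ∃ j, L < j ∧ j ≤ L + D ∧ vp d par g1 z j = x := by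
    intro x
    simp only [Finset.mem_union, Finset.mem_filter, Finset.mem_image, Finset.mem_Ioc, and_assoc]
  have hdL := hd L (by omega)
  refine ⟨_, win_J C (Q := (Q.filter fun x => d (vp d par g1 z L) < d x) ∪
      (Finset.Ioc L (L + D)).image (vp d par g1 z)) (g := vp d par g1 z L) (t := 2 * D)
      (fun x hxm => ?_) ⟨fun hxm => ?_, fun x hxm => ?_⟩ hJ ?_ (by omega) (by omega),
    fun j h1 h2 => Finset.mem_image_of_mem _ ((hmem _).2 (Or.inr ⟨j, h1, h2, rfl⟩)),
    fun x hxQ => ?_⟩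
  · rcases (hmem x).1 hxm with h1 | ⟨j, h1, h2, rfl⟩
    · exact hS x h1.1
    · exact hnS j (by omega) (by omega)
  · rcases (hmem _).1 hxm with h1 | ⟨j, h1, h2, h3⟩
    · exact lt_irrefl _ h1.2
    · have := hd j (by omega)
      rw [h3] at this
      omega
  · rcases (hmem x).1 hxm with h1 | ⟨j, h1, h2, rfl⟩
    · rcases hx x h1.1 with ⟨j, -, h3, h4⟩ | ⟨-, h3 | h3⟩
      · have := hd j (by omega)
        rw [← h4] at this
        have := h1.2
        omega
      · exact Or.inr h3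
      · exact Or.inl ((hmem _).2 (Or.inl h3))
    · obtain ⟨j, rfl⟩ : ∃ j', j = j' + 1 := ⟨j - 1, by omega⟩
      rw [(hpar j (by omega)).1]
      by_cases e : j = L
      · exact Or.inr (by rw [e])
      · exact Or.inl ((hmem _).2 (Or.inr ⟨j, by omega, by omega, rfl⟩))
  · refine (Finset.card_union_le _ _).trans ?_
    have h1 := Finset.card_filter_le Q fun x => d (vp d par g1 z L) < d x
    have h2 : ((Finset.Ioc L (L + D)).image (vp d par g1 z)).card ≤ D :=
      Finset.card_image_le.trans (by simp)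
    omega
  · rcases hx x hxQ with h1 | h1
    · exact Or.inl h1
    · exact Or.inr (Finset.mem_image_of_mem _ ((hmem x).2 (Or.inl ⟨hxQ, h1.1⟩)))

/-- The chain gives the window `W1` of the homes `vp j`, `i - D ≤ j ≤ min M (i + 2 D)` at
`σ (i - D - 1)` (`t = 3 D + 1`; `1 ≤ D` since `ρ ∈ Q`). `nb_split`: in the first case `Sy.sub`; in
the second `c0 = σ 0` is reached at cost `2 n ω` (`Chain.reach`), and `nb_A` (if `L + D ≤ M`) or
`nb_B` give a second window that shares `D` tokens with `W1` (`vp` is injective by depth);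
`gather_two`. -/
theorem win_NB {k D ω : ℕ} {S : Finset V} {c0 : V ≃ T} (C : Ctx Y col κ k v d par S c0)
    {Q : Finset V} {ρ z y : V} (hm : Md Y d par S D Q ρ) (ho : Out Y d par (top Y par ρ) z y)
    (hS : ∀ x ∈ Q, x ∉ S) (hQ : Q.card ≤ D) (hk : 80 * D ≤ k)
    (hω : ∀ x ∈ Q, ∀ x' ∈ Q, par x' = x → lam Y par x ≤ ω) {σ : ℕ → V ≃ T}
    (hσ : Chain Y col κ k d par S c0 (top Y par ρ) z σ) :
    Sy Y col κ (3 * cw (Fintype.card V) k + 4 * Fintype.card V * ω) (σ (iota Y par ρ - D - 1))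
      (Q.image c0) := by
  classical
  obtain ⟨g1, hg⟩ : ∃ g1, top Y par ρ = g1 := ⟨_, rfl⟩
  obtain ⟨i, hi⟩ : ∃ i, iota Y par ρ = i := ⟨_, rfl⟩
  obtain ⟨M, hM⟩ : ∃ M, d z - d (par g1) = M := ⟨_, rfl⟩
  rw [hg] at ho hσ
  rw [hi]
  obtain ⟨-, hg1, -, hDi, hiM, -, -, -, hnS, -⟩ := md_path C hm hg hi hM ho
  obtain ⟨-, -, -, -, hd, -, -, -⟩ := C.pt.vp_spec hg1 ho.1
  rw [hM] at hd
  have hD : 1 ≤ D := le_trans (Finset.card_pos.2 ⟨ρ, hm.1⟩) hQ
  obtain ⟨a, ha⟩ : ∃ a, i = a + D + 1 := ⟨i - D - 1, by omega⟩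
  rw [show i - D - 1 = a by omega]
  have hW1 := hσ.2.2 a (min M (i + 2 * D)) (3 * D + 1) (hnS _ (by omega) (by omega)) (by omega)
    (by omega) (by omega) (by omega)
  have hin : ∀ j, a < j → j ≤ M → j ≤ i + 2 * D → c0 (vp d par g1 z j) ∈
      (Finset.Ioc a (min M (i + 2 * D))).image fun j => c0 (vp d par g1 z j) := fun j h1 h2 h3 =>
    Finset.mem_image.2 ⟨j, Finset.mem_Ioc.2 ⟨h1, by omega⟩, rfl⟩
  have hcQ : (Q.image c0).card ≤ D := Finset.card_image_le.trans hQ
  rcases nb_split C hm hg hi hM ho hS hQ hω with h | ⟨L, hL, hLD, hLM, hJ, hLω, hx⟩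
  · refine (hW1.sub fun t ht => ?_).mono (by omega)
    obtain ⟨x, hxQ, rfl⟩ := Finset.mem_image.1 ht
    obtain ⟨j, h1, h2, h3, rfl⟩ := h x hxQ
    exact hin j (by omega) h3 (by omega)
  have hr : Rn Y col (2 * Fintype.card V * ω) (σ a) c0 := by
    have := hσ.reach (a := a) (b := 0) (e := ω) (by omega) (by omega)
    rwa [hσ.1] at this
  have hfin : 3 * cw (Fintype.card V) k + 2 * (2 * Fintype.card V * ω) ≤
      3 * cw (Fintype.card V) k + 4 * Fintype.card V * ω := le_of_eq (by ring)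
  by_cases hc : L + D ≤ M
  · obtain ⟨W, hW, h1, h2⟩ := nb_A C hm hg hi hM ho hS hQ (by omega) hL hc hJ hx
    refine (gather_two hW1 hW hr (hcQ.trans ?_) fun t ht => ?_).mono hfin
    · exact winnb_card c0 (vp d par g1 z) d (e := d (par g1)) (a := L)
        (fun j hj => hd j (by omega))
        (fun j j1 j2 => Finset.mem_inter.2 ⟨hin j (by omega) (by omega) (by omega), h1 j j1 j2⟩)
    · obtain ⟨x, hxQ, rfl⟩ := Finset.mem_image.1 ht
      rcases h2 x hxQ with ⟨j, j1, j2, rfl⟩ | h3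
      · exact Finset.mem_union_left _ (hin j (by omega) (by omega) (by omega))
      · exact Finset.mem_union_right _ h3
  · obtain ⟨W, hW, h1, h2⟩ := nb_B C hm hg hi hM ho hS hQ (by omega) hL hLM hJ (by omega)
    refine (gather_two hW1 hW hr (hcQ.trans ?_) fun t ht => ?_).mono hfin
    · exact winnb_card c0 (vp d par g1 z) d (e := d (par g1)) (a := a)
        (fun j hj => hd j (by omega))
        (fun j j1 j2 => Finset.mem_inter.2 ⟨hin j (by omega) (by omega) (by omega),
          h1 j (by omega) (by omega)⟩)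
    · obtain ⟨x, hxQ, rfl⟩ := Finset.mem_image.1 ht
      rcases h2 x hxQ with ⟨j, j1, j2, rfl⟩ | h3
      · exact Finset.mem_union_left _ (hin j (by omega) (by omega) (by omega))
      · exact Finset.mem_union_right _ h3

end FSDiam
end

-- part WinA
section
namespace FSDiam
open Equiv

variable {V T : Type*} [DecidableEq V] [Fintype V] [Fintype T] [DecidableEq T]
variable {Y : SimpleGraph V} {col : T → Bool} {κ : Bool}
variable {Ω : Finset V} {v : V} {d : V → ℕ} {par : V → V}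

omit [Fintype V] in
theorem wina_card (Q : Finset V) (ρ : V) (e : ℕ) :
    (Q ∪ (Finset.Ico 1 e).image fun j => par^[j] ρ).card ≤ Q.card + e := by
  have h1 := Finset.card_union_le Q ((Finset.Ico 1 e).image fun j => par^[j] ρ)
  have h2 : ((Finset.Ico 1 e).image fun j => par^[j] ρ).card ≤ (Finset.Ico 1 e).card :=
    Finset.card_image_le
  rw [Nat.card_Ico] at h2
  omega

omit [Fintype V] in
theorem wina_par {Q : Finset V} {ρ : V} (hp : HP par Q (par ρ)) {e : ℕ} (he : 1 ≤ e) :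
    ∀ y ∈ Q ∪ (Finset.Ico 1 e).image fun j => par^[j] ρ,
      par y ∈ Q ∪ (Finset.Ico 1 e).image (fun j => par^[j] ρ) ∨ par y = par^[e] ρ := by
  have key : ∀ j, j < e → par^[j + 1] ρ ∈ Q ∪ (Finset.Ico 1 e).image (fun j => par^[j] ρ) ∨
      par^[j + 1] ρ = par^[e] ρ := fun j hj => by
    by_cases h : j + 1 = e
    · exact Or.inr (by rw [h])
    · exact Or.inl (Finset.mem_union_right _
        (Finset.mem_image.2 ⟨j + 1, Finset.mem_Ico.2 ⟨by omega, by omega⟩, rfl⟩))
  intro y hy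
  rcases Finset.mem_union.1 hy with hy | hy
  · rcases hp.2 y hy with h | h
    · exact Or.inl (Finset.mem_union_left _ h)
    · rw [h]
      exact key 0 he
  · obtain ⟨j, hj, rfl⟩ := Finset.mem_image.1 hy
    rw [← Function.iterate_succ_apply' par]
    exact key j (Finset.mem_Ico.1 hj).2

omit [DecidableEq V] [Fintype V] in
theorem wina_up {S : Finset V} (hS : ∀ x ∈ S, par x ∈ S) {x : V} (hx : x ∈ S) (j : ℕ) :
    par^[j] x ∈ S := by
  induction j with
  | zero => exact hx
  | succ j ih =>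
    rw [Function.iterate_succ_apply']
    exact hS _ ih

/-- First shape: `win_M`. Second shape: `Q = ∅` is `Sy.small`; else take a root `ρ` (`hp_root`),
`i = iota ρ`. For `i = 1` use `win_J`. For `i ≥ 2` the vertex `ρ` is the only root
(`child_unique`) and `¬ Md` leaves three cases. No `Out`: `win_bridge`. `par^[D] ρ ∈ S`: with the
least `e ≤ D` such that `par^[e] ρ ∈ S`, `win_M` for `Q ∪ {par^[j] ρ, 1 ≤ j < e}` and `t = 2 D`.
`i ≤ D` and `par^[D] ρ ∉ S`: `win_J` for `Q ∪ {par^[j] ρ, 1 ≤ j < i}`, `g = par^[i] ρ`, `t = 2 D`.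
End with `Sy.sub`. -/
theorem win_all {k B D : ℕ} {S : Finset V} {c0 : V ≃ T} (C : Ctx Y col κ k v d par S c0)
    {X0 U0 : Finset V} (M : Mach Y v X0 U0 B) (hX : X0 ⊆ S) (hU : U0 ⊆ S) {Q : Finset V}
    (hH : Hull par S Q) (hQ : Q.card ≤ D) (h1 : 1 ≤ D) (hB : 32 * D ≤ B) (hk : 32 * D ≤ k)
    (hm : ¬ ∃ ρ, Md Y d par S D Q ρ) :
    Sy Y col κ (2 * cw (Fintype.card V) k) c0 (Q.image c0) := by
  classical
  obtain ⟨hS, hH | ⟨w, -, hp⟩⟩ := hH
  · exact win_M C M hX hU hS hH hQ h1 (by omega) (by omega)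
  rcases Q.eq_empty_or_nonempty with rfl | hne
  · exact Sy.small (by simp)
  have h := C.pt
  have hvQ : v ∉ Q := fun hh => hS v hh C.mem
  obtain ⟨ρ, hρ, rfl⟩ := h.hp_root (Finset.subset_univ Q) hvQ hp hne
  have hρv : ρ ≠ v := fun e => hvQ (e ▸ hρ)
  obtain ⟨i1, i2, hJ, -⟩ := h.iota_spec (Finset.mem_univ ρ) hρv
  by_cases hD : par^[D] ρ ∈ S
  · have hex : ∃ e, par^[e] ρ ∈ S := ⟨D, hD⟩
    have e1 : Nat.find hex ≤ D := Nat.find_le hD
    have e2 := Nat.find_spec hex
    have e3 : 1 ≤ Nat.find hex := Nat.pos_of_ne_zero fun e => by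
      rw [e] at e2
      exact hS ρ hρ e2
    have e4 := wina_card (par := par) Q ρ (Nat.find hex)
    refine (win_M C M hX hU (Q := Q ∪ (Finset.Ico 1 (Nat.find hex)).image fun j => par^[j] ρ)
      (fun y hy => ?_) (fun y hy => (wina_par hp e3 y hy).imp id fun e => by
        rw [e]; exact e2) (t := 2 * D)
      (by omega) (by omega) (by omega) (by omega)).sub
      (Finset.image_subset_image Finset.subset_union_left)
    rcases Finset.mem_union.1 hy with hy | hy
    · exact hS y hy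
    · obtain ⟨j, hj, rfl⟩ := Finset.mem_image.1 hy
      exact Nat.find_min hex (Finset.mem_Ico.1 hj).2
  by_cases hi : iota Y par ρ ≤ D
  · have e4 := wina_card (par := par) Q ρ (iota Y par ρ)
    refine ((win_J C (Q := Q ∪ (Finset.Ico 1 (iota Y par ρ)).image fun j => par^[j] ρ)
      (fun y hy => ?_) ⟨fun hy => ?_, wina_par hp i1⟩ hJ (t := 2 * D)
      (by omega) (by omega) (by omega)).sub
      (Finset.image_subset_image Finset.subset_union_left)).mono (by omega)
    · rcases Finset.mem_union.1 hy with hy | hy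
      · exact hS y hy
      · obtain ⟨j, hj, rfl⟩ := Finset.mem_image.1 hy
        have hj2 := (Finset.mem_Ico.1 hj).2
        intro hh
        have := wina_up C.closed hh (D - j)
        rw [← Function.iterate_add_apply, Nat.sub_add_cancel (by omega)] at this
        exact hD this
    · have d1 := h.d_it (Finset.mem_univ ρ) (iota Y par ρ)
      rcases Finset.mem_union.1 hy with hy | hy
      · have d2 := (h.hp_depth (Finset.subset_univ Q) hvQ hp hy).2.1
        have d3 := h.dp ρ (Finset.mem_univ ρ) hρv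
        omega
      · obtain ⟨j, hj, e⟩ := Finset.mem_image.1 hy
        have hj2 := (Finset.mem_Ico.1 hj).2
        have d2 := h.d_it (Finset.mem_univ ρ) j
        rw [e] at d2
        omega
  · exact (win_bridge C hS hρ hp (by omega) (fun ho => hm ⟨ρ, hρ, hp, by omega, hD, ho⟩) hQ
      (by omega)).mono (by omega)

end FSDiam
end

-- part Seq
section
namespace FSDiam
open Equiv

variable {V T : Type*} [DecidableEq V] [Fintype V] [Fintype T] [DecidableEq T]
variable {Y : SimpleGraph V} {col : T → Bool} {κ : Bool}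
variable {Ω : Finset V} {v : V} {d : V → ℕ} {par : V → V}

/-- Choose for every vertex `g1` a chain `σ g1` (with `z`, `y`, `Out g1 z y`) if there is one
(`md_path` and `exists_chain` give one for `g1 = top ρ`). Put `st j = σ (top ρ) (iota ρ - D - 1)` if
`Md (Q j) ρ` for some `ρ` (`win_NB`), else `st j = c0` (`win_all`). For a transition apply
`md_trans` in both directions: either both states are on one chain at distance at most `D`
(`md_unique`, `Chain.reach`), or each of them is near `c0 = σ g1 0`. -/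
theorem win_seq {k B D N : ℕ} {S : Finset V} {c0 : V ≃ T} (C : Ctx Y col κ k v d par S c0)
    {X0 U0 : Finset V} (M : Mach Y v X0 U0 B) (hX : X0 ⊆ S) (hU : U0 ⊆ S) {Q : ℕ → Finset V}
    {ω : ℕ → ℕ} (hH : ∀ j ≤ N, Hull par S (Q j)) (hQ : ∀ j ≤ N, (Q j).card ≤ D) (h1 : 1 ≤ D)
    (hB : 32 * D ≤ B) (hk : 80 * D ≤ k) (hsh : ∀ j < N, ∃ y, y ∈ Q j ∧ y ∈ Q (j + 1))
    (hω : ∀ j ≤ N, ∀ x ∈ Q j, ∀ x' ∈ Q j, par x' = x → lam Y par x ≤ ω j) :
    ∃ st : ℕ → V ≃ T, Rn Y col (2 * (Fintype.card V * Fintype.card V)) c0 (st 0) ∧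
      (∀ j ≤ N, Sy Y col κ (3 * cw (Fintype.card V) k + 4 * Fintype.card V * ω j) (st j)
        ((Q j).image c0)) ∧
      ∀ j < N, Rn Y col (2 * Fintype.card V * (2 * (S.card + 2 * D + 1) + ω j + ω (j + 1)))
        (st j) (st (j + 1)) := by
  have hch : ∀ g1 : V, ∃ σ : ℕ → V ≃ T, σ 0 = c0 ∧
      (∀ a b e, a ≤ b + e → b ≤ a + e → Rn Y col (2 * Fintype.card V * e) (σ a) (σ b)) ∧
      ∀ Q' ρ, Md Y d par S D Q' ρ → top Y par ρ = g1 →
        ∃ z y, Out Y d par g1 z y ∧ Chain Y col κ k d par S c0 g1 z σ := by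
    intro g1
    by_cases h : ∃ Q' ρ, Md Y d par S D Q' ρ ∧ top Y par ρ = g1
    · obtain ⟨Q', ρ, hm, hg⟩ := h
      obtain ⟨z, y, ho⟩ := hm.2.2.2.2
      rw [hg] at ho
      obtain ⟨-, a2, a3, -, a5, -, -, -, -, a10⟩ := md_path C hm hg rfl rfl ho
      obtain ⟨σ, hσ⟩ := exists_chain C a2 a3 ho (fun x hx hd => by
        obtain ⟨j, -, j2, j3⟩ := a10 x hx hd
        exact ⟨j, by omega, j3⟩)
      exact ⟨σ, hσ.1, fun a b e e1 e2 => hσ.reach e1 e2, fun _ _ _ _ => ⟨z, y, ho, hσ⟩⟩
    · exact ⟨fun _ => c0, rfl, fun _ _ _ _ _ => Rn.refl _ _,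
        fun Q' ρ hm hg => absurd ⟨Q', ρ, hm, hg⟩ h⟩
  choose σ s0 sr sc using hch
  have hpk : ∀ j : ℕ, ∃ (g : V) (a : ℕ),
      (∃ ρ, Md Y d par S D (Q j) ρ ∧ g = top Y par ρ ∧ a = iota Y par ρ - D - 1) ∨
        ((¬ ∃ ρ, Md Y d par S D (Q j) ρ) ∧ a = 0) := by
    intro j
    by_cases h : ∃ ρ, Md Y d par S D (Q j) ρ
    · obtain ⟨ρ, hm⟩ := h
      exact ⟨_, _, Or.inl ⟨ρ, hm, rfl, rfl⟩⟩
    · exact ⟨v, 0, Or.inr ⟨h, rfl⟩⟩
  choose g a hga using hpk
  have key : ∀ i j, i ≤ N → j ≤ N → (∃ y, y ∈ Q i ∧ y ∈ Q j) →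
      a i ≤ S.card + 2 * D + 1 + ω i ∨ (g j = g i ∧ a j ≤ a i + D ∧ a i ≤ a j + D) := by
    rintro i j hi hj ⟨y, y1, y2⟩
    rcases hga i with ⟨ρ, hm, e1, e2⟩ | ⟨-, e⟩
    · rcases md_trans C (hH i hi).1 (hH j hj) (hQ i hi) (hQ j hj) y1 y2 hm (hω i hi) with
        h | ⟨ρ', hm', t1, t2, t3⟩
      · exact Or.inl (by omega)
      · rcases hga j with ⟨ρ2, hm2, f1, f2⟩ | ⟨hn, -⟩
        · have e : ρ2 = ρ' := md_unique C (hH j hj).1 h1 hm2 hm'
          subst e
          exact Or.inr ⟨by rw [f1, e1, t1], by omega, by omega⟩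
        · exact absurd ⟨ρ', hm'⟩ hn
    · exact Or.inl (by omega)
  refine ⟨fun j => σ (g j) (a j), ?_, fun j hj => ?_, fun j hj => ?_⟩
  · have ha : a 0 ≤ Fintype.card V := by
      rcases hga 0 with ⟨ρ, hm, e1, e2⟩ | ⟨-, e⟩
      · obtain ⟨z, y, ho⟩ := hm.2.2.2.2
        obtain ⟨-, -, -, -, a5, a6, -⟩ := md_path C hm rfl rfl rfl ho
        omega
      · omega
    have := sr (g 0) 0 (a 0) (Fintype.card V) (by omega) (by omega)
    rw [s0] at this
    exact this.mono (by rw [mul_assoc])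
  · rcases hga j with ⟨ρ, hm, e1, e2⟩ | ⟨hn, e⟩
    · obtain ⟨z, y, ho, hσ⟩ := sc _ _ ρ hm rfl
      have := win_NB C hm ho (hH j hj).1 (hQ j hj) hk (hω j hj) hσ
      simp only [e1, e2]
      exact this
    · simp only [e, s0]
      exact (win_all C M hX hU (hH j hj) (hQ j hj) h1 hB (by omega) hn).mono (by omega)
  · obtain ⟨y, y1, y2⟩ := hsh j hj
    have same : g (j + 1) = g j → a (j + 1) ≤ a j + D → a j ≤ a (j + 1) + D →
        Rn Y col (2 * Fintype.card V * (2 * (S.card + 2 * D + 1) + ω j + ω (j + 1)))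
          (σ (g j) (a j)) (σ (g (j + 1)) (a (j + 1))) := by
      intro e b1 b2
      rw [e]
      exact sr _ _ _ _ (by omega) (by omega)
    rcases key j (j + 1) hj.le hj ⟨y, y1, y2⟩ with b1 | ⟨e, b1, b2⟩
    · rcases key (j + 1) j hj hj.le ⟨y, y2, y1⟩ with b2 | ⟨e, b2, b3⟩
      · have r1 := sr (g j) (a j) 0 (S.card + 2 * D + 1 + ω j) (by omega) (by omega)
        have r2 := sr (g (j + 1)) 0 (a (j + 1)) (S.card + 2 * D + 1 + ω (j + 1)) (by omega)
          (by omega)
        rw [s0] at r1 r2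
        refine (r1.trans r2).mono (le_of_eq ?_)
        ring
      · exact same e.symm b3 b2
    · exact same e b1 b2

end FSDiam
end

-- part Top
section
namespace FSDiam
open Equiv

variable {V T : Type*} [DecidableEq V] [Fintype V] [Fintype T] [DecidableEq T]
variable {Y : SimpleGraph V} {col : T → Bool} {κ : Bool}
variable {Ω : Finset V} {v : V} {d : V → ℕ} {par : V → V}

/-- `X = univ \ S` has `μ` vertices, `exists_sek`. Windows `Q j = Qh z u (j s) (min ((j + 2) s) μ)`
for `j ≤ N = μ / s - 1`, `D = 4 s` (`Qh_card`), `Hull` by `Sek.hull` and `Sek.Qh_sub`,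
`ω j = ∑ i ∈ Ico (j s) ((j + 2) s - 1), wt … i` (`Sek.lam_le`), `∑ ω j ≤ 6 n` by `sum_win`,
`Sek.sum_wt`, `sum_lam` with `W = univ`. `win_seq`; consecutive windows share the `s` ranks from
`(j + 1) s`; the windows cover all ranks (rank `i` is in window `min (i / s) N`). `gather` with
`b = s`, `top_num`, `decomp` with `b = s / 2`, `Sy.transport`. -/
theorem sort_ctx {k s μ : ℕ} {S : Finset V} {c0 : V ≃ T} (C : Ctx Y col κ k v d par S c0)
    {X0 U0 : Finset V} (M : Mach Y v X0 U0 (128 * s)) (hX : X0 ⊆ S) (hU : U0 ⊆ S) (h2 : 2 ≤ s)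
    (hk : 600 * s ≤ k) (hμ : (Finset.univ.filter fun t => col t ≠ κ).card = μ) (hs : s ≤ μ) :
    Sy Y col κ ((μ / (s / 2) + 1) * (16 * (μ / s) * (cw (Fintype.card V) k +
      Fintype.card V * (S.card + k)) + 150 * (Fintype.card V * Fintype.card V)) +
      4 * (Fintype.card V * Fintype.card V)) c0 (Finset.univ.filter fun t => col t ≠ κ) := by
  obtain ⟨X, hXm⟩ : ∃ X : Finset V, ∀ x, x ∈ X ↔ x ∉ S := ⟨Finset.univ \ S, fun x => by simp⟩
  have hB : (Finset.univ.filter fun t => col t ≠ κ) = X.image c0 := by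
    ext t
    simp only [Finset.mem_filter, Finset.mem_univ, true_and, Finset.mem_image]
    constructor
    · intro h
      refine ⟨c0.symm t, (hXm _).2 fun hh => h ?_, by simp⟩
      simpa using (C.red (c0.symm t)).2 hh
    · rintro ⟨x, hx, rfl⟩
      exact fun h => (hXm x).1 hx ((C.red x).1 h)
  rw [hB] at hμ ⊢
  have hXc : X.card = μ := by rw [← hμ, Finset.card_image_of_injective _ c0.injective]
  subst hXc
  have hv : v ∉ X := fun h => (hXm v).1 h C.mem
  have hXu : X ⊆ Finset.univ := Finset.subset_univ X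
  obtain ⟨z, u, hz⟩ := exists_sek C.pt X hXu hv
  obtain ⟨N, hN⟩ : ∃ N, X.card / s = N + 1 :=
    ⟨X.card / s - 1, by have := Nat.div_pos hs (by omega : 0 < s); omega⟩
  have hN1 : (N + 1) * s ≤ X.card := hN ▸ Nat.div_mul_le_self _ _
  have hN2 : X.card < (N + 2) * s := by
    have := Nat.lt_mul_div_succ X.card (by omega : 0 < s)
    rwa [hN, mul_comm] at this
  have hin : ∀ j < N, ∀ i, (j + 1) * s ≤ i → i < (j + 2) * s → i < X.card ∧
      z i ∈ Qh z u (j * s) (min ((j + 2) * s) X.card) ∧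
      z i ∈ Qh z u ((j + 1) * s) (min ((j + 1 + 2) * s) X.card) := fun j hj i h1 h2 => by
    have a1 : (j + 2) * s ≤ (N + 1) * s := Nat.mul_le_mul_right _ (by omega)
    have a2 : j * s ≤ (j + 1) * s := Nat.mul_le_mul_right _ (by omega)
    have a3 : (j + 2) * s ≤ (j + 1 + 2) * s := Nat.mul_le_mul_right _ (by omega)
    exact ⟨by omega, hulla_mem.2 (Or.inl ⟨i, by omega, by omega, rfl⟩),
      hulla_mem.2 (Or.inl ⟨i, by omega, by omega, rfl⟩)⟩
  have hst : ∀ j, (j + 2) * s = (j + 1) * s + s := fun j => by ring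
  obtain ⟨st, r0, hS, hτ⟩ := win_seq (D := 4 * s) (N := N) C M hX hU
    (Q := fun j => Qh z u (j * s) (min ((j + 2) * s) X.card))
    (ω := fun j => ∑ i ∈ Finset.Ico (j * s) ((j + 2) * s - 1), wt Y par z u X.card i)
    (fun j _ => ⟨fun y hy => (hXm y).1 (hz.Qh_sub (min_le_right _ _) hy), by
      rcases hz.hull C.pt hXu hv (a := j * s) (min_le_right ((j + 2) * s) X.card) with h | ⟨w, h1, h⟩
      · exact Or.inl fun y hy => (h y hy).imp_right fun h => by_contra fun hh => h ((hXm _).2 hh)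
      · exact Or.inr ⟨w, (hXm w).1 h1, h⟩⟩)
    (fun j _ => (Qh_card _ _ _ _).trans (by
      have : (j + 2) * s = j * s + 2 * s := by ring
      omega))
    (by omega) (by omega) (by omega)
    (fun j hj => ⟨_, (hin j hj ((j + 1) * s) le_rfl (by rw [hst]; omega)).2⟩)
    (fun j _ => hz.lam_le C.pt hXu hv (min_le_right _ _) (min_le_left _ _))
  have hω : ∑ j ∈ Finset.range (N + 1), ∑ i ∈ Finset.Ico (j * s) ((j + 2) * s - 1),
      wt Y par z u X.card i ≤ 6 * Fintype.card V := by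
    have a1 := sum_win (wt Y par z u X.card) s N
    have a2 := hz.sum_wt (Y := Y) ((N + 2) * s)
    have a3 := C.pt.sum_lam (W := Finset.univ) hXu hv fun _ _ _ _ _ => Finset.mem_univ _
    rw [Finset.card_univ] at a3
    omega
  have hnum := top_num (k := k) (β := S.card) (s := s) (w := cw (Fintype.card V) k) hω (by omega)
  have hd := decomp (Y := Y) (col := col) (κ := κ) (b := s / 2) (by omega) (c := st 0)
    (B := X.image c0) fun A hA hc => (gather (b := s) hS hτ (fun j hj => ?_) (by omega)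
      fun t ht => ?_).mono hnum
  · rw [hμ, ← hN] at hd
    exact (hd.transport r0).mono (le_of_eq (by ring))
  · have hsub : (Finset.Ico ((j + 1) * s) ((j + 2) * s)).image (fun i => c0 (z i)) ⊆
        (Qh z u (j * s) (min ((j + 2) * s) X.card)).image c0 ∩
          (Qh z u ((j + 1) * s) (min ((j + 1 + 2) * s) X.card)).image c0 := by
      intro t ht
      obtain ⟨i, hi, rfl⟩ := Finset.mem_image.1 ht
      obtain ⟨-, b1, b2⟩ := hin j hj i (Finset.mem_Ico.1 hi).1 (Finset.mem_Ico.1 hi).2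
      exact Finset.mem_inter.2 ⟨Finset.mem_image_of_mem _ b1, Finset.mem_image_of_mem _ b2⟩
    refine le_trans (le_of_eq ?_) (Finset.card_le_card hsub)
    rw [Finset.card_image_of_injOn, Nat.card_Ico, hst, Nat.add_sub_cancel_left]
    intro i hi i' hi' h
    rw [Finset.mem_coe, Finset.mem_Ico] at hi hi'
    exact hz.zi i (hin j hj i hi.1 hi.2).1 i' (hin j hj i' hi'.1 hi'.2).1 (c0.injective h)
  · obtain ⟨x, hx, rfl⟩ := Finset.mem_image.1 (hA ht)
    obtain ⟨i, hi, rfl⟩ := hz.zs x hx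
    refine ⟨min (i / s) N, min_le_right _ _, Finset.mem_image_of_mem _
      (hulla_mem.2 (Or.inl ⟨i, ?_, lt_min ?_ hi, rfl⟩))⟩
    · exact (Nat.mul_le_mul_right _ (min_le_left _ _)).trans (Nat.div_mul_le_self _ _)
    · rcases le_total (i / s) N with h | h
      · rw [min_eq_left h, hst]
        have := Nat.lt_mul_div_succ i (by omega : 0 < s)
        rw [mul_comm] at this
        omega
      · rw [min_eq_right h]
        omega

theorem sort_one (hc : Y.Connected) {v0 : V} (hJ : Jn Y v0) {k s μ β : ℕ} (hbr : ¬ IBr Y k)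
    (hn : 2 * k ≤ Fintype.card V) (hβ : (Finset.univ.filter fun t => col t = κ).card = β)
    (hμ : (Finset.univ.filter fun t => col t ≠ κ).card = μ) (hkβ : k ≤ β) (h2 : 2 ≤ s)
    (hk : 600 * s ≤ k) (hs : s ≤ μ) (c : V ≃ T) :
    Sy Y col κ (cs (Fintype.card V) k μ β s) c (Finset.univ.filter fun t => col t ≠ κ) := by
  obtain ⟨v, d, par, S, X0, U0, c0, r, C, M, hX, hU, hS⟩ := top_ctx (col := col) (κ := κ)
    (B := 128 * s) hc hJ hbr hn (by omega) (by omega) (by omega) c
  refine ((sort_ctx C M hX hU h2 hk hμ hs).transport r).mono (le_of_eq ?_)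
  rw [hS, hβ, cs]
  ring

end FSDiam
end

-- part Cross
section
namespace FSDiam
open Equiv

variable {V T : Type*} [DecidableEq V] [Fintype V] [Fintype T] [DecidableEq T]
variable {Y : SimpleGraph V} {col : T → Bool} {κ : Bool}
variable {Ω : Finset V} {v : V} {d : V → ℕ} {par : V → V}

omit [Fintype V] [Fintype T] [DecidableEq T] in
/-- After a shift along `γ` every token on `A.erase (γ L)` comes from `A`, not from `γ 1`. -/
theorem cross_src {A : Finset V} {γ : ℕ → V} {L : ℕ} {c c1 : V ≃ T} (hL : 1 ≤ L) (h0 : γ 0 ∉ A)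
    (gm : ∀ j, 1 ≤ j → j ≤ L → γ j ∈ A) (gi : ∀ i ≤ L, ∀ j ≤ L, γ i = γ j → i = j)
    (r3 : ∀ j < L, c1 (γ j) = c (γ (j + 1))) (r4 : ∀ z, (∀ j ≤ L, z ≠ γ j) → c1 z = c z) :
    ∀ x ∈ A.erase (γ L), ∃ y ∈ A, y ≠ γ 1 ∧ c1 x = c y := by
  intro x hx
  obtain ⟨xL, xA⟩ := Finset.mem_erase.1 hx
  by_cases h : ∃ j ≤ L, x = γ j
  · obtain ⟨j, hj, rfl⟩ := h
    have j0 : j ≠ 0 := fun e => h0 (by rw [e] at xA; exact xA)
    have jL : j ≠ L := fun e => xL (by rw [e])
    refine ⟨γ (j + 1), gm _ (by omega) (by omega), fun e => ?_, r3 j (by omega)⟩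
    have := gi _ (by omega) _ hL e
    omega
  · exact ⟨x, xA, fun e => h ⟨1, hL, e⟩, r4 x fun j hj e => h ⟨j, hj, e⟩⟩

omit [DecidableEq V] [Fintype V] in
/-- A vertex other than `g` outside `A` is not on the path. -/
theorem cross_off {A : Finset V} {γ : ℕ → V} {L : ℕ} {g z : V} (g0 : γ 0 = g)
    (gm : ∀ j, 1 ≤ j → j ≤ L → γ j ∈ A) (zg : z ≠ g) (zA : z ∉ A) : ∀ j ≤ L, z ≠ γ j := by
  intro j hj e
  rcases Nat.eq_zero_or_pos j with rfl | h
  · exact zg (e.trans g0)
  · exact zA (by rw [e]; exact gm j h hj)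

/-- `peel` for `X` gives `γ`, for `U` gives `δ`; `q = γ 1`, `s = δ 1`. `shift` the red token of `g`
down `γ` (through blue tokens), then the blue token now on `g` down `δ`; both lengths are below
the number of vertices (`len_le`). `X' = X.erase (γ L)`, `U' = U.erase (δ L')`. -/
theorem cross {g : V} (hJ : Jn Y g) {X U : Finset V} (gX : g ∉ X) (gU : g ∉ U)
    (dis : Disjoint X U) (cX : Con Y ((insert g X : Finset V) : Set V))
    (cU : Con Y ((insert g U : Finset V) : Set V)) (nX : X.Nonempty) (nU : U.Nonempty) {c : V ≃ T}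
    (cg : col (c g) = κ) (bX : ∀ x ∈ X, col (c x) ≠ κ) (rU : ∀ x ∈ U, col (c x) = κ) :
    ∃ (q s : V) (X' U' : Finset V) (c' : V ≃ T), q ∈ X ∧ s ∈ U ∧ Y.Adj g q ∧ Y.Adj g s ∧
      X' ⊆ X ∧ U' ⊆ U ∧ X'.card + 1 = X.card ∧ U'.card + 1 = U.card ∧
      Con Y ((insert g X' : Finset V) : Set V) ∧ Con Y ((insert g U' : Finset V) : Set V) ∧
      Rn Y col (2 * Fintype.card V) c c' ∧ c' g = c s ∧
      (∀ x ∈ X', ∃ y ∈ X, y ≠ q ∧ c' x = c y) ∧ (∀ x ∈ U', ∃ y ∈ U, y ≠ s ∧ c' x = c y) ∧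
      ∀ z, z ≠ g → z ∉ X → z ∉ U → c' z = c z := by
  obtain ⟨L, γ, hL, g0, gm, ga, gi, gc⟩ := peel hJ gX nX cX
  obtain ⟨M, δ, hM, d0, dm, da, di, dc⟩ := peel hJ gU nU cU
  obtain ⟨c1, r1, -, r3, r4⟩ := shift (Y := Y) (col := col) γ c L ga gi
    (fun j h1 h2 => by rw [g0, cg]; exact bX _ (gm j h1 h2))
  have uX : ∀ x ∈ U, x ≠ g ∧ x ∉ X := fun x hx =>
    ⟨fun e => gU (e ▸ hx), fun h => Finset.disjoint_left.1 dis h hx⟩
  have xU : ∀ x ∈ X, x ≠ g ∧ x ∉ U := fun x hx =>
    ⟨fun e => gX (e ▸ hx), fun h => Finset.disjoint_left.1 dis hx h⟩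
  have cU1 : ∀ x ∈ U, c1 x = c x := fun x hx => r4 x (cross_off g0 gm (uX x hx).1 (uX x hx).2)
  have c1g : c1 g = c (γ 1) := by
    have := r3 0 (by omega)
    rwa [g0] at this
  obtain ⟨c2, s1, -, s3, s4⟩ := shift (Y := Y) (col := col) δ c1 M da di
    (fun j h1 h2 => by
      rw [d0, c1g, cU1 _ (dm j h1 h2), rU _ (dm j h1 h2)]
      exact (bX _ (gm 1 le_rfl hL)).symm)
  have l1 := len_le γ L gi
  have l2 := len_le δ M di
  have a1 : Y.Adj g (γ 1) := by
    have := ga 0 (by omega)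
    rwa [g0] at this
  have a2 : Y.Adj g (δ 1) := by
    have := da 0 (by omega)
    rwa [d0] at this
  refine ⟨γ 1, δ 1, X.erase (γ L), U.erase (δ M), c2, gm 1 le_rfl hL, dm 1 le_rfl hM, a1, a2,
    Finset.erase_subset _ _, Finset.erase_subset _ _,
    Finset.card_erase_add_one (gm L hL le_rfl), Finset.card_erase_add_one (dm M hM le_rfl), gc, dc,
    ((r1.rn le_rfl).trans (s1.rn le_rfl)).mono (by omega), ?_, fun x hx => ?_, fun x hx => ?_,
    fun z z1 z2 z3 => ?_⟩
  · have := s3 0 (by omega)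
    rw [d0] at this
    rw [this]
    exact cU1 _ (dm 1 le_rfl hM)
  · obtain ⟨y, y1, y2, y3⟩ := cross_src hL (by rw [g0]; exact gX) gm gi r3 r4 x hx
    have hxX := Finset.mem_of_mem_erase hx
    exact ⟨y, y1, y2, (s4 x (cross_off d0 dm (xU x hxX).1 (xU x hxX).2)).trans y3⟩
  · obtain ⟨y, y1, y2, y3⟩ := cross_src hM (by rw [d0]; exact gU) dm di s3 s4 x hx
    exact ⟨y, y1, y2, y3.trans (cU1 y y1)⟩
  · exact (s4 z (cross_off d0 dm z1 z3)).trans (r4 z (cross_off g0 gm z1 z2))

end FSDiam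
end

-- part Bulk
section
namespace FSDiam
open Equiv

variable {V T : Type*} [DecidableEq V] [Fintype V] [Fintype T] [DecidableEq T]
variable {Y : SimpleGraph V} {col : T → Bool} {κ : Bool}
variable {Ω : Finset V} {v : V} {d : V → ℕ} {par : V → V}

/-- Induction on `J`. Apply `cross` twice (`q`, `s` from the first one) and the induction hypothesis
at the new state `c''` (`H.transport`, cost `2 * 4 n`); `ψ = swap (c l) (c q) * swap (c g) (c s) * ψ'`
with `claw2`, `B 0 = c q`, `B (e + 1) = B' e`. The tokens `c q`, `c g`, `c s` do not stand on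
`insert g (X'' ∪ U'')` in `c''`, so `ψ'` fixes them. -/
theorem bulk_aux {g l : V} (hJ : Jn Y g) (hl : Y.Adj g l) (J : ℕ) :
    ∀ (X U : Finset V) (c : V ≃ T), g ∉ X → g ∉ U → l ∉ X → l ∉ U → Disjoint X U →
    Con Y ((insert g X : Finset V) : Set V) → Con Y ((insert g U : Finset V) : Set V) →
    2 * J ≤ X.card → 2 * J ≤ U.card → col (c g) = κ → col (c l) ≠ κ →
    (∀ x ∈ X, col (c x) ≠ κ) → (∀ x ∈ U, col (c x) = κ) →
    ∃ (ψ : Perm T) (B : ℕ → T), H Y col (14 * Fintype.card V * J) c ψ ∧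
      (∀ t, col t = κ → ψ (ψ t) = t) ∧
      (∀ t, t ≠ c l → t ≠ c g → (∀ x ∈ X, t ≠ c x) → (∀ x ∈ U, t ≠ c x) → ψ t = t) ∧
      (∀ e < J, ∃ x ∈ X, B e = c x) ∧ (∀ e < J, ∀ e' < J, B e = B e' → e = e') ∧
      (0 < J → ψ (B 0) = c l) ∧ ∀ e, e + 1 < J → ψ (B (e + 1)) = B e := by
  induction J with
  | zero =>
    intro X U c _ _ _ _ _ _ _ _ _ _ _ _ _
    exact ⟨1, fun _ => c l, H.one _ c, fun _ _ => rfl, fun _ _ _ _ _ => rfl,
      fun e he => absurd he (Nat.not_lt_zero e), fun e he => absurd he (Nat.not_lt_zero e),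
      fun h => absurd h (lt_irrefl 0), fun e he => absurd he (Nat.not_lt_zero _)⟩
  | succ J ih =>
    intro X U c gX gU lX lU dis cX cU nX nU cg cl bX rU
    have gl : l ≠ g := hl.ne.symm
    obtain ⟨q, s, X1, U1, c1, qX, sU, aq, as, sX1, sU1, k1, k2, cX1, cU1, r1, g1, x1, u1, o1⟩ :=
      cross hJ gX gU dis cX cU (Finset.card_pos.1 (by omega)) (Finset.card_pos.1 (by omega))
        cg bX rU
    have bX1 : ∀ x ∈ X1, col (c1 x) ≠ κ := fun x hx => by
      obtain ⟨y, hy, -, e⟩ := x1 x hx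
      rw [e]; exact bX y hy
    have rU1 : ∀ x ∈ U1, col (c1 x) = κ := fun x hx => by
      obtain ⟨y, hy, -, e⟩ := u1 x hx
      rw [e]; exact rU y hy
    have dis1 : Disjoint X1 U1 := dis.mono sX1 sU1
    obtain ⟨q2, s2, X2, U2, c2, -, sU2', -, -, sX2, sU2, k3, k4, cX2, cU2, r2, g2, x2, u2, o2⟩ :=
      cross hJ (fun h => gX (sX1 h)) (fun h => gU (sU1 h)) dis1 cX1 cU1
        (Finset.card_pos.1 (by omega)) (Finset.card_pos.1 (by omega))
        (by rw [g1]; exact rU s sU) bX1 rU1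
    have xx : ∀ x ∈ X2, ∃ y ∈ X, y ≠ q ∧ c2 x = c y := fun x hx => by
      obtain ⟨y, hy, -, e⟩ := x2 x hx
      obtain ⟨z, hz, hq, e'⟩ := x1 y hy
      exact ⟨z, hz, hq, e.trans e'⟩
    have uu : ∀ x ∈ U2, ∃ y ∈ U, y ≠ s ∧ c2 x = c y := fun x hx => by
      obtain ⟨y, hy, -, e⟩ := u2 x hx
      obtain ⟨z, hz, hq, e'⟩ := u1 y hy
      exact ⟨z, hz, hq, e.trans e'⟩
    obtain ⟨y0, hy0, ys, gg⟩ : ∃ y ∈ U, y ≠ s ∧ c2 g = c y := by
      obtain ⟨z, hz, hq, e'⟩ := u1 s2 sU2'
      exact ⟨z, hz, hq, g2.trans e'⟩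
    have ll : c2 l = c l :=
      (o2 l gl (fun h => lX (sX1 h)) fun h => lU (sU1 h)).trans (o1 l gl lX lU)
    obtain ⟨ψ, B, hH, hr, hf, hB, hi, h0, hs⟩ := ih X2 U2 c2 (fun h => gX (sX1 (sX2 h)))
      (fun h => gU (sU1 (sU2 h))) (fun h => lX (sX1 (sX2 h))) (fun h => lU (sU1 (sU2 h)))
      (dis1.mono sX2 sU2) cX2 cU2 (by omega) (by omega) (by rw [gg]; exact rU y0 hy0)
      (by rw [ll]; exact cl)
      (fun x hx => by obtain ⟨y, hy, -, e⟩ := xx x hx; rw [e]; exact bX y hy)
      (fun x hx => by obtain ⟨y, hy, -, e⟩ := uu x hx; rw [e]; exact rU y hy)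
    have fx : ∀ t, t ≠ c l → (∀ y ∈ X, y ≠ q → t ≠ c y) → (∀ y ∈ U, y ≠ s → t ≠ c y) →
        ψ t = t := fun t a1 a2 a3 =>
      hf t (by rw [ll]; exact a1) (by rw [gg]; exact a3 y0 hy0 ys)
        (fun x hx => by obtain ⟨y, hy, hq, e⟩ := xx x hx; rw [e]; exact a2 y hy hq)
        (fun x hx => by obtain ⟨y, hy, hq, e⟩ := uu x hx; rw [e]; exact a3 y hy hq)
    have dj : ∀ x ∈ X, x ∉ U := fun x hx => Finset.disjoint_left.1 dis hx
    have fg : ψ (c g) = c g := fx _ (fun e => gl (c.injective e).symm)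
      (fun y hy _ e => gX (c.injective e ▸ hy)) fun y hy _ e => gU (c.injective e ▸ hy)
    have fs : ψ (c s) = c s := fx _ (fun e => lU (c.injective e ▸ sU))
      (fun y hy _ e => dj y hy (c.injective e ▸ sU)) fun y _ hq e => hq (c.injective e).symm
    have fq : ψ (c q) = c q := fx _ (fun e => lX (c.injective e ▸ qX))
      (fun y _ hq e => hq (c.injective e).symm) fun y hy _ e => dj q qX ((c.injective e).symm ▸ hy)
    have lq : l ≠ q := fun e => lX (e ▸ qX)
    have cs := rU s sU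
    have cq := bX q qX
    have sb : ∀ t, col t ≠ κ → swap (c g) (c s) t = t := fun t ht =>
      swap_apply_of_ne_of_ne (fun e => ht (e ▸ cg)) fun e => ht (e ▸ cs)
    have sr : ∀ t, col t = κ → swap (c l) (c q) t = t := fun t ht =>
      swap_apply_of_ne_of_ne (fun e => cl (e ▸ ht)) fun e => cq (e ▸ ht)
    have sk : ∀ t, col t = κ → col (swap (c g) (c s) t) = κ := fun t ht => by
      rw [swap_apply_def]
      split_ifs
      exacts [cs, cg, ht]
    have cm : ∀ t, ψ (swap (c g) (c s) t) = swap (c g) (c s) (ψ t) := fun t => by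
      rw [← ψ.injective.swap_apply, fg, fs]
    have hn : 1 ≤ Fintype.card V := Fintype.card_pos_iff.2 ⟨g⟩
    refine ⟨swap (c l) (c q) * swap (c g) (c s) * ψ, fun e => Nat.casesOn e (c q) B,
      ((claw2 hl aq as lq cg cs cl cq).mul (hH.transport (r1.trans r2))).mono ?_,
      fun t ht => ?_, fun t a1 a2 a3 a4 => ?_, fun e he => ?_, fun e he e' he' h => ?_,
      fun _ => ?_, fun e he => ?_⟩
    · rw [Nat.mul_succ]; omega
    · have k : ∀ u, col u = κ → (swap (c l) (c q) * swap (c g) (c s) * ψ) u =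
          swap (c g) (c s) (ψ u) := fun u hu => by
        rw [Perm.mul_apply, Perm.mul_apply, sr _ (sk _ ((hH.1 u).trans hu))]
      rw [k t ht, k _ (sk _ ((hH.1 t).trans ht)), cm, hr t ht, swap_apply_self]
    · rw [Perm.mul_apply, Perm.mul_apply, fx t a1 (fun y hy _ => a3 y hy) fun y hy _ => a4 y hy,
        swap_apply_of_ne_of_ne a2 (a4 s sU), swap_apply_of_ne_of_ne a1 (a3 q qX)]
    · rcases e with _ | e
      · exact ⟨q, qX, rfl⟩
      · obtain ⟨x, hx, e1⟩ := hB e (by omega)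
        obtain ⟨y, hy, -, e2⟩ := xx x hx
        exact ⟨y, hy, e1.trans e2⟩
    · have nq : ∀ e < J, B e ≠ c q := fun e he e0 => by
        obtain ⟨x, hx, e1⟩ := hB e he
        obtain ⟨y, -, hq, e2⟩ := xx x hx
        exact hq (c.injective ((e1.trans e2).symm.trans e0))
      rcases e with _ | e <;> rcases e' with _ | e'
      · rfl
      · exact absurd (show B e' = c q from h.symm) (nq e' (by omega))
      · exact absurd (show B e = c q from h) (nq e (by omega))
      · rw [hi e (by omega) e' (by omega) h]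
    · show (swap (c l) (c q) * swap (c g) (c s) * ψ) (c q) = c l
      rw [Perm.mul_apply, Perm.mul_apply, fq, sb _ cq, swap_apply_right]
    · rcases e with _ | e
      · show (swap (c l) (c q) * swap (c g) (c s) * ψ) (B 0) = c q
        rw [Perm.mul_apply, Perm.mul_apply, h0 (by omega), ll, sb _ cl, swap_apply_left]
      · show (swap (c l) (c q) * swap (c g) (c s) * ψ) (B (e + 1)) = B e
        obtain ⟨x, hx, e1⟩ := hB e (by omega)
        obtain ⟨y, hy, hq, e2⟩ := xx x hx
        rw [Perm.mul_apply, Perm.mul_apply, hs e (by omega), e1, e2, sb _ (bX y hy),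
          swap_apply_of_ne_of_ne (fun e : c y = c l => lX (c.injective e ▸ hy))
            fun e : c y = c q => hq (c.injective e)]

/-- `J = 4 r`, `χ = ψ * ψ`, `A = {B (4 i + 2), i < r}`. -/
theorem bulk {g l : V} {X U : Finset V} {r : ℕ} (M : Mach Y g X U (8 * r)) (hl : Y.Adj g l)
    (lX : l ∉ X) (lU : l ∉ U) {c : V ≃ T} (cg : col (c g) = κ) (cl : col (c l) ≠ κ)
    (bX : ∀ x ∈ X, col (c x) ≠ κ) (rU : ∀ x ∈ U, col (c x) = κ) :
    ∃ (χ : Perm T) (A : Finset T), H Y col (200 * r * Fintype.card V) c χ ∧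
      (∀ t, col t = κ → χ t = t) ∧ A.card = r ∧ ∀ a ∈ A, col a ≠ κ ∧ χ a ∉ A := by
  obtain ⟨ψ, B, hH, hr, -, hB, hi, -, hs⟩ := bulk_aux (col := col) (κ := κ) M.jn hl (4 * r) X U c
    M.gX M.gU lX lU M.dis M.cX M.cU (by rw [M.nX]; omega) (by rw [M.nU]; omega) cg cl bX rU
  refine ⟨ψ * ψ, (Finset.range r).image fun i => B (4 * i + 2), (hH.mul hH).mono ?_, hr, ?_,
    fun a ha => ?_⟩
  · nlinarith [Nat.zero_le (r * Fintype.card V)]
  · rw [Finset.card_image_of_injOn, Finset.card_range]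
    intro i hi' j hj e
    have h1 : i < r := by simpa using hi'
    have h2 : j < r := by simpa using hj
    have := hi _ (by omega) _ (by omega) e
    omega
  · obtain ⟨i, hi', rfl⟩ := Finset.mem_image.1 ha
    have h1 : i < r := Finset.mem_range.1 hi'
    obtain ⟨x, hx, e1⟩ := hB (4 * i + 2) (by omega)
    refine ⟨e1 ▸ bX x hx, fun h => ?_⟩
    obtain ⟨j, hj, e⟩ := Finset.mem_image.1 h
    have h2 : j < r := Finset.mem_range.1 hj
    rw [Perm.mul_apply, hs (4 * i + 1) (by omega), hs (4 * i) (by omega)] at e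
    have := hi _ (by omega) _ (by omega) e
    omega

end FSDiam
end

-- part BulkF
section
namespace FSDiam
open Equiv

variable {V T : Type*} [DecidableEq V] [Fintype V] [Fintype T] [DecidableEq T]
variable {Y : SimpleGraph V} {col : T → Bool} {κ : Bool}
variable {Ω : Finset V} {v : V} {d : V → ℕ} {par : V → V}

/-- `exists_mach` with `B = 2 * (8 * r)`, `Mach.slot`; a set `A` of exactly `k` vertices that
contains `insert l X` and avoids `insert g U` (`Finset.exists_subsuperset_card_eq`),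
`arrange_exact` for the colour `!κ`, `bulk`, `H.transport`. -/
theorem bulk_any (hc : Y.Connected) {v0 : V} (hJ : Jn Y v0) {k r : ℕ} (hbr : ¬ IBr Y k)
    (hn : 2 * k ≤ Fintype.card V) (hk : (Finset.univ.filter fun t => col t ≠ κ).card = k)
    (h1 : 1 ≤ r) (hr : 64 * r + 2 ≤ k) (c : V ≃ T) :
    ∃ (χ : Perm T) (A : Finset T),
      H Y col (200 * r * Fintype.card V + 2 * (Fintype.card V * Fintype.card V)) c χ ∧
      (∀ t, col t = κ → χ t = t) ∧ A.card = r ∧ ∀ a ∈ A, col a ≠ κ ∧ χ a ∉ A := by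
  obtain ⟨g, X, U, M0⟩ := exists_mach (B := 2 * (8 * r)) hc hJ hbr hn (by omega) (by omega)
  obtain ⟨l, X', U', hl, lX, lU, M⟩ := M0.slot
  have hne : ∀ t, col t ≠ κ ↔ col t = !κ := fun t => by cases col t <;> cases κ <;> simp
  have hk' : (Finset.univ.filter fun t => col t = !κ).card = k := by
    rw [← hk]; congr 1; ext t; simp [hne]
  have hsub : insert l X' ⊆ (insert g U')ᶜ := by
    intro x hx
    rw [Finset.mem_compl, Finset.mem_insert]
    rcases Finset.mem_insert.1 hx with rfl | hx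
    · rintro (h | h)
      · exact hl.ne h.symm
      · exact lU h
    · rintro (h | h)
      · exact M.gX (h ▸ hx)
      · exact Finset.disjoint_left.1 M.dis hx h
  have c1 : (insert l X').card ≤ k := by
    rw [Finset.card_insert_of_notMem lX, M.nX]; omega
  have c2 : k ≤ ((insert g U')ᶜ).card := by
    rw [Finset.card_compl, Finset.card_insert_of_notMem M.gU, M.nU]; omega
  obtain ⟨A0, a1, a2, a3⟩ := Finset.exists_subsuperset_card_eq hsub c1 c2
  obtain ⟨c', r1, r2, r3⟩ := arrange_exact (col := col) hc (!κ) c A0 (by omega)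
  have red : ∀ x ∈ insert g U', col (c' x) = κ := fun x hx => by
    by_contra hh
    have := a2 (r3 (by omega) x ((hne _).1 hh))
    exact Finset.mem_compl.1 this hx
  have blu : ∀ x ∈ insert l X', col (c' x) ≠ κ := fun x hx => (hne _).2 (r2 x (a1 hx))
  obtain ⟨χ, A, b1, b2⟩ := bulk (col := col) (κ := κ) (c := c') M hl lX lU
    (red g (Finset.mem_insert_self _ _)) (blu l (Finset.mem_insert_self _ _))
    (fun x hx => blu x (Finset.mem_insert_of_mem hx))
    (fun x hx => red x (Finset.mem_insert_of_mem hx))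
  exact ⟨χ, A, b1.transport r1, b2⟩

end FSDiam
end

-- part PureA
section
namespace FSDiam
open Equiv

variable {V T : Type*} [DecidableEq V] [Fintype V] [Fintype T] [DecidableEq T]
variable {Y : SimpleGraph V} {col : T → Bool} {κ : Bool}
variable {Ω : Finset V} {v : V} {d : V → ℕ} {par : V → V}

omit [DecidableEq V] [Fintype V] in
/-- `Equiv.Perm.cycle_induction_on` with supports inside the support of `σ`; or directly: choose a
representative `x0` of every orbit and put `ι (σ ^ i x0) = σ ^ (-i) x0`; then `ι σ ι = σ⁻¹` and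
`σ = ι * (ι * σ)`. -/
theorem two_inv (σ : Perm T) : ∃ ι1 ι2 : Perm T, σ = ι1 * ι2 ∧ ι1 * ι1 = 1 ∧ ι2 * ι2 = 1 ∧
    ∀ t, σ t = t → ι1 t = t ∧ ι2 t = t := by
  let s : Setoid T := ⟨σ.SameCycle, ⟨Perm.SameCycle.refl σ, Perm.SameCycle.symm, Perm.SameCycle.trans⟩⟩
  obtain ⟨r, hr, hr'⟩ : ∃ r : T → T, (∀ t, σ.SameCycle (r t) t) ∧
      ∀ t t', σ.SameCycle t t' → r t = r t' :=
    ⟨fun t => (Quotient.mk s t).out, fun t => Quotient.mk_out (s := s) t,
      fun t t' h => congrArg Quotient.out (Quotient.sound (s := s) h)⟩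
  choose i hi using hr
  have add : ∀ (a b : ℤ) (x : T), (σ ^ a) ((σ ^ b) x) = (σ ^ (a + b)) x := fun a b x => by
    rw [zpow_add, Perm.mul_apply]
  let f : T → T := fun t => (σ ^ (-i t)) (r t)
  have key : ∀ t (j : ℤ), (σ ^ j) (r t) = t → f t = (σ ^ (-j)) (r t) := by
    intro t j hj
    have h1 := congrArg (σ ^ (-i t - j) : Perm T) ((hi t).trans hj.symm)
    rw [add, add, show -i t - j + i t = -j by ring, show -i t - j + j = -i t by ring] at h1
    exact h1.symm
  have hf : ∀ t, r (f t) = r t := fun t =>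
    hr' _ _ (Perm.SameCycle.trans (Perm.SameCycle.symm ⟨-i t, rfl⟩) ⟨i t, hi t⟩)
  have inv : Function.Involutive f := fun t => by
    rw [key (f t) (-i t) (by rw [hf]), neg_neg, hf, hi]
  have h2 : ∀ t, σ (f (σ t)) = f t := fun t => by
    have e : r (σ t) = r t := hr' _ _ (Perm.SameCycle.symm ⟨1, by simp⟩)
    rw [key (σ t) (1 + i t) (by rw [e, ← add, hi, zpow_one]), e]
    have h3 := add 1 (-(1 + i t)) (r t)
    rw [zpow_one, show 1 + -(1 + i t) = -i t by ring] at h3
    exact h3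
  have h3 : ∀ t, σ t = t → f t = t := fun t ht => by
    have e : r t = t := by
      have h4 := congrArg (σ ^ (-i t) : Perm T) (hi t)
      rw [add, neg_add_cancel, zpow_zero, Perm.zpow_apply_eq_self_of_apply_eq_self ht] at h4
      exact h4
    rw [key t 0 (by simpa using e), e]
    simp
  refine ⟨inv.toPerm f, inv.toPerm f * σ, ?_, ?_, ?_, fun t ht => ⟨h3 t ht, ?_⟩⟩
  · ext t
    exact (inv _).symm
  · ext t
    exact inv t
  · ext t
    change f (σ (f (σ t))) = t
    rw [h2, inv]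
  · change f (σ t) = t
    rw [ht, h3 t ht]

end FSDiam
end

-- part PureB
section
namespace FSDiam
open Equiv

variable {V T : Type*} [DecidableEq V] [Fintype V] [Fintype T] [DecidableEq T]
variable {Y : SimpleGraph V} {col : T → Bool} {κ : Bool}
variable {Ω : Finset V} {v : V} {d : V → ℕ} {par : V → V}

omit [Fintype T] [DecidableEq T] in
/-- Conjugation of a permutation supported in `D` depends only on the values on `D`. -/
theorem pureb_conj {D : Finset T} {α u w : Perm T} (hα : ∀ t, t ∉ D → α t = t)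
    (h : ∀ x ∈ D, u x = w x) : u * α * u⁻¹ = w * α * w⁻¹ := by
  have hd : Perm.Disjoint (w⁻¹ * u) α := by
    intro t
    by_cases ht : t ∈ D
    · left
      rw [Perm.mul_apply, h t ht]
      simp
    · exact Or.inr (hα t ht)
  have hc := hd.commute.eq
  calc u * α * u⁻¹ = w * (w⁻¹ * u * α) * u⁻¹ := by group
    _ = w * (α * (w⁻¹ * u)) * u⁻¹ := by rw [hc]
    _ = w * α * w⁻¹ := by group

/-- The conjugating permutation. -/
theorem pureb_g {B A D : Finset T} {χ f : Perm T} (hA : ∀ a ∈ A, a ∈ B ∧ χ a ∈ B ∧ χ a ∉ A)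
    (hD : D ⊆ B) (hDA : D.card ≤ A.card) (hf : ∀ x ∈ D, f x ∈ B ∧ f x ∉ D) :
    ∃ g : Perm T, (∀ t, t ∉ B → g t = t) ∧ ∀ x ∈ D, g (f x) = χ (g x) := by
  obtain ⟨ρ, -, r2⟩ := ext_into (A := D) (A' := A) (B := B) hD (fun a ha => (hA a ha).1) hDA
  have hm : ∀ t ∈ D ∪ D.image f, t ∉ D → f⁻¹ t ∈ D := by
    intro t ht hn
    obtain ⟨x, hx, rfl⟩ := Finset.mem_image.1 ((Finset.mem_union.1 ht).resolve_left hn)
    simpa using hx
  obtain ⟨g, g1, g2⟩ := ext_perm (A := D ∪ D.image f) (B := B)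
    (fun t => if t ∈ D then ρ t else χ (ρ (f⁻¹ t))) (by
      intro s hs t ht hst
      have hs' : s ∈ D ∪ D.image f := Finset.mem_coe.1 hs
      have ht' : t ∈ D ∪ D.image f := Finset.mem_coe.1 ht
      by_cases h1 : s ∈ D <;> by_cases h2 : t ∈ D
      · simp only [h1, h2, if_true] at hst
        exact ρ.injective hst
      · simp only [h1, h2, if_true, if_false] at hst
        exact absurd (hst ▸ r2 s h1) (hA _ (r2 _ (hm t ht' h2))).2.2
      · simp only [h1, h2, if_true, if_false] at hst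
        exact absurd (hst.symm ▸ r2 t h2) (hA _ (r2 _ (hm s hs' h1))).2.2
      · simp only [h1, h2, if_false] at hst
        exact f⁻¹.injective (ρ.injective (χ.injective hst)))
    (by
      intro t ht
      rcases Finset.mem_union.1 ht with h | h
      · exact hD h
      · obtain ⟨x, hx, rfl⟩ := Finset.mem_image.1 h
        exact (hf x hx).1)
    (by
      intro t ht
      by_cases h1 : t ∈ D
      · simp only [h1, if_true]
        exact (hA _ (r2 t h1)).1
      · simp only [h1, if_false]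
        exact (hA _ (r2 _ (hm t ht h1))).2.1)
  refine ⟨g, g1, fun x hx => ?_⟩
  have e1 := g2 x (Finset.mem_union_left _ hx)
  have e2 := g2 (f x) (Finset.mem_union_right _ (Finset.mem_image_of_mem f hx))
  simp only [hx, if_true] at e1
  simp only [(hf x hx).2, if_false] at e2
  rw [e2, e1]
  simp

/-- Take `g` supported in the blue tokens with `g D ⊆ A` and `g (f x) = χ (g x)` on `D` (`ext_into`,
then `ext_perm` on `D ∪ f D`). With `α' = g α g⁻¹` (supported in `g D`) one has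
`g (f α f⁻¹ α⁻¹) g⁻¹ = χ α' χ⁻¹ α'⁻¹`. If `φ`, `γ` are reachable and act as `α'`, `g` on the blue
tokens, then `γ⁻¹ χ φ χ⁻¹ φ⁻¹ γ` is the permutation asked for: it fixes the red tokens. -/
theorem dbl {P : ℕ} {c : V ≃ T} (hP : Sy Y col κ P c (Finset.univ.filter fun t => col t ≠ κ))
    {χ : Perm T} (hχ : H Y col P c χ) (h0 : ∀ t, col t = κ → χ t = t) {A : Finset T}
    (hA : ∀ a ∈ A, col a ≠ κ ∧ χ a ∉ A) {D : Finset T} (hD : ∀ x ∈ D, col x ≠ κ)
    (hDA : D.card ≤ A.card) {α f : Perm T} (hα : ∀ t, t ∉ D → α t = t)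
    (hf : ∀ x ∈ D, col (f x) ≠ κ ∧ f x ∉ D) : H Y col (6 * P) c (f * α * f⁻¹ * α⁻¹) := by
  have mB : ∀ t, t ∈ (Finset.univ.filter fun t => col t ≠ κ) ↔ col t ≠ κ := fun t => by simp
  obtain ⟨g, g1, g2⟩ := pureb_g (B := Finset.univ.filter fun t => col t ≠ κ) (A := A) (D := D)
    (χ := χ) (f := f)
    (fun a ha => ⟨(mB _).2 (hA a ha).1, (mB _).2 (by rw [hχ.1]; exact (hA a ha).1), (hA a ha).2⟩)
    (fun x hx => (mB _).2 (hD x hx)) hDA (fun x hx => ⟨(mB _).2 (hf x hx).1, (hf x hx).2⟩)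
  have a1 : ∀ t, t ∉ (Finset.univ.filter fun t => col t ≠ κ) → (g * α * g⁻¹) t = t := by
    intro t ht
    have e : g⁻¹ t = t := by rw [Perm.inv_eq_iff_eq, g1 t ht]
    rw [Perm.mul_apply, Perm.mul_apply, e, hα t (fun h => ht ((mB _).2 (hD t h))), g1 t ht]
  obtain ⟨φ, p1, -, p3⟩ := hP (g * α * g⁻¹) a1
  obtain ⟨γ, q1, -, q3⟩ := hP g g1
  have key : g * f * α * (g * f)⁻¹ = χ * g * α * (χ * g)⁻¹ :=
    pureb_conj hα fun x hx => by rw [Perm.mul_apply, Perm.mul_apply, g2 x hx]
  have c1 : Perm.Disjoint ((g * α * g⁻¹)⁻¹ * φ) χ := by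
    intro t
    by_cases ht : col t = κ
    · exact Or.inr (h0 t ht)
    · left
      rw [Perm.mul_apply, p3 t ht]
      exact Perm.inv_eq_iff_eq.2 rfl
  have c2 : Perm.Disjoint (g⁻¹ * γ) (f * α * f⁻¹ * α⁻¹) := by
    intro t
    by_cases ht : col t = κ
    · right
      have tD : t ∉ D := fun h => hD t h ht
      have e1 : α⁻¹ t = t := by rw [Perm.inv_eq_iff_eq, hα t tD]
      have e2 : f⁻¹ t ∉ D := fun h => (hf _ h).1 (by simpa using ht)
      rw [Perm.mul_apply, e1, Perm.mul_apply, Perm.mul_apply, hα _ e2]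
      simp
    · left
      rw [Perm.mul_apply, q3 t ht]
      simp
  have d1 := c1.commute.eq
  have d2 := c2.commute.eq
  have e1 : χ * φ * χ⁻¹ * φ⁻¹ = g * (f * α * f⁻¹ * α⁻¹) * g⁻¹ := by
    calc χ * φ * χ⁻¹ * φ⁻¹
        = χ * (g * α * g⁻¹) * χ⁻¹ * (χ * ((g * α * g⁻¹)⁻¹ * φ)) * χ⁻¹ * φ⁻¹ := by group
      _ = χ * (g * α * g⁻¹) * χ⁻¹ * ((g * α * g⁻¹)⁻¹ * φ * χ) * χ⁻¹ * φ⁻¹ := by rw [d1]
      _ = χ * g * α * (χ * g)⁻¹ * (g * α * g⁻¹)⁻¹ := by group
      _ = g * f * α * (g * f)⁻¹ * (g * α * g⁻¹)⁻¹ := by rw [key]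
      _ = g * (f * α * f⁻¹ * α⁻¹) * g⁻¹ := by group
  have e2 : γ⁻¹ * (χ * φ * χ⁻¹ * φ⁻¹) * γ = f * α * f⁻¹ * α⁻¹ := by
    calc γ⁻¹ * (χ * φ * χ⁻¹ * φ⁻¹) * γ
        = (g⁻¹ * γ)⁻¹ * (f * α * f⁻¹ * α⁻¹ * (g⁻¹ * γ)) := by rw [e1]; group
      _ = (g⁻¹ * γ)⁻¹ * (g⁻¹ * γ * (f * α * f⁻¹ * α⁻¹)) := by rw [d2]
      _ = f * α * f⁻¹ * α⁻¹ := by group
  rw [← e2]
  exact ((q1.inv.mul (((hχ.mul p1).mul hχ.inv).mul p1.inv)).mul q1).mono (by omega)

end FSDiam
end

-- part PureC
section
namespace FSDiam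
open Equiv

variable {V T : Type*} [DecidableEq V] [Fintype V] [Fintype T] [DecidableEq T]
variable {Y : SimpleGraph V} {col : T → Bool} {κ : Bool}
variable {Ω : Finset V} {v : V} {d : V → ℕ} {par : V → V}

omit [DecidableEq V] [Fintype V] in
theorem purec_pairs {ι : Perm T} (hι : ι * ι = 1) {t : ℕ} (ht : 4 * t ≤ ι.support.card) :
    ∃ Φ : (Fin t ⊕ Fin t) × Bool → T, Function.Injective Φ ∧ ∀ s b, ι (Φ (s, b)) = Φ (s, !b) := by
  have hii : ∀ x, ι (ι x) = x := fun x => by rw [← Perm.mul_apply, hι, Perm.one_apply]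
  let e := Fintype.equivFin T
  let R : Finset T := Finset.univ.filter fun x => e x < e (ι x)
  have hR : ∀ x, x ∈ R ↔ e x < e (ι x) := fun x => by simp [R]
  have hsub : ι.support ⊆ R ∪ R.image ι := fun x hx => by
    have hne : e x ≠ e (ι x) := fun h => Perm.mem_support.1 hx (e.injective h).symm
    rcases lt_or_gt_of_ne hne with h | h
    · exact Finset.mem_union_left _ ((hR x).2 h)
    · exact Finset.mem_union_right _ (Finset.mem_image.2 ⟨ι x, (hR _).2 (by rw [hii]; exact h), hii x⟩)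
  have hc : ι.support.card ≤ R.card + R.card :=
    (Finset.card_le_card hsub).trans ((Finset.card_union_le _ _).trans
      (Nat.add_le_add_left Finset.card_image_le _))
  obtain ⟨r⟩ : Nonempty ((Fin t ⊕ Fin t) ↪ R) :=
    Function.Embedding.nonempty_of_card_le (by
      rw [Fintype.card_sum, Fintype.card_fin, Fintype.card_coe]; omega)
  have hr : ∀ s s', ι (r s : T) ≠ r s' := fun s s' h => by
    have h1 := (hR _).1 (r s).2
    have h2 := (hR _).1 (r s').2
    rw [← h, hii] at h2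
    exact lt_asymm h1 h2
  refine ⟨fun p => if p.2 then ι (r p.1) else r p.1, ?_, fun s b => ?_⟩
  · rintro ⟨s, b⟩ ⟨s', b'⟩ h
    cases b <;> cases b'
    · have h' : (r s : T) = r s' := h
      rw [r.injective (Subtype.ext h')]
    · exact absurd (show ι (r s' : T) = r s from Eq.symm h) (hr _ _)
    · exact absurd (show ι (r s : T) = r s' from h) (hr _ _)
    · have h' : ι (r s : T) = ι (r s') := h
      rw [r.injective (Subtype.ext (ι.injective h'))]
  · cases b
    · rfl
    · exact hii _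

omit [DecidableEq V] [Fintype V] [Fintype T] in
theorem purec_res {ι : Perm T} (hι : ι * ι = 1) (A : Finset T) (hA : ∀ x ∈ A, ι x ∈ A) :
    ∃ α β : Perm T, α⁻¹ = α ∧ β * β = 1 ∧ (∀ x ∈ A, α x = ι x ∧ β x = x) ∧
      ∀ x, x ∉ A → α x = x ∧ β x = ι x ∧ ι x ∉ A := by
  have hii : ∀ x, ι (ι x) = x := fun x => by rw [← Perm.mul_apply, hι, Perm.one_apply]
  have hA' : ∀ x, x ∉ A → ι x ∉ A := fun x hx h => hx (hii x ▸ hA _ h)
  have h1 : Function.Involutive fun x => if x ∈ A then ι x else x := fun x => by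
    by_cases hx : x ∈ A
    · simp only [if_pos hx, if_pos (hA x hx), hii]
    · simp only [if_neg hx]
  have h2 : Function.Involutive fun x => if x ∈ A then x else ι x := fun x => by
    by_cases hx : x ∈ A
    · simp only [if_pos hx]
    · simp only [if_neg hx, if_neg (hA' x hx), hii]
  exact ⟨h1.toPerm _, h2.toPerm _, rfl, Equiv.ext h2, fun x hx => ⟨if_pos hx, if_pos hx⟩,
    fun x hx => ⟨if_neg hx, if_neg hx, hA' x hx⟩⟩

omit [DecidableEq V] [Fintype V] in
/-- An involution with support of size `2 N` is a product of `N` disjoint exchanges. Take the set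
`R` of the moved `x` with `e x < e (ι x)` (`e = Fintype.equivFin T`), disjoint `R1, R2 ⊆ R` with `t`
elements each, `D = R1 ∪ ι R1`, `α = ι` on `D` and the identity elsewhere, `f` from `ext_perm` with
`f R1 = R2` and `f (ι x) = ι (f x)` on `R1`; `ι'` is `ι` outside `D ∪ f D`. -/
theorem inv_split {ι : Perm T} (hι : ι * ι = 1) {t : ℕ} (ht : 4 * t ≤ ι.support.card) :
    ∃ (D : Finset T) (α f ι' : Perm T), D.card = 2 * t ∧ (∀ x ∈ D, ι x ≠ x) ∧
      (∀ x, x ∉ D → α x = x) ∧ (∀ x ∈ D, ι (f x) ≠ f x ∧ f x ∉ D) ∧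
      ι = f * α * f⁻¹ * α⁻¹ * ι' ∧ ι' * ι' = 1 ∧ (∀ x, ι x = x → ι' x = x) ∧
      ι'.support.card + 4 * t = ι.support.card := by
  obtain ⟨Φ, hΦ, hιΦ⟩ := purec_pairs hι ht
  have hi1 : Function.Injective fun p : Fin t × Bool => Φ (Sum.inl p.1, p.2) := by
    rintro ⟨a, b⟩ ⟨a', b'⟩ h
    simpa using hΦ h
  have hi2 : Function.Injective fun p : Fin t × Bool => Φ (Sum.inr p.1, p.2) := by
    rintro ⟨a, b⟩ ⟨a', b'⟩ h
    simpa using hΦ h
  obtain ⟨f, hf⟩ := Perm.exists_extending_pair _ _ hi1 hi2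
  have hmv : ∀ p, ι (Φ p) ≠ Φ p := by
    rintro ⟨s, b⟩ h
    rw [hιΦ] at h
    simpa using hΦ h
  let D : Finset T := Finset.univ.image fun p : Fin t × Bool => Φ (Sum.inl p.1, p.2)
  let E : Finset T := Finset.univ.image Φ
  have hD : ∀ x, x ∈ D ↔ ∃ a b, Φ (Sum.inl a, b) = x := fun x => by
    simp only [D, Finset.mem_image, Finset.mem_univ, true_and, Prod.exists]
  have hE : ∀ x, x ∈ E ↔ ∃ s b, Φ (s, b) = x := fun x => by
    simp only [E, Finset.mem_image, Finset.mem_univ, true_and, Prod.exists]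
  have hf' : ∀ a b, f (Φ (Sum.inl a, b)) = Φ (Sum.inr a, b) := fun a b => hf (a, b)
  have hnD : ∀ a b, Φ (Sum.inr a, b) ∉ D := fun a b h => by
    obtain ⟨a', b', h'⟩ := (hD _).1 h
    simpa using hΦ h'
  obtain ⟨α, β0, hα, -, hα1, hα2⟩ := purec_res hι D fun x hx => by
    obtain ⟨a, b, rfl⟩ := (hD x).1 hx
    exact (hD _).2 ⟨a, !b, (hιΦ _ _).symm⟩
  obtain ⟨α0, β, -, hβ, hβ1, hβ2⟩ := purec_res hι E fun x hx => by
    obtain ⟨s, b, rfl⟩ := (hE x).1 hx
    exact (hE _).2 ⟨s, !b, (hιΦ _ _).symm⟩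
  have hff : ∀ y, f (f⁻¹ y) = y := f.apply_symm_apply
  have hff' : ∀ y, f⁻¹ (f y) = y := f.symm_apply_apply
  have hfix : ∀ y, (∀ a b, y ≠ Φ (Sum.inr a, b)) → f (α (f⁻¹ y)) = y := fun y hy => by
    rw [(hα2 _ fun h => ?_).1, hff]
    obtain ⟨a, b, h'⟩ := (hD _).1 h
    exact hy a b (by rw [← hf', h', hff])
  refine ⟨D, α, f, β, ?_, fun x hx => ?_, fun x hx => (hα2 x hx).1, fun x hx => ?_, ?_, hβ,
    fun x hx => ?_, ?_⟩
  · rw [Finset.card_image_of_injective _ hi1, Finset.card_univ, Fintype.card_prod,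
      Fintype.card_fin, Fintype.card_bool, mul_comm]
  · obtain ⟨a, b, rfl⟩ := (hD x).1 hx
    exact hmv _
  · obtain ⟨a, b, rfl⟩ := (hD x).1 hx
    rw [hf']
    exact ⟨hmv _, hnD a b⟩
  · ext x
    rw [hα]
    simp only [Perm.mul_apply]
    by_cases hx : x ∈ E
    · rw [(hβ1 x hx).2]
      obtain ⟨a | a, b, rfl⟩ := (hE x).1 hx
      · rw [(hα1 _ ((hD _).2 ⟨a, b, rfl⟩)).1, hιΦ, hfix _ fun a' b' h => by simpa using hΦ h]
      · rw [(hα2 _ (hnD a b)).1, hιΦ, ← hf' a b, hff',
          (hα1 _ ((hD _).2 ⟨a, b, rfl⟩)).1, hιΦ, hf']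
    · obtain ⟨-, h1, h2⟩ := hβ2 x hx
      have h3 : ι x ∉ D := fun h => by
        obtain ⟨a, b, h'⟩ := (hD _).1 h
        exact h2 ((hE _).2 ⟨_, _, h'⟩)
      rw [h1, (hα2 _ h3).1, hfix _ fun a b h => h2 ((hE _).2 ⟨_, _, h.symm⟩)]
  · by_cases h : x ∈ E
    · exact (hβ1 x h).2
    · rw [(hβ2 x h).2.1, hx]
  · have h1 : β.support = ι.support \ E := by
      ext x
      rw [Finset.mem_sdiff, Perm.mem_support, Perm.mem_support]
      by_cases h : x ∈ E
      · simp [(hβ1 x h).2, h]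
      · simp [(hβ2 x h).2.1, h]
    have h2 : E ⊆ ι.support := fun x hx => by
      obtain ⟨s, b, rfl⟩ := (hE x).1 hx
      exact Perm.mem_support.2 (hmv _)
    have h3 : E.card = 4 * t := by
      rw [Finset.card_image_of_injective _ hΦ, Finset.card_univ, Fintype.card_prod,
        Fintype.card_sum, Fintype.card_fin, Fintype.card_bool]
      omega
    rw [h1, ← h3]
    exact Finset.card_sdiff_add_card_eq_card h2

omit [DecidableEq V] [Fintype V] in
/-- The support of an even involution has `4 N` elements (induction on the support: split off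
`swap x (ι x)`; or `Equiv.Perm.sign_of_pow_two_eq_one`). -/
theorem inv_four {ι : Perm T} (hι : ι * ι = 1) (hs : Perm.sign ι = 1) : 4 ∣ ι.support.card := by
  have h1 : ∀ c ∈ ι.cycleType, c = 2 := Perm.pow_prime_eq_one_iff.1 (by rw [pow_two, hι])
  have h2 : ι.support.card = Multiset.card ι.cycleType * 2 := by
    rw [← Perm.sum_cycleType, Multiset.eq_replicate_card.2 h1]
    simp
  rw [Perm.sign_of_cycleType, Perm.sum_cycleType, h2,
    neg_one_pow_eq_one_iff_even (by decide)] at hs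
  obtain ⟨m, hm⟩ := hs
  omega

end FSDiam
end

-- part PureD
section
namespace FSDiam
open Equiv

variable {V T : Type*} [DecidableEq V] [Fintype V] [Fintype T] [DecidableEq T]
variable {Y : SimpleGraph V} {col : T → Bool} {κ : Bool}
variable {Ω : Finset V} {v : V} {d : V → ℕ} {par : V → V}

/-- Induction on `N`: with support `4 u`, take `t = min u (r / 2)` in `inv_split`, use `dbl`; the
commutator is even, so `ι'` is even. -/
theorem inv_even {P r : ℕ} {c : V ≃ T}
    (hP : Sy Y col κ P c (Finset.univ.filter fun t => col t ≠ κ))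
    {χ : Perm T} (hχ : H Y col P c χ) (h0 : ∀ t, col t = κ → χ t = t) {A : Finset T}
    (hA : ∀ a ∈ A, col a ≠ κ ∧ χ a ∉ A) (hr : A.card = r) (h2 : 2 ≤ r) (N : ℕ) :
    ∀ ι : Perm T, ι * ι = 1 → Perm.sign ι = 1 → (∀ t, col t = κ → ι t = t) →
      ι.support.card ≤ N * (4 * (r / 2)) → H Y col (N * (6 * P)) c ι := by
  induction N with
  | zero =>
    intro ι _ _ _ hc
    have h1 : ι = 1 := by
      rw [← Perm.support_eq_empty_iff, ← Finset.card_eq_zero]
      omega
    rw [h1]
    exact H.one _ c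
  | succ N ih =>
    intro ι hι hs hred hc
    obtain ⟨u, hu⟩ := inv_four hι hs
    obtain ⟨D, α, f, ι', hD, hD1, hα, hf, he, hι', hfix, hcard⟩ :=
      inv_split hι (t := min u (r / 2)) (by omega)
    have h1 : H Y col (6 * P) c (f * α * f⁻¹ * α⁻¹) :=
      dbl hP hχ h0 hA (fun x hx hk => hD1 x hx (hred x hk)) (by omega) hα
        fun x hx => ⟨fun hk => (hf x hx).1 (hred _ hk), (hf x hx).2⟩
    have hs' : Perm.sign ι' = 1 := by
      have h3 : Perm.sign (f * α * f⁻¹ * α⁻¹) = 1 := by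
        simp only [Perm.sign_mul, Perm.sign_inv]
        rw [mul_right_comm (Perm.sign f), Int.units_mul_self, one_mul, Int.units_mul_self]
      rw [he, Perm.sign_mul, h3, one_mul] at hs
      exact hs
    have h4 := ih ι' hι' hs' (fun t ht => hfix t (hred t ht)) (by
      rw [Nat.succ_mul] at hc
      omega)
    rw [he]
    exact (h1.mul h4).mono (le_of_eq (by ring))

omit [DecidableEq V] [Fintype V] [Fintype T] [DecidableEq T] in
theorem pured_sq {a b : Perm T} (ha : a * a = 1) (hb : b * b = 1) (h : a * b = b * a) :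
    a * b * (a * b) = 1 := by
  calc a * b * (a * b) = a * (b * a) * b := by simp only [mul_assoc]
    _ = a * a * (b * b) := by rw [← h]; simp only [mul_assoc]
    _ = 1 := by rw [ha, hb, mul_one]

omit [DecidableEq V] [Fintype V] in
theorem pured_odd {ι : Perm T} (hι : ι * ι = 1) (hs : Perm.sign ι = -1)
    (hred : ∀ t, col t = κ → ι t = t) :
    ∃ x y, x ≠ y ∧ col x ≠ κ ∧ col y ≠ κ ∧ ι * swap x y = swap x y * ι := by
  have h1 : ι ≠ 1 := by
    rintro rfl
    simp at hs
  obtain ⟨x, hx⟩ : ∃ x, ι x ≠ x := by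
    by_contra h
    push Not at h
    exact h1 (Equiv.ext h)
  have h2 : ι (ι x) = x := by rw [← Perm.mul_apply, hι, Perm.one_apply]
  refine ⟨x, ι x, hx.symm, fun hk => hx (hred x hk), fun hk => hx ?_, ?_⟩
  · rw [← h2, hred _ hk, hred _ hk]
  · rw [mul_swap_eq_swap_mul, h2, swap_comm]

omit [DecidableEq V] [Fintype V] [Fintype T] in
theorem pured_swap {x y : T} (hx : col x ≠ κ) (hy : col y ≠ κ) (t : T) (ht : col t = κ) :
    swap x y t = t :=
  swap_apply_of_ne_of_ne (fun h => hx (h ▸ ht)) (fun h => hy (h ▸ ht))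

/-- `two_inv`. If both involutions are even use `inv_even` with `N = μ / r + 1` (`r ≤ 4 (r / 2)`).
If both are odd write `ι1 = (ι1 τ1) τ1`, `ι2 = τ2 (τ2 ι2)` with `τ1 = swap x (ι1 x)`,
`τ2 = swap x' (ι2 x')`, and `τ1 τ2 = (τ1 τ) (τ τ2)` with `τ` an exchange of two further blue tokens
(`6 ≤ μ`): four even involutions. -/
theorem pure_all {P r μ : ℕ} {c : V ≃ T}
    (hP : Sy Y col κ P c (Finset.univ.filter fun t => col t ≠ κ))
    {χ : Perm T} (hχ : H Y col P c χ) (h0 : ∀ t, col t = κ → χ t = t) {A : Finset T}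
    (hA : ∀ a ∈ A, col a ≠ κ ∧ χ a ∉ A) (hr : A.card = r) (h2 : 2 ≤ r)
    (hμ : (Finset.univ.filter fun t => col t ≠ κ).card = μ) (h6 : 6 ≤ μ) {σ : Perm T}
    (hσ : ∀ t, col t = κ → σ t = t) (hs : Perm.sign σ = 1) :
    H Y col (100 * (μ / r + 1) * P) c σ := by
  have key : ∀ ι : Perm T, ι * ι = 1 → Perm.sign ι = 1 → (∀ t, col t = κ → ι t = t) →
      H Y col ((μ / r + 1) * (6 * P)) c ι := by
    intro ι h1 h3 h4
    refine inv_even hP hχ h0 hA hr h2 _ ι h1 h3 h4 ?_
    have h5 : ι.support.card ≤ μ := by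
      rw [← hμ]
      refine Finset.card_le_card fun t ht => Finset.mem_filter.2 ⟨Finset.mem_univ _, fun hk => ?_⟩
      exact Perm.mem_support.1 ht (h4 t hk)
    have h7 : μ ≤ (μ / r + 1) * r := by
      have := Nat.lt_div_mul_add (a := μ) (b := r) (by omega)
      rw [Nat.succ_mul]
      omega
    exact h5.trans (h7.trans (Nat.mul_le_mul_left _ (by omega)))
  obtain ⟨ι1, ι2, rfl, h1, h3, hfix⟩ := two_inv σ
  have r1 : ∀ t, col t = κ → ι1 t = t := fun t ht => (hfix t (hσ t ht)).1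
  have r2 : ∀ t, col t = κ → ι2 t = t := fun t ht => (hfix t (hσ t ht)).2
  rw [Perm.sign_mul] at hs
  rcases Int.units_eq_one_or (Perm.sign ι1) with s1 | s1
  · rw [s1, one_mul] at hs
    exact ((key ι1 h1 s1 r1).mul (key ι2 h3 hs r2)).mono (by nlinarith [Nat.zero_le ((μ / r + 1) * P)])
  · have s2 : Perm.sign ι2 = -1 := by
      rw [s1, neg_one_mul, neg_eq_iff_eq_neg] at hs
      exact hs
    obtain ⟨x, y, hxy, hx, hy, c1⟩ := pured_odd h1 s1 r1
    obtain ⟨x', y', hxy', hx', hy', c2⟩ := pured_odd h3 s2 r2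
    have h8 : 1 < ((Finset.univ.filter fun t => col t ≠ κ) \ {x, y, x', y'}).card := by
      have h9 := Finset.le_card_sdiff ({x, y, x', y'} : Finset T)
        (Finset.univ.filter fun t => col t ≠ κ)
      have h10 : ({x, y, x', y'} : Finset T).card ≤ 4 := Finset.card_le_four
      omega
    obtain ⟨a, ha, b, hb, hab⟩ := Finset.one_lt_card.1 h8
    simp only [Finset.mem_sdiff, Finset.mem_filter, Finset.mem_univ, true_and, Finset.mem_insert,
      Finset.mem_singleton, not_or] at ha hb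
    obtain ⟨ha, a1, a2, a3, a4⟩ := ha
    obtain ⟨hb, b1, b2, b3, b4⟩ := hb
    have c3 : swap x y * swap a b = swap a b * swap x y := by
      rw [mul_swap_eq_swap_mul, swap_apply_of_ne_of_ne a1 a2, swap_apply_of_ne_of_ne b1 b2]
    have c4 : swap x' y' * swap a b = swap a b * swap x' y' := by
      rw [mul_swap_eq_swap_mul, swap_apply_of_ne_of_ne a3 a4, swap_apply_of_ne_of_ne b3 b4]
    have k1 := key (ι1 * swap x y) (pured_sq h1 (swap_mul_self _ _) c1)
      (by rw [Perm.sign_mul, s1, Perm.sign_swap hxy]; simp)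
      (fun t ht => by rw [Perm.mul_apply, pured_swap hx hy t ht, r1 t ht])
    have k2 := key (swap x y * swap a b) (pured_sq (swap_mul_self _ _) (swap_mul_self _ _) c3)
      (by rw [Perm.sign_mul, Perm.sign_swap hab, Perm.sign_swap hxy]; simp)
      (fun t ht => by rw [Perm.mul_apply, pured_swap ha hb t ht, pured_swap hx hy t ht])
    have k3 := key (swap a b * swap x' y') (pured_sq (swap_mul_self _ _) (swap_mul_self _ _) c4.symm)
      (by rw [Perm.sign_mul, Perm.sign_swap hab, Perm.sign_swap hxy']; simp)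
      (fun t ht => by rw [Perm.mul_apply, pured_swap hx' hy' t ht, pured_swap ha hb t ht])
    have k4 := key (swap x' y' * ι2) (pured_sq (swap_mul_self _ _) h3 c2.symm)
      (by rw [Perm.sign_mul, s2, Perm.sign_swap hxy']; simp)
      (fun t ht => by rw [Perm.mul_apply, r2 t ht, pured_swap hx' hy' t ht])
    have e : ι1 * ι2 = ι1 * swap x y * (swap x y * swap a b) * (swap a b * swap x' y') *
        (swap x' y' * ι2) := by
      simp only [mul_assoc, swap_mul_self_mul]
    rw [e]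
    exact (((k1.mul k2).mul k3).mul k4).mono (by nlinarith [Nat.zero_le ((μ / r + 1) * P)])

end FSDiam
end

-- part FinN
section
namespace FSDiam
open Equiv

variable {V T : Type*} [DecidableEq V] [Fintype V] [Fintype T] [DecidableEq T]
variable {Y : SimpleGraph V} {col : T → Bool} {κ : Bool}
variable {Ω : Finset V} {v : V} {d : V → ℕ} {par : V → V}

/-- The total cost. -/
def ct (n k m : ℕ) : ℕ :=
  4 * (n * n) + cs n k m k (k / 600) +
    100 * (k / (k / 600) + 1) * (cs n k k m (k / 600) + (200 * (k / 600) * n + 2 * (n * n)))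

theorem finn_div {k s μ c : ℕ} (h : k ≤ c * s) : k * (μ / s) ≤ c * μ :=
  calc k * (μ / s) ≤ c * s * (μ / s) := Nat.mul_le_mul_right _ h
    _ = c * (μ / s * s) := by ring
    _ ≤ c * μ := Nat.mul_le_mul_left _ (Nat.div_mul_le_self _ _)

theorem finn_cw {n k : ℕ} (hk : 2 ≤ k) (hn : k ≤ n) :
    cw n k ≤ k * (10 ^ 10 * (n + 2 * (k * Nat.log 2 n))) := by
  have h1 : Nat.log 2 k ≤ Nat.log 2 n := Nat.log_mono_right hn
  have h2 : 0 < Nat.log 2 k := Nat.log_pos (by norm_num) hk
  have h3 : k * (Nat.log 2 k + 1) ≤ k * (2 * Nat.log 2 n) := Nat.mul_le_mul_left _ (by omega)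
  unfold cw
  calc _ ≤ 10 ^ 10 * k * (n + k * (2 * Nat.log 2 n)) := by gcongr
    _ = _ := by ring

theorem finn_one {n k L A B W : ℕ} (hn : k ≤ n) (hA : k * A ≤ 2701 * n) (hB : k * B ≤ 900 * n)
    (hW : W ≤ k * (10 ^ 10 * (n + 2 * (k * L)))) :
    k * (A * (16 * B * (W + n * (k + k)) + 150 * (n * n)) + 6 * (n * n)) ≤
      10 ^ 19 * (n ^ 3 + k * n ^ 2 * L) := by
  have h1 : B * (W + n * (k + k)) ≤ 900 * n * (10 ^ 10 * (n + 2 * (k * L)) + 2 * n) :=
    calc _ ≤ B * (k * (10 ^ 10 * (n + 2 * (k * L))) + n * (k + k)) := by gcongr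
      _ = k * B * (10 ^ 10 * (n + 2 * (k * L)) + 2 * n) := by ring
      _ ≤ _ := by gcongr
  calc _ = k * A * (16 * (B * (W + n * (k + k))) + 150 * (n * n)) + k * (6 * (n * n)) := by ring
    _ ≤ 2701 * n * (16 * (900 * n * (10 ^ 10 * (n + 2 * (k * L)) + 2 * n)) + 150 * (n * n)) +
        n * (6 * (n * n)) := by gcongr
    _ = (2701 * (14400 * (10 ^ 10 + 2) + 150) + 6) * n ^ 3 +
        2701 * 14400 * 10 ^ 10 * 2 * (k * n ^ 2 * L) := by ring
    _ ≤ 10 ^ 19 * n ^ 3 + 10 ^ 19 * (k * n ^ 2 * L) :=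
        Nat.add_le_add (Nat.mul_le_mul_right _ (by norm_num)) (Nat.mul_le_mul_right _ (by norm_num))
    _ = _ := by ring

theorem finn_two {n k L A B W : ℕ} (hn : k ≤ n) (hA : A ≤ 2701) (hB : B ≤ 900)
    (hW : W ≤ k * (10 ^ 10 * (n + 2 * (k * L)))) :
    k * (A * (16 * B * (W + n * n) + 150 * (n * n)) + 6 * (n * n)) ≤
      10 ^ 19 * (n ^ 3 + k * n ^ 2 * L) := by
  have h1 : k * W ≤ 10 ^ 10 * (n ^ 3 + 2 * (k * n ^ 2 * L)) :=
    calc _ ≤ k * (k * (10 ^ 10 * (n + 2 * (k * L)))) := by gcongr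
      _ = k * k * (10 ^ 10 * (n + 2 * (k * L))) := by ring
      _ ≤ n * n * (10 ^ 10 * (n + 2 * (k * L))) := by gcongr
      _ = _ := by ring
  have h2 : k * (n * n) ≤ n ^ 3 :=
    calc _ ≤ n * (n * n) := by gcongr
      _ = _ := by ring
  calc _ = A * (16 * B * (k * W + k * (n * n)) + 150 * (k * (n * n))) + 6 * (k * (n * n)) := by
        ring
    _ ≤ 2701 * (16 * 900 * (10 ^ 10 * (n ^ 3 + 2 * (k * n ^ 2 * L)) + n ^ 3) + 150 * n ^ 3) +
        6 * n ^ 3 := by gcongr
    _ = (2701 * (14400 * (10 ^ 10 + 1) + 150) + 6) * n ^ 3 +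
        2701 * 14400 * 10 ^ 10 * 2 * (k * n ^ 2 * L) := by ring
    _ ≤ 10 ^ 19 * n ^ 3 + 10 ^ 19 * (k * n ^ 2 * L) :=
        Nat.add_le_add (Nat.mul_le_mul_right _ (by norm_num)) (Nat.mul_le_mul_right _ (by norm_num))
    _ = _ := by ring

/-- With `s = k / 600`, `ℓ = Nat.log 2 n ≥ Nat.log 2 k`: `k ≤ 900 s`, `k ≤ 2700 (s / 2)`, so
`k (m / (s / 2) + 1) ≤ 2701 n`, `k (m / s) ≤ 900 n`, `k / s ≤ 900`, `k / (s / 2) ≤ 2700`. Then
`k * cs n k m k s ≤ 10 ^ 19 (n ^ 3 + k n ^ 2 ℓ)` and `cs n k k m s ≤ 10 ^ 19 (n ^ 2 + n ^ 2 ℓ)`; use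
`k ≤ n`. Prove it in small steps (`Nat.mul_le_mul`, `Nat.div_mul_le_self`, `calc`). -/
theorem fin_num {n k m : ℕ} (hk : 1200 ≤ k) (hn : k + m = n) (hkm : k ≤ m) :
    k * ct n k m ≤ 10 ^ 26 * (n ^ 3 + k * n ^ 2 * Nat.log 2 n) := by
  have hkn : k ≤ n := by omega
  have hs : k ≤ 900 * (k / 600) := by omega
  have hh : k ≤ 2700 * (k / 600 / 2) := by omega
  have hsn : k / 600 ≤ n := by omega
  have hW := finn_cw (n := n) (k := k) (by omega) hkn
  have hB2 : k / (k / 600) ≤ 900 := Nat.div_le_of_le_mul (by rw [mul_comm]; exact hs)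
  have hA2 : k / (k / 600 / 2) ≤ 2700 := Nat.div_le_of_le_mul (by rw [mul_comm]; exact hh)
  have h1 : k * cs n k m k (k / 600) ≤ 10 ^ 19 * (n ^ 3 + k * n ^ 2 * Nat.log 2 n) := by
    refine finn_one hkn ?_ ?_ hW
    · have := finn_div (μ := m) hh
      rw [mul_add]; omega
    · have := finn_div (μ := m) hs
      omega
  have h2 : k * cs n k k m (k / 600) ≤ 10 ^ 19 * (n ^ 3 + k * n ^ 2 * Nat.log 2 n) := by
    unfold cs
    rw [add_comm m k, hn]
    exact finn_two hkn (by omega) hB2 hW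
  have h3 : k * (n * n) ≤ n ^ 3 :=
    calc _ ≤ n * (n * n) := by gcongr
      _ = _ := by ring
  have h4 : k * (k / 600 * n) ≤ n ^ 3 := le_trans (by gcongr) h3
  unfold ct
  generalize cs n k m k (k / 600) = c1 at *
  generalize cs n k k m (k / 600) = c2 at *
  generalize k / (k / 600) = B at *
  generalize k / 600 = s at *
  generalize k * n ^ 2 * Nat.log 2 n = Z at *
  calc _ = 4 * (k * (n * n)) + k * c1 +
        100 * (B + 1) * (k * c2 + (200 * (k * (s * n)) + 2 * (k * (n * n)))) := by ring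
    _ ≤ 4 * n ^ 3 + 10 ^ 19 * (n ^ 3 + Z) +
        100 * (900 + 1) * (10 ^ 19 * (n ^ 3 + Z) + (200 * n ^ 3 + 2 * n ^ 3)) := by gcongr
    _ = (4 + 10 ^ 19 + 90100 * (10 ^ 19 + 202)) * n ^ 3 + (10 ^ 19 + 90100 * 10 ^ 19) * Z := by
        ring
    _ ≤ 10 ^ 26 * n ^ 3 + 10 ^ 26 * Z :=
        Nat.add_le_add (Nat.mul_le_mul_right _ (by norm_num)) (Nat.mul_le_mul_right _ (by norm_num))
    _ = _ := by ring

end FSDiam
end

-- part FinU
section
namespace FSDiam
open Equiv

variable {V T : Type*} [DecidableEq V] [Fintype V] [Fintype T] [DecidableEq T]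
variable {Y : SimpleGraph V} {col : T → Bool} {κ : Bool}
variable {Ω : Finset V} {v : V} {d : V → ℕ} {par : V → V}

/-- As in `upper`: `arrange_exact` to a state `c` with the colour pattern of `c'`; for the colour
preserving `ψ = c.symm.trans c'` multiply by `ω` from `odd_and_triv` if it is odd. For even `ψ`:
`sort_one` for `κ` (`β = k`, `μ = m`) applied to the permutation that is `ψ` on the tokens of colour
`≠ κ` and the identity elsewhere gives an even `φ`; `φ⁻¹ * ψ` is even and fixes these tokens.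
`pure_all` for the colour `!κ` with `r = s = k / 600`, `μ = k`, `sort_one` for `!κ` (`β = m`) and
`bulk_any` for `!κ`. -/
theorem upper2 (κ : Bool) (hc : Y.Connected) (hnb : ¬ Y.Colorable 2) (hJ : Jn Y v) {k m : ℕ}
    (hbr : ¬ IBr Y k) (hk : (Finset.univ.filter fun t => col t = κ).card = k)
    (hm : (Finset.univ.filter fun t => col t ≠ κ).card = m) (h3k : 1200 ≤ k) (hkm : k ≤ m)
    (c0 c' : V ≃ T) : Rn Y col (ct (Fintype.card V) k m) c0 c' := by
  obtain ⟨c, r1, r2, r3⟩ := arrange_exact (col := col) hc κ c0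
    (Finset.univ.filter fun x => col (c' x) = κ) (card_col κ c').le
  have hn : k + m = Fintype.card V := by
    rw [← hk, ← hm, Finset.card_filter_add_card_filter_not, Fintype.card_congr c0]; rfl
  have hm' : (Finset.univ.filter fun t => col t = !κ).card = m := by
    rw [← hm]
    exact congrArg Finset.card (by ext t; cases κ <;> simp)
  have hk' : (Finset.univ.filter fun t => col t ≠ !κ).card = k := by
    rw [← hk]
    exact congrArg Finset.card (by ext t; cases κ <;> simp)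
  have S1 := sort_one (col := col) (κ := κ) (s := k / 600) hc hJ hbr (by omega) hk hm le_rfl
    (by omega) (by omega) (by omega) c
  have S2 := sort_one (col := col) (κ := !κ) (s := k / 600) hc hJ hbr (by omega) hm' hk' hkm
    (by omega) (by omega) (by omega) c
  obtain ⟨χ, A, b1, b2, b3, b4⟩ := bulk_any (col := col) (κ := !κ) (r := k / 600) hc hJ hbr
    (by omega) hk' (by omega) (by omega) c
  have even : ∀ ψ : Perm T, (∀ t, col (ψ t) = col t) → Perm.sign ψ = 1 →
      H Y col (cs (Fintype.card V) k m k (k / 600) + 100 * (k / (k / 600) + 1) *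
        (cs (Fintype.card V) k k m (k / 600) + (200 * (k / 600) * Fintype.card V +
          2 * (Fintype.card V * Fintype.card V)))) c ψ := by
    intro ψ hψ hs
    have hp : ∀ x, col (ψ x) ≠ κ ↔ col x ≠ κ := fun x => by rw [hψ]
    obtain ⟨φ, g1, g2, g3⟩ := S1
      (Perm.ofSubtype (ψ.subtypePerm (p := fun x => col x ≠ κ) hp)) fun t ht =>
      Perm.ofSubtype_apply_of_not_mem (p := fun x => col x ≠ κ) _ (by simpa using ht)
    have f := pure_all (κ := !κ) (S2.mono (Nat.le_add_right _ _)) (b1.mono (Nat.le_add_left _ _))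
      b2 b4 b3 (by omega) hk' (by omega) (σ := φ⁻¹ * ψ) (fun t ht => by
        have ht' : col t ≠ κ := by rw [ht]; cases κ <;> simp
        rw [Perm.mul_apply, Perm.inv_eq_iff_eq, g3 t ht',
          Perm.ofSubtype_subtypePerm_of_mem (p := fun x => col x ≠ κ) hp ht'])
      (by simp [g2, hs])
    have := g1.mul f
    rwa [mul_inv_cancel_left] at this
  obtain ⟨ω, -, w1, w2, -⟩ := odd_and_triv κ hc hnb hk hm (by omega) hkm c
  have hψ : ∀ t, col ((c.symm.trans c') t) = col t := fun t => by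
    obtain ⟨z, rfl⟩ := c.surjective t
    have g1 : col (c' z) = κ → col (c z) = κ := fun hh => r2 z (by simpa using hh)
    have g2 : col (c z) = κ → col (c' z) = κ := fun hh => by
      simpa using r3 (card_col κ c') z hh
    simp only [trans_apply, symm_apply_apply]
    revert g1 g2
    cases col (c z) <;> cases col (c' z) <;> cases κ <;> simp
  have e : c.trans (c.symm.trans c') = c' := by ext z; simp
  generalize (c.symm.trans c' : Perm T) = ψ at hψ e
  rw [← e, ct]
  rcases Int.units_eq_one_or (Perm.sign ψ) with hs | hs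
  · exact (r1.trans (even ψ hψ hs).2).mono (by omega)
  · have := w1.mul (even (ω⁻¹ * ψ) (fun t => by rw [Perm.mul_apply, w1.inv.1, hψ])
      (by simp [w2, hs]))
    rw [mul_inv_cancel_left] at this
    exact (r1.trans this.2).mono (by omega)

theorem maxDiam_le2 {k n : ℕ} (hk : 3 ≤ k) (hn : 2 * k ≤ n) :
    k * maxDiam k n ≤ ((10 ^ 26 : ℕ) : ℕ∞) *
      ((n : ℕ∞) ^ 3 + k * (n : ℕ∞) ^ 2 * (Nat.log 2 n : ℕ)) := by
  by_cases h : 1200 ≤ k
  · have h1 : maxDiam k n ≤ (ct n k (n - k) : ℕ) := by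
      refine iSup₂_le fun Y hY => SimpleGraph.ediam_le_of_edist_le fun σ τ => ?_
      obtain ⟨h1, h2, h3, h4⟩ := hY
      obtain ⟨v, hv⟩ := exists_Jn h1 h2 h4
      obtain ⟨l, hl, h⟩ := upper2 (col := Sum.isRight) false h1 h2 hv
        (fun hh => h3 (hh.hasBridge h1 hk)) (card_left k (n - k))
        (by simpa using card_right k (n - k)) h (by omega) σ.symm τ.symm
      refine (edist_le_of_ex h).trans ?_
      rw [Fintype.card_fin] at hl
      exact_mod_cast hl
    refine (mul_le_mul_right h1 _).trans ?_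
    exact_mod_cast fin_num (n := n) (m := n - k) h (by omega) (by omega)
  · refine (mul_le_mul_right (maxDiam_le hk hn) _).trans ?_
    have : k * (12000 * n ^ 3) ≤ 10 ^ 26 * (n ^ 3 + k * n ^ 2 * Nat.log 2 n) := by
      have h1 : k * (12000 * n ^ 3) ≤ 1200 * (12000 * n ^ 3) := Nat.mul_le_mul_right _ (by omega)
      omega
    exact_mod_cast this

end FSDiam
end

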